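import Pool.Agent.W_448pn_h63.PoB
import Pool.Agent.W_448so_h61.CF
import Pool.Agent.W_448so_h39.FH

/-!
# The (3,1) value of the parts and the net values of a pendant, case B, window `j - 1`
(MP_448cb3_co, G2)
-/

set_option autoImplicit false

namespace Pool.Agent.GaussPoset.Win.Pn

set_option linter.unusedSectionVars false

open Finset W4 Wd
open Pool.Agent.GaussPoset.Win.SO (con PN on mem_PN vp F5 mem_F5)
open Pool.Agent.GaussPoset.Win.I2 (bb VV)

universe u

variable {P : Type u} [Fintype P] [PartialOrder P] [DecidableEq P] {r j i : ℕ}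
  {psi : P → P} {C : Finset P} {p w : P}

section nj

variable (h : NJ P r j) (hij : i + 1 = j) (hi1 : 1 ≤ i)
include h hij hi1

/-- without a flip the pendants are matched -/
theorem nj_mtc (hM : Mat P i ∅ psi) (t : Tops P) (hF : F5 i (SS i t) = ∅) :
    MtcP i (SS i t) psi := by
  classical
  have H := h.g.H
  have g : GoodTo P r (i + 1) := by rw [hij]; exact h.g
  have F := nj_fr h hij hi1 hM t
  obtain ⟨n1, n2, n3⟩ := nj_one h hij hi1 t
  unfold Bal at n3
  constructor
  by_cases hp : ∃ p ∈ SS i t, p ∈ PD P i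
  · right
    obtain ⟨p, hpC, hpD⟩ := hp
    have c1 : 0 < ((SS i t).filter (· ∈ PD P i)).card :=
      card_pos.2 ⟨p, mem_filter.2 ⟨hpC, hpD⟩⟩
    obtain ⟨q, hq⟩ := card_pos.1 (show 0 < ((SS i t).filter (· ∈ PU P i)).card by omega)
    obtain ⟨hqC, hqU⟩ := mem_filter.1 hq
    have hpn : p ∈ PN i (SS i t) := mem_PN.2 ⟨hpC, Or.inl hpD⟩
    have hqn : q ∈ PN i (SS i t) := mem_PN.2 ⟨hqC, Or.inr hqU⟩
    have hne : p ≠ q := by
      rintro rfl
      have := (mem_PD.1 hpD).1
      have := (mem_PU.1 hqU).1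
      omega
    have hmt := nj_meet h hij hi1 hM t p hpn q hqn hne
    have s1 := (pn_two F hpn).1
    have s2 := (pn_two F hqn).1
    have hc2 : (sit i p ∩ sit i q).card = 2 := by
      have h1 : (sit i p ∩ sit i q).card ≠ 0 := by
        rw [card_ne_zero, ← not_disjoint_iff_nonempty_inter]
        exact hmt
      have h2 : (sit i p ∩ sit i q).card ≠ 1 := by
        intro h2
        have : (p, q) ∈ F5 i (SS i t) := mem_F5.2 ⟨hpC, hpD, hqC, hqU, h2⟩
        rw [hF] at this
        exact notMem_empty _ this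
      have h3 := card_le_card (inter_subset_left (s₁ := sit i p) (s₂ := sit i q))
      omega
    have e1 : sit i p ∩ sit i q = sit i p :=
      eq_of_subset_of_card_le inter_subset_left (by omega)
    have e2 : sit i p ∩ sit i q = sit i q :=
      eq_of_subset_of_card_le inter_subset_right (by omega)
    obtain ⟨y, -, -, hy⟩ := PN_cases F.E hpn
    obtain ⟨u, -, -, hu⟩ := PN_cases F.E hqn
    rcases hy with ⟨a1, a2, a3, a4, a5⟩ | ⟨a1, a2, a3, a4, a5⟩
    · rcases hu with ⟨b1, b2, b3, b4, b5⟩ | ⟨b1, b2, b3, b4, b5⟩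
      · have := (mem_PU.1 hqU).1
        omega
      · have e3 : dc u = uc y := by
          rw [← sit_PUs H b5 b3, ← sit_PDs H a5 a3, ← e2, e1]
        refine ⟨p, q, y, u, hpC, hqC, hpD, hqU, a3, b3, e3, a4, ?_, ?_, ?_⟩
        · intro z hz hzD
          rw [card_le_one] at n1
          exact n1 z (mem_filter.2 ⟨hz, hzD⟩) p (mem_filter.2 ⟨hpC, hpD⟩)
        · intro z hz hzU
          rw [card_le_one] at n2
          exact n2 z (mem_filter.2 ⟨hz, hzU⟩) q (mem_filter.2 ⟨hqC, hqU⟩)
        · exact (psi_eq_of g hM a2 a4 e3).symm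
    · have := (mem_PD.1 hpD).1
      omega
  · left
    intro z hz
    refine ⟨fun hD => hp ⟨z, hz, hD⟩, fun hU => ?_⟩
    have c1 : 0 < ((SS i t).filter (· ∈ PU P i)).card :=
      card_pos.2 ⟨z, mem_filter.2 ⟨hz, hU⟩⟩
    obtain ⟨q, hq⟩ := card_pos.1 (show 0 < ((SS i t).filter (· ∈ PD P i)).card by omega)
    obtain ⟨hqC, hqD⟩ := mem_filter.1 hq
    exact hp ⟨q, hqC, hqD⟩

/-- THE (3,1) VALUE of every part without a flip (twins allowed) -/
theorem nj_al3 (t : Tops P) (hF : F5 i (SS i t) = ∅) :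
    I2.al 3 (st i (SS i t)).card (ZS i (SS i t)) =
      (ZU i (SS i t)).card - (ZL i (SS i t)).card + (FL i (SS i t)).card -
        (FU' i (SS i t)).card := by
  obtain ⟨psi, hM⟩ := good_mat h.g.H (h.g.good i (by omega))
  have g : GoodTo P r (i + 1) := by rw [hij]; exact h.g
  exact so_al3_val h.g.H hi1 g.hr hM (fun z hz => so_up3 h.g.H (nll_of g hi1) hz)
    (fun z hz => so_dn3 h.g.H (nlu_of g) hz) (h.part (by omega) (by omega) t)
    (card_pos.2 (nj_st h hij t)) (nj_mtc h hij hi1 hM t hF)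

/-- flips need exactly three sites -/
theorem nj_F5_three (t : Tops P) (h3 : (st i (SS i t)).card ≠ 3) : F5 i (SS i t) = ∅ := by
  classical
  obtain ⟨psi, hM⟩ := good_mat h.g.H (h.g.good i (by omega))
  have F := nj_fr h hij hi1 hM t
  have H := h.g.H
  rw [eq_empty_iff_forall_notMem]
  intro q hq
  obtain ⟨a1, a2, a3, a4, a5⟩ := mem_F5.1 hq
  have hpn : q.1 ∈ PN i (SS i t) := mem_PN.2 ⟨a1, Or.inl a2⟩
  have hqn : q.2 ∈ PN i (SS i t) := mem_PN.2 ⟨a3, Or.inr a4⟩
  have hne : q.1 ≠ q.2 := by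
    intro h
    rw [h] at a2
    have := (mem_PD.1 a2).1
    have := (mem_PU.1 a4).1
    omega
  rcases Nat.lt_or_ge 3 (st i (SS i t)).card with h4 | h4
  · have h5 := nj_ov_empty h hij hi1 hM t h4 (w := q.1)
    have h6 : q.2 ∈ Ov i (SS i t) q.1 := mem_Ov.2 ⟨hqn, hpn, hne, a5⟩
    rw [h5] at h6
    exact notMem_empty _ h6
  · have s1 := (pn_two F hpn).1
    have s2 := (pn_two F hqn).1
    have h5 : sit i q.1 ∪ sit i q.2 ⊆ st i (SS i t) :=
      union_subset (SO.sit_part H F.E.hC a1) (SO.sit_part H F.E.hC a3)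
    have h6 := card_le_card h5
    have h7 := card_union_add_card_inter (sit i q.1) (sit i q.2)
    omega

lemma nj_Ov_F5 (hp : p ∈ PD P i) (hF : F5 i (SS i (topOf p)) = ∅) :
    Ov i (SS i (topOf p)) p = ∅ := by
  rw [eq_empty_iff_forall_notMem]
  intro q hq
  obtain ⟨hq1, hp1, hne, hc⟩ := mem_Ov.1 hq
  obtain ⟨m, k⟩ := mem_PN.1 hq1
  rcases k with k | k
  · obtain ⟨n1, -, -⟩ := nj_one h hij hi1 (topOf p)
    rw [card_le_one] at n1
    exact hne (n1 p (mem_filter.2 ⟨(mem_PN.1 hp1).1, hp⟩) q (mem_filter.2 ⟨m, k⟩))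
  · have : (p, q) ∈ F5 i (SS i (topOf p)) := mem_F5.2 ⟨(mem_PN.1 hp1).1, hp, m, k, hc⟩
    rw [hF] at this
    exact notMem_empty _ this

open Classical in
/-- THE NET VALUE `r5 - A3` of a pendant in a part without a flip -/
theorem nj_net5 (hp : p ∈ PD P i) (hF : F5 i (SS i (topOf p)) = ∅) :
    rho i (topOf : P → Tops P) 5 p -
      I2.al 3 (st i (SS i (topOf p))).card (ZS i (SS i (topOf p))) =
    (((ZL i (SS i (topOf p))).filter (fun z => ¬ Disjoint (sit i z) (sit i p))).card : ℤ) -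
      ((ZU i (SS i (topOf p))).filter (fun z => ¬ Disjoint (sit i z) (sit i p))).card -
        (FL i (SS i (topOf p))).card + (FU' i (SS i (topOf p))).card := by
  have H := h.g.H
  rw [nj_rho5_PD h hij hi1 hp, nj_Ov_F5 h hij hi1 hp hF, sum_empty, nj_al3 h hij hi1 _ hF]
  set S := SS i (topOf p) with hS
  have hdis : Disjoint ((ZL i S).filter (fun z => Disjoint (sit i z) (sit i p)))
      ((ZU i S).filter (fun z => Disjoint (sit i z) (sit i p))) := by
    rw [disjoint_left]
    intro z hz hz'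
    have := (mem_ZL.1 (mem_filter.1 hz).1).2.1
    have := (mem_ZU.1 (mem_filter.1 hz').1).2.1
    omega
  have c1 : ∀ z ∈ (ZL i S).filter (fun z => Disjoint (sit i z) (sit i p)), chg i S z = -1 :=
    fun z hz => chg_ZL (mem_filter.1 hz).1 H
  have c2 : ∀ z ∈ (ZU i S).filter (fun z => Disjoint (sit i z) (sit i p)), chg i S z = 1 := by
    intro z hz
    unfold chg
    rw [if_pos (mem_union_left _ (mem_filter.1 hz).1)]
  rw [filter_union, sum_union hdis, Finset.sum_congr rfl c1, Finset.sum_congr rfl c2,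
    Finset.sum_const, Finset.sum_const]
  have e1 := card_filter_add_card_filter_not (s := ZL i S)
    (fun z => Disjoint (sit i z) (sit i p))
  have e2 := card_filter_add_card_filter_not (s := ZU i S)
    (fun z => Disjoint (sit i z) (sit i p))
  simp only [nsmul_eq_mul, mul_neg, mul_one]
  push_cast [← e1, ← e2]
  ring

open Classical in
/-- THE NET VALUE `r7 - B5` of a pendant -/
theorem nj_net7 (hp : p ∈ PD P i) : rho i (topOf : P → Tops P) 7 p -
      I2.be 5 (st i (SS i (topOf p))).card (ZS i (SS i (topOf p))) =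
    (((Tws i (SS i (topOf p))).filter (fun q => ¬ Disjoint (sit i q.1) (sit i p))).card : ℤ) +
      (F5 i (SS i (topOf p))).card := by
  rw [nj_rho7_PD h hij hi1 hp, nj_be5 h hij hi1]
  have e1 := card_filter_add_card_filter_not (s := Tws i (SS i (topOf p)))
    (fun q => Disjoint (sit i q.1) (sit i p))
  push_cast [← e1]
  ring

end nj

end Pool.Agent.GaussPoset.Win.Pn
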