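import Pool.Agent.W_448pn_h63.QbC
import Pool.Agent.W_448f5_h53.F5B

/-!
# Flip parts: the words
(MP_448cb3_co, G2, window `j - 1`)

`nj_flip_narrow`: a flip at the window `j - 1` needs exactly two elements on the level `j - 2`
(nothing hangs below an element of level `j` with three sites at the window `j - 2`).
-/

set_option autoImplicit false

namespace Pool.Agent.GaussPoset.Win.Pf

set_option linter.unusedSectionVars false

open Finset W4 Wd
open Pool.Agent.GaussPoset.Win.SO (con PN on mem_PN vp F5 mem_F5 PSO N1f mem_N1f)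

universe u

variable {P : Type u} [Fintype P] [PartialOrder P] [DecidableEq P] {r j i : ℕ}
  {psi : P → P} {S : Finset P} {p y q u a s b : P} {lo hi : ℕ → ℕ} {e : ℕ → ℕ → P}

section nj

variable (h : NJ P r j) (hij : i + 1 = j) (hi1 : 1 ≤ i)
include h hij hi1

/-- the row of level `j - 2` has two elements, the place of the pendant in the row of level `j` -/
theorem nj_flip_narrow (t : Tops P) (C : Cp.Comp (i + 1) (t : P) lo hi e)
    (F : Flp i (SS i t) p y q u a s b) : 2 ≤ i ∧ hi i = lo i + 2 ∧ lo (i - 1) = lo i ∧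
      hi (i - 1) = lo i + 1 ∧ (ZU i (SS i t)).card = 1 ∧
    ((y = e (i + 1) (hi i) ∧ lo (i - 1) = lo (i - 2) + 1 ∧
        (Sg i (SS i t) b).card = (if lo (i + 1) = lo i then 1 else 0) ∧
        (Sg i (SS i t) a).card = (if hi (i + 1) = hi i + 1 then 1 else 0) ∧
        (FU' i (SS i t)).card = if 3 ≤ i ∧ lo (i - 2) = lo (i - 3) + 1 then 1 else 0) ∨
      (y = e (i + 1) (lo i + 1) ∧ hi (i - 1) = hi (i - 2) ∧
        (Sg i (SS i t) b).card = (if hi (i + 1) = hi i + 1 then 1 else 0) ∧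
        (Sg i (SS i t) a).card = (if lo (i + 1) = lo i then 1 else 0) ∧
        (FU' i (SS i t)).card = if 3 ≤ i ∧ hi (i - 3) = hi (i - 2) then 1 else 0)) := by
  classical
  obtain ⟨r1, r2, r3, -⟩ := nj_flip_row h hij hi1 t C F
  obtain ⟨psi, hM⟩ := good_mat h.g.H (h.g.good i (by omega))
  have Q := nj_pso h hij hi1 hM t
  have g : GoodTo P r (i + 1) := by rw [hij]; exact h.g
  have W := C.toWin
  have hS : ∀ y, lev y ≤ i + 1 → (y ∈ SS i t ↔ y ≤ (t : P)) := fun y hy =>
    h.mem (by omega) t (by omega)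
  obtain ⟨k, rfl⟩ : ∃ k, i = k + 2 := ⟨i - 2, by omega⟩
  obtain ⟨hV, hpos⟩ := flip_pos W g t.2 hS F rfl Q.hC
  have H := h.g.H
  have l1 : hi (k + 1) ≤ hi (k + 2) := W.hi_le (k + 1) (by omega)
  have l3 : hi (k + 2) ≤ hi (k + 1) + 1 := W.hi_ge (k + 1) (by omega)
  have l4 := W.hi_ge k (by omega)
  have m1 : lo (k + 1) ≤ lo (k + 2) := W.lo_le (k + 1) (by omega)
  have m2 := W.lo_le k (by omega)
  have m3 : lo (k + 2) ≤ lo (k + 1) + 1 := W.lo_ge (k + 1) (by omega)
  have m4 := W.lo_ge k (by omega)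
  have i1 : k + 2 - 1 = k + 1 := by omega
  have i2 : k + 2 - 2 = k := by omega
  have i3 : k + 2 - 3 = k - 1 := by omega
  have hL := sg_left W g t.2 hS hi1 (by omega)
  have hR := sg_right W g t.2 hS hi1 (by omega)
  rw [i1] at hL hR
  rw [i1, i2, i3]
  -- the place of `y`
  have hly := F.ly
  have hyt : y ≤ (t : P) := (hS y (by omega)).1 (F.yC Q.hC)
  have haC : a ∈ SS (k + 2) t := Q.hC.up (F.yC Q.hC) F.ya
  have la := F.la
  have ls := F.ls
  have lb := F.lb
  have hsC := F.sC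
  obtain ⟨ny, y1, y2, y3⟩ := W.surj (k + 2 + 1) (by omega) y (by omega) hyt
  obtain ⟨na, a1, a2, a3⟩ := W.surj (k + 2) (by omega) a la ((hS a (by omega)).1 haC)
  obtain ⟨ns, s1, s2, s3⟩ := W.surj (k + 2) (by omega) s ls ((hS s (by omega)).1 hsC)
  have ca := (W.cov (k + 2) (by omega) ny na y1 y2 a1 a2).1 (by rw [y3, a3]; exact F.ya)
  have cs := (W.cov (k + 2) (by omega) ny ns y1 y2 s1 s2).1 (by rw [y3, s3]; exact F.ys)
  have nas : na ≠ ns := fun he => F.as (by rw [← a3, ← s3, he])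
  -- nothing below an element with three sites
  have hlaw : ¬ (lo (k + 1) + 2 ≤ ny ∧ ny ≤ hi (k + 1)) := by
    intro hc
    obtain ⟨-, hN, -⟩ := h.law (i := k + 1) (by omega) (by omega) (by rw [← hij]; exact C)
    have hup : up (k + 1) y = 3 := by
      have := (W.up_three g t.2 (i := k + 1) (a := ny) (by omega) y1 y2).2 hc
      have e0 : e (k + 1 + 2) ny = y := y3
      rw [e0] at this
      exact this
    have hyS : y ∈ SS (k + 1) t := (h.mem (i := k + 1) (by omega) t (by omega)).2 hyt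
    have hpt : p ≤ (t : P) := by
      rcases lt_or_eq_of_le (show p ≤ y from F.py.le) with hh | hh
      · exact hh.le.trans hyt
      · rw [hh]; exact hyt
    have hlp := F.lp
    have hpS : p ∈ SS (k + 1) t := (h.mem (i := k + 1) (by omega) t (by omega)).2 hpt
    have : p ∈ N1f (k + 1) (SS (k + 1) t) := mem_N1f.2 ⟨hpS, Or.inl ⟨by omega, y,
      mem_ZL.2 ⟨hyS, by omega, hup⟩, F.cp⟩⟩
    rw [hN] at this
    exact notMem_empty p this
  refine ⟨r1, r2, ?_⟩
  rcases hpos with ⟨g1, g2, g3, g4, g5⟩ | ⟨g1, g2, g3, g4, g5⟩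
  · -- left case
    have hna : na = hi (k + 2) := by
      refine W.inj' (by omega) a1 a2 (by omega) le_rfl ?_
      rw [a3, g4]
    have hb : (ns : ℕ) ≠ lo (k + 2) := by
      intro he
      apply F.sb
      rw [← s3, he, g3]
    have hny : ny = hi (k + 2) := by omega
    have e4 : hi (k + 1) = lo (k + 2) + 1 := by omega
    have hU := fup_left W g t.2 hS rfl (by omega) g5 Q.hC
    refine ⟨g1, e4, r3, Or.inl ⟨by rw [← y3, hny], g2, ?_, ?_, ?_⟩⟩
    · rw [g3, hL, if_neg (show ¬ lo (k + 2) = lo (k + 1) + 1 by omega), add_zero]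
    · rw [g4, hR, if_neg (show ¬ hi (k + 1) = hi (k + 2) by omega), add_zero]
    · rw [FU_eq Q F, hU]
      refine if_congr ?_ rfl rfl
      constructor
      · rintro ⟨c1, c2⟩
        exact ⟨by omega, c2⟩
      · rintro ⟨c1, c2⟩
        exact ⟨by omega, c2⟩
  · have hna : na = lo (k + 2) := by
      refine W.inj' (by omega) a1 a2 le_rfl (by omega) ?_
      rw [a3, g4]
    have hb : (ns : ℕ) ≠ hi (k + 2) := by
      intro he
      apply F.sb
      rw [← s3, he, g3]
    have hny : ny = lo (k + 2) + 1 := by omega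
    have e4 : lo (k + 1) = lo (k + 2) := by omega
    have hU := fup_right W g t.2 hS rfl (by omega) g5 Q.hC
    refine ⟨e4, by omega, r3, Or.inr ⟨by rw [← y3, hny], g2, ?_, ?_, ?_⟩⟩
    · rw [g3, hR, if_neg (show ¬ hi (k + 1) = hi (k + 2) by omega), add_zero]
    · rw [g4, hL, if_neg (show ¬ lo (k + 2) = lo (k + 1) + 1 by omega), add_zero]
    · rw [FU_eq Q F, hU]
      refine if_congr ?_ rfl rfl
      constructor
      · rintro ⟨c1, c2⟩
        exact ⟨by omega, c2⟩
      · rintro ⟨c1, c2⟩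
        exact ⟨by omega, c2⟩

end nj

end Pool.Agent.GaussPoset.Win.Pf
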