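import Pool.Agent.W_448pn_h63.QbB
import Pool.Agent.W_448t8_h97.TH

/-!
# Flip parts: the share of the pendant
(MP_448cb3_co, G2, window `j - 1`)
-/

set_option autoImplicit false

namespace Pool.Agent.GaussPoset.Win.Pf

set_option linter.unusedSectionVars false

open Finset W4 Wd
open Pool.Agent.GaussPoset.Win.SO (con PN on mem_PN vp F5 mem_F5 PSO N1f)
open Pool.Agent.GaussPoset.Win.So (Z2s)
open Pool.Agent.GaussPoset.Win.Pn

universe u

variable {P : Type u} [Fintype P] [PartialOrder P] [DecidableEq P] {r j i : ℕ}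
  {psi : P → P} {S : Finset P} {p y q u a s b : P} {lo hi : ℕ → ℕ} {e : ℕ → ℕ → P}

section nj

variable (h : NJ P r j) (hij : i + 1 = j) (hi1 : 1 ≤ i)
include h hij hi1

/-- the pinned series of the pendant at the energy five -/
theorem nj_flip_rho5 (F : Flp i (SS i (topOf p)) p y q u a s b) :
    Pn.rho i (topOf : P → Tops P) 5 p = -1 := by
  classical
  obtain ⟨psi, hM⟩ := good_mat h.g.H (h.g.good i (by omega))
  have H := h.g.H
  have Q := nj_pso h hij hi1 hM (topOf p)
  rw [nj_rho5_PD h hij hi1 F.pD]
  have hlp := F.lp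
  have hlq := F.lq
  have hsp : sit i p = {a, s} := by rw [sit_PDs H F.pD F.cp, F.cy]
  have e1 : (ZL i (SS i (topOf p)) ∪ ZU i (SS i (topOf p))).filter
      (fun z => Disjoint (sit i z) (sit i p)) = ∅ := by
    rw [filter_eq_empty_iff]
    intro z hz hd
    have h3 : (sit i z).card = 3 ∧ z ∈ SS i (topOf p) := by
      rcases mem_union.1 hz with k | k
      · obtain ⟨k1, k2, k3⟩ := mem_ZL.1 k
        rw [sit_low H (by omega), card_sts]
        exact ⟨k3, k1⟩
      · obtain ⟨k1, k2, k3⟩ := mem_ZU.1 k
        rw [sit_upp H (by omega), card_stD]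
        exact ⟨k3, k1⟩
    have h4 : sit i z = st i (SS i (topOf p)) :=
      eq_of_subset_of_card_le (SO.sit_part H Q.hC h3.2) (by rw [F.b3, h3.1])
    rw [h4, F.st, hsp] at hd
    exact disjoint_left.1 hd (mem_insert_self a _) (mem_insert_self a _)
  have hpn : p ∈ PN i (SS i (topOf p)) := mem_PN.2 ⟨F.mp, Or.inl F.pD⟩
  have hqn : q ∈ PN i (SS i (topOf p)) := mem_PN.2 ⟨F.mq, Or.inr F.qU⟩
  have hqp : q ≠ p := fun he => by have := congrArg lev he; omega
  have e2 : Ov i (SS i (topOf p)) p = {q} := by
    ext x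
    rw [mem_singleton, mem_Ov]
    constructor
    · rintro ⟨h1, h2, h3, h4⟩
      obtain ⟨m1, k | k⟩ := mem_PN.1 h1
      · exact absurd (Q.pd p F.mp x m1 F.pD k) h3
      · exact Q.pu x m1 q F.mq k F.qU
    · rintro rfl
      have h5 := F5_eq Q F
      have h6 : (p, x) ∈ F5 i (SS i (topOf p)) := by rw [h5]; exact mem_singleton_self _
      exact ⟨hqn, hpn, hqp.symm, (mem_F5.1 h6).2.2.2.2⟩
  rw [e1, e2, sum_empty, sum_singleton, zero_add]
  unfold SO.vp
  rw [if_neg]
  intro hq
  have := (mem_PD.1 hq).1
  omega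

/-- the pinned series of the pendant at the energy seven -/
theorem nj_flip_rho7 (F : Flp i (SS i (topOf p)) p y q u a s b) :
    Pn.rho i (topOf : P → Tops P) 7 p = 0 := by
  classical
  rw [nj_rho7_PD h hij hi1 F.pD, nj_flip_tws h hij hi1 (topOf p) F]
  simp

/-- near elements which meet the sites of the pendant -/
theorem nj_flip_nn (t : Tops P) (F : Flp i (SS i t) p y q u a s b) :
    nn i p = 4 + (Sg i (SS i t) a).card := by
  classical
  obtain ⟨psi, hM⟩ := good_mat h.g.H (h.g.good i (by omega))
  have H := h.g.H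
  have Q := nj_pso h hij hi1 hM t
  have nt := nj_nt h hij hi1 t F
  obtain ⟨y1, y2, y3, y4⟩ := psi_y Q F
  obtain ⟨u1, u2, u3, u4⟩ := psi_u Q F
  have ly := F.ly
  have lu := F.lu
  have lp := F.lp
  have hsp : sit i p = {a, s} := by rw [sit_PDs H F.pD F.cp, F.cy]
  have hin : ∀ {v x : P}, v ∈ SS i t → lev v = i → (lev x = i + 1 → x ⋖ v → x ∈ SS i t) ∧
      (lev x + 1 = i → v ⋖ x → x ∈ SS i t) := by
    intro v x hv hl
    constructor
    · intro hx hc
      have h1 := (h.mem (i := i) (by omega) t (y := v) (by omega)).1 hv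
      exact (h.mem (by omega) t (by omega)).2 (hc.le.trans h1)
    · intro hx hc
      exact Q.hC.up hv hc
  have aC : a ∈ SS i t := Q.hC.up (F.yC Q.hC) F.ya
  have la := F.la
  have ls := F.ls
  have n1 : psi u ≠ y := by
    intro h'
    rw [h', F.cy] at u3
    have : b ∈ ({a, s} : Finset P) := by
      rw [u3]; exact mem_insert_of_mem (mem_singleton_self _)
    rw [mem_insert, mem_singleton] at this
    rcases this with k | k
    · exact F.ab k.symm
    · exact F.sb k.symm
  have n2 : psi y ≠ u := by
    intro h'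
    rw [h', F.cu] at y3
    have : a ∈ ({s, b} : Finset P) := by rw [y3]; exact mem_insert_self _ _
    rw [mem_insert, mem_singleton] at this
    rcases this with k | k
    · exact F.as k
    · exact F.ab k
  have hU : nLp i p ∪ nUp i p = {y, psi u} ∪ ({u, psi y} ∪ Sg i (SS i t) a) := by
    ext w
    rw [mem_union, mem_nLp, mem_nUp, hsp, mem_union, mem_union, mem_insert, mem_singleton,
      mem_insert, mem_singleton]
    have key : ∀ T : Finset P, ¬ Disjoint T {a, s} ↔ a ∈ T ∨ s ∈ T := by
      intro T
      rw [not_disjoint_iff]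
      constructor
      · rintro ⟨x, h1, h2⟩
        rw [mem_insert, mem_singleton] at h2
        rcases h2 with h2 | h2
        · rw [h2] at h1; exact Or.inl h1
        · rw [h2] at h1; exact Or.inr h1
      · rintro (h1 | h1)
        · exact ⟨a, h1, mem_insert_self _ _⟩
        · exact ⟨s, h1, mem_insert_of_mem (mem_singleton_self _)⟩
    rw [key, key]
    constructor
    · intro hw
      have hwC : w ∈ SS i t ∧ w ∈ near P i := by
        rcases hw with ⟨hl, hw⟩ | ⟨hl, hw⟩
        · refine ⟨?_, mem_near.2 (Or.inl hl)⟩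
          rcases hw with hw | hw
          · exact (hin aC la).1 hl (mem_uc.1 hw)
          · exact (hin F.sC ls).1 hl (mem_uc.1 hw)
        · refine ⟨?_, mem_near.2 (Or.inr hl)⟩
          rcases hw with hw | hw
          · exact (hin aC la).2 hl (mem_dc.1 hw)
          · exact (hin F.sC ls).2 hl (mem_dc.1 hw)
      rcases near_cls Q F nt hwC.1 hwC.2 with k | k | k | k | k | k
      · exact Or.inl (Or.inl k)
      · exact Or.inr (Or.inl (Or.inl k))
      · exact Or.inr (Or.inl (Or.inr k))
      · exact Or.inl (Or.inr k)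
      · exact Or.inr (Or.inr k)
      · exfalso
        have k' := (mem_Sg.1 k).2
        rcases hw with ⟨hl, hw⟩ | ⟨hl, hw⟩
        · rcases k' with k' | k'
          · rw [k'.2, mem_singleton, mem_singleton] at hw
            rcases hw with hw | hw
            · exact F.ab hw
            · exact F.sb hw
          · omega
        · rcases k' with k' | k'
          · omega
          · rw [k'.2, mem_singleton, mem_singleton] at hw
            rcases hw with hw | hw
            · exact F.ab hw
            · exact F.sb hw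
    · rintro ((k | k) | (k | k) | k)
      · rw [k]
        exact Or.inl ⟨ly, Or.inl (by rw [F.cy]; exact mem_insert_self _ _)⟩
      · rw [k]
        exact Or.inl ⟨u2, Or.inr (by rw [u3]; exact mem_insert_self _ _)⟩
      · rw [k]
        exact Or.inr ⟨lu, Or.inr (by rw [F.cu]; exact mem_insert_self _ _)⟩
      · rw [k]
        exact Or.inr ⟨y2, Or.inl (by rw [y3]; exact mem_insert_self _ _)⟩
      · rcases (mem_Sg.1 k).2 with k' | k'
        · exact Or.inl ⟨k'.1, Or.inl (by rw [k'.2]; exact mem_singleton_self _)⟩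
        · exact Or.inr ⟨k'.1, Or.inl (by rw [k'.2]; exact mem_singleton_self _)⟩
  have hdis : Disjoint (nLp i p) (nUp i p) := by
    rw [disjoint_left]
    intro w h1 h2
    have := (mem_nLp.1 h1).1
    have := (mem_nUp.1 h2).1
    omega
  have hSn : ∀ x ∈ Sg i (SS i t) a, x ≠ y ∧ x ≠ psi u ∧ x ≠ u ∧ x ≠ psi y := by
    intro x hx
    have hk := (mem_Sg.1 hx).2
    refine ⟨?_, ?_, ?_, ?_⟩ <;> intro hxe <;> rw [hxe] at hk <;> rcases hk with k | k
    · have h3 := congrArg Finset.card k.2
      rw [F.cy, card_pair F.as, card_singleton] at h3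
      omega
    · omega
    · have h3 := congrArg Finset.card k.2
      rw [u3, card_pair F.sb, card_singleton] at h3
      omega
    · omega
    · omega
    · have h3 := congrArg Finset.card k.2
      rw [F.cu, card_pair F.sb, card_singleton] at h3
      omega
    · omega
    · have h3 := congrArg Finset.card k.2
      rw [y3, card_pair F.as, card_singleton] at h3
      omega
  have d1 : Disjoint ({u, psi y} : Finset P) (Sg i (SS i t) a) := by
    rw [disjoint_left]
    intro x hx hx'
    rw [mem_insert, mem_singleton] at hx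
    obtain ⟨k1, k2, k3, k4⟩ := hSn x hx'
    rcases hx with k | k
    · exact k3 k
    · exact k4 k
  have d2 : Disjoint ({y, psi u} : Finset P) ({u, psi y} ∪ Sg i (SS i t) a) := by
    rw [disjoint_left]
    intro x hx hx'
    rw [mem_insert, mem_singleton] at hx
    rcases mem_union.1 hx' with k | k
    · rw [mem_insert, mem_singleton] at k
      have e1 : lev x = i + 1 := by
        rcases hx with hx | hx
        · rw [hx]; exact ly
        · rw [hx]; exact u2
      have e2 : lev x + 1 = i := by
        rcases k with k | k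
        · rw [k]; exact lu
        · rw [k]; exact y2
      omega
    · obtain ⟨k1, k2, k3, k4⟩ := hSn x k
      rcases hx with k | k
      · exact k1 k
      · exact k2 k
  have hc := card_union_of_disjoint hdis
  rw [hU, card_union_of_disjoint d2, card_union_of_disjoint d1, card_pair n1.symm,
    card_pair n2.symm] at hc
  unfold nn
  omega

/-- private children of a pendant of the part -/
theorem nj_kc (t : Tops P) (hp : p ∈ SS i t) (lp : lev p = i + 2) :
    kc p = ((FLo (SS i t) p).card : ℤ) := by
  have H := h.g.H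
  unfold kc
  congr 2
  ext x
  rw [mem_ks, mem_FLo]
  constructor
  · intro hx
    refine ⟨?_, hx⟩
    have hxp : x ⋖ p := by rw [← mem_uc, hx]; exact mem_singleton_self _
    have hlx := lev_cov H hxp
    rw [← h.cext_eq (i := i) (by omega) t, mem_cext] at hp ⊢
    intro z hz hlz
    refine hp z ?_ hlz
    have hne : x ≠ z := by
      rintro rfl
      omega
    obtain ⟨w, hw1, hw2⟩ := Hul.exists_cov (lt_of_le_of_ne hz hne)
    have : w ∈ uc x := mem_uc.2 hw1
    rw [hx, mem_singleton] at this
    rw [← this]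
    exact hw2
  · rintro ⟨-, hx⟩
    exact hx

/-- the children of a pendant: joins and private children -/
theorem nj_zc_kc (hp : lev p = i + 2) :
    zc i (topOf : P → Tops P) p + kc p ≤ 2 := by
  classical
  have H := h.g.H
  have hκ : Split (i + 2) (topOf : P → Tops P) := by
    rw [show i + 2 = j + 1 by omega]
    exact h.split
  have h1 : zs i (topOf : P → Tops P) p ∪ ks p ⊆ dc p := by
    intro z hz
    rcases mem_union.1 hz with k | k
    · exact mem_dc.2 (mem_uc.1 (mem_zs.1 k).2)
    · exact mem_dc.2 (mem_uc.1 (by rw [mem_ks.1 k]; exact mem_singleton_self _))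
  have h2 : Disjoint (zs i (topOf : P → Tops P) p) (ks p) := by
    rw [disjoint_left]
    intro z hz hz'
    obtain ⟨p1, p2, y1, y2, D, hu, hne⟩ := Z2s_pair H hκ (mem_zs.1 hz).1
    have h3 := mem_ks.1 hz'
    rw [hu] at h3
    have := congrArg Finset.card h3
    rw [card_pair hne, card_singleton] at this
    omega
  have h3 := card_le_card h1
  rw [card_union_of_disjoint h2] at h3
  have h4 := dc_card_le H p
  unfold zc kc
  omega

/-- THE VALUE OF A FLIP PART for arbitrary weights -/
theorem nj_flip_own (W : Wt) (t : Tops P) (F : Flp i (SS i t) p y q u a s b) :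
    own W i j t = W.a3 * A3 i t - W.a5 + W.a6 * (A3 i t ^ 2 + 4 +
      2 * ((N1f i (SS i t)).card + (FL i (SS i t)).card + (FU' i (SS i t)).card +
          (Sg i (SS i t) a).card + (Sg i (SS i t) b).card)) - W.a8 * A3 i t + W.a10 +
      W.f2 * F2 j t + W.f4 * F4 j t + W.f3 * F3 j t + W.f6 * F6 j t := by
  have h8 := nj_flip_Q8 h hij hi1 t F
  have e5 : B5 i t = -1 := nj_flip_be5 h hij hi1 t F
  have e6 : C6 i t = _ := nj_flip_Q6 h hij hi1 t F
  have e8 : C8 i t = - A3 i t := h8.1
  have e10 : C10 i t = 1 := h8.2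
  unfold own
  rw [e5, e6, e8, e10]
  unfold A3
  ring

/-- THE SHARE OF THE PENDANT OF A FLIP PART for arbitrary weights -/
theorem nj_flip_shr (W : Wt) (F : Flp i (SS i (topOf p)) p y q u a s b) :
    shr W i p = zc i (topOf : P → Tops P) p * (W.a5 + W.a10) -
      4 * W.a6 * zc i (topOf : P → Tops P) p *
        ((FL i (SS i (topOf p))).card + (Sg i (SS i (topOf p)) a).card + 1) -
      2 * W.a6 * ∑ z ∈ zs i (topOf : P → Tops P) p, kc z +
      2 * W.a8 * zc i (topOf : P → Tops P) p * (1 + A3 i (topOf p)) -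
      4 * W.a10 * zc i (topOf : P → Tops P) p +
      (2 * W.a10 - W.a8) *
        (zc i (topOf : P → Tops P) p * (zc i (topOf : P → Tops P) p - 1)) -
      (W.a6 - W.a8 + W.a10) * ∑ z ∈ zs i (topOf : P → Tops P) p,
        ((tw i (topOf : P → Tops P) z).card : ℤ) := by
  obtain ⟨psi, hM⟩ := good_mat h.g.H (h.g.good i (by omega))
  have Q := nj_pso h hij hi1 hM (topOf p)
  have e5 := nj_flip_rho5 h hij hi1 F
  have e7 := nj_flip_rho7 h hij hi1 F
  have en := nj_flip_nn h hij hi1 (topOf p) F
  have ek := nj_kc h hij hi1 (topOf p) F.mp F.lp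
  have eb : B5 i (topOf p) = -1 := nj_flip_be5 h hij hi1 (topOf p) F
  unfold shr
  rw [e5, e7, en, ek, eb, FL_eq Q F]
  ring

end nj

end Pool.Agent.GaussPoset.Win.Pf
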