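import Pool.Agent.W_448pn_h63.QcB
import Pool.Agent.W_448nv_h97.NvB
import Pool.Agent.W_448f5_h53.F5B

/-!
# Flip parts: the value of a natural part with a flip
(MP_448cb3_co, G2, window `j - 1`)
-/

set_option autoImplicit false

namespace Pool.Agent.GaussPoset.Win.Pf

set_option linter.unusedSectionVars false

open Finset W4 Wd
open Pool.Agent.GaussPoset.Win.Pn
open Pool.Agent.GaussPoset.Win.SO (con PN on mem_PN vp F5 mem_F5 PSO N1f mem_N1f)

universe u

variable {P : Type u} [Fintype P] [PartialOrder P] [DecidableEq P] {r j i : ℕ}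
  {psi : P → P} {S : Finset P} {p y q u a s b : P} {lo hi : ℕ → ℕ} {e : ℕ → ℕ → P}

/-- a common lower cover of two elements with a common upper cover in a natural component -/
lemma nat_dcv {t : P} (hn : NatT j t) {y x v : P} (ly : lev y = j) (lx : lev x = j)
    (hy : y ≤ t) (hx : x ≤ t) (hne : y ≠ x) (h1 : y ⋖ v) (h2 : x ⋖ v) :
    ∃ w, w ⋖ y ∧ w ⋖ x := by
  classical
  have h3 := hn y x ly lx hy hx hne
  have h4 : 0 < ucv y x := by
    unfold ucv
    exact card_pos.2 ⟨v, by rw [mem_filter]; exact ⟨mem_univ v, h1, h2⟩⟩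
  rw [h3] at h4
  unfold dcv at h4
  obtain ⟨w, hw⟩ := card_pos.1 h4
  rw [mem_filter] at hw
  exact ⟨w, hw.2⟩

/-- no pendant below an inner element of a natural component -/
lemma nat_inner (H : Gr P r) {t : P} (hn : NatT j t) {y x x' v v' p : P} (ly : lev y = j)
    (lx : lev x = j) (lx' : lev x' = j) (hy : y ≤ t) (hx : x ≤ t) (hx' : x' ≤ t) (h1 : y ≠ x)
    (h2 : y ≠ x') (h3 : x ≠ x') (c1 : y ⋖ v) (c2 : x ⋖ v) (c3 : y ⋖ v') (c4 : x' ⋖ v')
    (hp : uc p = {y}) : False := by
  classical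
  obtain ⟨w, w1, w2⟩ := nat_dcv hn ly lx hy hx h1 c1 c2
  obtain ⟨w', w3, w4⟩ := nat_dcv hn ly lx' hy hx' h2 c3 c4
  have hpy : p ⋖ y := by rw [← mem_uc, hp]; exact mem_singleton_self _
  have n1 : p ≠ w := by
    rintro rfl
    rw [← mem_uc, hp, mem_singleton] at w2
    exact h1 w2.symm
  have n2 : p ≠ w' := by
    rintro rfl
    rw [← mem_uc, hp, mem_singleton] at w4
    exact h2 w4.symm
  have n3 : w ≠ w' := by
    rintro rfl
    have h4 : ({y, x, x'} : Finset P) ⊆ uc w := by
      intro z hz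
      rw [mem_insert, mem_insert, mem_singleton] at hz
      rw [mem_uc]
      rcases hz with rfl | rfl | rfl <;> assumption
    have h5 := card_le_card h4
    rw [card_insert_of_notMem, card_pair h3] at h5
    · have := uc_card_le H w
      omega
    · rw [mem_insert, mem_singleton]
      rintro (h6 | h6)
      · exact h1 h6
      · exact h2 h6
  have h4 : ({p, w, w'} : Finset P) ⊆ dc y := by
    intro z hz
    rw [mem_insert, mem_insert, mem_singleton] at hz
    rw [mem_dc]
    rcases hz with rfl | rfl | rfl <;> assumption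
  have h5 := card_le_card h4
  rw [card_insert_of_notMem, card_pair n3] at h5
  · have := dc_card_le H y
    omega
  · rw [mem_insert, mem_singleton]
    rintro (h6 | h6)
    · exact n1 h6
    · exact n2 h6

/-- the arithmetic of a flip row -/
lemma flip_arith {L k z N S w A sk zs' : ℤ} (hL : 1 ≤ L) (hk : 0 ≤ k) (hz : 0 ≤ z)
    (hzk : z + k ≤ 2) (hN : 0 ≤ N) (hS : S ≤ 2 * z) (hw : 0 ≤ w) (hA : A = k - L)
    (h1 : sk = -A - 9 + (A ^ 2 + 4 + 2 * (N + k + 1)) - 4 * A + 3 + w)
    (h2 : zs' = z * 12 - 4 * z * (k + 1) - 2 * S + 8 * z * (1 + A) - 12 * z +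
      2 * (z * (z - 1))) : 0 ≤ 2 * sk + zs' := by
  subst hA
  rw [h1, h2]
  have q1 : z = 0 ∨ z = 1 ∨ z = 2 := by omega
  have q2 : k = 0 ∨ k = 1 ∨ k = 2 := by omega
  have q3 : 0 ≤ (L - 1) * (L - 2) := by
    rcases eq_or_lt_of_le hL with e1 | e1
    · rw [← e1]; norm_num
    · exact mul_nonneg (by omega) (by omega)
  rcases q1 with rfl | rfl | rfl <;> rcases q2 with rfl | rfl | rfl <;>
    first | omega | nlinarith

section nj

variable (h : NJ P r j) (hij : i + 1 = j) (hi1 : 1 ≤ i)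
include h hij hi1

/-- an element below three sites -/
lemma nat_ZL (t : Tops P) (hn : NatT j (t : P)) (C : Cp.Comp (i + 1) (t : P) lo hi e)
    (h3 : (st i (SS i t)).card = 3) (hl : hi i = lo i + 2) (h1 : lo (i + 1) ≤ lo i + 1)
    (h2 : lo i + 2 ≤ hi (i + 1)) : 1 ≤ (ZL i (SS i t)).card := by
  classical
  have H := h.g.H
  have hC : Part (i + 1) (SS i t) := h.part (by omega) (by omega) t
  have l1 : lev (e (i + 1) (lo i + 1)) = i + 1 := C.lev_e _ _ le_rfl h1 (by omega)
  have l2 : lev (e (i + 1) (lo i + 2)) = i + 1 := C.lev_e _ _ le_rfl (by omega) h2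
  have t1 : e (i + 1) (lo i + 1) ≤ (t : P) := C.le_t _ _ le_rfl h1 (by omega)
  have t2 : e (i + 1) (lo i + 2) ≤ (t : P) := C.le_t _ _ le_rfl (by omega) h2
  have hne : e (i + 1) (lo i + 1) ≠ e (i + 1) (lo i + 2) := by
    intro he
    have := C.inj (i + 1) _ _ le_rfl h1 (by omega) (by omega) h2 he
    omega
  have cv : ∀ s s', lo (i + 1) ≤ s → s ≤ hi (i + 1) → lo i ≤ s' → s' ≤ hi i →
      (s' = s ∨ s' + 1 = s) → e (i + 1) s ⋖ e i s' := fun s s' a1 a2 a3 a4 a5 =>
    (C.cov i s s' (by omega) a1 a2 a3 a4).2 a5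
  have c0 := cv (lo i + 1) (lo i) h1 (by omega) le_rfl (by omega) (Or.inr rfl)
  have c1 := cv (lo i + 1) (lo i + 1) h1 (by omega) (by omega) (by omega) (Or.inl rfl)
  have c2 := cv (lo i + 2) (lo i + 1) (by omega) h2 (by omega) (by omega) (Or.inr rfl)
  have c3 := cv (lo i + 2) (lo i + 2) (by omega) h2 (by omega) (by omega) (Or.inl rfl)
  obtain ⟨w, w1, w2⟩ := nat_dcv hn (by omega) (by omega) t1 t2 hne c1 c2
  have lw := lev_cov H w1
  have huc : uc w = {e (i + 1) (lo i + 1), e (i + 1) (lo i + 2)} := by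
    symm
    apply Finset.eq_of_subset_of_card_le
    · intro z hz
      rw [mem_insert, mem_singleton] at hz
      rw [mem_uc]
      rcases hz with rfl | rfl <;> assumption
    · rw [card_pair hne]
      exact uc_card_le H w
  have hwS : w ∈ SS i t := (h.mem (by omega) t (by omega)).2 (w1.le.trans t1)
  refine card_pos.2 ⟨w, mem_ZL.2 ⟨hwS, by omega, ?_⟩⟩
  rw [up_two H (by omega) huc]
  -- all the sites
  have inj : ∀ s s', lo i ≤ s → s ≤ hi i → lo i ≤ s' → s' ≤ hi i → e i s = e i s' → s = s' :=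
    fun s s' a1 a2 a3 a4 he => C.inj i s s' (by omega) a1 a2 a3 a4 he
  have m1 : ({e i (lo i), e i (lo i + 1), e i (lo i + 2)} : Finset P) ⊆
      uc (e (i + 1) (lo i + 1)) ∪ uc (e (i + 1) (lo i + 2)) := by
    intro z hz
    rw [mem_insert, mem_insert, mem_singleton] at hz
    rw [mem_union, mem_uc, mem_uc]
    rcases hz with rfl | rfl | rfl
    · exact Or.inl c0
    · exact Or.inl c1
    · exact Or.inr c3
  have m2 : uc (e (i + 1) (lo i + 1)) ∪ uc (e (i + 1) (lo i + 2)) ⊆ st i (SS i t) := by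
    intro z hz
    rw [mem_union, mem_uc, mem_uc] at hz
    rw [Win.mem_st]
    rcases hz with hz | hz
    · have := lev_cov H hz
      exact ⟨hC.up ((h.mem (i := i) (by omega) t (by omega)).2 t1) hz, by omega⟩
    · have := lev_cov H hz
      exact ⟨hC.up ((h.mem (i := i) (by omega) t (by omega)).2 t2) hz, by omega⟩
  have k1 := card_le_card m1
  have k2 := card_le_card m2
  rw [card_insert_of_notMem, card_pair] at k1
  · omega
  · intro he
    have := inj _ _ (by omega) (by omega) (by omega) (by omega) he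
    omega
  · rw [mem_insert, mem_singleton]
    rintro (he | he)
    · have := inj _ _ (by omega) (by omega) (by omega) (by omega) he
      omega
    · have := inj _ _ (by omega) (by omega) (by omega) (by omega) he
      omega

/-- THE VALUE of a natural part with a flip (twice): it is nonnegative -/
theorem nat_flip {lo hi : Tops P → ℕ → ℕ} {e : Tops P → ℕ → ℕ → P}
    (C : ∀ t : Tops P, Cp.Comp (i + 1) (t : P) (lo t) (hi t) (e t))
    (hS : ∀ t : Tops P, Shape (i + 1) (lo t) (hi t)) {t : Tops P}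
    (hn : NatT j (t : P)) (hF : F5 i (SS i t) ≠ ∅) :
    0 ≤ 2 * own ⟨-1, 9, 1, 4, 3, -1, 2, 13, 0⟩ i j t +
      ∑ p ∈ (PD P i).filter (fun p => (topOf p : Tops P) = t),
        shr ⟨-1, 9, 1, 4, 3, -1, 2, 13, 0⟩ i p := by
  classical
  have H := h.g.H
  have hC : Part (i + 1) (SS i t) := h.part (by omega) (by omega) t
  obtain ⟨⟨p, q⟩, hpq⟩ := nonempty_iff_ne_empty.2 hF
  obtain ⟨y, u, a, s, b, F⟩ := nj_flp h hij hi1 t hpq
  have Cm := C t
  obtain ⟨w1, w2, w3⟩ := nj_flip_word h hij hi1 t Cm (hS t) F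
  have hlh := Cm.toWin.lohi (i + 1) le_rfl
  have inj : ∀ s s', lo t (i + 1) ≤ s → s ≤ hi t (i + 1) → lo t (i + 1) ≤ s' →
      s' ≤ hi t (i + 1) → s ≠ s' → e t (i + 1) s ≠ e t (i + 1) s' :=
    fun s s' a1 a2 a3 a4 hne he => hne (Cm.inj (i + 1) s s' le_rfl a1 a2 a3 a4 he)
  have cv : ∀ s s', lo t (i + 1) ≤ s → s ≤ hi t (i + 1) → lo t i ≤ s' → s' ≤ hi t i →
      (s' = s ∨ s' + 1 = s) → e t (i + 1) s ⋖ e t i s' := fun s s' a1 a2 a3 a4 a5 =>
    (Cm.cov i s s' (by omega) a1 a2 a3 a4).2 a5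
  -- the pendant is not inner
  have inner : ∀ n, lo t (i + 1) + 1 ≤ n → n + 1 ≤ hi t (i + 1) → lo t i + 1 ≤ n →
      n ≤ hi t i → y ≠ e t (i + 1) n := by
    intro n n1 n2 n3 n4 hy
    obtain ⟨m, rfl⟩ : ∃ m, n = m + 1 := ⟨n - 1, by omega⟩
    have hc := F.cp
    rw [hy] at hc
    exact nat_inner (j := j) H hn (y := e t (i + 1) (m + 1)) (x := e t (i + 1) m)
      (x' := e t (i + 1) (m + 2)) (v := e t i m) (v' := e t i (m + 1)) (p := p)
      (by rw [Cm.lev_e _ _ le_rfl (by omega) (by omega)]; exact hij)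
      (by rw [Cm.lev_e _ _ le_rfl (by omega) (by omega)]; exact hij)
      (by rw [Cm.lev_e _ _ le_rfl (by omega) (by omega)]; exact hij)
      (Cm.le_t _ _ le_rfl (by omega) (by omega)) (Cm.le_t _ _ le_rfl (by omega) (by omega))
      (Cm.le_t _ _ le_rfl (by omega) (by omega))
      (inj _ _ (by omega) (by omega) (by omega) (by omega) (by omega))
      (inj _ _ (by omega) (by omega) (by omega) (by omega) (by omega))
      (inj _ _ (by omega) (by omega) (by omega) (by omega) (by omega))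
      (cv _ _ (by omega) (by omega) (by omega) (by omega) (Or.inr rfl))
      (cv _ _ (by omega) (by omega) (by omega) (by omega) (Or.inl rfl))
      (cv _ _ (by omega) (by omega) (by omega) (by omega) (Or.inl rfl))
      (cv _ _ (by omega) (by omega) (by omega) (by omega) (Or.inr rfl)) hc
  have key : lo t (i + 1) ≤ lo t i + 1 ∧ lo t i + 2 ≤ hi t (i + 1) ∧
      (FU' i (SS i t)).card + (Sg i (SS i t) b).card = 1 ∧ (Sg i (SS i t) a).card = 0 := by
    rcases w3 with ⟨-, k1, k2, k3, k4, k5⟩ | ⟨k0, k1, k2, -⟩ | ⟨-, k1, k2, -, k3, k4, k5⟩ |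
      ⟨k0, k1, k2⟩ | ⟨k0, k1, k2, k3⟩
    · omega
    · exact (inner _ (by omega) (by omega) (by omega) (by omega) k0).elim
    · omega
    · exact (inner _ (by omega) (by omega) (by omega) (by omega) k0).elim
    · exfalso
      have e1 := Cm.hi_step i (by omega)
      have e2 := Cm.lo_step i (by omega)
      rcases Nat.eq_zero_or_pos (lo t (i + 1)) with e3 | e3
      · exact inner _ (by omega) (by omega) (by omega) (by omega) k3
      · subst k1
        have hj : j = 5 := by omega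
        subst hj
        have e5 : lo t 5 ≤ 1 := by
          show lo t (4 + 1) ≤ 1
          omega
        refine F5.NJ_no_flip5 h C hS t k0 (z := p) e5 ?_
        have e4 : y = e t 5 1 := by rw [k3, k2]
        rw [← e4]
        refine ⟨F.py, fun z hz => ?_⟩
        have := mem_uc.2 hz
        rw [F.cp, mem_singleton] at this
        exact this
  obtain ⟨g1, g2, g3, g4⟩ := key
  have hZL := nat_ZL h hij hi1 t hn Cm F.b3 w1 g1 g2
  have hw := EK.NJ.nat_own2 h (by omega) hn
  have hal := nj_flip_al3 h hij hi1 t F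
  have hown := nj_flip_own h hij hi1 ⟨-1, 9, 1, 4, 3, -1, 2, 13, 0⟩ t F
  obtain ⟨psi, hM⟩ := good_mat h.g.H (h.g.good i (by omega))
  have Q := nj_pso h hij hi1 hM t
  have hpt : (topOf p : Tops P) = t := by
    have h1 := (h.mem (i := i) (by omega) t (y := p) (by rw [F.lp]; omega)).1 F.mp
    exact Subtype.ext (Hul.top_unique (h.nj (by rw [F.lp]; omega)) (topOf p).2 t.2 (le_topOf p) h1)
  have hone : (PD P i).filter (fun p => (topOf p : Tops P) = t) = {p} := by
    rw [eq_singleton_iff_unique_mem]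
    refine ⟨mem_filter.2 ⟨F.pD, hpt⟩, fun q hq => ?_⟩
    obtain ⟨hqD, hqt⟩ := mem_filter.1 hq
    exact nj_hone h hij hi1 q hqD p F.pD (by rw [hqt, hpt])
  have hshr := nj_flip_shr h hij hi1 ⟨-1, 9, 1, 4, 3, -1, 2, 13, 0⟩ (p := p) (by
    rw [hpt]; exact F)
  have hk := nj_kc h hij hi1 t F.mp F.lp
  have hzk := nj_zc_kc h hij hi1 F.lp
  have hSs : ∑ z ∈ zs i (topOf : P → Tops P) p, kc z ≤ 2 * zc i (topOf : P → Tops P) p := by
    have h1 : ∀ z ∈ zs i (topOf : P → Tops P) p, kc z ≤ 2 := by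
      intro z _
      have h2 : ks z ⊆ dc z := fun y hy => mem_dc.2 (mem_uc.1 (by rw [mem_ks.1 hy]; simp))
      have h3 := (card_le_card h2).trans (dc_card_le H z)
      unfold kc
      exact_mod_cast h3
    have h2 := Finset.sum_le_sum h1
    rw [sum_const, nsmul_eq_mul] at h2
    unfold zc
    linarith
  rw [hone, sum_singleton]
  rw [hpt] at hshr
  rw [← FL_eq Q F] at hk
  have hA : A3 i t = kc p - (ZL i (SS i t)).card := by
    unfold A3
    rw [hal, w2, g4, hk]
    have : ((FU' i (SS i t)).card : ℤ) + (Sg i (SS i t) b).card = 1 := by exact_mod_cast g3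
    push_cast
    linarith
  have hg3 : ((FU' i (SS i t)).card : ℤ) + (Sg i (SS i t) b).card = 1 := by exact_mod_cast g3
  refine flip_arith (L := (ZL i (SS i t)).card) (k := kc p)
    (z := zc i (topOf : P → Tops P) p) (N := (N1f i (SS i t)).card)
    (S := ∑ z ∈ zs i (topOf : P → Tops P) p, kc z)
    (w := -F2 j t + 2 * F4 j t + 13 * F3 j t) (A := A3 i t) (by exact_mod_cast hZL)
    (Nat.cast_nonneg _) (Nat.cast_nonneg _) hzk (Nat.cast_nonneg _) hSs hw hA ?_ ?_
  · rw [hown, hk, g4]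
    push_cast
    linear_combination 2 * hg3
  · rw [hshr, hk, g4]
    push_cast
    ring

end nj

end Pool.Agent.GaussPoset.Win.Pf
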