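import Pool.Agent.W_448pn_h63.QcC
import Pool.Agent.W_448n6_h84.NbA

/-!
# Flip parts: the value of a natural part with a flip for arbitrary weights, and for the weights of
step 0 at the level 8 (MP_448cb3_co, G2, window `j - 1`)
-/

set_option autoImplicit false

namespace Pool.Agent.GaussPoset.Win.Pf

set_option linter.unusedSectionVars false

open Finset W4 Wd
open Pool.Agent.GaussPoset.Win.Pn
open Pool.Agent.GaussPoset.Win.SO (con PN on mem_PN vp F5 mem_F5 PSO N1f mem_N1f)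

universe u

variable {P : Type u} [Fintype P] [PartialOrder P] [DecidableEq P] {r j i : ℕ}
  {psi : P → P} {S : Finset P} {p y q u a s b : P} {lo hi : ℕ → ℕ} {e : ℕ → ℕ → P}

section nj

variable (h : NJ P r j) (hij : i + 1 = j) (hi1 : 1 ≤ i)
include h hij hi1

/-- THE VALUE of a natural part with a flip (twice) for arbitrary weights -/
theorem nat_flip_gen (W : Wt) {lo hi : Tops P → ℕ → ℕ} {e : Tops P → ℕ → ℕ → P}
    (C : ∀ t : Tops P, Cp.Comp (i + 1) (t : P) (lo t) (hi t) (e t))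
    (hS : ∀ t : Tops P, Shape (i + 1) (lo t) (hi t)) {t : Tops P}
    (hn : NatT j (t : P)) (hF : F5 i (SS i t) ≠ ∅) :
    ∃ L k N z S T : ℤ, 1 ≤ L ∧ 0 ≤ k ∧ 0 ≤ N ∧ 0 ≤ z ∧ z + k ≤ 2 ∧ S ≤ 2 * z ∧ 0 ≤ T ∧
    2 * own W i j t + ∑ p ∈ (PD P i).filter (fun p => (topOf p : Tops P) = t), shr W i p =
      2 * (W.a3 * (k - L) - W.a5 + W.a6 * ((k - L) ^ 2 + 4 + 2 * (N + k + 1)) -
        W.a8 * (k - L) + W.a10 + W.f2 * F2 j t + W.f4 * F4 j t + W.f3 * F3 j t +
        W.f6 * F6 j t) +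
      (z * (W.a5 + W.a10) - 4 * W.a6 * z * (k + 1) - 2 * W.a6 * S +
        2 * W.a8 * z * (1 + (k - L)) - 4 * W.a10 * z +
        (2 * W.a10 - W.a8) * (z * (z - 1)) - (W.a6 - W.a8 + W.a10) * T) := by
  classical
  have H := h.g.H
  have hC : Part (i + 1) (SS i t) := h.part (by omega) (by omega) t
  obtain ⟨⟨p, q⟩, hpq⟩ := nonempty_iff_ne_empty.2 hF
  obtain ⟨y, u, a, s, b, F⟩ := nj_flp h hij hi1 t hpq
  have Cm := C t
  obtain ⟨w1, w2, w3⟩ := nj_flip_word h hij hi1 t Cm (hS t) F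
  have hlh := Cm.toWin.lohi (i + 1) le_rfl
  have inj : ∀ s s', lo t (i + 1) ≤ s → s ≤ hi t (i + 1) → lo t (i + 1) ≤ s' →
      s' ≤ hi t (i + 1) → s ≠ s' → e t (i + 1) s ≠ e t (i + 1) s' :=
    fun s s' a1 a2 a3 a4 hne he => hne (Cm.inj (i + 1) s s' le_rfl a1 a2 a3 a4 he)
  have cv : ∀ s s', lo t (i + 1) ≤ s → s ≤ hi t (i + 1) → lo t i ≤ s' → s' ≤ hi t i →
      (s' = s ∨ s' + 1 = s) → e t (i + 1) s ⋖ e t i s' := fun s s' a1 a2 a3 a4 a5 =>
    (Cm.cov i s s' (by omega) a1 a2 a3 a4).2 a5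
  -- the pendant is not inner
  have inner : ∀ n, lo t (i + 1) + 1 ≤ n → n + 1 ≤ hi t (i + 1) → lo t i + 1 ≤ n →
      n ≤ hi t i → y ≠ e t (i + 1) n := by
    intro n n1 n2 n3 n4 hy
    obtain ⟨m, rfl⟩ : ∃ m, n = m + 1 := ⟨n - 1, by omega⟩
    have hc := F.cp
    rw [hy] at hc
    exact nat_inner (j := j) H hn (y := e t (i + 1) (m + 1)) (x := e t (i + 1) m)
      (x' := e t (i + 1) (m + 2)) (v := e t i m) (v' := e t i (m + 1)) (p := p)
      (by rw [Cm.lev_e _ _ le_rfl (by omega) (by omega)]; exact hij)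
      (by rw [Cm.lev_e _ _ le_rfl (by omega) (by omega)]; exact hij)
      (by rw [Cm.lev_e _ _ le_rfl (by omega) (by omega)]; exact hij)
      (Cm.le_t _ _ le_rfl (by omega) (by omega)) (Cm.le_t _ _ le_rfl (by omega) (by omega))
      (Cm.le_t _ _ le_rfl (by omega) (by omega))
      (inj _ _ (by omega) (by omega) (by omega) (by omega) (by omega))
      (inj _ _ (by omega) (by omega) (by omega) (by omega) (by omega))
      (inj _ _ (by omega) (by omega) (by omega) (by omega) (by omega))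
      (cv _ _ (by omega) (by omega) (by omega) (by omega) (Or.inr rfl))
      (cv _ _ (by omega) (by omega) (by omega) (by omega) (Or.inl rfl))
      (cv _ _ (by omega) (by omega) (by omega) (by omega) (Or.inl rfl))
      (cv _ _ (by omega) (by omega) (by omega) (by omega) (Or.inr rfl)) hc
  have key : lo t (i + 1) ≤ lo t i + 1 ∧ lo t i + 2 ≤ hi t (i + 1) ∧
      (FU' i (SS i t)).card + (Sg i (SS i t) b).card = 1 ∧ (Sg i (SS i t) a).card = 0 := by
    rcases w3 with ⟨-, k1, k2, k3, k4, k5⟩ | ⟨k0, k1, k2, -⟩ | ⟨-, k1, k2, -, k3, k4, k5⟩ |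
      ⟨k0, k1, k2⟩ | ⟨k0, k1, k2, k3⟩
    · omega
    · exact (inner _ (by omega) (by omega) (by omega) (by omega) k0).elim
    · omega
    · exact (inner _ (by omega) (by omega) (by omega) (by omega) k0).elim
    · exfalso
      have e1 := Cm.hi_step i (by omega)
      have e2 := Cm.lo_step i (by omega)
      rcases Nat.eq_zero_or_pos (lo t (i + 1)) with e3 | e3
      · exact inner _ (by omega) (by omega) (by omega) (by omega) k3
      · subst k1
        have hj : j = 5 := by omega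
        subst hj
        have e5 : lo t 5 ≤ 1 := by
          show lo t (4 + 1) ≤ 1
          omega
        refine F5.NJ_no_flip5 h C hS t k0 (z := p) e5 ?_
        have e4 : y = e t 5 1 := by rw [k3, k2]
        rw [← e4]
        refine ⟨F.py, fun z hz => ?_⟩
        have := mem_uc.2 hz
        rw [F.cp, mem_singleton] at this
        exact this
  obtain ⟨g1, g2, g3, g4⟩ := key
  have hZL := nat_ZL h hij hi1 t hn Cm F.b3 w1 g1 g2
  have hal := nj_flip_al3 h hij hi1 t F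
  have hown := nj_flip_own h hij hi1 W t F
  obtain ⟨psi, hM⟩ := good_mat h.g.H (h.g.good i (by omega))
  have Q := nj_pso h hij hi1 hM t
  have hpt : (topOf p : Tops P) = t := by
    have h1 := (h.mem (i := i) (by omega) t (y := p) (by rw [F.lp]; omega)).1 F.mp
    exact Subtype.ext (Hul.top_unique (h.nj (by rw [F.lp]; omega)) (topOf p).2 t.2 (le_topOf p) h1)
  have hone : (PD P i).filter (fun p => (topOf p : Tops P) = t) = {p} := by
    rw [eq_singleton_iff_unique_mem]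
    refine ⟨mem_filter.2 ⟨F.pD, hpt⟩, fun q hq => ?_⟩
    obtain ⟨hqD, hqt⟩ := mem_filter.1 hq
    exact nj_hone h hij hi1 q hqD p F.pD (by rw [hqt, hpt])
  have hshr := nj_flip_shr h hij hi1 W (p := p) (by
    rw [hpt]; exact F)
  have hk := nj_kc h hij hi1 t F.mp F.lp
  have hzk := nj_zc_kc h hij hi1 F.lp
  have hSs : ∑ z ∈ zs i (topOf : P → Tops P) p, kc z ≤ 2 * zc i (topOf : P → Tops P) p := by
    have h1 : ∀ z ∈ zs i (topOf : P → Tops P) p, kc z ≤ 2 := by
      intro z _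
      have h2 : ks z ⊆ dc z := fun y hy => mem_dc.2 (mem_uc.1 (by rw [mem_ks.1 hy]; simp))
      have h3 := (card_le_card h2).trans (dc_card_le H z)
      unfold kc
      exact_mod_cast h3
    have h2 := Finset.sum_le_sum h1
    rw [sum_const, nsmul_eq_mul] at h2
    unfold zc
    linarith
  rw [hone, sum_singleton]
  rw [hpt] at hshr
  rw [← FL_eq Q F] at hk
  have hA : A3 i t = kc p - (ZL i (SS i t)).card := by
    unfold A3
    rw [hal, w2, g4, hk]
    have : ((FU' i (SS i t)).card : ℤ) + (Sg i (SS i t) b).card = 1 := by exact_mod_cast g3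
    push_cast
    linarith
  have hg3 : ((FU' i (SS i t)).card : ℤ) + (Sg i (SS i t) b).card = 1 := by exact_mod_cast g3
  refine ⟨(ZL i (SS i t)).card, kc p, (N1f i (SS i t)).card, zc i (topOf : P → Tops P) p,
    ∑ z ∈ zs i (topOf : P → Tops P) p, kc z,
    ∑ z ∈ zs i (topOf : P → Tops P) p, ((tw i (topOf : P → Tops P) z).card : ℤ),
    by exact_mod_cast hZL, Nat.cast_nonneg _, Nat.cast_nonneg _, Nat.cast_nonneg _, hzk, hSs,
    Finset.sum_nonneg fun _ _ => Nat.cast_nonneg _, ?_⟩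
  have hg4 : ((Sg i (SS i t) a).card : ℤ) = 0 := by exact_mod_cast g4
  rw [hown, hshr, hA, hk, hg4]
  linear_combination 4 * W.a6 * hg3

/-- THE VALUE of a natural part with a flip (twice), step 0 at the level 8: it is nonnegative -/
theorem nat_flip8 {lo hi : Tops P → ℕ → ℕ} {e : Tops P → ℕ → ℕ → P}
    (C : ∀ t : Tops P, Cp.Comp (i + 1) (t : P) (lo t) (hi t) (e t))
    (hS : ∀ t : Tops P, Shape (i + 1) (lo t) (hi t)) {t : Tops P}
    (hn : NatT j (t : P)) (hF : F5 i (SS i t) ≠ ∅) :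
    0 ≤ 2 * own ⟨-1, 7, 1, 2, 1, 1, 1, 6, 2⟩ i j t +
      ∑ p ∈ (PD P i).filter (fun p => (topOf p : Tops P) = t),
        shr ⟨-1, 7, 1, 2, 1, 1, 1, 6, 2⟩ i p := by
  classical
  obtain ⟨L, k, N, z, S, T, k1, k2, k3, k4, k5, k6, k7, k8⟩ :=
    nat_flip_gen h hij hi1 ⟨-1, 7, 1, 2, 1, 1, 1, 6, 2⟩ C hS hn hF
  have e3 := EK.NJ.nat_F3 h (by omega) hn
  obtain ⟨-, e2⟩ := EK.NJ.nat_win h (by omega) hn
  have g1 := card_le_card (W4.DU_sub j (cext (j + 1) (topOf : P → Tops P) t))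
  have g2 := card_le_card (W4.T4_subset j (cext (j + 1) (topOf : P → Tops P) t))
  obtain ⟨K, psi, R⟩ := EK.exists_red P j
  have e6 := (EK.NJ.w3_sq h (by omega) R t).1
  have e6' : 0 ≤ Pn.F6 j t := e6
  have g1' : (((W4.DU j (cext (j + 1) (topOf : P → Tops P) t)).card : ℕ) : ℤ) ≤
    (W4.DC j (cext (j + 1) (topOf : P → Tops P) t)).card := by exact_mod_cast g1
  have g2' : (((W4.T4 j (cext (j + 1) (topOf : P → Tops P) t)).card : ℕ) : ℤ) ≤
    (W4.Z4 j (cext (j + 1) (topOf : P → Tops P) t)).card := by exact_mod_cast g2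
  have g3' : (0 : ℤ) ≤ (W4.D2 j (cext (j + 1) (topOf : P → Tops P) t)).card :=
    Int.natCast_nonneg _
  have hw : 0 ≤ F2 j t + F4 j t + 2 * F6 j t := by linarith
  rw [k8]
  simp only
  rw [e3]
  have q1 : z = 0 ∨ z = 1 ∨ z = 2 := by omega
  have q2 : k = 0 ∨ k = 1 ∨ k = 2 := by omega
  have q3 : 0 ≤ L * (L - 1) := mul_nonneg (by omega) (by omega)
  rcases q1 with rfl | rfl | rfl <;> rcases q2 with rfl | rfl | rfl <;>
    first | omega | nlinarith

end nj

end Pool.Agent.GaussPoset.Win.Pf
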