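import Pool.Agent.W_448so_h17.CrD
import Pool.Agent.W_448co_h5.PartD

/-!
# Pinned window series (MP_448cb3_co, G2, case B, window j - 1)

`ZP i C t n`: the window sum of the part `C` over the configurations which are positive on the elements
of `W` in `C`. Factorisation over disjoint parts.
-/

namespace Pool.Agent.GaussPoset.Win.Pn

set_option linter.unusedSectionVars false

open Finset

universe u

variable {P : Type u} [Fintype P] [PartialOrder P] [DecidableEq P] {r i : ℕ}

variable {C D : Finset P} {t e f : P → ℕ}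

/-- at least `t` on the part -/
def Pin (C : Finset P) (t e : P → ℕ) : Prop := ∀ w ∈ C, t w ≤ e w

open Classical in
/-- the pinned window sum -/
noncomputable def ZP (i : ℕ) (C : Finset P) (t : P → ℕ) (n : ℕ) : A :=
  ∑ e ∈ (C.piAntidiag n).filter (Pin C t), tC i C e

/-- the pinned window series -/
noncomputable def ZPS (i : ℕ) (C : Finset P) (t : P → ℕ) : PowerSeries A :=
  PowerSeries.mk (ZP i C t)

lemma coeff_ZPS (C : Finset P) (t : P → ℕ) (n : ℕ) :
    PowerSeries.coeff n (ZPS i C t) = ZP i C t n := by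
  unfold ZPS
  rw [PowerSeries.coeff_mk]

lemma pin_of_zero (h : ∀ w ∈ C, t w = 0) : Pin C t e := fun w hw => by
  rw [h w hw]
  exact Nat.zero_le _

lemma ZP_disj (h : ∀ w ∈ C, t w = 0) (n : ℕ) : ZP i C t n = ZC i C n := by
  classical
  unfold ZP ZC
  rw [filter_true_of_mem fun e _ => pin_of_zero h]

lemma ZPS_disj (h : ∀ w ∈ C, t w = 0) : ZPS i C t = ZS i C := by
  ext1 n
  rw [coeff_ZPS, coeff_ZS, ZP_disj h]

lemma pin_add (hCD : Disjoint C D) (he : Spt C e) (hf : Spt D f) :
    Pin (C ∪ D) t (e + f) ↔ Pin C t e ∧ Pin D t f := by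
  constructor
  · intro h
    refine ⟨fun w hwC => ?_, fun w hwD => ?_⟩
    · have h1 := h w (mem_union_left _ hwC)
      rwa [Pi.add_apply, hf w (disjoint_left.1 hCD hwC), add_zero] at h1
    · have h1 := h w (mem_union_right _ hwD)
      rwa [Pi.add_apply, he w (disjoint_right.1 hCD hwD), zero_add] at h1
  · rintro ⟨h1, h2⟩ w hwCD
    rw [Pi.add_apply]
    rcases mem_union.1 hwCD with h | h
    · have := h1 w h
      omega
    · have := h2 w h
      omega

theorem ZP_union (H : Gr P r) (hir : i ≤ r) (hC : Part i C) (hD : Part i D)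
    (hCD : Disjoint C D) (n : ℕ) :
    ZP i (C ∪ D) t n = ∑ p ∈ antidiagonal n, ZP i C t p.1 * ZP i D t p.2 := by
  classical
  have h1 : ∑ p ∈ antidiagonal n, ZP i C t p.1 * ZP i D t p.2 =
      ∑ q ∈ (antidiagonal n).sigma (fun p => (C.piAntidiag p.1).filter (Pin C t) ×ˢ
        (D.piAntidiag p.2).filter (Pin D t)), tC i C q.2.1 * tC i D q.2.2 := by
    rw [Finset.sum_sigma]
    refine Finset.sum_congr rfl fun p _ => ?_
    unfold ZP
    rw [Finset.sum_mul_sum, ← Finset.sum_product']
  rw [h1]
  unfold ZP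
  refine Finset.sum_bij'
    (i := fun g _ => (⟨(C.sum g, D.sum g), (rst C g, rst D g)⟩ :
      Σ _ : ℕ × ℕ, (P → ℕ) × (P → ℕ)))
    (j := fun q _ => q.2.1 + q.2.2) ?_ ?_ ?_ ?_ ?_
  · intro g hg
    rw [mem_filter] at hg
    obtain ⟨hg, hpin⟩ := hg
    have hs := spt_of_mem hg
    rw [mem_piAntidiag] at hg
    rw [mem_sigma]
    have hpin' : Pin C t (rst C g) ∧ Pin D t (rst D g) := by
      rw [← pin_add hCD (rst_spt C g) (rst_spt D g), rst_add_rst hCD hs]
      exact hpin
    refine ⟨?_, ?_⟩
    · rw [Finset.HasAntidiagonal.mem_antidiagonal]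
      simp only
      rw [← Finset.sum_union hCD]
      exact hg.1
    · rw [mem_product, mem_filter, mem_filter, mem_piAntidiag, mem_piAntidiag]
      refine ⟨⟨⟨rst_sum C g, fun x hx => ?_⟩, hpin'.1⟩, ⟨rst_sum D g, fun x hx => ?_⟩, hpin'.2⟩
      · by_contra h; exact hx (rst_spt C g x h)
      · by_contra h; exact hx (rst_spt D g x h)
  · rintro ⟨⟨a, b⟩, ⟨e, f⟩⟩ hq
    rw [mem_sigma, mem_product] at hq
    simp only at hq
    obtain ⟨hab, he, hf⟩ := hq
    rw [mem_filter] at he hf
    obtain ⟨he, hpe⟩ := he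
    obtain ⟨hf, hpf⟩ := hf
    have hse := spt_of_mem he
    have hsf := spt_of_mem hf
    rw [mem_piAntidiag] at he hf
    rw [Finset.HasAntidiagonal.mem_antidiagonal] at hab
    rw [mem_filter, mem_piAntidiag]
    simp only
    refine ⟨⟨?_, ?_⟩, (pin_add hCD hse hsf).2 ⟨hpe, hpf⟩⟩
    · have h2 := sum_zero_of hCD hse
      have h3 := sum_zero_of hCD.symm hsf
      have h4 : C.sum (e + f) = a := by
        have : C.sum (e + f) = C.sum e + C.sum f := by
          rw [← Finset.sum_add_distrib]; rfl
        rw [this, he.1, h3, add_zero]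
      have h5 : D.sum (e + f) = b := by
        have : D.sum (e + f) = D.sum e + D.sum f := by
          rw [← Finset.sum_add_distrib]; rfl
        rw [this, hf.1, h2, zero_add]
      rw [Finset.sum_union hCD, h4, h5]
      exact hab
    · intro x hx
      by_contra h
      exact hx ((hse.add hsf) x h)
  · intro g hg
    exact rst_add_rst hCD (spt_of_mem (mem_filter.1 hg).1)
  · rintro ⟨⟨a, b⟩, ⟨e, f⟩⟩ hq
    rw [mem_sigma, mem_product] at hq
    simp only at hq
    obtain ⟨hab, he, hf⟩ := hq
    rw [mem_filter] at he hf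
    obtain ⟨he, hpe⟩ := he
    obtain ⟨hf, hpf⟩ := hf
    have hse := spt_of_mem he
    have hsf := spt_of_mem hf
    rw [mem_piAntidiag] at he hf
    have h2 := sum_zero_of hCD hse
    have h3 := sum_zero_of hCD.symm hsf
    have h4 : C.sum (e + f) = a := by
      have : C.sum (e + f) = C.sum e + C.sum f := by
        rw [← Finset.sum_add_distrib]; rfl
      rw [this, he.1, h3, add_zero]
    have h5 : D.sum (e + f) = b := by
      have : D.sum (e + f) = D.sum e + D.sum f := by
        rw [← Finset.sum_add_distrib]; rfl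
      rw [this, hf.1, h2, zero_add]
    have h6 : rst C (e + f) = e := rst_left hCD hse hsf
    have h7 : rst D (e + f) = f := by
      rw [add_comm e f]
      exact rst_left hCD.symm hsf hse
    simp only [h4, h5, h6, h7]
  · intro g hg
    have hs := spt_of_mem (mem_filter.1 hg).1
    simp only
    rw [← tC_add H hir hC hD hCD (rst_spt C g) (rst_spt D g), rst_add_rst hCD hs]

theorem ZPS_union (H : Gr P r) (hir : i ≤ r) (hC : Part i C) (hD : Part i D)
    (hCD : Disjoint C D) : ZPS i (C ∪ D) t = ZPS i C t * ZPS i D t := by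
  ext1 n
  rw [coeff_ZPS, PowerSeries.coeff_mul, ZP_union H hir hC hD hCD]
  simp only [coeff_ZPS]

/-- FACTORISATION of the pinned series over pairwise disjoint parts -/
theorem ZPS_biUnion (H : Gr P r) (hir : i ≤ r) {ι : Type*} [DecidableEq ι] (s : Finset ι)
    (c : ι → Finset P) (hc : ∀ a ∈ s, Part i (c a))
    (hd : ∀ a ∈ s, ∀ b ∈ s, a ≠ b → Disjoint (c a) (c b)) :
    ZPS i (s.biUnion c) t = ∏ a ∈ s, ZPS i (c a) t := by
  induction s using Finset.induction_on with
  | empty =>
    rw [Finset.biUnion_empty, Finset.prod_empty, ZPS_disj (fun w hw => absurd hw (notMem_empty w)),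
      ZS_empty H hir]
  | insert a s ha ih =>
    rw [Finset.biUnion_insert, Finset.prod_insert ha, ZPS_union H hir, ih]
    · exact fun b hb => hc b (mem_insert_of_mem hb)
    · exact fun b hb b' hb' => hd b (mem_insert_of_mem hb) b' (mem_insert_of_mem hb')
    · exact hc a (mem_insert_self a s)
    · exact Part.biUnion s c fun b hb => hc b (mem_insert_of_mem hb)
    · rw [disjoint_biUnion_right]
      intro b hb
      refine hd a (mem_insert_self a s) b (mem_insert_of_mem hb) ?_
      rintro rfl
      exact ha hb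

variable {ι : Type*} [DecidableEq ι] {κ : P → ι} {l : ℕ}

theorem ZPS_cuni (H : Gr P r) (hir : i ≤ r) (hil : i ≤ l) (hκ : Split l κ) :
    ZPS i (cuni l κ) t = ∏ a ∈ univ.image κ, ZPS i (cext l κ a) t :=
  ZPS_biUnion H hir _ _ (fun a _ => part_cext H hil hκ a) (fun _ _ _ _ h => disj_cext h)

end Pool.Agent.GaussPoset.Win.Pn
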