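import Pool.Agent.W_448pn_h63.PnA

/-!
# Crossing factorisation (MP_448cb3_co, G2, case B, window j - 1)

`G`: the labels of the elements outside the extended components. If they are at most two, then the sum
over the configurations with these labels is the pinned window sum of the union of the components.
-/

namespace Pool.Agent.GaussPoset.Win.Pn

set_option linter.unusedSectionVars false

open Finset

universe u

variable {P : Type u} [Fintype P] [PartialOrder P] [DecidableEq P] {r i l : ℕ}

variable {ι : Type*} [DecidableEq ι] {κ : P → ι} {e f G : P → ℕ}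

/-- the elements outside the extended components -/
noncomputable def Crs (l : ℕ) (κ : P → ι) : Finset P := univ \ cuni l κ

lemma mem_Crs {z : P} : z ∈ Crs l κ ↔ z ∉ cuni l κ := by
  unfold Crs
  simp

/-- the thresholds given by the labels outside the components -/
noncomputable def th (G : P → ℕ) (w : P) : ℕ := (dc w).sup G

lemma th_le {w : P} {n : ℕ} : th G w ≤ n ↔ ∀ z, z ⋖ w → G z ≤ n := by
  unfold th
  rw [Finset.sup_le_iff]
  simp only [mem_dc]

/-- the labels outside the components do not decrease upwards -/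
def Mon (l : ℕ) (κ : P → ι) (G : P → ℕ) : Prop := ∀ z y, z ⋖ y → y ∉ cuni l κ → G z ≤ G y

lemma up_cuni (H : Gr P r) {x y : P} (hx : x ∈ cuni l κ) (hxy : x ⋖ y) : y ∈ cuni l κ := by
  unfold cuni at hx ⊢
  rw [mem_biUnion] at hx ⊢
  obtain ⟨a, ha, hx⟩ := hx
  refine ⟨a, ha, ?_⟩
  rw [mem_cext] at hx ⊢
  exact fun w hw hl => hx w (hxy.le.trans hw) hl

/-- a small label cannot be killed at the distance two -/
lemma kill_bad (H : Gr P r) {w : P} (hw : i + 2 ≤ lev w) (h1 : e w ≤ 1) (h : FD e w) :
    ¬ AdmL i e := by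
  intro hA
  obtain ⟨y, hy⟩ := uc_nonempty H (x := w) (by omega)
  have hly := lev_uc H hy
  have h2 : ¬ GU e w := fun h2 => hA w (by omega) ⟨h, h2⟩
  have h3 : e y < e w := by
    by_contra h3
    exact h2 ⟨y, mem_uc.1 hy, by omega⟩
  obtain ⟨s, hs⟩ := uc_nonempty H (x := y) (by omega)
  exact hA y (by omega) ⟨⟨w, mem_uc.1 hy, h3⟩, s, mem_uc.1 hs, by omega⟩

lemma trm_bad (h : ¬ (AdmL i e ∧ AdmU i e)) : trm i e = 0 := by
  unfold trm cw
  rw [if_neg h, zero_mul, ite_self]

section fact

variable (H : Gr P r) (hir : i ≤ r) (hil : i + 2 ≤ l) (hκ : Split l κ) (hG : Spt (Crs l κ) G)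
  (hf : Spt (cuni l κ) f)
include hκ hG hf

lemma add_out {z : P} (hz : z ∉ cuni l κ) : (G + f) z = G z := by
  rw [Pi.add_apply, hf z hz, add_zero]

lemma add_in {z : P} (hz : z ∈ cuni l κ) : (G + f) z = f z := by
  rw [Pi.add_apply, hG z (fun h => mem_Crs.1 h hz), zero_add]

include H hil

/-- otherwise the term is zero -/
theorem fact_zero (h2 : ∀ z, G z ≤ 2) (h : ¬ (Mon l κ G ∧ Pin (cuni l κ) (th G) f)) :
    trm i (G + f) = 0 := by
  have key : ∀ z w, z ⋖ w → z ∉ cuni l κ → (G + f) w < G z → trm i (G + f) = 0 := by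
    intro z w hzw hz hlt
    apply trm_bad
    rintro ⟨hA, -⟩
    have h3 := (two_up H hκ hz).1
    have h4 := lev_uc H (mem_uc.2 hzw)
    have h5 := h2 z
    exact kill_bad H (i := i) (w := w) (by omega) (by omega)
      ⟨z, hzw, by rw [add_out hκ hG hf hz]; exact hlt⟩ hA
  rw [not_and_or] at h
  rcases h with h | h
  · unfold Mon at h
    push Not at h
    obtain ⟨z, y, hzy, hy, hlt⟩ := h
    have hz : z ∉ cuni l κ := fun hz => hy (up_cuni H hz hzy)
    exact key z y hzy hz (by rw [add_out hκ hG hf hy]; exact hlt)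
  · unfold Pin at h
    push Not at h
    obtain ⟨w, hw, hlt⟩ := h
    have h3 : ∃ z, z ⋖ w ∧ f w < G z := by
      by_contra h3
      push Not at h3
      have := th_le.2 h3
      omega
    obtain ⟨z, hzw, hlt'⟩ := h3
    have hz : z ∉ cuni l κ := by
      intro hz
      rw [hG z (fun h => mem_Crs.1 h hz)] at hlt'
      omega
    exact key z w hzw hz (by rw [add_in hκ hG hf hw]; exact hlt')

variable (hm : Mon l κ G) (hp : Pin (cuni l κ) (th G) f)
include hm hp

omit hil in
lemma fact_FD (x : P) : FD (G + f) x ↔ FD f x := by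
  by_cases hx : x ∈ cuni l κ
  · have hpx := th_le.1 (hp x hx)
    constructor
    · rintro ⟨x', hx', hlt⟩
      rw [add_in hκ hG hf hx] at hlt
      by_cases hx2 : x' ∈ cuni l κ
      · exact ⟨x', hx', by rwa [add_in hκ hG hf hx2] at hlt⟩
      · rw [add_out hκ hG hf hx2] at hlt
        have := hpx x' hx'
        omega
    · rintro ⟨x', hx', hlt⟩
      refine ⟨x', hx', ?_⟩
      rw [add_in hκ hG hf hx, Pi.add_apply]
      omega
  · constructor
    · rintro ⟨x', hx', hlt⟩
      have hx2 : x' ∉ cuni l κ := fun h => hx (up_cuni H h hx')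
      rw [add_out hκ hG hf hx, add_out hκ hG hf hx2] at hlt
      have := hm x' x hx' hx
      omega
    · rintro ⟨x', hx', hlt⟩
      have hx2 : x' ∉ cuni l κ := fun h => hx (up_cuni H h hx')
      rw [hf x' hx2] at hlt
      omega

omit hil in
lemma fact_GU {x : P} (hx1 : 1 ≤ lev x) : GU (G + f) x ↔ GU f x := by
  by_cases hx : x ∈ cuni l κ
  · constructor
    · rintro ⟨y, hy, hle⟩
      refine ⟨y, hy, ?_⟩
      rwa [add_in hκ hG hf hx, add_in hκ hG hf (up_cuni H hx hy)] at hle
    · rintro ⟨y, hy, hle⟩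
      refine ⟨y, hy, ?_⟩
      rwa [add_in hκ hG hf hx, add_in hκ hG hf (up_cuni H hx hy)]
  · obtain ⟨y, hy⟩ := uc_nonempty H hx1
    refine iff_of_true ⟨y, mem_uc.1 hy, ?_⟩ ⟨y, mem_uc.1 hy, ?_⟩
    · rw [add_out hκ hG hf hx]
      by_cases hy2 : y ∈ cuni l κ
      · rw [add_in hκ hG hf hy2]
        exact th_le.1 (hp y hy2) x (mem_uc.1 hy)
      · rw [add_out hκ hG hf hy2]
        exact hm x y (mem_uc.1 hy) hy2
    · rw [hf x hx]
      exact Nat.zero_le _

omit hm hp in
lemma fact_FU {x : P} (hx : lev x ≤ i) : FU (G + f) x ↔ FU f x := by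
  have hx2 : x ∈ cuni l κ := le_mem_cuni hκ (by omega)
  constructor
  · rintro ⟨y, hy, hlt⟩
    refine ⟨y, hy, ?_⟩
    rwa [add_in hκ hG hf hx2, add_in hκ hG hf (up_cuni H hx2 hy)] at hlt
  · rintro ⟨y, hy, hlt⟩
    refine ⟨y, hy, ?_⟩
    rwa [add_in hκ hG hf hx2, add_in hκ hG hf (up_cuni H hx2 hy)]

omit hm hp in
lemma fact_GD {x : P} (hx : lev x < i) : GD (G + f) x ↔ GD f x := by
  have hx2 : x ∈ cuni l κ := le_mem_cuni hκ (by omega)
  have key : ∀ z, z ⋖ x → z ∈ cuni l κ := by
    intro z hz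
    have := lev_uc H (mem_uc.2 hz)
    exact le_mem_cuni hκ (by omega)
  constructor
  · rintro ⟨y, hy, hlt⟩
    refine ⟨y, hy, ?_⟩
    rwa [add_in hκ hG hf hx2, add_in hκ hG hf (key y hy)] at hlt
  · rintro ⟨y, hy, hlt⟩
    refine ⟨y, hy, ?_⟩
    rwa [add_in hκ hG hf hx2, add_in hκ hG hf (key y hy)]

/-- the term factorises -/
theorem fact_term : trm i (G + f) = tC i (cuni l κ) f := by
  classical
  have h1 : AdmL i (G + f) ↔ AdmL i f := by
    unfold AdmL
    refine forall_congr' fun z => ?_
    refine imp_congr_right fun hz => ?_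
    rw [fact_FD H hκ hG hf hm hp, fact_GU H hκ hG hf hm hp (by omega)]
  have h2 : AdmU i (G + f) ↔ AdmU i f := by
    unfold AdmU
    refine forall_congr' fun z => ?_
    refine imp_congr_right fun hz => ?_
    rw [fact_FU H hil hκ hG hf (by omega), fact_GD H hil hκ hG hf hz]
  have h3 : aL i (G + f) = aL i f := by
    unfold aL
    congr 1
    refine Finset.filter_congr fun z _ => ?_
    rw [fact_FD H hκ hG hf hm hp]
  have h4 : pL i (G + f) = pL i f := by
    unfold pL
    congr 1
    refine Finset.filter_congr fun z _ => ?_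
    refine and_congr_right fun hz => ?_
    rw [fact_FD H hκ hG hf hm hp, fact_GU H hκ hG hf hm hp (by omega)]
  have h5 : aU i (G + f) = aU i f := by
    unfold aU
    congr 1
    refine Finset.filter_congr fun z _ => ?_
    refine and_congr_right fun hz => ?_
    rw [fact_FU H hil hκ hG hf (by omega)]
  have h6 : pU i (G + f) = pU i f := by
    unfold pU
    congr 1
    refine Finset.filter_congr fun z _ => ?_
    refine and_congr_right fun hz => ?_
    rw [fact_FU H hil hκ hG hf (by omega), fact_GD H hil hκ hG hf hz]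
  have h7 : AL i (G + f) = AL i f := by
    unfold AL
    refine Finset.filter_congr fun z _ => ?_
    rw [fact_FD H hκ hG hf hm hp]
  have h8 : AU i (G + f) = AU i f := by
    unfold AU
    refine Finset.filter_congr fun z hz => ?_
    rw [mem_lv] at hz
    rw [fact_FU H hil hκ hG hf (by omega)]
  unfold trm tC cw
  rw [h3, h4, h5, h6, h7, h8, st_cuni (by omega) hκ]
  simp only [h1, h2]

end fact

end Pool.Agent.GaussPoset.Win.Pn
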