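import Pool.Agent.W_448pn_h63.PnB

/-!
# Crossing configurations as products of pinned series (MP_448cb3_co, G2, case B, window j - 1)
-/

namespace Pool.Agent.GaussPoset.Win.Pn

set_option linter.unusedSectionVars false

open Finset

universe u

variable {P : Type u} [Fintype P] [PartialOrder P] [DecidableEq P] {r i l : ℕ}

variable {C D : Finset P}

/-- a sum over the configurations on a disjoint union -/
theorem split_sum {M : Type*} [AddCommMonoid M] (hCD : Disjoint C D) (F : (P → ℕ) → M) (n : ℕ) :
    ∑ e ∈ (C ∪ D).piAntidiag n, F e = ∑ p ∈ Finset.HasAntidiagonal.antidiagonal n,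
      ∑ g ∈ C.piAntidiag p.1, ∑ f ∈ D.piAntidiag p.2, F (g + f) := by
  classical
  have h1 : ∑ p ∈ Finset.HasAntidiagonal.antidiagonal n,
      ∑ g ∈ C.piAntidiag p.1, ∑ f ∈ D.piAntidiag p.2, F (g + f) =
      ∑ q ∈ (Finset.HasAntidiagonal.antidiagonal n).sigma (fun p => (C.piAntidiag p.1) ×ˢ
        (D.piAntidiag p.2)), F (q.2.1 + q.2.2) := by
    rw [Finset.sum_sigma]
    refine Finset.sum_congr rfl fun p _ => ?_
    rw [← Finset.sum_product']
  rw [h1]
  refine Finset.sum_bij'
    (i := fun g _ => (⟨(C.sum g, D.sum g), (rst C g, rst D g)⟩ :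
      Σ _ : ℕ × ℕ, (P → ℕ) × (P → ℕ)))
    (j := fun q _ => q.2.1 + q.2.2) ?_ ?_ ?_ ?_ ?_
  · intro g hg
    have hs := spt_of_mem hg
    rw [mem_piAntidiag] at hg
    rw [mem_sigma]
    refine ⟨?_, ?_⟩
    · rw [Finset.HasAntidiagonal.mem_antidiagonal]
      simp only
      rw [← Finset.sum_union hCD]
      exact hg.1
    · rw [mem_product, mem_piAntidiag, mem_piAntidiag]
      refine ⟨⟨rst_sum C g, fun x hx => ?_⟩, ⟨rst_sum D g, fun x hx => ?_⟩⟩
      · by_contra h; exact hx (rst_spt C g x h)
      · by_contra h; exact hx (rst_spt D g x h)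
  · rintro ⟨⟨a, b⟩, ⟨e, f⟩⟩ hq
    rw [mem_sigma, mem_product] at hq
    simp only at hq
    obtain ⟨hab, he, hf⟩ := hq
    have hse := spt_of_mem he
    have hsf := spt_of_mem hf
    rw [mem_piAntidiag] at he hf
    rw [Finset.HasAntidiagonal.mem_antidiagonal] at hab
    rw [mem_piAntidiag]
    simp only
    refine ⟨?_, ?_⟩
    · have h2 := sum_zero_of hCD hse
      have h3 := sum_zero_of hCD.symm hsf
      have h4 : C.sum (e + f) = a := by
        have : C.sum (e + f) = C.sum e + C.sum f := by
          rw [← Finset.sum_add_distrib]; rfl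
        rw [this, he.1, h3, add_zero]
      have h5 : D.sum (e + f) = b := by
        have : D.sum (e + f) = D.sum e + D.sum f := by
          rw [← Finset.sum_add_distrib]; rfl
        rw [this, hf.1, h2, zero_add]
      rw [Finset.sum_union hCD, h4, h5]
      exact hab
    · intro x hx
      by_contra h
      exact hx ((hse.add hsf) x h)
  · intro g hg
    exact rst_add_rst hCD (spt_of_mem hg)
  · rintro ⟨⟨a, b⟩, ⟨e, f⟩⟩ hq
    rw [mem_sigma, mem_product] at hq
    simp only at hq
    obtain ⟨hab, he, hf⟩ := hq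
    have hse := spt_of_mem he
    have hsf := spt_of_mem hf
    rw [mem_piAntidiag] at he hf
    have h2 := sum_zero_of hCD hse
    have h3 := sum_zero_of hCD.symm hsf
    have h4 : C.sum (e + f) = a := by
      have : C.sum (e + f) = C.sum e + C.sum f := by
        rw [← Finset.sum_add_distrib]; rfl
      rw [this, he.1, h3, add_zero]
    have h5 : D.sum (e + f) = b := by
      have : D.sum (e + f) = D.sum e + D.sum f := by
        rw [← Finset.sum_add_distrib]; rfl
      rw [this, hf.1, h2, zero_add]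
    have h6 : rst C (e + f) = e := rst_left hCD hse hsf
    have h7 : rst D (e + f) = f := by
      rw [add_comm e f]
      exact rst_left hCD.symm hsf hse
    simp only [h4, h5, h6, h7]
  · intro g hg
    have hs := spt_of_mem hg
    simp only
    rw [rst_add_rst hCD hs]

variable {ι : Type*} [DecidableEq ι] {κ : P → ι} {e f G : P → ℕ}

lemma crs_union : Crs l κ ∪ cuni l κ = univ := by
  unfold Crs
  exact sdiff_union_of_subset (subset_univ _)

lemma crs_disj : Disjoint (Crs l κ) (cuni l κ) := sdiff_disjoint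

open Classical in
/-- the admissible labels outside the components, of total `m`, at most two -/
noncomputable def GG (l : ℕ) (κ : P → ι) (m : ℕ) : Finset (P → ℕ) :=
  ((Crs l κ).piAntidiag m).filter (fun G => (∀ z, G z ≤ 2) ∧ Mon l κ G)

/-- some label outside the components is at least three -/
def Big (l : ℕ) (κ : P → ι) (e : P → ℕ) : Prop := ∃ z, z ∉ cuni l κ ∧ 3 ≤ e z

/-- the product of the pinned series -/
noncomputable def PPS (i l : ℕ) (κ : P → ι) (G : P → ℕ) : PowerSeries A :=
  ∏ a ∈ univ.image κ, ZPS i (cext l κ a) (th G)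

lemma small_iff (hG : Spt (Crs l κ) G) (hf : Spt (cuni l κ) f) (hκ : Split l κ) :
    (∀ z, G z ≤ 2) ↔ ¬ Big l κ (G + f) := by
  unfold Big
  constructor
  · rintro h ⟨z, hz, h3⟩
    rw [add_out hκ hG hf hz] at h3
    have := h z
    omega
  · intro h z
    by_contra h2
    by_cases hz : z ∈ cuni l κ
    · rw [hG z (fun h => mem_Crs.1 h hz)] at h2
      omega
    · exact h ⟨z, hz, by rw [add_out hκ hG hf hz]; omega⟩

open Classical in
/-- the sum over the configurations with given labels outside the components -/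
theorem inner_sum (H : Gr P r) (hir : i ≤ r) (hil : i + 2 ≤ l) (hκ : Split l κ)
    (hG : Spt (Crs l κ) G) (h2 : ∀ z, G z ≤ 2) (n : ℕ) :
    ∑ f ∈ (cuni l κ).piAntidiag n, trm i (G + f) =
      if Mon l κ G then PowerSeries.coeff n (PPS i l κ G) else 0 := by
  classical
  unfold PPS
  rw [← ZPS_cuni H hir (by omega) hκ, coeff_ZPS]
  split_ifs with hm
  · unfold ZP
    rw [Finset.sum_filter]
    refine Finset.sum_congr rfl fun f hf => ?_
    split_ifs with hp
    · exact fact_term H hil hκ hG (spt_of_mem hf) hm hp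
    · exact fact_zero H hil hκ hG (spt_of_mem hf) h2 (fun h => hp h.2)
  · exact Finset.sum_eq_zero fun f hf =>
      fact_zero H hil hκ hG (spt_of_mem hf) h2 (fun h => hm h.1)

open Classical in
/-- THE CROSSING SUM: products of pinned series, and the configurations with a label at least three
outside the components -/
theorem cross_sum (H : Gr P r) (hir : i ≤ r) (hil : i + 2 ≤ l) (hκ : Split l κ) (n : ℕ) :
    ∑ e ∈ ((univ : Finset P).piAntidiag n).filter (fun e => ∃ z, z ∉ cuni l κ ∧ 1 ≤ e z),
      trm i e =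
    ∑ p ∈ (Finset.HasAntidiagonal.antidiagonal n).filter (fun p => 1 ≤ p.1),
      ∑ G ∈ GG l κ p.1, PowerSeries.coeff p.2 (PPS i l κ G) +
    ∑ e ∈ ((univ : Finset P).piAntidiag n).filter (Big l κ), trm i e := by
  classical
  rw [Finset.sum_filter, Finset.sum_filter (s := (univ : Finset P).piAntidiag n), ← crs_union
    (l := l) (κ := κ), split_sum crs_disj, split_sum crs_disj, Finset.sum_filter,
    ← Finset.sum_add_distrib]
  refine Finset.sum_congr rfl fun p hp => ?_
  have h0 : ∀ g ∈ (Crs l κ).piAntidiag p.1, ∀ f ∈ (cuni l κ).piAntidiag p.2,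
      ((∃ z, z ∉ cuni l κ ∧ 1 ≤ (g + f) z) ↔ 1 ≤ p.1) := by
    intro g hg f hf
    have hgs := spt_of_mem hg
    have hfs := spt_of_mem hf
    rw [mem_piAntidiag] at hg
    constructor
    · rintro ⟨z, hz, h1⟩
      rw [add_out hκ hgs hfs hz] at h1
      rw [← hg.1]
      exact h1.trans (Finset.single_le_sum (f := g) (fun _ _ => Nat.zero_le _) (mem_Crs.2 hz))
    · intro h1
      by_contra h2
      push Not at h2
      have : (Crs l κ).sum g = 0 := Finset.sum_eq_zero fun z hz => by
        have h3 := h2 z (mem_Crs.1 hz)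
        rw [add_out hκ hgs hfs (mem_Crs.1 hz)] at h3
        omega
      omega
  have h1 : ∀ g ∈ (Crs l κ).piAntidiag p.1,
      ∑ f ∈ (cuni l κ).piAntidiag p.2,
        (if ∃ z, z ∉ cuni l κ ∧ 1 ≤ (g + f) z then trm i (g + f) else 0) =
      (if 1 ≤ p.1 then (if (∀ z, g z ≤ 2) ∧ Mon l κ g then
        PowerSeries.coeff p.2 (PPS i l κ g) else 0) else 0) +
      ∑ f ∈ (cuni l κ).piAntidiag p.2, (if Big l κ (g + f) then trm i (g + f) else 0) := by
    intro g hg
    have hgs := spt_of_mem hg
    by_cases h2 : ∀ z, g z ≤ 2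
    · rw [Finset.sum_eq_zero (s := (cuni l κ).piAntidiag p.2)
        (f := fun f => if Big l κ (g + f) then trm i (g + f) else 0) (fun f hf => by
          rw [if_neg ((small_iff hgs (spt_of_mem hf) hκ).1 h2)]), add_zero]
      by_cases h3 : 1 ≤ p.1
      · rw [if_pos h3, Finset.sum_congr rfl (fun f hf => if_pos ((h0 g hg f hf).2 h3)),
          inner_sum H hir hil hκ hgs h2]
        by_cases hm : Mon l κ g
        · rw [if_pos hm, if_pos ⟨h2, hm⟩]
        · rw [if_neg hm, if_neg (fun h => hm h.2)]
      · rw [if_neg h3]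
        exact Finset.sum_eq_zero fun f hf => if_neg (fun h => h3 ((h0 g hg f hf).1 h))
    · have h3 : ∀ f ∈ (cuni l κ).piAntidiag p.2, Big l κ (g + f) := by
        intro f hf
        by_contra h
        exact h2 ((small_iff hgs (spt_of_mem hf) hκ).2 h)
      have h4 : (if 1 ≤ p.1 then (if (∀ z, g z ≤ 2) ∧ Mon l κ g then
          PowerSeries.coeff p.2 (PPS i l κ g) else 0) else 0) = 0 := by
        rw [if_neg (show ¬ ((∀ z, g z ≤ 2) ∧ Mon l κ g) from fun h => h2 h.1), ite_self]
      rw [h4, zero_add]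
      refine Finset.sum_congr rfl fun f hf => ?_
      rw [if_pos (h3 f hf), if_pos]
      obtain ⟨z, hz, h⟩ := h3 f hf
      exact ⟨z, hz, by omega⟩
  rw [Finset.sum_congr rfl h1, Finset.sum_add_distrib]
  congr 1
  by_cases h3 : 1 ≤ p.1
  · simp only [if_pos h3]
    unfold GG
    rw [Finset.sum_filter]
  · simp only [if_neg h3]
    rw [Finset.sum_const_zero]

end Pool.Agent.GaussPoset.Win.Pn
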