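import Pool.Agent.W_448pn_h63.PnC
import Pool.Agent.W_448t8_h97.TB

/-!
# Half profiles (MP_448cb3_co, G2, case B, window j - 1)

`HP`: at the energy `n` at most `n / 2` deficits. The leading coefficients at the even energies of the
pinned series are those of a monomial (`Mo`), and those at the odd energies are a derivation.
-/

set_option autoImplicit false

namespace Pool.Agent.GaussPoset.Win.Pn

set_option linter.unusedSectionVars false

open Finset I2

/-- at most `n / 2` deficits at the energy `n` -/
def HP (b : ℕ) (V : PowerSeries A) : Prop :=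
  ∀ n, n ≤ 9 → dd ^ b ∣ dd ^ (n / 2) * PowerSeries.coeff n V

/-- the leading coefficient at the energy `n` -/
noncomputable def hc (n b : ℕ) (V : PowerSeries A) : ℤ :=
  PowerSeries.coeff b (dd ^ (n / 2) * PowerSeries.coeff n V : A)

lemma pow_half (i j : ℕ) (F G : A) :
    dd ^ ((i + j) / 2) * (F * G) =
      dd ^ ((i + j) / 2 - (i / 2 + j / 2)) * ((dd ^ (i / 2) * F) * (dd ^ (j / 2) * G)) := by
  have h3 : (dd : A) ^ ((i + j) / 2) =
      dd ^ ((i + j) / 2 - (i / 2 + j / 2)) * (dd ^ (i / 2) * dd ^ (j / 2)) := by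
    rw [← pow_add, ← pow_add]
    congr 1
    omega
  rw [h3]
  ring

theorem HP.mul {b b' : ℕ} {V V' : PowerSeries A} (h : HP b V) (h' : HP b' V') :
    HP (b + b') (V * V') := by
  intro n hn
  rw [PowerSeries.coeff_mul, Finset.mul_sum]
  refine Finset.dvd_sum ?_
  rintro ⟨i, j⟩ hij
  rw [Finset.HasAntidiagonal.mem_antidiagonal] at hij
  simp only at hij ⊢
  subst hij
  rw [pow_half, pow_add]
  exact dvd_mul_of_dvd_right (mul_dvd_mul (h i (by omega)) (h' j (by omega))) _

theorem hc_mul {b b' : ℕ} {V V' : PowerSeries A} (h : HP b V) (h' : HP b' V') {n : ℕ}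
    (hn : n ≤ 9) : hc n (b + b') (V * V') =
      ∑ p ∈ Finset.HasAntidiagonal.antidiagonal n,
        if p.1 / 2 + p.2 / 2 = n / 2 then hc p.1 b V * hc p.2 b' V' else 0 := by
  unfold hc
  rw [PowerSeries.coeff_mul n V V', Finset.mul_sum, map_sum]
  refine Finset.sum_congr rfl ?_
  rintro ⟨i, j⟩ hij
  rw [Finset.HasAntidiagonal.mem_antidiagonal] at hij
  simp only at hij ⊢
  subst hij
  have h4 := h i (by omega)
  have h5 := h' j (by omega)
  rw [pow_half]
  by_cases h6 : i / 2 + j / 2 = (i + j) / 2
  · rw [if_pos h6, h6, Nat.sub_self, pow_zero, one_mul]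
    exact coeff_mul_of_dvd h4 h5
  · rw [if_neg h6]
    apply coeff_eq_zero_of_dvd
    rw [pow_succ', pow_add]
    refine mul_dvd_mul ?_ (mul_dvd_mul h4 h5)
    exact dvd_pow_self _ (by omega)

lemma anti_even {M : Type*} [AddCommMonoid M] (m : ℕ) (f : ℕ × ℕ → M) :
    ∑ p ∈ Finset.HasAntidiagonal.antidiagonal (2 * m),
      (if p.1 / 2 + p.2 / 2 = 2 * m / 2 then f p else 0) =
    ∑ q ∈ Finset.HasAntidiagonal.antidiagonal m, f (2 * q.1, 2 * q.2) := by
  rw [← Finset.sum_filter]
  refine Finset.sum_nbij' (fun p => (p.1 / 2, p.2 / 2)) (fun q => (2 * q.1, 2 * q.2)) ?_ ?_ ?_ ?_ ?_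
  · intro p hp
    rw [mem_filter, Finset.HasAntidiagonal.mem_antidiagonal] at hp
    rw [Finset.HasAntidiagonal.mem_antidiagonal]
    simp only
    omega
  · intro q hq
    rw [Finset.HasAntidiagonal.mem_antidiagonal] at hq
    rw [mem_filter, Finset.HasAntidiagonal.mem_antidiagonal]
    simp only
    omega
  · intro p hp
    rw [mem_filter, Finset.HasAntidiagonal.mem_antidiagonal] at hp
    ext <;> simp only <;> omega
  · intro q hq
    ext <;> simp only <;> omega
  · intro p hp
    rw [mem_filter, Finset.HasAntidiagonal.mem_antidiagonal] at hp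
    congr 1
    ext <;> simp only <;> omega

lemma anti_odd {M : Type*} [AddCommMonoid M] (m : ℕ) (f : ℕ × ℕ → M) :
    ∑ p ∈ Finset.HasAntidiagonal.antidiagonal (2 * m + 1),
      (if p.1 / 2 + p.2 / 2 = (2 * m + 1) / 2 then f p else 0) =
    ∑ q ∈ Finset.HasAntidiagonal.antidiagonal m,
      (f (2 * q.1 + 1, 2 * q.2) + f (2 * q.1, 2 * q.2 + 1)) := by
  rw [← Finset.sum_filter, Finset.sum_add_distrib]
  rw [← Finset.sum_filter_add_sum_filter_not ((Finset.HasAntidiagonal.antidiagonal
    (2 * m + 1)).filter (fun p : ℕ × ℕ => p.1 / 2 + p.2 / 2 = (2 * m + 1) / 2))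
    (fun p => p.1 % 2 = 1)]
  congr 1
  · refine Finset.sum_nbij' (fun p => (p.1 / 2, p.2 / 2)) (fun q => (2 * q.1 + 1, 2 * q.2))
      ?_ ?_ ?_ ?_ ?_
    · intro p hp
      rw [mem_filter, mem_filter, Finset.HasAntidiagonal.mem_antidiagonal] at hp
      rw [Finset.HasAntidiagonal.mem_antidiagonal]
      simp only
      omega
    · intro q hq
      rw [Finset.HasAntidiagonal.mem_antidiagonal] at hq
      rw [mem_filter, mem_filter, Finset.HasAntidiagonal.mem_antidiagonal]
      simp only
      omega
    · intro p hp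
      rw [mem_filter, mem_filter, Finset.HasAntidiagonal.mem_antidiagonal] at hp
      ext <;> simp only <;> omega
    · intro q hq
      ext <;> simp only <;> omega
    · intro p hp
      rw [mem_filter, mem_filter, Finset.HasAntidiagonal.mem_antidiagonal] at hp
      congr 1
      ext <;> simp only <;> omega
  · refine Finset.sum_nbij' (fun p => (p.1 / 2, p.2 / 2)) (fun q => (2 * q.1, 2 * q.2 + 1))
      ?_ ?_ ?_ ?_ ?_
    · intro p hp
      rw [mem_filter, mem_filter, Finset.HasAntidiagonal.mem_antidiagonal] at hp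
      rw [Finset.HasAntidiagonal.mem_antidiagonal]
      simp only
      omega
    · intro q hq
      rw [Finset.HasAntidiagonal.mem_antidiagonal] at hq
      rw [mem_filter, mem_filter, Finset.HasAntidiagonal.mem_antidiagonal]
      simp only
      omega
    · intro p hp
      rw [mem_filter, mem_filter, Finset.HasAntidiagonal.mem_antidiagonal] at hp
      ext <;> simp only <;> omega
    · intro q hq
      ext <;> simp only <;> omega
    · intro p hp
      rw [mem_filter, mem_filter, Finset.HasAntidiagonal.mem_antidiagonal] at hp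
      congr 1
      ext <;> simp only <;> omega

/-- the even leading coefficients are those of the monomial `c X ^ k` -/
structure Mo (b : ℕ) (V : PowerSeries A) (k : ℕ) (c : ℤ) : Prop where
  hp : HP b V
  ev : ∀ m, m ≤ 4 → hc (2 * m) b V = if m = k then c else 0

section mul

variable {b b' k k' : ℕ} {c c' : ℤ} {V V' : PowerSeries A} (h : Mo b V k c)
  (h' : Mo b' V' k' c')
include h h'

theorem Mo.mul : Mo (b + b') (V * V') (k + k') (c * c') where
  hp := h.hp.mul h'.hp
  ev := by
    intro m hm
    rw [hc_mul h.hp h'.hp (by omega), anti_even m (fun p => hc p.1 b V * hc p.2 b' V')]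
    simp only
    have h1 : ∀ q ∈ Finset.HasAntidiagonal.antidiagonal m,
        hc (2 * q.1) b V * hc (2 * q.2) b' V' = if q = (k, k') then c * c' else 0 := by
      intro q hq
      rw [Finset.HasAntidiagonal.mem_antidiagonal] at hq
      rw [h.ev q.1 (by omega), h'.ev q.2 (by omega)]
      by_cases h2 : q.1 = k
      · by_cases h3 : q.2 = k'
        · rw [if_pos h2, if_pos h3, if_pos (by ext <;> assumption)]
        · rw [if_neg h3, mul_zero, if_neg (fun h4 => h3 (by rw [h4]))]
      · rw [if_neg h2, zero_mul, if_neg (fun h4 => h2 (by rw [h4]))]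
    rw [Finset.sum_congr rfl h1, Finset.sum_ite_eq']
    refine if_congr ?_ rfl rfl
    rw [Finset.HasAntidiagonal.mem_antidiagonal]
    exact eq_comm

theorem Mo.odd_mul {m : ℕ} (hm : m ≤ 4) : hc (2 * m + 1) (b + b') (V * V') =
    (if k' ≤ m then c' * hc (2 * (m - k') + 1) b V else 0) +
    (if k ≤ m then c * hc (2 * (m - k) + 1) b' V' else 0) := by
  rw [hc_mul h.hp h'.hp (by omega), anti_odd m (fun p => hc p.1 b V * hc p.2 b' V')]
  simp only
  rw [Finset.sum_add_distrib]
  congr 1
  · have h1 : ∀ q ∈ Finset.HasAntidiagonal.antidiagonal m,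
        hc (2 * q.1 + 1) b V * hc (2 * q.2) b' V' =
          if q = (m - k', k') then c' * hc (2 * (m - k') + 1) b V else 0 := by
      intro q hq
      rw [Finset.HasAntidiagonal.mem_antidiagonal] at hq
      rw [h'.ev q.2 (by omega)]
      by_cases h3 : q.2 = k'
      · have h4 : q.1 = m - k' := by omega
        rw [if_pos h3, if_pos (by ext <;> assumption), h4, mul_comm]
      · rw [if_neg h3, mul_zero, if_neg (fun h4 => h3 (by rw [h4]))]
    rw [Finset.sum_congr rfl h1, Finset.sum_ite_eq']
    refine if_congr ?_ rfl rfl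
    rw [Finset.HasAntidiagonal.mem_antidiagonal]
    simp only
    omega
  · have h1 : ∀ q ∈ Finset.HasAntidiagonal.antidiagonal m,
        hc (2 * q.1) b V * hc (2 * q.2 + 1) b' V' =
          if q = (k, m - k) then c * hc (2 * (m - k) + 1) b' V' else 0 := by
      intro q hq
      rw [Finset.HasAntidiagonal.mem_antidiagonal] at hq
      rw [h.ev q.1 (by omega)]
      by_cases h3 : q.1 = k
      · have h4 : q.2 = m - k := by omega
        rw [if_pos h3, if_pos (by ext <;> assumption), h4]
      · rw [if_neg h3, zero_mul, if_neg (fun h4 => h3 (by rw [h4]))]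
    rw [Finset.sum_congr rfl h1, Finset.sum_ite_eq']
    refine if_congr ?_ rfl rfl
    rw [Finset.HasAntidiagonal.mem_antidiagonal]
    simp only
    omega

end mul

end Pool.Agent.GaussPoset.Win.Pn
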