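import Pool.Agent.W_448pn_h63.PnD
import Pool.Agent.W_448so_h17.CrD
import Pool.Agent.W_448so_h63.FG

/-!
# Crossing labels at least three (MP_448cb3_co, G2, case B, window j - 1)

At energy at most eight they do not occur, at energy at most ten they have at most three deficits,
except `bN i v` (energy ten, four deficits) for the joins `v` with three elements of level `i + 1` and
five sites above.
-/

set_option autoImplicit false

namespace Pool.Agent.GaussPoset.Win.Pn

set_option linter.unusedSectionVars false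

open Finset So

universe u

variable {P : Type u} [Fintype P] [PartialOrder P] [DecidableEq P] {r i : ℕ}

variable {ι : Type*} [DecidableEq ι] {κ : P → ι} {e : P → ℕ} {psi : P → P} {v p p' : P}

/-- a killed lower element is large -/
lemma fd_lab (H : Gr P r) (hA : AdmL i e) :
    ∀ (m : ℕ) (x : P), lev x = i + 1 + m → FD e x → lev x - i ≤ e x := by
  intro m
  induction m with
  | zero =>
    intro x hx hF
    obtain ⟨s, hs⟩ := uc_nonempty H (x := x) (by omega)
    by_contra h
    exact hA x (by omega) ⟨hF, s, mem_uc.1 hs, by omega⟩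
  | succ m ih =>
    intro x hx hF
    obtain ⟨y, hy⟩ := uc_nonempty H (x := x) (by omega)
    have ly := lev_uc H hy
    have h1 : e y < e x := by
      by_contra h
      exact hA x (by omega) ⟨hF, y, mem_uc.1 hy, by omega⟩
    have h2 := ih y (by omega) ⟨x, mem_uc.1 hy, h1⟩
    omega

/-- labels above a lower element -/
lemma lab_up (H : Gr P r) (hA : AdmL i e) {x : P} (hx : i < lev x) :
    ∀ z, z ≤ x → min (e z) (lev x - i) ≤ e x := by
  refine normb_induct (C := fun z => min (e z) (lev x - i) ≤ e x) (min_le_left _ _) ?_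
  intro z w hzw hwx ih
  have lw := lev_uc H (mem_uc.2 hzw)
  have h2 : lev x ≤ lev w := by
    rcases eq_or_lt_of_le hwx with h | h
    · rw [h]
    · exact (lev_strictAnti h).le
  rcases Nat.lt_or_ge (e w) (e z) with h | h
  · have h3 := fd_lab H hA (lev w - (i + 1)) w (by omega) ⟨z, hzw, h⟩
    omega
  · omega

/-- an element of maximal label is free if the labels of the sites are smaller -/
lemma free_max (H : Gr P r) {w : P} (hw : i < lev w) (hs : ∀ s, lev s = i → e s < e w) :
    1 ≤ pL i e := by
  classical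
  obtain ⟨w0, hw0, hmax⟩ := exists_max_image (univ.filter (fun z : P => i < lev z)) e
    ⟨w, by rw [mem_filter]; exact ⟨mem_univ _, hw⟩⟩
  obtain ⟨w1, hw1, hmin⟩ := exists_min_image
    (univ.filter (fun z : P => i < lev z ∧ e z = e w0)) lev
    ⟨w0, by rw [mem_filter] at hw0 ⊢; exact ⟨mem_univ _, hw0.2, rfl⟩⟩
  rw [mem_filter] at hw1
  have hw' := hmax w (by rw [mem_filter]; exact ⟨mem_univ _, hw⟩)
  unfold pL
  rw [Nat.one_le_iff_ne_zero, ← Nat.pos_iff_ne_zero, card_pos]
  refine ⟨w1, ?_⟩
  rw [mem_filter]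
  refine ⟨mem_univ _, hw1.2.1, ?_, ?_⟩
  · rintro ⟨z, hz, hlt⟩
    have lz := lev_uc H (mem_uc.2 hz)
    have h1 := hmax z (by rw [mem_filter]; exact ⟨mem_univ _, by omega⟩)
    omega
  · rintro ⟨y, hy, hle⟩
    have ly := lev_uc H (mem_uc.2 hy)
    rcases Nat.lt_or_ge i (lev y) with h | h
    · have h1 := hmax y (by rw [mem_filter]; exact ⟨mem_univ _, h⟩)
      have h2 := hmin y (by rw [mem_filter]; exact ⟨mem_univ _, h, by omega⟩)
      omega
    · have h1 := hs y (by omega)
      omega

open Classical in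
/-- the distance to the window on the elements above `v` -/
noncomputable def bN (i : ℕ) (v : P) : P → ℕ := fun x =>
  if v ≤ x ∧ i < lev x then lev x - i else 0

lemma bN_pos {x : P} (h : v ≤ x ∧ i < lev x) : bN i v x = lev x - i := by
  unfold bN
  rw [if_pos h]

lemma bN_zero {x : P} (h : ¬ (v ≤ x ∧ i < lev x)) : bN i v x = 0 := by
  unfold bN
  rw [if_neg h]

/-- `bN` is below the labels -/
lemma bN_le (H : Gr P r) (hA : AdmL i e) (lv : lev v = i + 3) (hv : 3 ≤ e v) (x : P) :
    bN i v x ≤ e x := by
  by_cases h : v ≤ x ∧ i < lev x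
  · rw [bN_pos h]
    have h1 := lab_up H hA h.2 v h.1
    have h2 : lev x ≤ lev v := by
      rcases eq_or_lt_of_le h.1 with h | h
      · rw [h]
      · exact (lev_strictAnti h).le
    omega
  · rw [bN_zero h]
    exact Nat.zero_le _

lemma bN_sum (H : Gr P r) (hκ : Split (i + 2) κ) (D : CrV i κ v p p') :
    ∑ x, bN i v x = (uc p).card + (uc p').card + 7 := by
  classical
  have h1 := D.lv
  have h2 := D.lp H
  have h3 := D.lp' H
  have h4 : p ≠ p' := fun h => D.ne (by rw [h])
  have h5 : ∑ x, bN i v x = ∑ x ∈ CrV.T v p p', (lev x - i) := by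
    rw [← Finset.sum_filter_add_sum_filter_not univ (fun x => x ∈ CrV.T v p p')]
    have h6 : ∑ x ∈ univ.filter (fun x => ¬ x ∈ CrV.T v p p'), bN i v x = 0 :=
      Finset.sum_eq_zero fun x hx => by
        rw [mem_filter] at hx
        exact bN_zero fun h => hx.2 ((D.T_iff H).2 h)
    rw [h6, add_zero, Finset.filter_mem_eq_inter, univ_inter]
    exact Finset.sum_congr rfl fun x hx => bN_pos ((D.T_iff H).1 hx)
  rw [h5]
  unfold CrV.T
  rw [sum_insert, sum_insert, sum_insert, sum_union (D.disj hκ H)]
  · have h7 : ∀ q : P, lev q = i + 2 → ∑ x ∈ uc q, (lev x - i) = (uc q).card := by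
      intro q hq
      rw [Finset.card_eq_sum_ones]
      refine Finset.sum_congr rfl fun x hx => ?_
      have := lev_uc H hx
      omega
    rw [h7 p h2, h7 p' h3]
    omega
  · intro h
    have := ((D.mem1 H).2 h).1
    omega
  · rw [mem_insert]
    rintro (h | h)
    · exact h4 h
    · have := ((D.mem1 H).2 h).1
      omega
  · rw [mem_insert, mem_insert]
    rintro (h | h | h)
    · rw [← h] at h2
      omega
    · rw [← h] at h3
      omega
    · have := ((D.mem1 H).2 h).1
      omega

/-- a label at least three outside the components at energy at most eleven is on the level `i + 3` -/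
lemma big_lev (H : Gr P r) (hκ : Split (i + 2) κ) (hA : AdmL i e) (hn : ∑ x, e x ≤ 11) {z : P}
    (hz : z ∉ cuni (i + 2) κ) (h3 : 3 ≤ e z) : lev z = i + 3 := by
  classical
  have hlz := (two_up H hκ hz).1
  by_contra hne
  have hu := (two_up H hκ hz).2
  have hu1 := hu (i + 1) (by omega)
  have hu2 := hu (i + 2) le_rfl
  rw [up_eq] at hu1 hu2
  obtain ⟨y0, hy0, hl0⟩ := exists_top z
  obtain ⟨w, hw1, -, hw3⟩ := exists_mid H hy0 (k := i + 3) (by omega) (by omega)
  have hzw : z < w := by
    refine lt_of_le_of_ne hw1 ?_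
    rintro rfl
    exact hne hw3
  set V1 := (lv P (i + 1)).filter (fun v => z < v) with hV1
  set V2 := (lv P (i + 2)).filter (fun v => z < v) with hV2
  have m1 : ∀ x ∈ V1, lev x = i + 1 ∧ z < x := by
    intro x hx
    rw [hV1, mem_filter, mem_lv] at hx
    exact hx
  have m2 : ∀ x ∈ V2, lev x = i + 2 ∧ z < x := by
    intro x hx
    rw [hV2, mem_filter, mem_lv] at hx
    exact hx
  have d1 : Disjoint V1 V2 := by
    rw [disjoint_left]
    intro x hx hx'
    have := (m1 x hx).1
    have := (m2 x hx').1
    omega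
  have n1 : w ∉ V1 ∪ V2 := by
    rw [mem_union]
    rintro (h | h)
    · have := (m1 _ h).1
      omega
    · have := (m2 _ h).1
      omega
  have n2 : z ∉ insert w (V1 ∪ V2) := by
    rw [mem_insert, mem_union]
    rintro (h | h | h)
    · exact hzw.ne h
    · exact lt_irrefl _ (m1 _ h).2
    · exact lt_irrefl _ (m2 _ h).2
  have c1 : e z + (e w + (∑ x ∈ V1, e x + ∑ x ∈ V2, e x)) ≤ ∑ x, e x := by
    rw [← Finset.sum_union d1, ← Finset.sum_insert n1, ← Finset.sum_insert n2]
    exact Finset.sum_le_sum_of_subset (subset_univ _)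
  have c2 : 2 ≤ ∑ x ∈ V1, e x := by
    refine hu1.trans ?_
    rw [Finset.card_eq_sum_ones]
    refine Finset.sum_le_sum fun x hx => ?_
    have h4 := lab_up H hA (x := x) (by have := (m1 x hx).1; omega) z (m1 x hx).2.le
    have := (m1 x hx).1
    omega
  have c3 : 4 ≤ ∑ x ∈ V2, e x := by
    have : 2 * V2.card ≤ ∑ x ∈ V2, e x := by
      rw [Finset.card_eq_sum_ones, Finset.mul_sum]
      refine Finset.sum_le_sum fun x hx => ?_
      have h4 := lab_up H hA (x := x) (by have := (m2 x hx).1; omega) z (m2 x hx).2.le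
      have := (m2 x hx).1
      omega
    omega
  have c4 : 3 ≤ e w := by
    have h4 := lab_up H hA (x := w) (by omega) z hw1
    omega
  omega

/-- the data of `bN` -/
lemma bN_FD (H : Gr P r) (hv : i < lev v) {x : P} (hx : i ≤ lev x) : FD (bN i v) x ↔ v < x := by
  constructor
  · rintro ⟨z, hz, hlt⟩
    by_cases h : v ≤ z ∧ i < lev z
    · exact lt_of_le_of_lt h.1 hz.lt
    · rw [bN_zero h] at hlt
      omega
  · intro h
    have l1 := lev_strictAnti h
    obtain ⟨z, hz1, hz2, hz3⟩ := exists_mid H h.le (k := lev x + 1) (by omega) (by omega)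
    have h3 : z < x := by
      refine lt_of_le_of_ne hz2 ?_
      rintro rfl
      omega
    refine ⟨z, H.covBy_iff.2 ⟨h3, by omega⟩, ?_⟩
    rw [bN_pos ⟨hz1, by omega⟩]
    by_cases h4 : i < lev x
    · rw [bN_pos ⟨h.le, h4⟩]
      omega
    · rw [bN_zero (fun h5 => h4 h5.2)]
      omega

lemma bN_GU (H : Gr P r) {x : P} (hx : i < lev x) : GU (bN i v) x ↔ ¬ v ≤ x := by
  constructor
  · rintro ⟨y, hy, hle⟩ h
    have ly := lev_uc H (mem_uc.2 hy)
    rw [bN_pos ⟨h, hx⟩] at hle
    by_cases h4 : i < lev y
    · rw [bN_pos ⟨h.trans hy.le, h4⟩] at hle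
      omega
    · rw [bN_zero (fun h5 => h4 h5.2)] at hle
      omega
  · intro h
    obtain ⟨y, hy⟩ := uc_nonempty H (x := x) (by omega)
    refine ⟨y, mem_uc.1 hy, ?_⟩
    rw [bN_zero (fun h5 => h h5.1)]
    exact Nat.zero_le _

lemma bN_adm (H : Gr P r) (hv : i < lev v) : AdmL i (bN i v) := by
  rintro z hz ⟨h1, h2⟩
  rw [bN_FD H hv hz.le] at h1
  rw [bN_GU H hz] at h2
  exact h2 h1.le

lemma bN_pL (H : Gr P r) (hv : i < lev v) : pL i (bN i v) = 1 := by
  classical
  unfold pL
  rw [card_eq_one]
  refine ⟨v, ?_⟩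
  ext x
  rw [mem_filter, mem_singleton]
  constructor
  · rintro ⟨-, h1, h2, h3⟩
    rw [bN_FD H hv h1.le] at h2
    rw [bN_GU H h1, not_not] at h3
    by_contra h4
    exact h2 (lt_of_le_of_ne h3 (fun h => h4 h.symm))
  · rintro rfl
    refine ⟨mem_univ _, hv, ?_, ?_⟩
    · rw [bN_FD H hv hv.le]
      exact lt_irrefl _
    · rw [bN_GU H hv, not_not]

lemma bN_AL (H : Gr P r) (hv : i < lev v) : (AL i (bN i v)).card = up i v := by
  classical
  rw [up_eq]
  congr 1
  ext x
  rw [NormD_mem_AL, mem_filter, mem_lv]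
  refine and_congr_right fun hx => ?_
  rw [bN_FD H hv (by omega)]

lemma bN_aL (H : Gr P r) (hκ : Split (i + 2) κ) (D : CrV i κ v p p') :
    aL i (bN i v) = (uc p).card + (uc p').card + 2 := by
  classical
  have hv : i < lev v := by have := D.lv; omega
  have h1 : (univ.filter (fun z : P => i < lev z ∧ FD (bN i v) z)) = (CrV.T v p p').erase v := by
    ext x
    rw [mem_filter, mem_erase, D.T_iff H]
    constructor
    · rintro ⟨-, h1, h2⟩
      rw [bN_FD H hv h1.le] at h2
      exact ⟨h2.ne', h2.le, h1⟩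
    · rintro ⟨h1, h2, h3⟩
      refine ⟨mem_univ _, h3, ?_⟩
      rw [bN_FD H hv h3.le]
      exact lt_of_le_of_ne h2 (fun h => h1 h.symm)
  unfold aL
  rw [h1, card_erase_of_mem (CrV.mem_T.2 (Or.inl rfl)), D.card_T H hκ]
  omega

/-- the term of `bN` -/
theorem bN_trm (H : Gr P r) (hir : i ≤ r) (hκ : Split (i + 2) κ) (D : CrV i κ v p p') :
    trm i (bN i v) = xx ^ ((uc p).card + (uc p').card + 2 + up i v) *
      dd ^ ((lv P i).card - up i v + 1) := by
  classical
  have hv : i < lev v := by have := D.lv; omega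
  obtain ⟨u1, u2, u3, u4⟩ := upp_none H hir (e := bN i v) (by
    intro z hz
    apply bN_zero
    rintro ⟨-, h⟩
    omega)
  unfold trm
  rw [u2, if_pos (disjoint_empty_right _), bN_AL H hv, card_empty]
  unfold cw
  rw [if_pos ⟨bN_adm H hv, u1⟩, bN_aL H hκ D, u3, u4, bN_pL H hv]
  simp only [add_zero, pow_zero, mul_one, Nat.sub_zero]
  ring

section core

variable (H : Gr P r) (hi : 1 ≤ i) (hi2 : i + 1 ≤ r) (hκ : Split (i + 2) κ)
  (D : CrV i κ v p p') (hM : Mat P i ∅ psi)
include H hi2 D hM

/-- one more unit: nothing new near the window -/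
lemma big_one (hA : AdmL i e) (hB : AdmU i e) (hd : Disjoint (AL i e) (AU i e))
    (hc : IsCore i ∅ psi e) {w : P} (he : e = bN i v + Pi.single w 1) (h4 : up i v ≤ 4) :
    (AL i e).card + (AU i e).card ≤ pL i e + pU i e + 3 := by
  classical
  have hlv := D.lv
  have hin : ∀ x, e x = bN i v x + (if x = w then 1 else 0) := by
    intro x
    rw [he, Pi.add_apply, Pi.single_apply]
  have key : ∀ x, x ≠ w → 0 < e x → v ≤ x ∧ i < lev x := by
    intro x hx h0
    by_contra h
    rw [hin x, bN_zero h, if_neg hx] at h0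
    omega
  have low : ∀ x, lev x = i + 1 → 0 < e x → v ≤ x := by
    intro x hx h0
    by_contra hn
    have hxw : x = w := by
      by_contra h
      exact hn (key x h h0).1
    subst hxw
    have h1 : x ∉ Rst i ∅ psi e := fun h => by
      have := hc x h
      omega
    rw [mem_Rst] at h1
    have h3 : x ∉ Tch i e := by
      rw [mem_Tch]
      rintro (⟨-, z, hz, hz0⟩ | ⟨h4, -⟩)
      · have lz := lev_uc H (mem_uc.2 hz)
        exact hn ((key z (by rintro rfl; omega) hz0).1.trans hz.le)
      · omega
    apply h1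
    refine ⟨mem_near.2 (Or.inl hx), notMem_empty x, h3, ?_⟩
    rintro ⟨h4, h5⟩
    have h6 : x ∈ dbL P i := by
      rcases mem_union.1 h4 with h | h
      · exact h
      · have := (mem_dbU.1 h).1
        omega
    have h7 := (mem_dbU.1 (hM.low x h6 (notMem_empty x)).1).1
    rw [mem_Tch] at h5
    rcases h5 with ⟨h8, -⟩ | ⟨-, y, hy, hy0⟩
    · omega
    · have ly := lev_uc H (mem_uc.2 hy)
      have := (key y (by rintro rfl; omega) hy0).2
      omega
  have upp : ∀ u, lev u < i → e u = 0 := by
    intro u hu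
    by_contra h0
    have huw : u = w := by
      by_contra h
      have := (key u h (by omega)).2
      omega
    subst huw
    rcases Nat.lt_or_ge (lev u + 1) i with h1 | h1
    · obtain ⟨y, hy⟩ := dc_nonempty H (x := u) (by omega)
      have ly := lev_dc H hy
      have h2 := pos_dn H (by omega) hB (by omega) (by omega : 0 < e u) (mem_dc.1 hy)
      have := (key y (by rintro rfl; omega) h2).2
      omega
    · have h2 : u ∉ Rst i ∅ psi e := fun h => h0 (hc u h)
      rw [mem_Rst] at h2
      have h3 : u ∉ Tch i e := by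
        rw [mem_Tch]
        rintro (⟨h4, -⟩ | ⟨-, y, hy, hy0⟩)
        · omega
        · have ly := lev_uc H (mem_uc.2 hy)
          have := (key y (by rintro rfl; omega) hy0).2
          omega
      apply h2
      refine ⟨mem_near.2 (Or.inr (by omega)), notMem_empty u, h3, ?_⟩
      rintro ⟨h4, h5⟩
      have h6 : u ∈ dbU P i := by
        rcases mem_union.1 h4 with h | h
        · have := (mem_dbL.1 h).1
          omega
        · exact h
      obtain ⟨h7, h8⟩ := hM.upp u h6 (notMem_empty u)
      have h9 := (mem_dbL.1 h7)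
      rw [mem_Tch] at h5
      rcases h5 with ⟨-, z, hz, hz0⟩ | ⟨h10, -⟩
      · have lz := lev_uc H (mem_uc.2 hz)
        have h11 : v ≤ psi u := (key z (by rintro rfl; omega) hz0).1.trans hz.le
        have h12 : 1 ≤ e (psi u) := by
          rw [hin, bN_pos ⟨h11, by omega⟩]
          omega
        obtain ⟨x, hx⟩ : (uc (psi u)).Nonempty := by
          rw [← Finset.card_pos]
          omega
        have lx := lev_uc H hx
        have hx0 : e x = 0 := by
          by_contra h13
          have := (key x (by rintro rfl; omega) (by omega)).2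
          omega
        have hxd : x ∈ dc u := by rw [← h8]; exact hx
        have hxA : x ∈ AL i e := by
          rw [NormD_mem_AL]
          exact ⟨by omega, psi u, mem_uc.1 hx, by omega⟩
        have hxB : x ∈ AU i e := by
          rw [NormD_mem_AU]
          exact ⟨by omega, u, mem_dc.1 hxd, by omega⟩
        exact disjoint_left.1 hd hxA hxB
      · omega
  have hAU : AU i e = ∅ := by
    rw [eq_empty_iff_forall_notMem]
    intro s hs
    rw [NormD_mem_AU] at hs
    obtain ⟨h1, y, hy, hlt⟩ := hs
    have ly := lev_uc H (mem_uc.2 hy)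
    have := upp y (by omega)
    omega
  have hAL : (AL i e).card ≤ up i v := by
    rw [up_eq]
    apply card_le_card
    intro s hs
    rw [NormD_mem_AL] at hs
    obtain ⟨h1, y, hy, hlt⟩ := hs
    have ly := lev_uc H (mem_uc.2 hy)
    rw [mem_filter, mem_lv]
    exact ⟨h1, lt_of_le_of_lt (low y (by omega) (by omega)) hy.lt⟩
  have hp : 1 ≤ pL i e := by
    refine free_max H (w := v) (by omega) fun s hs => ?_
    rw [hin s, hin v, bN_zero (fun h => by omega), bN_pos ⟨le_rfl, by omega⟩]
    split_ifs <;> omega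
  rw [hAU, card_empty]
  omega

end core

/-- THE CORES with a label at least three outside the components, energy at most ten -/
theorem big_core (H : Gr P r) (hi : 1 ≤ i) (hi2 : i + 1 ≤ r) (hg : Good P i)
    (hκ : Split (i + 2) κ) (hM : Mat P i ∅ psi) (hc : IsCore i ∅ psi e)
    (hQ : Big (i + 2) κ e) (hn : ∑ x, e x ≤ 10) :
    Cheap 3 i e ∨ (∑ x, e x = 10 ∧ ∃ v ∈ N5s i κ, e = bN i v) := by
  classical
  by_cases hA : AdmL i e
  swap
  · exact Or.inl (Or.inl hA)
  by_cases hB : AdmU i e
  swap
  · exact Or.inl (Or.inr (Or.inl hB))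
  by_cases hd : Disjoint (AL i e) (AU i e)
  swap
  · exact Or.inl (Or.inr (Or.inr (Or.inl hd)))
  obtain ⟨v, hvc, h3⟩ := hQ
  have lv' := big_lev H hκ hA (by omega) hvc h3
  obtain ⟨p, p', hk, huc⟩ := two_labels H hκ hvc (by omega)
  have D : CrV i κ v p p' := ⟨lv', huc, hk⟩
  have lp := D.lp H
  have lp' := D.lp' H
  have hle := bN_le H hA lv' h3
  have hsum := bN_sum H hκ D
  have n1 : 1 ≤ (uc p).card := card_pos.2 (uc_nonempty H (by omega))
  have n2 : 1 ≤ (uc p').card := card_pos.2 (uc_nonempty H (by omega))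
  have hup1 := D.up1 H hκ
  have hs := Finset.sum_le_sum (fun x (_ : x ∈ (univ : Finset P)) => hle x)
  have h14 := D.up0_le H
  have h32 := (I32' H hi hi2 hg).1
  have u1 := (up_le_four H lp).1
  have u2 := (up_le_four H lp').1
  have u3 := h32 p lp
  have u4 := h32 p' lp'
  have hbN : e = bN i v → (AL i e).card + (AU i e).card ≤ pL i e + pU i e + 3 ∨
      up i v = 5 := by
    intro he
    obtain ⟨-, b2, -, -⟩ := upp_none H (show i ≤ r by omega) (e := bN i v) (by
      intro z hz
      apply bN_zero
      rintro ⟨-, h⟩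
      omega)
    rw [he, bN_AL H (by omega), b2, card_empty, bN_pL H (by omega)]
    have : up i v ≤ 5 := by
      have c1 : (uc p).card = 1 ∨ (uc p').card = 1 := by omega
      rcases c1 with c1 | c1
      · rw [c1] at u1
        omega
      · rw [c1] at u2
        omega
    omega
  by_cases h2 : (uc p).card + (uc p').card = 2
  · left
    refine Or.inr (Or.inr (Or.inr ?_))
    have h4 : up i v ≤ 4 := by
      have c1 : (uc p).card = 1 := by omega
      have c2 : (uc p').card = 1 := by omega
      rw [c1] at u1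
      rw [c2] at u2
      omega
    by_cases h5 : ∑ x, e x = 9
    · have he : e = bN i v := eq_of_sum hle (by omega)
      rcases hbN he with h | h
      · exact h
      · omega
    · obtain ⟨w, hw⟩ := eq_add_single hle (by omega)
      exact big_one H hi2 D hM hA hB hd hc hw h4
  · have he : e = bN i v := eq_of_sum hle (by omega)
    rcases hbN he with h | h
    · exact Or.inl (Or.inr (Or.inr (Or.inr h)))
    · right
      have : (uc p).card + (uc p').card = 3 := by omega
      refine ⟨by omega, v, mem_N5s.2 ⟨lv', hvc, by omega, h⟩, he⟩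

end Pool.Agent.GaussPoset.Win.Pn
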