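import Pool.Agent.W_448pn_h63.PnE

/-!
# The crossing numbers at the energies eight and ten (MP_448cb3_co, G2, case B, window j - 1)
-/

set_option autoImplicit false

namespace Pool.Agent.GaussPoset.Win.Pn

set_option linter.unusedSectionVars false

open Finset So I2 T8

universe u

variable {P : Type u} [Fintype P] [PartialOrder P] [DecidableEq P] {r i : ℕ}

variable {ι : Type*} [DecidableEq ι] {κ : P → ι} {e : P → ℕ} {psi : P → P} {v p p' : P}

/-- no label at least three outside the components at energy at most eight -/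
lemma big_trm (H : Gr P r) (hκ : Split (i + 2) κ) (hn : ∑ x, e x ≤ 8)
    (hQ : Big (i + 2) κ e) : trm i e = 0 := by
  classical
  apply trm_bad
  rintro ⟨hA, -⟩
  obtain ⟨v, hvc, h3⟩ := hQ
  have lv' := big_lev H hκ hA (by omega) hvc h3
  obtain ⟨p, p', hk, huc⟩ := two_labels H hκ hvc (by omega)
  have D : CrV i κ v p p' := ⟨lv', huc, hk⟩
  have lp := D.lp H
  have lp' := D.lp' H
  have hle := bN_le H hA lv' h3
  have hsum := bN_sum H hκ D
  have n1 : 1 ≤ (uc p).card := card_pos.2 (uc_nonempty H (by omega))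
  have n2 : 1 ≤ (uc p').card := card_pos.2 (uc_nonempty H (by omega))
  have hs := Finset.sum_le_sum (fun x (_ : x ∈ (univ : Finset P)) => hle x)
  omega

open Classical in
theorem big_eight (H : Gr P r) (hκ : Split (i + 2) κ) {n : ℕ} (hn : n ≤ 8) :
    ∑ e ∈ ((univ : Finset P).piAntidiag n).filter (Big (i + 2) κ), trm i e = 0 := by
  refine Finset.sum_eq_zero fun e he => ?_
  rw [mem_filter, mem_pa] at he
  exact big_trm H hκ (by rw [he.1.1]; exact hn) he.2

lemma Big_add (H : Gr P r) (hκ : Split (i + 2) κ) (e l : P → ℕ)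
    (hl : ∀ x, x ∉ near P i → l x = 0) : Big (i + 2) κ (e + l) ↔ Big (i + 2) κ e := by
  have key : ∀ z, z ∉ cuni (i + 2) κ → (e + l) z = e z := by
    intro z hz
    have h1 := (two_up H hκ hz).1
    rw [Pi.add_apply, hl z (fun h => ?_), add_zero]
    rw [mem_near] at h
    omega
  unfold Big
  constructor
  · rintro ⟨z, hz, h⟩
    exact ⟨z, hz, by rwa [key z hz] at h⟩
  · rintro ⟨z, hz, h⟩
    exact ⟨z, hz, by rwa [key z hz]⟩

lemma bN_core (H : Gr P r) (hv : lev v = i + 3) : IsCore i ∅ psi (bN i v) := by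
  apply isCore_of
  intro x hx h0
  have h1 : v ≤ x ∧ i < lev x := by
    by_contra h
    exact h0 (bN_zero h)
  have h2 : lev x = i + 1 := by
    rcases mem_near.1 hx with h | h <;> omega
  rw [mem_Tch]
  left
  refine ⟨h2, ?_⟩
  obtain ⟨z, hz1, hz2, hz3⟩ := exists_mid H h1.1 (k := i + 2) (by omega) (by omega)
  have h3 : z < x := by
    refine lt_of_le_of_ne hz2 ?_
    rintro rfl
    omega
  refine ⟨z, H.covBy_iff.2 ⟨h3, by omega⟩, ?_⟩
  rw [bN_pos ⟨hz1, by omega⟩]
  omega

lemma bN_inj {v' : P} (h1 : lev v = i + 3) (h1' : lev v' = i + 3) (h : bN i v = bN i v') :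
    v = v' := by
  have h2 : bN i v' v = 3 := by
    rw [← h, bN_pos ⟨le_rfl, by omega⟩]
    omega
  have h3 : v' ≤ v ∧ i < lev v := by
    by_contra h3
    rw [bN_zero h3] at h2
    omega
  by_contra hne
  have := lev_strictAnti (lt_of_le_of_ne h3.1 (fun h => hne h.symm))
  omega

open Classical in
/-- the data of a join with three elements of level `i + 1` and five sites -/
lemma N5s_data (H : Gr P r) (hκ : Split (i + 2) κ) (hv : v ∈ N5s i κ) :
    ∃ p p', CrV i κ v p p' ∧ (uc p).card + (uc p').card = 3 ∧ up i v = 5 ∧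
      5 ≤ (lv P i).card := by
  obtain ⟨h1, h2, h3, h4⟩ := mem_N5s.1 hv
  obtain ⟨p, p', hk, huc⟩ := two_labels H hκ h2 (by omega)
  have D : CrV i κ v p p' := ⟨h1, huc, hk⟩
  refine ⟨p, p', D, by rw [← D.up1 H hκ, h3], h4, ?_⟩
  rw [← h4, up_eq]
  exact card_le_card (filter_subset _ _)

open Classical in
theorem big_ten (H : Gr P r) (hi : 1 ≤ i) (hi2 : i + 1 ≤ r) (hg : Good P i)
    (hκ : Split (i + 2) κ) :
    dd ^ ((lv P i).card - 3) ∣
      ∑ e ∈ ((univ : Finset P).piAntidiag 10).filter (Big (i + 2) κ), trm i e -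
        ((N5s i κ).card : A) * (xx ^ 10 * dd ^ ((lv P i).card - 4)) := by
  obtain ⟨psi, hM⟩ := good_mat H hg
  have h := core_sum_Q H hi hi2 hM 10 3 (Big (i + 2) κ) (Big_add H hκ) (fun e hc hQ hs => by
      rcases big_core H hi hi2 hg hκ hM hc hQ (by omega) with h | h
      · exact Rk_of_cheap h
      · omega) ((N5s i κ).image (bN i)) (fun e he => by
      rw [mem_image] at he
      obtain ⟨v, hv, rfl⟩ := he
      obtain ⟨p, p', D, h1, h2, h3⟩ := N5s_data H hκ hv
      have hlv := D.lv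
      refine ⟨bN_core H hlv, by rw [bN_sum H hκ D, h1], v, (mem_N5s.1 hv).2.1, ?_⟩
      rw [bN_pos ⟨le_rfl, by omega⟩]
      omega) (fun e hc hQ hs he => by
      rcases big_core H hi hi2 hg hκ hM hc hQ (by omega) with h | ⟨-, v, h1, h2⟩
      · exact Rk_of_cheap h
      · exfalso
        apply he
        rw [mem_image]
        exact ⟨v, h1, h2.symm⟩)
  have h2 : ∑ e ∈ (N5s i κ).image (bN i), trm i e =
      ((N5s i κ).card : A) * (xx ^ 10 * dd ^ ((lv P i).card - 4)) := by
    rw [Finset.sum_image]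
    · rw [Finset.sum_congr rfl (fun v hv => ?_), Finset.sum_const, nsmul_eq_mul]
      obtain ⟨p, p', D, h1, h2, h3⟩ := N5s_data H hκ hv
      rw [bN_trm H (by omega) hκ D, h1, h2]
      congr 2
      omega
    · intro v hv v' hv' hvv
      exact bN_inj (mem_N5s.1 hv).1 (mem_N5s.1 hv').1 hvv
  rwa [h2] at h

lemma coeff_high {b k : ℕ} {F : A} (h : dd ^ (b - k) ∣ F) (hb : 1 ≤ b) :
    PowerSeries.coeff b (dd ^ (k + 1) * F : A) = 0 := by
  apply coeff_zero_of_dvd (a := b + 1)
  · refine (pow_dvd_pow dd (show b + 1 ≤ (k + 1) + (b - k) by omega)).trans ?_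
    rw [pow_add]
    exact mul_dvd_mul_left _ h
  · omega

lemma c0_xx (n : ℕ) : PowerSeries.coeff 0 (xx ^ n : A) = (-1) ^ n := by
  have h1 : PowerSeries.coeff 0 (xx : A) = -1 := by
    unfold xx dd
    simp
  rw [PowerSeries.coeff_zero_eq_constantCoeff] at h1 ⊢
  rw [map_pow, h1]

/-- the leading coefficient of the configurations with a label at least three -/
theorem big_ten_coeff (H : Gr P r) (hi : 1 ≤ i) (hi2 : i + 1 ≤ r) (hg : Good P i)
    (hκ : Split (i + 2) κ) (hb : 1 ≤ (lv P i).card)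
    [DecidablePred (Big (i + 2) κ)] :
    PowerSeries.coeff (lv P i).card (dd ^ 4 *
      ∑ e ∈ ((univ : Finset P).piAntidiag 10).filter (Big (i + 2) κ), trm i e : A) =
      ((N5s i κ).card : ℤ) := by
  classical
  have h1 := big_ten H hi hi2 hg hκ
  have h0 : ∑ e ∈ ((univ : Finset P).piAntidiag 10).filter (Big (i + 2) κ), trm i e =
      (∑ e ∈ ((univ : Finset P).piAntidiag 10).filter (Big (i + 2) κ), trm i e -
        ((N5s i κ).card : A) * (xx ^ 10 * dd ^ ((lv P i).card - 4))) +
      ((N5s i κ).card : A) * (xx ^ 10 * dd ^ ((lv P i).card - 4)) := by ring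
  rw [h0, mul_add, map_add]
  have h2 : PowerSeries.coeff (lv P i).card (dd ^ 4 *
      (∑ e ∈ ((univ : Finset P).piAntidiag 10).filter (Big (i + 2) κ), trm i e -
        ((N5s i κ).card : A) * (xx ^ 10 * dd ^ ((lv P i).card - 4))) : A) = 0 := by
    refine coeff_high (k := 3) ?_ hb
    convert h1
  rw [h2, zero_add]
  rcases (N5s i κ).eq_empty_or_nonempty with h3 | ⟨v, hv⟩
  · rw [h3]
    simp
  · obtain ⟨p, p', D, -, -, h5⟩ := N5s_data H hκ hv
    have h6 : dd ^ 4 * (((N5s i κ).card : A) * (xx ^ 10 * dd ^ ((lv P i).card - 4))) =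
        dd ^ (lv P i).card * (((N5s i κ).card : A) * xx ^ 10) := by
      have : dd ^ (lv P i).card = dd ^ 4 * dd ^ ((lv P i).card - 4) := by
        rw [← pow_add]
        congr 1
        omega
      rw [this]
      ring
    rw [h6]
    have h7 : PowerSeries.coeff (lv P i).card
        (dd ^ (lv P i).card * (((N5s i κ).card : A) * xx ^ 10)) =
        PowerSeries.coeff 0 (((N5s i κ).card : A) * xx ^ 10) := by
      unfold dd
      have := PowerSeries.coeff_X_pow_mul (((N5s i κ).card : A) * xx ^ 10) (lv P i).card 0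
      rwa [zero_add] at this
    rw [h7]
    have h8 : ((N5s i κ).card : A) * xx ^ 10 = (N5s i κ).card • (xx ^ 10 : A) := by
      rw [nsmul_eq_mul]
    rw [h8, map_nsmul, c0_xx]
    simp

/-! ### the numbers -/

lemma hp_zero {b n k : ℕ} {V : PowerSeries A} (h : HP b V) (hn : n ≤ 9) (hk : n / 2 < k) :
    PowerSeries.coeff b (dd ^ k * PowerSeries.coeff n V : A) = 0 := by
  apply coeff_zero_of_dvd (a := b + 1)
  · have h1 : (dd : A) ^ k = dd ^ (k - (n / 2 + 1)) * (dd * dd ^ (n / 2)) := by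
      rw [← pow_succ', ← pow_add]
      congr 1
      omega
    rw [h1, mul_assoc, mul_assoc, pow_succ']
    exact dvd_mul_of_dvd_right (mul_dvd_mul_left _ (h n hn)) _
  · omega

open Classical in
/-- the crossing sum -/
lemma XS_eq (H : Gr P r) (hir : i ≤ r) (hκ : Split (i + 2) κ) (n : ℕ) : XS i κ n =
    ∑ p ∈ (Finset.HasAntidiagonal.antidiagonal n).filter (fun p => 1 ≤ p.1),
      ∑ G ∈ GG (i + 2) κ p.1, PowerSeries.coeff p.2 (PPS i (i + 2) κ G) +
    ∑ e ∈ ((univ : Finset P).piAntidiag n).filter (Big (i + 2) κ), trm i e := by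
  rw [← cross_sum H hir le_rfl hκ n]
  unfold XS
  refine Finset.sum_congr ?_ fun _ _ => rfl
  ext e
  rw [mem_filter, mem_filter]
  rfl

section main

variable (H : Gr P r) (hi : 1 ≤ i) (hi2 : i + 1 ≤ r) (hg : Good P i) (hκ : Split (i + 2) κ)
  (hb : 1 ≤ (lv P i).card)
  (hP : ∀ m G, 1 ≤ m → G ∈ GG (i + 2) κ m → HP (lv P i).card (PPS i (i + 2) κ G))
include H hi hi2 hκ hb hP

/-- the sum over the labels outside the components -/
lemma main_sum {n : ℕ} (hn : 3 ≤ n) (hn' : n ≤ 10) (he : n % 2 = 0) :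
    PowerSeries.coeff (lv P i).card (dd ^ (n / 2 - 1) *
      ∑ p ∈ (Finset.HasAntidiagonal.antidiagonal n).filter (fun p => 1 ≤ p.1),
        ∑ G ∈ GG (i + 2) κ p.1, PowerSeries.coeff p.2 (PPS i (i + 2) κ G) : A) =
    ∑ G ∈ GG (i + 2) κ 1, hc (n - 1) (lv P i).card (PPS i (i + 2) κ G) +
      ∑ G ∈ GG (i + 2) κ 2, hc (n - 2) (lv P i).card (PPS i (i + 2) κ G) := by
  classical
  rw [Finset.mul_sum, map_sum]
  have h1 : ∀ p ∈ (Finset.HasAntidiagonal.antidiagonal n).filter (fun p => 1 ≤ p.1),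
      PowerSeries.coeff (lv P i).card (dd ^ (n / 2 - 1) *
        ∑ G ∈ GG (i + 2) κ p.1, PowerSeries.coeff p.2 (PPS i (i + 2) κ G) : A) =
      (if p = (1, n - 1) then
        ∑ G ∈ GG (i + 2) κ 1, hc (n - 1) (lv P i).card (PPS i (i + 2) κ G) else 0) +
      (if p = (2, n - 2) then
        ∑ G ∈ GG (i + 2) κ 2, hc (n - 2) (lv P i).card (PPS i (i + 2) κ G) else 0) := by
    rintro ⟨m, k⟩ hp
    rw [mem_filter, Finset.HasAntidiagonal.mem_antidiagonal] at hp
    simp only at hp ⊢
    rw [Finset.mul_sum, map_sum]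
    by_cases hm1 : m = 1
    · have hk : k = n - 1 := by omega
      subst hm1
      subst hk
      rw [if_pos rfl, if_neg (by simp), add_zero]
      refine Finset.sum_congr rfl fun G hG => ?_
      unfold hc
      congr 3
      omega
    · by_cases hm2 : m = 2
      · have hk : k = n - 2 := by omega
        subst hm2
        subst hk
        rw [if_neg (by simp), if_pos rfl, zero_add]
        refine Finset.sum_congr rfl fun G hG => ?_
        unfold hc
        congr 3
        omega
      · rw [if_neg (fun h => hm1 (by rw [Prod.mk.injEq] at h; exact h.1)),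
          if_neg (fun h => hm2 (by rw [Prod.mk.injEq] at h; exact h.1)), add_zero]
        refine Finset.sum_eq_zero fun G hG => ?_
        exact hp_zero (hP m G hp.2 hG) (by omega) (by omega)
  rw [Finset.sum_congr rfl h1, Finset.sum_add_distrib, Finset.sum_ite_eq', Finset.sum_ite_eq',
    if_pos, if_pos]
  · rw [mem_filter, Finset.HasAntidiagonal.mem_antidiagonal]
    simp only
    omega
  · rw [mem_filter, Finset.HasAntidiagonal.mem_antidiagonal]
    simp only
    omega

/-- THE CROSSING NUMBER at the energy eight -/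
theorem XX_eight : XX i κ 8 =
    ∑ G ∈ GG (i + 2) κ 1, hc 7 (lv P i).card (PPS i (i + 2) κ G) +
      ∑ G ∈ GG (i + 2) κ 2, hc 6 (lv P i).card (PPS i (i + 2) κ G) := by
  classical
  unfold XX
  rw [XS_eq H (by omega) hκ, big_eight H hκ le_rfl, add_zero]
  exact main_sum H hi hi2 hκ hb hP (n := 8) (by omega) (by omega) (by omega)

include hg in
/-- THE CROSSING NUMBER at the energy ten -/
theorem XX_ten : XX i κ 10 =
    ∑ G ∈ GG (i + 2) κ 1, hc 9 (lv P i).card (PPS i (i + 2) κ G) +
      ∑ G ∈ GG (i + 2) κ 2, hc 8 (lv P i).card (PPS i (i + 2) κ G) + ((N5s i κ).card : ℤ) := by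
  classical
  unfold XX
  rw [XS_eq H (by omega) hκ, mul_add, map_add]
  have h1 := main_sum H hi hi2 hκ hb hP (n := 10) (by omega) (by omega) (by omega)
  have h2 := big_ten_coeff H hi hi2 hg hκ hb
  have h3 : T8.kk 10 = 4 := by unfold T8.kk; simp
  rw [h3]
  congr 1

end main

end Pool.Agent.GaussPoset.Win.Pn
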