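import Pool.Agent.W_448pn_h63.PnF

/-!
# Products of half profiles (MP_448cb3_co, G2, case B, window j - 1)
-/

set_option autoImplicit false

namespace Pool.Agent.GaussPoset.Win.Pn

set_option linter.unusedSectionVars false

open Finset So I2 T8

lemma Mo_one : Mo 0 (1 : PowerSeries A) 0 1 where
  hp := fun n _ => by rw [pow_zero]; exact one_dvd _
  ev := by
    intro m hm
    unfold hc
    rw [PowerSeries.coeff_one]
    by_cases h : m = 0
    · subst h
      simp
    · rw [if_neg (by omega), if_neg h, mul_zero, map_zero]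

lemma odd_one (m : ℕ) : hc (2 * m + 1) 0 (1 : PowerSeries A) = 0 := by
  unfold hc
  rw [PowerSeries.coeff_one, if_neg (by omega), mul_zero, map_zero]

/-- the product over the components -/
theorem prod_Mo {α : Type*} [DecidableEq α] (s : Finset α) (b : α → ℕ) (V : α → PowerSeries A)
    (k : α → ℕ) (c : α → ℤ) (h : ∀ a ∈ s, Mo (b a) (V a) (k a) (c a)) :
    Mo (∑ a ∈ s, b a) (∏ a ∈ s, V a) (∑ a ∈ s, k a) (∏ a ∈ s, c a) ∧
    ∀ m, m ≤ 4 → hc (2 * m + 1) (∑ a ∈ s, b a) (∏ a ∈ s, V a) =
      ∑ a ∈ s, if ∑ x ∈ s.erase a, k x ≤ m then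
        (∏ x ∈ s.erase a, c x) * hc (2 * (m - ∑ x ∈ s.erase a, k x) + 1) (b a) (V a) else 0 := by
  induction s using Finset.induction_on with
  | empty =>
    simp only [Finset.sum_empty, Finset.prod_empty]
    exact ⟨Mo_one, fun m _ => odd_one m⟩
  | insert a s ha ih =>
    obtain ⟨i1, i2⟩ := ih (fun c hc => h c (Finset.mem_insert_of_mem hc))
    have ha1 := h a (Finset.mem_insert_self a s)
    rw [Finset.sum_insert ha, Finset.prod_insert ha, Finset.sum_insert ha, Finset.prod_insert ha]
    refine ⟨ha1.mul i1, fun m hm => ?_⟩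
    rw [ha1.odd_mul i1 hm, Finset.sum_insert ha, Finset.erase_insert ha]
    congr 1
    have h1 : ∀ x ∈ s, (insert a s).erase x = insert a (s.erase x) := by
      intro x hx
      rw [Finset.erase_insert_of_ne]
      rintro rfl
      exact ha hx
    have h2 : ∀ x ∈ s, a ∉ s.erase x := fun x _ hax => ha (Finset.mem_of_mem_erase hax)
    split_ifs with hk
    · rw [i2 (m - k a) (by omega), Finset.mul_sum]
      refine Finset.sum_congr rfl fun x hx => ?_
      rw [h1 x hx, Finset.sum_insert (h2 x hx), Finset.prod_insert (h2 x hx)]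
      by_cases h3 : ∑ y ∈ s.erase x, k y ≤ m - k a
      · rw [if_pos h3, if_pos (by omega)]
        have h4 : m - (k a + ∑ y ∈ s.erase x, k y) = m - k a - ∑ y ∈ s.erase x, k y := by omega
        rw [h4]
        ring
      · rw [if_neg h3, if_neg (by omega), mul_zero]
    · symm
      refine Finset.sum_eq_zero fun x hx => ?_
      rw [h1 x hx, Finset.sum_insert (h2 x hx), if_neg (by omega)]

/-- one factor with a pin -/
theorem prod_two {α : Type*} [DecidableEq α] (s : Finset α) (b : α → ℕ) (V : α → PowerSeries A)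
    {x y : α} (hx : x ∈ s) (hy : y ∈ s) (hxy : x ≠ y) {cx cy : ℤ}
    (h : ∀ a ∈ s, a ≠ x → a ≠ y → Mo (b a) (V a) 0 1) (h1 : Mo (b x) (V x) 1 cx)
    (h2 : Mo (b y) (V y) 1 cy) {m : ℕ} (hm : 2 ≤ m) (hm' : m ≤ 4) :
    hc (2 * m + 1) (∑ a ∈ s, b a) (∏ a ∈ s, V a) =
      cy * hc (2 * m - 1) (b x) (V x) + cx * hc (2 * m - 1) (b y) (V y) +
      cx * cy * ∑ a ∈ (s.erase x).erase y, hc (2 * m - 3) (b a) (V a) := by
  set k : α → ℕ := fun a => if a = x ∨ a = y then 1 else 0 with hk
  set c : α → ℤ := fun a => if a = x then cx else if a = y then cy else 1 with hc'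
  have h0 : ∀ a ∈ s, Mo (b a) (V a) (k a) (c a) := by
    intro a ha
    by_cases e1 : a = x
    · subst e1
      simp only [hk, hc']
      simpa using h1
    · by_cases e2 : a = y
      · subst e2
        simp only [hk, hc']
        simpa [e1] using h2
      · simp only [hk, hc']
        simpa [e1, e2] using h a ha e1 e2
  have hy' : y ∈ s.erase x := mem_erase.2 ⟨hxy.symm, hy⟩
  have split : ∀ F : α → ℤ, ∑ a ∈ s, F a = F x + F y + ∑ a ∈ (s.erase x).erase y, F a := by
    intro F
    rw [← Finset.add_sum_erase s F hx, ← Finset.add_sum_erase (s.erase x) F hy', ← add_assoc]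
  rw [(prod_Mo s b V k c h0).2 m hm', split]
  have z1 : ∀ T : Finset α, T ⊆ (s.erase x).erase y → ∑ a ∈ T, k a = 0 := by
    intro T hT
    refine Finset.sum_eq_zero fun a ha => ?_
    have := hT ha
    rw [mem_erase, mem_erase] at this
    simp only [hk]
    rw [if_neg]
    tauto
  have z2 : ∀ T : Finset α, T ⊆ (s.erase x).erase y → ∏ a ∈ T, c a = 1 := by
    intro T hT
    refine Finset.prod_eq_one fun a ha => ?_
    have := hT ha
    rw [mem_erase, mem_erase] at this
    simp only [hc']
    rw [if_neg this.2.1, if_neg this.1]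
  have kx : k x = 1 := by simp only [hk]; simp
  have ky : k y = 1 := by simp only [hk]; simp
  have ex : c x = cx := by simp only [hc']; simp
  have ey : c y = cy := by simp only [hc']; rw [if_neg hxy.symm, if_pos trivial]
  congr 1
  · congr 1
    · rw [← Finset.add_sum_erase (s.erase x) k hy', ← Finset.mul_prod_erase (s.erase x) c hy',
        z1 _ (Finset.Subset.refl _), z2 _ (Finset.Subset.refl _), ky, ey, if_pos (by omega)]
      have : 2 * (m - (1 + 0)) + 1 = 2 * m - 1 := by omega
      rw [this, mul_one]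
    · have hx' : x ∈ s.erase y := mem_erase.2 ⟨hxy, hx⟩
      rw [← Finset.add_sum_erase (s.erase y) k hx', ← Finset.mul_prod_erase (s.erase y) c hx',
        Finset.erase_right_comm, z1 _ (Finset.Subset.refl _), z2 _ (Finset.Subset.refl _), kx, ex,
        if_pos (by omega)]
      have : 2 * (m - (1 + 0)) + 1 = 2 * m - 1 := by omega
      rw [this, mul_one]
  · rw [Finset.mul_sum]
    refine Finset.sum_congr rfl fun a ha => ?_
    rw [mem_erase, mem_erase] at ha
    have hx' : x ∈ s.erase a := mem_erase.2 ⟨fun h => ha.2.1 h.symm, hx⟩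
    have hy'' : y ∈ (s.erase a).erase x := mem_erase.2 ⟨hxy.symm, mem_erase.2
      ⟨fun h => ha.1 h.symm, hy⟩⟩
    have hsub : ((s.erase a).erase x).erase y ⊆ (s.erase x).erase y := by
      intro z hz
      rw [mem_erase, mem_erase, mem_erase] at hz
      rw [mem_erase, mem_erase]
      exact ⟨hz.1, hz.2.1, hz.2.2.2⟩
    rw [← Finset.add_sum_erase (s.erase a) k hx', ← Finset.mul_prod_erase (s.erase a) c hx',
      ← Finset.add_sum_erase ((s.erase a).erase x) k hy'',
      ← Finset.mul_prod_erase ((s.erase a).erase x) c hy'', z1 _ hsub, z2 _ hsub, kx, ky, ex, ey,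
      if_pos (by omega)]
    have : 2 * (m - (1 + (1 + 0))) + 1 = 2 * m - 3 := by omega
    rw [this, mul_one]

lemma HP_one : HP 0 (1 : PowerSeries A) := Mo_one.hp

/-- half profile of the product -/
theorem prod_HP {α : Type*} [DecidableEq α] (s : Finset α) (b : α → ℕ) (V : α → PowerSeries A)
    (h : ∀ a ∈ s, HP (b a) (V a)) : HP (∑ a ∈ s, b a) (∏ a ∈ s, V a) := by
  induction s using Finset.induction_on with
  | empty =>
    simp only [Finset.sum_empty, Finset.prod_empty]
    exact HP_one
  | insert a s ha ih =>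
    rw [Finset.sum_insert ha, Finset.prod_insert ha]
    exact (h a (Finset.mem_insert_self a s)).mul (ih fun c hc => h c (Finset.mem_insert_of_mem hc))

/-- one factor without even leading coefficients -/
theorem even_zero {b b' : ℕ} {V V' : PowerSeries A} (h : HP b V) (h' : HP b' V')
    (h0 : ∀ m, m ≤ 4 → hc (2 * m) b V = 0) {m : ℕ} (hm : m ≤ 4) :
    hc (2 * m) (b + b') (V * V') = 0 := by
  rw [hc_mul h h' (by omega), anti_even m (fun p => hc p.1 b V * hc p.2 b' V')]
  refine Finset.sum_eq_zero fun q hq => ?_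
  rw [Finset.HasAntidiagonal.mem_antidiagonal] at hq
  simp only
  rw [h0 q.1 (by omega), zero_mul]

theorem prod_even_zero {α : Type*} [DecidableEq α] (s : Finset α) (b : α → ℕ)
    (V : α → PowerSeries A) (h : ∀ a ∈ s, HP (b a) (V a)) {x : α} (hx : x ∈ s)
    (h0 : ∀ m, m ≤ 4 → hc (2 * m) (b x) (V x) = 0) {m : ℕ} (hm : m ≤ 4) :
    hc (2 * m) (∑ a ∈ s, b a) (∏ a ∈ s, V a) = 0 := by
  rw [← Finset.add_sum_erase s b hx, ← Finset.mul_prod_erase s V hx]
  exact even_zero (h x hx) (prod_HP _ _ _ fun a ha => h a (Finset.mem_of_mem_erase ha)) h0 hm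

end Pool.Agent.GaussPoset.Win.Pn
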