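import Pool.Agent.W_448pn_h63.PnG
import Pool.Agent.W_448so_h63.FL
import Pool.Agent.W_448g_h5.GA
import Pool.Agent.W_448xc_h84.XgC

/-!
# One crossing label (MP_448cb3_co, G2, case B, window j - 1)
-/

set_option autoImplicit false

namespace Pool.Agent.GaussPoset.Win.Pn

set_option linter.unusedSectionVars false

open Finset So I2 T8

universe u

variable {P : Type u} [Fintype P] [PartialOrder P] [DecidableEq P] {r i l : ℕ}

variable {ι : Type*} [DecidableEq ι] {κ : P → ι} {e G : P → ℕ} {C : Finset P} {t t' : P → ℕ}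
  {z p p' : P}

/-- the pinned elements -/
noncomputable def pns (C : Finset P) (t : P → ℕ) : Finset P := C.filter (fun w => 1 ≤ t w)

lemma mem_pns {w : P} : w ∈ pns C t ↔ w ∈ C ∧ 1 ≤ t w := by
  unfold pns
  rw [mem_filter]

/-- good pins: label one, pendants below doubles, disjoint sites -/
def Gd (i : ℕ) (C : Finset P) (t : P → ℕ) : Prop :=
  (∀ w ∈ pns C t, t w = 1 ∧ w ∈ PD P i) ∧
    ∀ w ∈ pns C t, ∀ w' ∈ pns C t, w ≠ w' → Disjoint (sts i w) (sts i w')

/-- the element `d` can be exchanged with a site -/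
def TeeL (i : ℕ) (d : P) : Prop := ∃ w w2 p x q, Xg.Tee dc uc (Xg.laL i) d w w2 p x q

open Classical in
/-- THE PINNED SERIES OF THE COMPONENTS: half profiles; the even leading coefficients count the
pendants, when the elements which can be exchanged are pinned at most once -/
structure PinH (i : ℕ) (κ : P → ι) : Prop where
  hp : ∀ a ∈ univ.image κ, ∀ t : P → ℕ, (∀ w, 1 ≤ t w → i + 2 ≤ lev w) → (∀ w, t w ≤ 2) →
    HP (bb i (i + 2) κ a) (ZPS i (cext (i + 2) κ a) t)
  mo : ∀ a ∈ univ.image κ, ∀ t : P → ℕ, (∀ w, 1 ≤ t w → i + 2 ≤ lev w) → (∀ w, t w ≤ 2) →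
    (∀ w ∈ cext (i + 2) κ a, TeeL i w → t w ≤ 1) →
    Mo (bb i (i + 2) κ a) (ZPS i (cext (i + 2) κ a) t) (pns (cext (i + 2) κ a) t).card
      (if Gd i (cext (i + 2) κ a) t then 1 else 0)

lemma ZPS_congr (h : ∀ w ∈ C, t w = t' w) : ZPS i C t = ZPS i C t' := by
  classical
  ext1 n
  rw [coeff_ZPS, coeff_ZPS]
  unfold ZP
  refine Finset.sum_congr ?_ fun _ _ => rfl
  refine Finset.filter_congr fun e _ => ?_
  unfold Pin
  refine forall_congr' fun w => ?_
  refine imp_congr_right fun hw => ?_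
  rw [h w hw]

lemma pns_congr (h : ∀ w ∈ C, t w = t' w) : pns C t = pns C t' := by
  unfold pns
  exact Finset.filter_congr fun w hw => by rw [h w hw]

lemma Gd_congr (h : ∀ w ∈ C, t w = t' w) : Gd i C t ↔ Gd i C t' := by
  unfold Gd
  rw [pns_congr h]
  refine and_congr ?_ Iff.rfl
  refine forall_congr' fun w => ?_
  refine imp_congr_right fun hw => ?_
  rw [h w (mem_pns.1 hw).1]

/-- label one on one element -/
noncomputable def ind (p : P) : P → ℕ := Pi.single p 1

lemma ind_self : ind p p = 1 := by unfold ind; rw [Pi.single_eq_same]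

lemma ind_ne {w : P} (h : w ≠ p) : ind p w = 0 := by
  unfold ind
  rw [Pi.single_eq_of_ne h]

lemma ind_le (w : P) : ind p w ≤ 1 := by
  by_cases h : w = p
  · rw [h, ind_self]
  · rw [ind_ne h]
    omega

lemma pns_ind (hp : p ∈ C) : pns C (ind p) = {p} := by
  ext w
  rw [mem_pns, mem_singleton]
  constructor
  · rintro ⟨-, h⟩
    by_contra h1
    rw [ind_ne h1] at h
    omega
  · rintro rfl
    exact ⟨hp, by rw [ind_self]⟩

lemma Gd_ind (hp : p ∈ C) : Gd i C (ind p) ↔ p ∈ PD P i := by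
  unfold Gd
  rw [pns_ind hp]
  simp only [mem_singleton, forall_eq, ind_self, true_and, ne_eq, not_true_eq_false,
    IsEmpty.forall_iff, and_true]

lemma pns_zero (h : ∀ w ∈ C, t w = 0) : pns C t = ∅ := by
  rw [eq_empty_iff_forall_notMem]
  intro w hw
  have h1 := mem_pns.1 hw
  rw [h w h1.1] at h1
  omega

lemma Gd_zero (h : ∀ w ∈ C, t w = 0) : Gd i C t := by
  unfold Gd
  rw [pns_zero h]
  exact ⟨fun w hw => absurd hw (notMem_empty w), fun w hw => absurd hw (notMem_empty w)⟩

/-! ### the labels of total one -/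

/-- crossing elements without crossing covers -/
noncomputable def z1s (l : ℕ) (κ : P → ι) : Finset P :=
  (Crs l κ).filter (fun z => uc z ⊆ cuni l κ)

/-- no crossing element has two covers which can be exchanged -/
def NoTT (i : ℕ) (κ : P → ι) : Prop := ∀ z ∈ z1s (i + 2) κ, ∃ p ∈ uc z, ¬ TeeL i p

lemma mem_z1s : z ∈ z1s l κ ↔ z ∉ cuni l κ ∧ ∀ y, z ⋖ y → y ∈ cuni l κ := by
  unfold z1s
  rw [mem_filter, mem_Crs]
  refine and_congr_right fun _ => ?_
  constructor
  · exact fun h y hy => h (mem_uc.2 hy)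
  · exact fun h y hy => h y (mem_uc.1 hy)

lemma sum_one_single {D : Finset P} {f : P → ℕ} (hf : Spt D f) (h : ∑ x ∈ D, f x = 1) :
    ∃ x ∈ D, f = Pi.single x 1 := by
  classical
  have h1 : ∃ x ∈ D, 1 ≤ f x := by
    by_contra hc
    push Not at hc
    have : ∑ x ∈ D, f x = 0 := Finset.sum_eq_zero fun x hx => by
      have := hc x hx
      omega
    omega
  obtain ⟨x, hx, hx1⟩ := h1
  refine ⟨x, hx, ?_⟩
  have h2 := Finset.add_sum_erase D f hx
  funext y
  by_cases hy : y = x
  · subst hy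
    rw [Pi.single_eq_same]
    omega
  · rw [Pi.single_eq_of_ne hy]
    by_cases hyD : y ∈ D
    · have h3 := Finset.single_le_sum (f := f) (fun _ _ => Nat.zero_le _)
        (mem_erase.2 ⟨hy, hyD⟩)
      omega
    · exact hf y hyD

open Classical in
lemma th_single {w : P} : th (Pi.single z 1) w = if z ⋖ w then 1 else 0 := by
  classical
  apply le_antisymm
  · rw [th_le]
    intro y hy
    split_ifs with h
    · by_cases hyz : y = z
      · subst hyz
        rw [Pi.single_eq_same]
      · rw [Pi.single_eq_of_ne hyz]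
        omega
    · rw [Pi.single_eq_of_ne]
      rintro rfl
      exact h hy
  · split_ifs with h
    · have := (th_le (G := Pi.single z 1) (w := w)).1 le_rfl z h
      rwa [Pi.single_eq_same] at this
    · exact Nat.zero_le _

open Classical in
lemma GG_one : GG l κ 1 = (z1s l κ).image (fun z => (Pi.single z 1 : P → ℕ)) := by
  ext G
  unfold GG
  rw [mem_filter, mem_pa, mem_image]
  constructor
  · rintro ⟨⟨h1, h2⟩, -, h4⟩
    obtain ⟨z, hz, rfl⟩ := sum_one_single (D := Crs l κ) h2 (by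
      rw [← h1]
      refine Finset.sum_subset (subset_univ _) fun x _ hx => h2 x hx)
    refine ⟨z, mem_z1s.2 ⟨mem_Crs.1 hz, fun y hy => ?_⟩, rfl⟩
    by_contra h5
    have h6 := h4 z y hy h5
    rw [Pi.single_eq_same, Pi.single_eq_of_ne hy.ne'] at h6
    omega
  · rintro ⟨z, hz, rfl⟩
    obtain ⟨h1, h2⟩ := mem_z1s.1 hz
    refine ⟨⟨sum_single_one z, fun x hx => ?_⟩, fun x => ?_, fun x y hxy hy => ?_⟩
    · rw [Pi.single_eq_of_ne]
      rintro rfl
      exact hx (mem_Crs.2 h1)
    · by_cases h : x = z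
      · rw [h, Pi.single_eq_same]
        omega
      · rw [Pi.single_eq_of_ne h]
        omega
    · rw [Pi.single_eq_of_ne]
      · exact Nat.zero_le _
      · rintro rfl
        exact hy (h2 y hxy)

lemma sum_GG_one {M : Type*} [AddCommMonoid M] (F : (P → ℕ) → M) :
    ∑ G ∈ GG l κ 1, F G = ∑ z ∈ z1s l κ, F (Pi.single z 1) := by
  classical
  rw [GG_one, Finset.sum_image]
  intro z _ z' _ h
  by_contra hne
  have h1 := congrFun h z
  simp only at h1
  rw [Pi.single_eq_same, Pi.single_eq_of_ne hne] at h1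
  omega

/-- the two covers of a crossing element without crossing covers -/
lemma z1s_covers (H : Gr P r) (hκ : Split l κ) (hz : z ∈ z1s l κ) : ∃ p p' a a', uc z = {p, p'} ∧ p ≠ p' ∧
    a ∈ univ.image κ ∧ a' ∈ univ.image κ ∧ a ≠ a' ∧ p ∈ cext l κ a ∧ p' ∈ cext l κ a' := by
  classical
  obtain ⟨h1, h2⟩ := mem_z1s.1 hz
  have hz0 := (two_up H hκ h1).1
  have hin : ∀ y, z ⋖ y → ∃ a ∈ univ.image κ, y ∈ cext l κ a := by
    intro y hy
    have := h2 y hy
    unfold cuni at this
    rwa [mem_biUnion] at this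
  obtain ⟨p, hp⟩ := uc_nonempty H (x := z) (by omega)
  obtain ⟨a, ha, hpa⟩ := hin p (mem_uc.1 hp)
  have hex : ∃ p', z ⋖ p' ∧ p' ∉ cext l κ a := by
    by_contra hc
    push Not at hc
    apply h1
    unfold cuni
    rw [mem_biUnion]
    refine ⟨a, ha, ?_⟩
    rw [mem_cext]
    intro y hy hly
    rcases eq_or_lt_of_le hy with h3 | h3
    · subst h3
      omega
    · obtain ⟨w, hw, hwy⟩ := exists_covBy_le_of_lt h3
      exact mem_cext.1 (hc w hw) y hwy hly
  obtain ⟨p', hp', hpa'⟩ := hex
  obtain ⟨a', ha', hpa2⟩ := hin p' hp'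
  have hne : p ≠ p' := by
    rintro rfl
    exact hpa' hpa
  refine ⟨p, p', a, a', ?_, hne, ha, ha', ?_, hpa, hpa2⟩
  · symm
    apply Finset.eq_of_subset_of_card_le
    · intro x hx
      rw [mem_insert, mem_singleton] at hx
      rcases hx with rfl | rfl
      · exact hp
      · exact mem_uc.2 hp'
    · rw [Finset.card_pair hne]
      exact uc_card_le H z
  · rintro rfl
    exact hpa' hpa2

/-- the leading coefficient of the series of the component of `p` pinned at `p` -/
noncomputable def rho (i : ℕ) (κ : P → ι) (n : ℕ) (p : P) : ℤ :=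
  hc n (bb i (i + 2) κ (κ p)) (ZPS i (cext (i + 2) κ (κ p)) (ind p))

/-- the leading coefficient of the series of a component -/
noncomputable def sg (i : ℕ) (κ : P → ι) (n : ℕ) (a : ι) : ℤ :=
  hc n (bb i (i + 2) κ a) (VV i (i + 2) κ a)

open Classical in
/-- crossing elements of the level `i + 3` -/
noncomputable def X3 (i : ℕ) (κ : P → ι) : Finset P :=
  univ.filter (fun z => lev z = i + 3 ∧ z ∉ cuni (i + 2) κ)

lemma mem_X3 : z ∈ X3 i κ ↔ lev z = i + 3 ∧ z ∉ cuni (i + 2) κ := by
  classical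
  unfold X3
  rw [mem_filter]
  simp

open Classical in
/-- the contribution of a crossing element of the level `i + 3` -/
noncomputable def WW (i : ℕ) (κ : P → ι) (m : ℕ) (z : P) : ℤ :=
  ∑ p ∈ uc z, (if ∀ q ∈ uc z, q ≠ p → q ∈ PD P i then rho i κ (2 * m - 1) p else 0) +
    (if ∀ q ∈ uc z, q ∈ PD P i then
      ∑ a ∈ univ.image κ, sg i κ (2 * m - 3) a - ∑ p ∈ uc z, sg i κ (2 * m - 3) (κ p) else 0)

lemma th_far (H : Gr P r) (hκ : Split (i + 2) κ) (hG : Spt (Crs (i + 2) κ) G) {w : P}
    (hw : 1 ≤ th G w) : i + 2 ≤ lev w := by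
  have h : ∃ z, z ⋖ w ∧ 1 ≤ G z := by
    by_contra hc
    push Not at hc
    have := (th_le (n := 0)).2 (fun z hz => Nat.lt_succ_iff.1 (hc z hz))
    omega
  obtain ⟨z, hz, hG1⟩ := h
  have hzc : z ∉ cuni (i + 2) κ := by
    intro h
    rw [hG z (fun h' => mem_Crs.1 h' h)] at hG1
    omega
  have h1 := (two_up H hκ hzc).1
  have h2 := lev_uc H (mem_uc.2 hz)
  omega

lemma PD_lev (h : p ∈ PD P i) : lev p = i + 2 := (mem_PD.1 h).1

section single

variable (H : Gr P r) (hir : i ≤ r) (hκ : Split (i + 2) κ) (hPin : PinH i κ)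
include H hκ hPin

open Classical in
/-- the product for one crossing label -/
theorem hc_single (hz : z ∈ z1s (i + 2) κ) {m : ℕ} (hm : 2 ≤ m) (hm' : m ≤ 4) :
    hc (2 * m + 1) (lv P i).card (PPS i (i + 2) κ (Pi.single z 1)) =
      if z ∈ X3 i κ then WW i κ m z else 0 := by
  obtain ⟨p, p', a, a', huc, hpp, ha, ha', haa, hpa, hpa'⟩ := z1s_covers H hκ hz
  obtain ⟨hzc, hzcov⟩ := mem_z1s.1 hz
  have hlz := (two_up H hκ hzc).1
  have hGs : Spt (Crs (i + 2) κ) (Pi.single z 1 : P → ℕ) := by
    intro x hx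
    rw [Pi.single_eq_of_ne]
    rintro rfl
    exact hx (mem_Crs.2 hzc)
  have hfar : ∀ w, 1 ≤ th (Pi.single z 1) w → i + 2 ≤ lev w := fun w hw => th_far H hκ hGs hw
  have hle1 : ∀ w, th (Pi.single z 1) w ≤ 1 := by
    intro w
    rw [th_single]
    split_ifs <;> omega
  have hle : ∀ w, th (Pi.single z 1) w ≤ 2 := fun w => (hle1 w).trans (by omega)
  have hp : z ⋖ p := mem_uc.1 (by rw [huc]; simp)
  have hp' : z ⋖ p' := mem_uc.1 (by rw [huc]; simp)
  have lp := lev_uc H (mem_uc.2 hp)
  have lp' := lev_uc H (mem_uc.2 hp')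
  have hcov : ∀ w, z ⋖ w → w = p ∨ w = p' := by
    intro w hw
    have := mem_uc.2 hw
    rwa [huc, mem_insert, mem_singleton] at this
  have t1 : ∀ w ∈ cext (i + 2) κ a, th (Pi.single z 1) w = ind p w := by
    intro w hw
    rw [th_single]
    by_cases h : w = p
    · rw [h, if_pos hp, ind_self]
    · rw [ind_ne h, if_neg]
      intro h1
      rcases hcov w h1 with h2 | h2
      · exact h h2
      · rw [h2] at hw
        exact disjoint_left.1 (disj_cext haa) hw hpa'
  have t2 : ∀ w ∈ cext (i + 2) κ a', th (Pi.single z 1) w = ind p' w := by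
    intro w hw
    rw [th_single]
    by_cases h : w = p'
    · rw [h, if_pos hp', ind_self]
    · rw [ind_ne h, if_neg]
      intro h1
      rcases hcov w h1 with h2 | h2
      · rw [h2] at hw
        exact disjoint_left.1 (disj_cext haa) hpa hw
      · exact h h2
  have t3 : ∀ x, x ≠ a → x ≠ a' → ∀ w ∈ cext (i + 2) κ x, th (Pi.single z 1) w = 0 := by
    intro x hx hx' w hw
    rw [th_single, if_neg]
    intro h1
    rcases hcov w h1 with h2 | h2
    · rw [h2] at hw
      exact disjoint_left.1 (disj_cext hx) hw hpa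
    · rw [h2] at hw
      exact disjoint_left.1 (disj_cext hx') hw hpa'
  have M1 := hPin.mo a ha _ hfar hle (fun w _ _ => hle1 w)
  have M2 := hPin.mo a' ha' _ hfar hle (fun w _ _ => hle1 w)
  rw [ZPS_congr t1, pns_congr t1, pns_ind hpa, card_singleton] at M1
  rw [ZPS_congr t2, pns_congr t2, pns_ind hpa', card_singleton] at M2
  have h3 := prod_two (univ.image κ) (bb i (i + 2) κ)
    (fun x => ZPS i (cext (i + 2) κ x) (th (Pi.single z 1))) ha ha' haa
    (fun x hx h1 h2 => by
      have M := hPin.mo x hx _ hfar hle (fun w _ _ => hle1 w)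
      rw [pns_zero (t3 x h1 h2), card_empty, if_pos (Gd_zero (t3 x h1 h2))] at M
      exact M) (cx := if Gd i (cext (i + 2) κ a) (th (Pi.single z 1)) then 1 else 0)
      (cy := if Gd i (cext (i + 2) κ a') (th (Pi.single z 1)) then 1 else 0)
      (by rw [ZPS_congr t1]; exact M1) (by rw [ZPS_congr t2]; exact M2) hm hm'
  unfold PPS
  rw [← sum_bb hκ, h3]
  have g1 : Gd i (cext (i + 2) κ a) (th (Pi.single z 1)) ↔ p ∈ PD P i := by
    rw [Gd_congr t1, Gd_ind hpa]
  have g2 : Gd i (cext (i + 2) κ a') (th (Pi.single z 1)) ↔ p' ∈ PD P i := by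
    rw [Gd_congr t2, Gd_ind hpa']
  simp only [g1, g2]
  rw [ZPS_congr t1, ZPS_congr t2]
  have h4 : ∑ x ∈ ((univ.image κ).erase a).erase a', hc (2 * m - 3) (bb i (i + 2) κ x)
      (ZPS i (cext (i + 2) κ x) (th (Pi.single z 1))) =
      ∑ x ∈ ((univ.image κ).erase a).erase a', sg i κ (2 * m - 3) x := by
    refine Finset.sum_congr rfl fun x hx => ?_
    rw [mem_erase, mem_erase] at hx
    unfold sg VV
    rw [ZPS_disj (t3 x hx.2.1 hx.1)]
  rw [h4]
  by_cases hl : lev z = i + 3
  · rw [if_pos (mem_X3.2 ⟨hl, hzc⟩)]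
    have k1 : κ p = a := mem_cext.1 hpa p le_rfl (by omega)
    have k2 : κ p' = a' := mem_cext.1 hpa' p' le_rfl (by omega)
    have q1 : (∀ q ∈ uc z, q ≠ p → q ∈ PD P i) ↔ p' ∈ PD P i := by
      rw [huc]
      constructor
      · exact fun h => h p' (by simp) (fun h => hpp h.symm)
      · intro h q hq hqp
        rw [mem_insert, mem_singleton] at hq
        rcases hq with rfl | rfl
        · exact absurd rfl hqp
        · exact h
    have q2 : (∀ q ∈ uc z, q ≠ p' → q ∈ PD P i) ↔ p ∈ PD P i := by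
      rw [huc]
      constructor
      · exact fun h => h p (by simp) hpp
      · intro h q hq hqp
        rw [mem_insert, mem_singleton] at hq
        rcases hq with rfl | rfl
        · exact h
        · exact absurd rfl hqp
    have q3 : (∀ q ∈ uc z, q ∈ PD P i) ↔ p ∈ PD P i ∧ p' ∈ PD P i := by
      rw [huc]
      simp only [mem_insert, mem_singleton, forall_eq_or_imp, forall_eq]
    have hsum : ∀ F : P → ℤ, ∑ q ∈ uc z, F q = F p + F p' := by
      intro F
      rw [huc, Finset.sum_pair hpp]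
    unfold WW
    rw [hsum, hsum]
    simp only [q1, q2, q3]
    unfold rho
    rw [k1, k2]
    have h5 := Finset.add_sum_erase (univ.image κ) (fun x => sg i κ (2 * m - 3) x) ha
    have h6 := Finset.add_sum_erase ((univ.image κ).erase a) (fun x => sg i κ (2 * m - 3) x)
      (mem_erase.2 ⟨haa.symm, ha'⟩)
    by_cases c1 : p ∈ PD P i
    · by_cases c2 : p' ∈ PD P i
      · simp only [c1, c2, and_self, if_true]
        linarith
      · simp only [c1, c2, and_false, if_true, if_false]
        ring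
    · by_cases c2 : p' ∈ PD P i
      · simp only [c1, c2, false_and, if_true, if_false]
        ring
      · simp only [c1, c2, and_self, if_false]
        ring
  · have c1 : p ∉ PD P i := fun h => hl (by have := PD_lev h; omega)
    have c2 : p' ∉ PD P i := fun h => hl (by have := PD_lev h; omega)
    rw [if_neg (fun h => hl (mem_X3.1 h).1), if_neg c1, if_neg c2]
    ring

/-- THE SUM over the labels of total one -/
theorem sum_one {m : ℕ} (hm : 2 ≤ m) (hm' : m ≤ 4) :
    ∑ G ∈ GG (i + 2) κ 1, hc (2 * m + 1) (lv P i).card (PPS i (i + 2) κ G) =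
      ∑ z ∈ X3 i κ, WW i κ m z := by
  classical
  rw [sum_GG_one, Finset.sum_congr rfl (fun z hz => hc_single H hκ hPin hz hm hm'),
    ← Finset.sum_filter]
  refine Finset.sum_congr ?_ fun _ _ => rfl
  ext z
  rw [mem_filter]
  constructor
  · exact fun h => h.2
  · intro h
    refine ⟨?_, h⟩
    obtain ⟨h1, h2⟩ := mem_X3.1 h
    refine mem_z1s.2 ⟨h2, fun y hy => ?_⟩
    have := lev_uc H (mem_uc.2 hy)
    exact le_mem_cuni hκ (by omega)

end single

end Pool.Agent.GaussPoset.Win.Pn
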