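import Pool.Agent.W_448pn_h63.PnH

/-!
# Two crossing labels, the crossing numbers at the energies eight and ten (MP_448cb3_co, G2, case B,
window j - 1)
-/

set_option autoImplicit false

namespace Pool.Agent.GaussPoset.Win.Pn

set_option linter.unusedSectionVars false

open Finset So I2 T8

universe u

variable {P : Type u} [Fintype P] [PartialOrder P] [DecidableEq P] {r i l : ℕ}

variable {ι : Type*} [DecidableEq ι] {κ : P → ι} {e G : P → ℕ} {C : Finset P} {t t' : P → ℕ}
  {z p p' : P} {s : Finset P} {k : ℕ}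

open Classical in
/-- pairs of joins of pendants with `k` pendants; two pendants of one component have disjoint sites -/
noncomputable def PR (i : ℕ) (κ : P → ι) (k : ℕ) : Finset (Finset P) :=
  ((Z2s i κ).powersetCard 2).filter (fun s => (s.biUnion uc).card = k ∧
    ∀ w ∈ s.biUnion uc, ∀ w' ∈ s.biUnion uc, w ≠ w' → κ w = κ w' →
      Disjoint (sts i w) (sts i w'))

lemma mem_PR : s ∈ PR i κ k ↔ (s ⊆ Z2s i κ ∧ s.card = 2) ∧ (s.biUnion uc).card = k ∧
    ∀ w ∈ s.biUnion uc, ∀ w' ∈ s.biUnion uc, w ≠ w' → κ w = κ w' →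
      Disjoint (sts i w) (sts i w') := by
  classical
  unfold PR
  rw [mem_filter, mem_powersetCard]

/-- indicator -/
def indS (s : Finset P) : P → ℕ := fun x => if x ∈ s then 1 else 0

lemma indS_in {x : P} (h : x ∈ s) : indS s x = 1 := by unfold indS; rw [if_pos h]

lemma indS_out {x : P} (h : x ∉ s) : indS s x = 0 := by unfold indS; rw [if_neg h]

lemma indS_le (x : P) : indS s x ≤ 1 := by unfold indS; split_ifs <;> omega

/-- the good labels of total two -/
def G2 (i : ℕ) (κ : P → ι) (k : ℕ) (G : P → ℕ) : Prop :=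
  (pns (cuni (i + 2) κ) (th G)).card = k ∧ ∀ a ∈ univ.image κ, Gd i (cext (i + 2) κ a) (th G)

lemma th_pos {w : P} : 1 ≤ th G w ↔ ∃ z, z ⋖ w ∧ 1 ≤ G z := by
  constructor
  · intro hw
    by_contra hc
    push Not at hc
    have := (th_le (n := 0)).2 (fun z hz => Nat.lt_succ_iff.1 (hc z hz))
    omega
  · rintro ⟨z, hz, h⟩
    exact h.trans ((th_le (G := G) (w := w)).1 le_rfl z hz)

lemma Z2s_cov (H : Gr P r) (hκ : Split (i + 2) κ) (hz : z ∈ Z2s i κ) {w : P} (hw : w ∈ uc z) :
    w ∈ PD P i ∧ w ∈ cuni (i + 2) κ := by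
  obtain ⟨p, p', y, y', D⟩ := Z2s_ZD H hκ hz
  have lp := D.lp H
  have lp' := D.lp' H
  rw [D.cov, mem_insert, mem_singleton] at hw
  rcases hw with rfl | rfl
  · refine ⟨mem_PD.2 ⟨lp, by rw [D.hp, card_singleton], y, D.yp, D.c⟩, le_mem_cuni hκ lp.le⟩
  · refine ⟨mem_PD.2 ⟨lp', by rw [D.hp', card_singleton], y', D.yp', D.c'⟩,
      le_mem_cuni hκ lp'.le⟩

section two

variable (H : Gr P r) (hκ : Split (i + 2) κ)
include H hκ

lemma pns_indS (hs : s ⊆ Z2s i κ) : pns (cuni (i + 2) κ) (th (indS s)) = s.biUnion uc := by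
  ext w
  rw [mem_pns, th_pos, mem_biUnion]
  constructor
  · rintro ⟨-, z, hz, h1⟩
    refine ⟨z, ?_, mem_uc.2 hz⟩
    by_contra h
    rw [indS_out h] at h1
    omega
  · rintro ⟨z, hz, hw⟩
    exact ⟨(Z2s_cov H hκ (hs hz) hw).2, z, mem_uc.1 hw, by rw [indS_in hz]⟩

/-- a pair of joins gives good labels -/
lemma PR_good (hs : s ∈ PR i κ k) : indS s ∈ GG (i + 2) κ 2 ∧ G2 i κ k (indS s) := by
  classical
  obtain ⟨⟨h1, h2⟩, h3, h4⟩ := mem_PR.1 hs
  have hth : ∀ w, th (indS s) w ≤ 1 := fun w => th_le.2 fun z _ => indS_le z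
  refine ⟨?_, ?_, ?_⟩
  · unfold GG
    rw [mem_filter, mem_pa]
    refine ⟨⟨?_, fun x hx => indS_out fun h => ?_⟩, fun x => (indS_le x).trans (by omega), ?_⟩
    · unfold indS
      rw [Finset.sum_ite_mem, univ_inter, Finset.sum_const, smul_eq_mul, mul_one, h2]
    · exact hx (mem_Crs.2 (mem_Z2s.1 (h1 h)).2.1)
    · intro x y hxy hy
      rw [indS_out]
      · exact Nat.zero_le _
      · intro hx
        exact hy (Z2s_cov H hκ (h1 hx) (mem_uc.2 hxy)).2
  · rw [pns_indS H hκ h1, h3]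
  · intro a ha
    have key : ∀ w ∈ pns (cext (i + 2) κ a) (th (indS s)), w ∈ s.biUnion uc ∧ w ∈ PD P i ∧
        κ w = a := by
      intro w hw
      obtain ⟨hwa, h5⟩ := mem_pns.1 hw
      obtain ⟨z, hz, h6⟩ := th_pos.1 h5
      have hzs : z ∈ s := by
        by_contra h
        rw [indS_out h] at h6
        omega
      have h7 := (Z2s_cov H hκ (h1 hzs) (mem_uc.2 hz)).1
      exact ⟨mem_biUnion.2 ⟨z, hzs, mem_uc.2 hz⟩, h7, mem_cext.1 hwa w le_rfl (PD_lev h7).le⟩
    refine ⟨fun w hw => ⟨?_, (key w hw).2.1⟩, fun w hw w' hw' hne => ?_⟩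
    · have h5 := (mem_pns.1 hw).2
      have := hth w
      omega
    · exact h4 w (key w hw).1 w' (key w' hw').1 hne ((key w hw).2.2.trans (key w' hw').2.2.symm)

/-- good labels of total two come from a pair of joins -/
lemma good_PR (hk : 3 ≤ k) (hG : G ∈ GG (i + 2) κ 2) (h2 : G2 i κ k G) :
    ∃ s ∈ PR i κ k, indS s = G := by
  classical
  unfold GG at hG
  rw [mem_filter, mem_pa] at hG
  obtain ⟨⟨hsum, hspt⟩, hle, hmon⟩ := hG
  obtain ⟨hcard, hgd⟩ := h2
  have hpair : ∀ x y, x ≠ y → G x + G y ≤ 2 := by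
    intro x y hxy
    rw [← hsum, ← Finset.sum_pair hxy]
    exact Finset.sum_le_sum_of_subset (subset_univ _)
  have hcr : ∀ z, 1 ≤ G z → z ∉ cuni (i + 2) κ := by
    intro z hz h
    rw [hspt z (fun h' => mem_Crs.1 h' h)] at hz
    omega
  have hpin : ∀ w z, z ⋖ w → 1 ≤ G z → w ∈ cuni (i + 2) κ → w ∈ PD P i ∧ G z = 1 := by
    intro w z hz hG1 hw
    unfold cuni at hw
    rw [mem_biUnion] at hw
    obtain ⟨a, ha, hwa⟩ := hw
    have h5 := (th_le (G := G) (w := w)).1 le_rfl z hz
    have h6 := (hgd a ha).1 w (mem_pns.2 ⟨hwa, by omega⟩)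
    exact ⟨h6.2, by omega⟩
  -- labels at most one
  have hone : ∀ z, G z ≤ 1 := by
    intro z
    by_contra h
    have hz := hcr z (by omega)
    have hlz := (two_up H hκ hz).1
    obtain ⟨w, hw⟩ := uc_nonempty H (x := z) (by omega)
    by_cases hwc : w ∈ cuni (i + 2) κ
    · have := (hpin w z (mem_uc.1 hw) (by omega) hwc).2
      omega
    · have h3 := hmon z w (mem_uc.1 hw) hwc
      have h4 := hpair z w (mem_uc.1 hw).ne
      omega
  set s := univ.filter (fun z => G z = 1) with hs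
  have hms : ∀ z, z ∈ s ↔ G z = 1 := by
    intro z
    rw [hs, mem_filter]
    simp
  have hind : indS s = G := by
    funext z
    by_cases h : z ∈ s
    · rw [indS_in h, (hms z).1 h]
    · rw [indS_out h]
      have h1 := hone z
      have h2 : G z ≠ 1 := fun h' => h ((hms z).2 h')
      omega
  have hsc : s.card = 2 := by
    rw [← hsum, ← hind]
    unfold indS
    rw [Finset.sum_ite_mem, univ_inter, Finset.sum_const, smul_eq_mul, mul_one]
  -- no crossing cover
  have hnc : ∀ x ∈ s, ∀ y, x ⋖ y → y ∈ cuni (i + 2) κ := by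
    intro x hx y hxy
    by_contra hy
    have hGx := (hms x).1 hx
    have hGy := hmon x y hxy hy
    have hys : y ∈ s := (hms y).2 (by have := hone y; omega)
    have hss : s = {x, y} := by
      symm
      apply Finset.eq_of_subset_of_card_le
      · intro w hw
        rw [mem_insert, mem_singleton] at hw
        rcases hw with rfl | rfl
        · exact hx
        · exact hys
      · rw [hsc, Finset.card_pair hxy.ne]
    have hly := (two_up H hκ hy).1
    have h5 : pns (cuni (i + 2) κ) (th G) ⊆ uc y := by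
      intro w hw
      obtain ⟨hwc, hw1⟩ := mem_pns.1 hw
      obtain ⟨z, hz, hGz⟩ := th_pos.1 hw1
      have hzs : z ∈ s := (hms z).2 (by have := hone z; omega)
      rw [hss, mem_insert, mem_singleton] at hzs
      rcases hzs with h6 | h6
      · rw [h6] at hz
        have h7 := (hpin w x hz (by omega) hwc).1
        have h8 := PD_lev h7
        have h9 := lev_uc H (mem_uc.2 hz)
        have h10 := lev_uc H (mem_uc.2 hxy)
        omega
      · rw [h6] at hz
        exact mem_uc.2 hz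
    have h6 := Finset.card_le_card h5
    have h7 := uc_card_le H y
    omega
  have hZ : s ⊆ Z2s i κ := by
    intro x hx
    have hGx := (hms x).1 hx
    have hxc := hcr x (by omega)
    obtain ⟨p, p', a, a', huc, hpp, ha, ha', haa, hpa, hpa'⟩ :=
      z1s_covers H hκ (mem_z1s.2 ⟨hxc, hnc x hx⟩)
    have hp : x ⋖ p := mem_uc.1 (by rw [huc]; simp)
    have hp' : x ⋖ p' := mem_uc.1 (by rw [huc]; simp)
    have q := (hpin p x hp (by omega) (hnc x hx p hp)).1
    have q' := (hpin p' x hp' (by omega) (hnc x hx p' hp')).1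
    have l1 := PD_lev q
    have l1' := PD_lev q'
    have lx := lev_uc H (mem_uc.2 hp)
    obtain ⟨-, c1, y, hy, c2⟩ := mem_PD.1 q
    obtain ⟨-, c1', y', hy', c2'⟩ := mem_PD.1 q'
    have k1 : κ p = a := mem_cext.1 hpa p le_rfl (by omega)
    have k2 : κ p' = a' := mem_cext.1 hpa' p' le_rfl (by omega)
    have u1 : uc p = {y} := by
      obtain ⟨w, hw⟩ := card_eq_one.1 c1
      have := mem_uc.2 hy
      rw [hw, mem_singleton] at this
      rw [hw, this]
    have u2 : uc p' = {y'} := by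
      obtain ⟨w, hw⟩ := card_eq_one.1 c1'
      have := mem_uc.2 hy'
      rw [hw, mem_singleton] at this
      rw [hw, this]
    exact So.ZD.mem (⟨⟨by omega, huc, by rw [k1, k2]; exact haa⟩, u1, u2, c2, c2'⟩ :
      So.ZD i κ x p p' y y') H hκ
  have hpn := pns_indS H hκ hZ
  rw [hind] at hpn
  refine ⟨s, mem_PR.2 ⟨⟨hZ, hsc⟩, by rw [← hpn]; exact hcard, ?_⟩, hind⟩
  intro w hw w' hw' hne hk
  have key : ∀ w ∈ s.biUnion uc, w ∈ pns (cext (i + 2) κ (κ w)) (th G) := by
    intro w hw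
    rw [← hpn] at hw
    obtain ⟨-, h1⟩ := mem_pns.1 hw
    rw [hpn, mem_biUnion] at hw
    obtain ⟨z, hz, hzw⟩ := hw
    have h2 := PD_lev (Z2s_cov H hκ (hZ hz) hzw).1
    exact mem_pns.2 ⟨mem_cext_of_le hκ h2.le rfl, h1⟩
  have h1 := key w hw
  have h2 := key w' hw'
  rw [← hk] at h2
  exact (hgd (κ w) (mem_image_of_mem κ (mem_univ w))).2 w h1 w' h2 hne

lemma card_pns (t : P → ℕ) : ∑ a ∈ univ.image κ, (pns (cext (i + 2) κ a) t).card =
    (pns (cuni (i + 2) κ) t).card := by
  classical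
  rw [← Finset.card_biUnion]
  · congr 1
    ext w
    unfold cuni
    rw [mem_biUnion, mem_pns, mem_biUnion]
    constructor
    · rintro ⟨a, ha, h⟩
      obtain ⟨h1, h2⟩ := mem_pns.1 h
      exact ⟨⟨a, ha, h1⟩, h2⟩
    · rintro ⟨⟨a, ha, h1⟩, h2⟩
      exact ⟨a, ha, mem_pns.2 ⟨h1, h2⟩⟩
  · intro a _ b _ hab
    rw [Function.onFun, disjoint_left]
    intro w h1 h2
    exact disjoint_left.1 (disj_cext hab) (mem_pns.1 h1).1 (mem_pns.1 h2).1

variable (hPin : PinH i κ)
include hPin

/-- the product for any labels at most two outside the components -/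
theorem PPS_HP {m : ℕ} (hG : G ∈ GG (i + 2) κ m) : HP (lv P i).card (PPS i (i + 2) κ G) := by
  classical
  unfold GG at hG
  rw [mem_filter, mem_pa] at hG
  obtain ⟨⟨-, hspt⟩, hle, -⟩ := hG
  have h := prod_HP (univ.image κ) (bb i (i + 2) κ)
    (fun x => ZPS i (cext (i + 2) κ x) (th G))
    (fun a ha => hPin.hp a ha (th G) (fun w hw => th_far H hκ hspt hw)
      (fun w => th_le.2 fun z _ => hle z))
  rw [sum_bb hκ] at h
  exact h

open Classical in
/-- the product for labels at most one outside the components -/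
theorem PPS_Mo {m : ℕ} (hG : G ∈ GG (i + 2) κ m) (h1 : ∀ z, G z ≤ 1) :
    Mo (lv P i).card (PPS i (i + 2) κ G) (pns (cuni (i + 2) κ) (th G)).card
      (if ∀ a ∈ univ.image κ, Gd i (cext (i + 2) κ a) (th G) then 1 else 0) := by
  unfold GG at hG
  rw [mem_filter, mem_pa] at hG
  obtain ⟨⟨-, hspt⟩, hle, -⟩ := hG
  have h := (prod_Mo (univ.image κ) (bb i (i + 2) κ)
    (fun x => ZPS i (cext (i + 2) κ x) (th G)) (fun x => (pns (cext (i + 2) κ x) (th G)).card)
    (fun x => if Gd i (cext (i + 2) κ x) (th G) then 1 else 0)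
    (fun a ha => hPin.mo a ha (th G) (fun w hw => th_far H hκ hspt hw)
      (fun w => th_le.2 fun z _ => hle z) (fun w _ _ => th_le.2 fun z _ => h1 z))).1
  rw [sum_bb hκ, card_pns H hκ] at h
  have hc : ∏ x ∈ univ.image κ, (if Gd i (cext (i + 2) κ x) (th G) then (1 : ℤ) else 0) =
      if ∀ a ∈ univ.image κ, Gd i (cext (i + 2) κ a) (th G) then 1 else 0 := by
    rw [Finset.prod_ite_zero, Finset.prod_const_one]
  rw [hc] at h
  exact h

/-- a label two: no even leading coefficient -/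
theorem PPS_two (hT : NoTT i κ) (hG : G ∈ GG (i + 2) κ 2) {z : P} (hz2 : 2 ≤ G z) {m : ℕ}
    (hm : m ≤ 4) : hc (2 * m) (lv P i).card (PPS i (i + 2) κ G) = 0 := by
  classical
  have hG0 := hG
  unfold GG at hG
  rw [mem_filter, mem_pa] at hG
  obtain ⟨⟨hsum, hspt⟩, hle, hmon⟩ := hG
  have hoth : ∀ y, y ≠ z → G y = 0 := by
    intro y hy
    have h1 : G y + G z ≤ 2 := by
      rw [← hsum, ← Finset.sum_pair hy]
      exact Finset.sum_le_sum_of_subset (subset_univ _)
    omega
  have hzc : z ∉ cuni (i + 2) κ := by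
    intro h
    rw [hspt z (fun h' => mem_Crs.1 h' h)] at hz2
    omega
  have hz1 : z ∈ z1s (i + 2) κ := by
    refine mem_z1s.2 ⟨hzc, fun y hy => ?_⟩
    by_contra h
    have h1 := hmon z y hy h
    rw [hoth y hy.ne'] at h1
    omega
  obtain ⟨p, hp, hpT⟩ := hT z hz1
  have hpc := (mem_z1s.1 hz1).2 p (mem_uc.1 hp)
  unfold cuni at hpc
  rw [mem_biUnion] at hpc
  obtain ⟨a, ha, hpa⟩ := hpc
  have hfar : ∀ w, 1 ≤ th G w → i + 2 ≤ lev w := fun w hw => th_far H hκ hspt hw
  have hle' : ∀ w, th G w ≤ 2 := fun w => th_le.2 fun z _ => hle z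
  have hcov : ∀ w ∈ cext (i + 2) κ a, 1 ≤ th G w → w = p := by
    intro w hw h1
    obtain ⟨y, hy, hy1⟩ := th_pos.1 h1
    have hyz : y = z := by
      by_contra h
      rw [hoth y h] at hy1
      omega
    rw [hyz] at hy
    obtain ⟨p1, p2, a1, a2, huc, -, -, -, haa, h3, h4⟩ := z1s_covers H hκ hz1
    have hw' := mem_uc.2 hy
    rw [huc, mem_insert, mem_singleton] at hw' hp
    have hd : ∀ {x b c}, x ∈ cext (i + 2) κ b → x ∈ cext (i + 2) κ c → b = c := by
      intro x b c hb hc
      by_contra h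
      exact disjoint_left.1 (disj_cext h) hb hc
    rcases hw' with h5 | h5 <;> rcases hp with h6 | h6
    · rw [h5, h6]
    · rw [h5] at hw
      rw [h6] at hpa
      exact absurd ((hd h3 hw).trans (hd hpa h4)) haa
    · rw [h5] at hw
      rw [h6] at hpa
      exact absurd ((hd h3 hpa).trans (hd hw h4)) haa
    · rw [h5, h6]
  have h2p : 2 ≤ th G p := hz2.trans ((th_le (G := G) (w := p)).1 le_rfl z (mem_uc.1 hp))
  have hM := hPin.mo a ha (th G) hfar hle' (fun w hw hT => by
    by_contra h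
    have := hcov w hw (by omega)
    rw [this] at hT
    exact hpT hT)
  have hnG : ¬ Gd i (cext (i + 2) κ a) (th G) := by
    intro h
    have := (h.1 p (mem_pns.2 ⟨hpa, by omega⟩)).1
    omega
  rw [if_neg hnG] at hM
  have h := prod_even_zero (univ.image κ) (bb i (i + 2) κ)
    (fun x => ZPS i (cext (i + 2) κ x) (th G)) (fun b hb => hPin.hp b hb (th G) hfar hle') ha
    (fun m hm => by rw [hM.ev m hm, ite_self]) hm
  rw [sum_bb hκ] at h
  exact h

/-- THE SUM over the labels of total two -/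
theorem sum_two (hT : NoTT i κ) (hk : 3 ≤ k) (hk' : k ≤ 4) :
    ∑ G ∈ GG (i + 2) κ 2, hc (2 * k) (lv P i).card (PPS i (i + 2) κ G) =
      ((PR i κ k).card : ℤ) := by
  classical
  have h1 : ∀ G ∈ GG (i + 2) κ 2, hc (2 * k) (lv P i).card (PPS i (i + 2) κ G) =
      if G2 i κ k G then 1 else 0 := by
    intro G hG
    by_cases hone : ∀ z, G z ≤ 1
    · rw [(PPS_Mo H hκ hPin hG hone).ev k hk']
      unfold G2
      by_cases c1 : k = (pns (cuni (i + 2) κ) (th G)).card
      · rw [if_pos c1]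
        simp only [c1.symm, true_and]
      · rw [if_neg c1, if_neg]
        exact fun h => c1 h.1.symm
    · have hone' := hone
      push Not at hone
      obtain ⟨z, hz⟩ := hone
      rw [PPS_two H hκ hPin hT hG (z := z) (by omega) hk', if_neg]
      intro h
      obtain ⟨s, -, hs⟩ := good_PR H hκ hk hG h
      apply hone'
      intro y
      rw [← hs]
      exact indS_le y
  rw [Finset.sum_congr rfl h1, ← Finset.sum_filter, Finset.sum_const, nsmul_eq_mul, mul_one]
  congr 1
  symm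
  refine Finset.card_bij (fun s _ => indS s) ?_ ?_ ?_
  · intro s hs
    rw [mem_filter]
    exact PR_good H hκ hs
  · intro s _ s' _ h
    ext x
    have h1 := congrFun h x
    by_cases hx : x ∈ s
    · by_cases hx' : x ∈ s'
      · exact iff_of_true hx hx'
      · rw [indS_in hx, indS_out hx'] at h1
        omega
    · by_cases hx' : x ∈ s'
      · rw [indS_out hx, indS_in hx'] at h1
        omega
      · exact iff_of_false hx hx'
  · intro G hG
    rw [mem_filter] at hG
    obtain ⟨s, hs, h⟩ := good_PR H hκ hk hG.1 hG.2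
    exact ⟨s, hs, h⟩

end two

section final

variable (H : Gr P r) (hi : 1 ≤ i) (hi2 : i + 1 ≤ r) (hg : Good P i) (hκ : Split (i + 2) κ)
  (hb : 1 ≤ (lv P i).card) (hPin : PinH i κ) (hT : NoTT i κ)
include H hi hi2 hκ hb hPin hT

/-- THE CROSSING NUMBER at the energy eight -/
theorem XX_eight' : XX i κ 8 = ∑ z ∈ X3 i κ, WW i κ 3 z + ((PR i κ 3).card : ℤ) := by
  rw [XX_eight H hi hi2 hκ hb (fun m G _ hG => PPS_HP H hκ hPin hG)]
  have h1 := sum_one H hκ hPin (m := 3) (by omega) (by omega)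
  have h2 := sum_two H hκ hPin hT (k := 3) (by omega) (by omega)
  rw [← h1, ← h2]

include hg in
/-- THE CROSSING NUMBER at the energy ten -/
theorem XX_ten' : XX i κ 10 = ∑ z ∈ X3 i κ, WW i κ 4 z + ((PR i κ 4).card : ℤ) +
    ((N5s i κ).card : ℤ) := by
  rw [XX_ten H hi hi2 hg hκ hb (fun m G _ hG => PPS_HP H hκ hPin hG)]
  have h1 := sum_one H hκ hPin (m := 4) (by omega) (by omega)
  have h2 := sum_two H hκ hPin hT (k := 4) (by omega) (by omega)
  rw [← h1, ← h2]

end final

end Pool.Agent.GaussPoset.Win.Pn
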