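import Pool.Agent.W_448pn_h63.PnI
import Pool.Agent.W_448xc_h84.XgD

/-!
# Pinned window sums as sums over cores (MP_448cb3_co, G2, case B, window j - 1)

The exchange keeps the pins if the exchangeable elements are pinned at most once.
-/

set_option autoImplicit false

namespace Pool.Agent.GaussPoset.Win.Pn

set_option linter.unusedSectionVars false

open Finset W4

universe u

variable {P : Type u} [Fintype P] [PartialOrder P] [DecidableEq P] {r i : ℕ}
variable {e f : P → ℕ} {psi : P → P} {C K : Finset P} {t : P → ℕ} {d x : P}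

/-- pins away from the window -/
def Far (i : ℕ) (t : P → ℕ) : Prop := ∀ w, 1 ≤ t w → i + 2 ≤ lev w

lemma Far.zero (ht : Far i t) {w : P} (hw : lev w < i + 2) : t w = 0 := by
  by_contra h
  have := ht w (by omega)
  omega

open Classical in
/-- THE PINNED WINDOW SUM as a sum over cores -/
theorem ZP_cores (H : Gr P r) (hir : i ≤ r) (K : Finset P) (psi : P → P) (hC : Part i C)
    (ht : Far i t) (n : ℕ) :
    ZP i C t n = ∑ q ∈ range (n + 1), ∑ e ∈ (C.piAntidiag q).filter
      (fun e => IsCore i K psi e ∧ Pin C t e), JK i K psi C (n - q) e := by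
  unfold ZP
  rw [Finset.sum_filter, group_K H (fun e => if Pin C t e then tC i C e else 0) i K psi C n]
  refine Finset.sum_congr rfl fun q _ => ?_
  have hs : (C.piAntidiag q).filter (fun e => IsCore i K psi e ∧ Pin C t e) =
      ((C.piAntidiag q).filter (IsCore i K psi)).filter (Pin C t) := by
    rw [Finset.filter_filter]
  rw [hs, Finset.sum_filter (p := Pin C t)]
  refine Finset.sum_congr rfl fun e he => ?_
  rw [mem_filter, I2.mem_pa] at he
  obtain ⟨⟨h1, h2⟩, h3⟩ := he
  have hp : ∀ l ∈ (RK i K psi C e).piAntidiag (n - q), (Pin C t (e + l) ↔ Pin C t e) := by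
    intro l hl
    rw [I2.mem_pa] at hl
    unfold Pin
    refine forall_congr' fun w => imp_congr_right fun _ => ?_
    rcases Nat.lt_or_ge (lev w) (i + 2) with hw | hw
    · rw [ht.zero hw]
      simp
    · have : l w = 0 := hl.2 w (fun h => by
        have := mem_near.1 (RK_near h)
        omega)
      rw [Pi.add_apply, this, add_zero]
  split_ifs with hP
  · rw [Xg.JK_sum H hir hC h2 h3]
    exact Finset.sum_congr rfl fun l hl => if_pos ((hp l hl).2 hP)
  · exact Finset.sum_eq_zero fun l hl => if_neg (fun h => hP ((hp l hl).1 h))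

/-- a configuration which is not admissible contributes nothing -/
lemma JK_bad (h : ¬ (AdmL i e ∧ AdmU i e ∧ Disjoint (AL i e) (AU i e))) (m : ℕ) :
    JK i K psi C m e = 0 := by
  have hF : ∀ S, Fe i e S = 0 := by
    intro S
    unfold Fe cw chi
    by_cases h1 : AdmL i e ∧ AdmU i e
    · have h2 : ¬ Disjoint (AL i e) (AU i e) := fun h2 => h ⟨h1.1, h1.2, h2⟩
      rw [if_neg (c := AL i e ⊆ S ∧ Disjoint (AU i e) S), mul_zero]
      rintro ⟨h3, h4⟩
      apply h2
      exact (Finset.disjoint_of_subset_right h3 h4).symm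
    · rw [if_neg h1, zero_mul]
  unfold JK So.IV
  refine Finset.sum_eq_zero fun S _ => ?_
  show xx ^ S.card * (Fe i e S * _) = 0
  rw [hF S, zero_mul, mul_zero]

open Classical in
/-- the pinned cores of energy `q` with `k` exchangeable places -/
noncomputable def CS (i : ℕ) (psi : P → P) (C : Finset P) (t : P → ℕ) (q k : ℕ) :
    Finset (P → ℕ) :=
  (C.piAntidiag q).filter (fun e => (IsCore i ∅ psi e ∧ Pin C t e) ∧
    (AdmL i e ∧ AdmU i e ∧ Disjoint (AL i e) (AU i e)) ∧ (Xg.CC i e).card = k)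

lemma mem_CS {q k : ℕ} : e ∈ CS i psi C t q k ↔ (∑ x, e x = q ∧ Spt C e) ∧
    (IsCore i ∅ psi e ∧ Pin C t e) ∧
      (AdmL i e ∧ AdmU i e ∧ Disjoint (AL i e) (AU i e)) ∧ (Xg.CC i e).card = k := by
  classical
  unfold CS
  rw [mem_filter, I2.mem_pa]

/-- the sum over the pinned cores of energy `q` by the number of exchangeable places -/
theorem sum_CS (m q : ℕ) [DecidablePred (fun e : P → ℕ => IsCore i ∅ psi e ∧ Pin C t e)] :
    ∑ e ∈ (C.piAntidiag q).filter (fun e => IsCore i ∅ psi e ∧ Pin C t e), JK i ∅ psi C m e =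
      ∑ k ∈ range (Fintype.card (P × P) + 1), ∑ e ∈ CS i psi C t q k, JK i ∅ psi C m e := by
  classical
  have h1 : ∑ e ∈ (C.piAntidiag q).filter (fun e => IsCore i ∅ psi e ∧ Pin C t e),
      JK i ∅ psi C m e =
      ∑ e ∈ ((C.piAntidiag q).filter (fun e => IsCore i ∅ psi e ∧ Pin C t e)).filter
        (fun e => AdmL i e ∧ AdmU i e ∧ Disjoint (AL i e) (AU i e)), JK i ∅ psi C m e := by
    rw [Finset.sum_filter (p := fun e => AdmL i e ∧ AdmU i e ∧ Disjoint (AL i e) (AU i e))]
    refine Finset.sum_congr rfl fun e _ => ?_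
    split_ifs with h
    · rfl
    · exact JK_bad h m
  rw [h1, ← Finset.sum_fiberwise_of_maps_to (g := fun e => (Xg.CC i e).card)
    (t := range (Fintype.card (P × P) + 1)) (fun e _ => by
      rw [mem_range]
      have := Finset.card_le_univ (Xg.CC i e)
      omega)]
  refine Finset.sum_congr rfl fun k _ => ?_
  refine Finset.sum_congr ?_ fun _ _ => rfl
  ext e
  rw [mem_filter, mem_filter, mem_filter, mem_CS, I2.mem_pa]
  tauto

/-- the environment of a part -/
structure Env (r i : ℕ) (psi : P → P) (C : Finset P) : Prop where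
  H : Gr P r
  hi : 1 ≤ i
  hi2 : i + 1 ≤ r
  hM : Mat P i ∅ psi
  hC : Part (i + 1) C

lemma Env.part (E : Env r i psi C) : Part i C :=
  ⟨fun h1 h2 => E.hC.up h1 h2, fun h1 h2 h3 => E.hC.dn h1 (by omega) h3⟩

/-- exchangeable elements are pinned at most once -/
def Once (i : ℕ) (C : Finset P) (t : P → ℕ) : Prop := ∀ w ∈ C, TeeL i w → t w ≤ 1

section frame

variable (E : Env r i psi C) (ht : Far i t)
include E ht

lemma CS_xc (h1 : Once i C t) {q k : ℕ} (he : e ∈ CS i psi C t q k) (h : Xg.CanD i e d x) :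
    Kd.xc d x e ∈ CS i psi C t q k := by
  rw [mem_CS] at he ⊢
  obtain ⟨⟨a1, a2⟩, ⟨a3, a4⟩, ⟨a5, a6, a7⟩, a8⟩ := he
  have hsp := h.spt E.H E.part a2
  have hsum := h.sum E.H E.part a2
  have hlv := h.lvl E.H
  have had := h.adm E.H
  refine ⟨⟨?_, hsp.2.2⟩, ⟨(Xg.core_xc E.H h).2 a3, ?_⟩, ⟨had.1.2 a5, had.2.1.2 a6, had.2.2.2 a7⟩, ?_⟩
  · have s1 : ∀ g : P → ℕ, Spt C g → ∑ x, g x = C.sum g := fun g hg =>
      (Finset.sum_subset (subset_univ C) fun x _ hx => hg x hx).symm
    rw [s1 _ hsp.2.2, hsum, ← s1 _ a2, a1]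
  · intro w hw
    by_cases hwd : w = d
    · subst hwd
      rw [Kd.xc_d]
      rcases h with ⟨w1, w2, p, q, T, Ex, hr⟩ | ⟨w1, w2, p, q, T, Ex, hr⟩
      · have := h1 w hw ⟨w1, w2, p, x, q, T⟩
        omega
      · have l1 := T.ld
        unfold Xg.laU at l1
        rw [ht.zero (by omega)]
        exact Nat.zero_le _
    · by_cases hwx : w = x
      · subst hwx
        rw [ht.zero (by omega)]
        exact Nat.zero_le _
      · rw [Kd.xc_of hwd hwx]
        exact a4 w hw
  · rw [Xg.CC_xc E.H a5 a6 h, a8]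

end frame

end Pool.Agent.GaussPoset.Win.Pn
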