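import Pool.Agent.W_448pn_h63.PnJ
import Pool.Agent.W_448rd_h10.RdL
import Pool.Agent.W_448xc_h84.XgI

/-!
# The frame for pinned window sums (MP_448cb3_co, G2, case B, window j - 1)
-/

set_option autoImplicit false

namespace Pool.Agent.GaussPoset.Win.Pn

set_option linter.unusedSectionVars false

open Finset W4
open Pool.Agent.GaussPoset.Win.H2 (NoT)
open Pool.Agent.GaussPoset.Win.Xg (Okc kp CanD)
open Pool.Agent.GaussPoset.Win.Rd (P1L P1U TWL TWU GS)

universe u

variable {P : Type u} [Fintype P] [PartialOrder P] [DecidableEq P] {r i : ℕ}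
variable {e f : P → ℕ} {psi : P → P} {C K : Finset P} {t : P → ℕ} {d x : P}

/-! ### the frame -/

/-- the facts about the window -/
structure Fr (r i : ℕ) (psi : P → P) (C : Finset P) : Prop where
  E : Env r i psi C
  G : GoodTo P r (i + 1)
  hT : NoT P (i + 2)
  hQ : K2.NoQ P (i + 3)

/-- the number of exceptional elements -/
noncomputable def nb (i : ℕ) (psi : P → P) (e : P → ℕ) : ℕ :=
  (P1L i psi e).card + (P1U i psi e).card + (TWL i e).card + (TWU i e).card +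
    (GS i psi e).card

section fr

variable (F : Fr r i psi C)
include F

lemma Fr.half (h : Okc i psi C e) : 2 * kp i e ≤ ∑ x, (e x : ℤ) := by
  have := Rd.half F.G F.hT F.E.hM h.adm.l h.adm.u h.adm.d h.core
  unfold kp
  linarith

lemma Fr.gen (h : Okc i psi C e) (hs : ∑ x, e x ≤ 8) :
    3 * (kp i e - (Xg.CC i e).card) + (Xg.CC i e).card ≤ (∑ x, e x : ℕ) + (nb i psi e : ℤ) := by
  have h1 := Rd.general9 F.G F.hT F.hQ F.E.hM h.adm.l h.adm.u h.adm.d h.core (by omega)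
  obtain ⟨h2, -⟩ := Rd.TWx_card (i := i) (e := e)
  unfold kp nb
  push_cast
  linarith

lemma Fr.en (h : Okc i psi C e) : 5 * ((TWL i e).card + (TWU i e).card) +
    2 * ((P1L i psi e).card + (P1U i psi e).card) + 3 * (GS i psi e).card ≤ ∑ x, e x :=
  Rd.energy_ge3 F.G F.hT F.hQ F.E.hM h.adm.l h.adm.u h.adm.d h.core

/-- the order of the pinned sums -/
theorem Fr.hp (ht : Far i t) : HP (st i C).card (ZPS i C t) := by
  classical
  intro n hn
  have hi2 := F.E.hi2
  rw [coeff_ZPS, ZP_cores F.E.H (by omega) ∅ psi F.E.part ht n, mul_sum]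
  refine dvd_sum fun q hq => ?_
  rw [mul_sum]
  refine dvd_sum fun e he => ?_
  rw [mem_range] at hq
  rw [mem_filter, I2.mem_pa] at he
  obtain ⟨⟨h1, h2⟩, h3, h4⟩ := he
  by_cases ha : Xg.Adm i e
  · have h5 := F.half (e := e) ⟨h2, h3, ha⟩
    have h6 : ∑ x, (e x : ℤ) = q := by
      rw [← h1]
      push_cast
      rfl
    rw [h6] at h5
    have h7 := JK_dvd F.E.H F.E.hi hi2 F.E.hM F.E.hC (Rk_of_cheap ((ha.cheap (k := n / 2)).2 (by
      push_cast
      omega))) (n - q)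
    refine dvd_trans ?_ (mul_dvd_mul_left _ h7)
    rw [← pow_add]
    exact pow_dvd_pow _ (by omega)
  · rw [Xg.JK_bad ∅ ha, mul_zero]
    exact dvd_zero _

end fr

open Classical in
/-- the tight pinned cores -/
noncomputable def TT (i : ℕ) (psi : P → P) (C : Finset P) (t : P → ℕ) (n k : ℕ) :
    Finset (P → ℕ) :=
  (C.piAntidiag n).filter (fun e => Okc i psi C e ∧ Pin C t e ∧ kp i e = k ∧ Xg.CC i e = ∅)

lemma mem_TT {n k : ℕ} : e ∈ TT i psi C t n k ↔ ∑ x, e x = n ∧ Okc i psi C e ∧ Pin C t e ∧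
    kp i e = k ∧ Xg.CC i e = ∅ := by
  classical
  unfold TT
  rw [mem_filter, I2.mem_pa]
  constructor
  · rintro ⟨⟨h1, h2⟩, h3⟩
    exact ⟨h1, h3⟩
  · rintro ⟨h1, h3⟩
    exact ⟨⟨h1, h3.1.spt⟩, h3⟩

section frame

variable (E : Env r i psi C) (ht : Far i t)
include E ht

lemma Pin_xc (h1 : Once i C t) (hp : Pin C t e) (h : CanD i e d x) : Pin C t (Kd.xc d x e) := by
  have hlv := h.lvl E.H
  intro w hw
  by_cases hwd : w = d
  · subst hwd
    rw [Kd.xc_d]
    rcases h with ⟨w1, w2, p, q, T, Ex, hr⟩ | ⟨w1, w2, p, q, T, Ex, hr⟩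
    · have := h1 w hw ⟨w1, w2, p, x, q, T⟩
      omega
    · have l1 := T.ld
      unfold Xg.laU at l1
      rw [ht.zero (by omega)]
      exact Nat.zero_le _
  · by_cases hwx : w = x
    · subst hwx
      rw [ht.zero (by omega)]
      exact Nat.zero_le _
    · rw [Kd.xc_of hwd hwx]
      exact hp w hw

/-- THE FRAME FOR PINNED SUMS -/
theorem pframe (h1 : Once i C t) {n K : ℕ}
    (hA : ∀ e, Okc i psi C e → Pin C t e → ∑ z, e z ≤ n → kp i e ≤ K + (Xg.CC i e).card ∨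
      (∑ z, e z = n ∧ kp i e = (K + 1 : ℕ) ∧ Xg.CC i e = ∅)) :
    dd ^ ((st i C).card - K) ∣ ZP i C t n - ∑ e ∈ TT i psi C t n (K + 1), tC i C e := by
  classical
  have hi2 := E.hi2
  have hir : i ≤ r := by omega
  have hs : ∀ x ∈ C, lev x = i → (uc x).card ≤ 2 ∧ (dc x).card ≤ 2 :=
    fun x _ _ => ⟨uc_card_le E.H x, dc_card_le E.H x⟩
  rw [ZP_cores E.H hir ∅ psi E.part ht n, sum_range_succ, Nat.sub_self, add_sub_assoc]
  refine dvd_add (dvd_sum fun q hq => ?_) ?_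
  · rw [mem_range] at hq
    have h0 : ∑ e ∈ (C.piAntidiag q).filter (fun e => IsCore i ∅ psi e ∧ Pin C t e),
        JK i ∅ psi C (n - q) e =
        ∑ e ∈ ((C.piAntidiag q).filter (fun e => IsCore i ∅ psi e ∧ Pin C t e)).filter (Xg.Adm i),
          JK i ∅ psi C (n - q) e := by
      symm
      refine sum_filter_of_ne fun e _ hne => ?_
      by_contra hcon
      exact hne (Xg.JK_bad ∅ hcon _)
    rw [h0]
    have hm : ∀ e, e ∈ ((C.piAntidiag q).filter
        (fun e => IsCore i ∅ psi e ∧ Pin C t e)).filter (Xg.Adm i) ↔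
        ∑ z, e z = q ∧ Okc i psi C e ∧ Pin C t e := by
      intro e
      rw [mem_filter, mem_filter, I2.mem_pa]
      constructor
      · rintro ⟨⟨⟨a1, a2⟩, a3, a5⟩, a4⟩
        exact ⟨a1, ⟨a2, a3, a4⟩, a5⟩
      · rintro ⟨a1, ⟨a2, a3, a4⟩, a5⟩
        exact ⟨⟨⟨a1, a2⟩, a3, a5⟩, a4⟩
    refine Xg.class_dvd E.H E.hi hi2 E.hM E.hC hs (fun e he => ?_) (fun e he d x hd => ?_) _
    · rw [hm] at he
      refine ⟨he.2.1, ?_⟩
      rcases hA e he.2.1 he.2.2 (by omega) with h | h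
      · exact h
      · omega
    · rw [hm] at he ⊢
      exact ⟨by rw [hd.sumU E.H]; exact he.1, he.2.1.xc E.H E.part hd,
        Pin_xc E ht h1 he.2.2 hd⟩
  · have h0 : ∑ e ∈ (C.piAntidiag n).filter (fun e => IsCore i ∅ psi e ∧ Pin C t e),
        JK i ∅ psi C 0 e =
        ∑ e ∈ (C.piAntidiag n).filter (fun e => Okc i psi C e ∧ Pin C t e), tC i C e := by
      have h1 : ∀ e ∈ (C.piAntidiag n).filter (fun e => IsCore i ∅ psi e ∧ Pin C t e),
          JK i ∅ psi C 0 e = tC i C e := by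
        intro e he
        rw [mem_filter, I2.mem_pa] at he
        exact JK_zero E.H hir E.part he.1.2
      rw [sum_congr rfl h1]
      refine (sum_subset ?_ ?_).symm
      · intro e he
        rw [mem_filter] at he ⊢
        exact ⟨he.1, he.2.1.core, he.2.2⟩
      · intro e he hne
        rw [mem_filter] at he hne
        by_contra hcon
        refine hne ⟨he.1, ⟨(I2.mem_pa.1 he.1).2, he.2.1, ?_⟩, he.2.2⟩
        by_contra ha
        exact hcon (Xg.tC_bad ha)
    rw [h0]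
    set S := (C.piAntidiag n).filter (fun e => Okc i psi C e ∧ Pin C t e) with hS
    have hmS : ∀ e, e ∈ S ↔ ∑ z, e z = n ∧ Okc i psi C e ∧ Pin C t e := by
      intro e
      rw [hS, mem_filter, I2.mem_pa]
      constructor
      · rintro ⟨⟨a1, -⟩, a2⟩
        exact ⟨a1, a2⟩
      · rintro ⟨a1, a2⟩
        exact ⟨⟨a1, a2.1.spt⟩, a2⟩
    have hsplit : ∑ e ∈ S, tC i C e = ∑ e ∈ TT i psi C t n (K + 1), tC i C e +
        ∑ e ∈ S.filter (fun e => ¬ (kp i e = (K + 1 : ℕ) ∧ Xg.CC i e = ∅)), tC i C e := by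
      rw [← sum_filter_add_sum_filter_not S (fun e => kp i e = (K + 1 : ℕ) ∧ Xg.CC i e = ∅)]
      congr 1
      refine sum_congr ?_ fun _ _ => rfl
      ext e
      rw [mem_filter, hmS, mem_TT]
      tauto
    rw [hsplit, add_sub_cancel_left]
    have h4 : ∀ e ∈ S.filter (fun e => ¬ (kp i e = (K + 1 : ℕ) ∧ Xg.CC i e = ∅)),
        tC i C e = JK i ∅ psi C 0 e := by
      intro e he
      rw [mem_filter, hmS] at he
      exact (JK_zero E.H hir E.part he.1.2.1.spt).symm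
    rw [sum_congr rfl h4]
    refine Xg.class_dvd E.H E.hi hi2 E.hM E.hC hs (fun e he => ?_) (fun e he d x hd => ?_) _
    · rw [mem_filter, hmS] at he
      refine ⟨he.1.2.1, ?_⟩
      rcases hA e he.1.2.1 he.1.2.2 (le_of_eq he.1.1) with h | ⟨-, h5, h6⟩
      · exact h
      · exact absurd ⟨h5, h6⟩ he.2
    · rw [mem_filter, hmS] at he ⊢
      obtain ⟨⟨g1, g2, g4⟩, g3⟩ := he
      refine ⟨⟨by rw [hd.sumU E.H]; exact g1, g2.xc E.H E.part hd, Pin_xc E ht h1 g4 hd⟩, ?_⟩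
      rw [hd.kp E.H g2.adm, Xg.CC_xc E.H g2.adm.l g2.adm.u hd]
      exact g3

/-- THE LEADING COEFFICIENT of a pinned sum -/
theorem hc_TT (h1 : Once i C t) {n K : ℕ} (hn : n / 2 = K + 1)
    (hA : ∀ e, Okc i psi C e → Pin C t e → ∑ z, e z ≤ n → kp i e ≤ K + (Xg.CC i e).card ∨
      (∑ z, e z = n ∧ kp i e = (K + 1 : ℕ) ∧ Xg.CC i e = ∅)) :
    hc n (st i C).card (ZPS i C t) = ∑ e ∈ TT i psi C t n (K + 1),
      PowerSeries.coeff (st i C).card (dd ^ (K + 1) * tC i C e : A) := by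
  have h2 := pframe E ht h1 hA
  unfold hc
  rw [coeff_ZPS, hn]
  have h3 : dd ^ (K + 1) * ZP i C t n = dd ^ (K + 1) * (ZP i C t n -
      ∑ e ∈ TT i psi C t n (K + 1), tC i C e) + ∑ e ∈ TT i psi C t n (K + 1),
        dd ^ (K + 1) * tC i C e := by
    rw [← mul_sum]
    ring
  rw [h3, map_add, map_sum]
  have h4 : PowerSeries.coeff (st i C).card (dd ^ (K + 1) * (ZP i C t n -
      ∑ e ∈ TT i psi C t n (K + 1), tC i C e) : A) = 0 := by
    apply I2.coeff_eq_zero_of_dvd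
    refine dvd_trans ?_ (mul_dvd_mul_left _ h2)
    rw [← pow_add]
    exact pow_dvd_pow _ (by omega)
  rw [h4, zero_add]

end frame

end Pool.Agent.GaussPoset.Win.Pn
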