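import Pool.Agent.W_448pn_h63.PnK
import Pool.Agent.W_448so_h64.SoW

/-!
# The pendant blocks of the tight cores (MP_448cb3_co, G2, case B, window j - 1)
-/

set_option autoImplicit false

namespace Pool.Agent.GaussPoset.Win.Pn

set_option linter.unusedSectionVars false

open Finset W4
open Pool.Agent.GaussPoset.Win.H2 (NoT)
open Pool.Agent.GaussPoset.Win.Xg (Okc kp CanD)
open Pool.Agent.GaussPoset.Win.Rd (P1L P1U TWL TWU GS Hyp hypL hypU)
open Pool.Agent.GaussPoset.Win.SO (con PN on mem_PN)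

universe u

/-- a pendant block -/
structure Blk {P : Type u} [DecidableEq P] (c c' : P → Finset P) (e : P → ℕ) (y p v v' : P) : Prop where
  cy : c y = {v, v'}
  ne : v ≠ v'
  cp : c p = {y}
  e1 : e y = 1
  e2 : e p = 1
  ev : e v = 0
  ev' : e v' = 0
  nv : ∀ z ∈ c' v, z ≠ y → e z = 0
  nv' : ∀ z ∈ c' v', z ≠ y → e z = 0
  ny : ∀ z ∈ c' y, z ≠ p → e z = 0

section abs

variable {P : Type u} [DecidableEq P]
variable {c c' : P → Finset P} {e : P → ℕ} {t : P → ℕ} {V Sd BG EX : Finset P}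
variable (H : Hyp c c' e t V Sd BG EX)
include H

lemma p1_blk {y : P} (hy : y ∈ Rd.P1 c c' e t Sd BG) :
    ∃ p v v', Blk c c' e y p v v' ∧ y ∈ Sd ∧ t y = 1 := by
  obtain ⟨hD, hN, p, hp, hp1, hcp, hz⟩ := H.p1_spec hy
  obtain ⟨yS, -, ty, cy⟩ := Rd.mem_Dd.1 hD
  obtain ⟨v, v', hne, hc⟩ := card_eq_two.1 cy
  obtain ⟨a1, a2, a3, a4, a5⟩ := H.n4a_spec hD hN hc hne
  exact ⟨p, v, v', ⟨hc, hne, hcp, a1, hp1, a2, a3, a4, a5, hz⟩, yS, ty⟩

end abs

variable {P : Type u} [Fintype P] [PartialOrder P] [DecidableEq P] {r i : ℕ}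
variable {e f : P → ℕ} {psi : P → P} {C K : Finset P} {t : P → ℕ} {d x : P}

/-- the pendants of the part have common sites -/
def Meet (i : ℕ) (C : Finset P) : Prop :=
  ∀ p ∈ PN i C, ∀ p' ∈ PN i C, p ≠ p' → ¬ Disjoint (sit i p) (sit i p')

/-- as many pendants below the window as above -/
def Bal (i : ℕ) (C : Finset P) : Prop :=
  (C.filter (· ∈ PD P i)).card = (C.filter (· ∈ PU P i)).card

lemma mem_of_pos (hs : Spt C e) {z : P} (h : 1 ≤ e z) : z ∈ C := by
  by_contra h1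
  have := hs z h1
  omega

section fr

variable (F : Fr r i psi C)
include F

lemma Fr.gs (h : Okc i psi C e) (hcc : Xg.CC i e = ∅) :
    5 * ((TWL i e).card + (TWU i e).card) + 2 * ((P1L i psi e).card + (P1U i psi e).card) +
      5 * (GS i psi e).card ≤ ∑ x, e x :=
  Rd.energy_gs F.G F.hT F.hQ F.E.hM h.adm.l h.adm.u h.adm.d h.core hcc

lemma Fr.blkL (h : Okc i psi C e) {y : P} (hy : y ∈ P1L i psi e) :
    ∃ p v v', Blk uc dc e y p v v' ∧ lev y = i + 1 ∧ p ∈ PD P i ∧ p ∈ C := by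
  have hL := hypL F.G F.hT F.hQ F.E.hM h.adm.l h.adm.u h.adm.d h.core
  obtain ⟨p, v, v', B, yS, ty⟩ := p1_blk hL (y := y) (by
    unfold P1L at hy
    exact Rd.P1s_sub hy)
  have hl : lev y = i + 1 := by
    rw [I2.mem_lS] at yS
    omega
  have h1 := lev_uc F.E.H (show y ∈ uc p by rw [B.cp]; simp)
  refine ⟨p, v, v', B, hl, mem_PD.2 ⟨by omega, by rw [B.cp]; simp, y,
    mem_uc.1 (by rw [B.cp]; simp), by rw [B.cy, card_pair B.ne]⟩, mem_of_pos h.spt ?_⟩
  rw [B.e2]

lemma Fr.blkU (h : Okc i psi C e) {y : P} (hy : y ∈ P1U i psi e) :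
    ∃ p v v', Blk dc uc e y p v v' ∧ lev y + 1 = i ∧ p ∈ PU P i ∧ p ∈ C := by
  have hU := hypU F.G F.hT F.E.hM h.adm.l h.adm.u h.adm.d h.core
  obtain ⟨p, v, v', B, yS, ty⟩ := p1_blk hU (y := y) (by
    unfold P1U at hy
    exact Rd.P1s_sub hy)
  have hl : lev y + 1 = i := by
    rw [I2.mem_uS] at yS
    omega
  have h1 := lev_dc F.E.H (show y ∈ dc p by rw [B.cp]; simp)
  refine ⟨p, v, v', B, hl, mem_PU.2 ⟨by omega, by rw [B.cp]; simp, y,
    mem_dc.1 (by rw [B.cp]; simp), by rw [B.cy, card_pair B.ne]⟩, mem_of_pos h.spt ?_⟩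
  rw [B.e2]

end fr

lemma sit_PDs (H : Gr P r) {p y : P} (hp : p ∈ PD P i) (hc : uc p = {y}) : sit i p = uc y :=
  SO.sit_PD H (mem_PD.1 hp).1 hc

lemma sit_PUs (H : Gr P r) {p y : P} (hp : p ∈ PU P i) (hc : dc p = {y}) : sit i p = dc y :=
  SO.sit_PU H (mem_PU.1 hp).1 hc

section one

variable (F : Fr r i psi C) (hm : Meet i C)
include F hm

/-- at most one pendant block -/
lemma Fr.p1_le (h : Okc i psi C e) :
    (P1L i psi e).card + (P1U i psi e).card ≤ 1 := by
  classical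
  have H := F.E.H
  have hLL : ∀ y ∈ P1L i psi e, ∀ y' ∈ P1L i psi e, y = y' := by
    intro y hy y' hy'
    obtain ⟨p, v, v', B, ly, hp, hpC⟩ := F.blkL h hy
    obtain ⟨p', w, w', B', ly', hp', hpC'⟩ := F.blkL h hy'
    by_contra hne
    have hpp : p ≠ p' := by
      rintro rfl
      have := B.cp.symm.trans B'.cp
      exact hne (singleton_injective this)
    refine hm p (mem_PN.2 ⟨hpC, Or.inl hp⟩) p' (mem_PN.2 ⟨hpC', Or.inl hp'⟩) hpp ?_
    rw [sit_PDs H hp B.cp, sit_PDs H hp' B'.cp, disjoint_left]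
    intro a ha ha'
    have m : y' ∈ dc a := mem_dc.2 (mem_uc.1 ha')
    rw [B.cy, mem_insert, mem_singleton] at ha
    rcases ha with rfl | rfl
    · have := B.nv y' m (Ne.symm hne)
      rw [B'.e1] at this
      omega
    · have := B.nv' y' m (Ne.symm hne)
      rw [B'.e1] at this
      omega
  have hUU : ∀ y ∈ P1U i psi e, ∀ y' ∈ P1U i psi e, y = y' := by
    intro y hy y' hy'
    obtain ⟨p, v, v', B, ly, hp, hpC⟩ := F.blkU h hy
    obtain ⟨p', w, w', B', ly', hp', hpC'⟩ := F.blkU h hy'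
    by_contra hne
    have hpp : p ≠ p' := by
      rintro rfl
      have := B.cp.symm.trans B'.cp
      exact hne (singleton_injective this)
    refine hm p (mem_PN.2 ⟨hpC, Or.inr hp⟩) p' (mem_PN.2 ⟨hpC', Or.inr hp'⟩) hpp ?_
    rw [sit_PUs H hp B.cp, sit_PUs H hp' B'.cp, disjoint_left]
    intro a ha ha'
    have m : y' ∈ uc a := mem_uc.2 (mem_dc.1 ha')
    rw [B.cy, mem_insert, mem_singleton] at ha
    rcases ha with rfl | rfl
    · have := B.nv y' m (Ne.symm hne)
      rw [B'.e1] at this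
      omega
    · have := B.nv' y' m (Ne.symm hne)
      rw [B'.e1] at this
      omega
  have hLU : ∀ y ∈ P1L i psi e, ∀ y' ∈ P1U i psi e, False := by
    intro y hy y' hy'
    obtain ⟨p, v, v', B, ly, hp, hpC⟩ := F.blkL h hy
    obtain ⟨p', w, w', B', ly', hp', hpC'⟩ := F.blkU h hy'
    have hpp : p ≠ p' := by
      rintro rfl
      have := (mem_PD.1 hp).1
      have := (mem_PU.1 hp').1
      omega
    refine hm p (mem_PN.2 ⟨hpC, Or.inl hp⟩) p' (mem_PN.2 ⟨hpC', Or.inr hp'⟩) hpp ?_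
    rw [sit_PDs H hp B.cp, sit_PUs H hp' B'.cp, disjoint_left]
    intro a ha ha'
    have e0 : e a = 0 := by
      rw [B.cy, mem_insert, mem_singleton] at ha
      rcases ha with rfl | rfl
      · exact B.ev
      · exact B.ev'
    have hl := lev_uc H ha
    have m1 : a ∈ AL i e := by
      rw [NormD_mem_AL]
      exact ⟨by omega, y, mem_uc.1 ha, by rw [B.e1, e0]; omega⟩
    have m2 : a ∈ AU i e := by
      rw [NormD_mem_AU]
      exact ⟨by omega, y', mem_dc.1 ha', by rw [B'.e1, e0]; omega⟩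
    exact disjoint_left.1 h.adm.d m1 m2
  have c1 : (P1L i psi e).card ≤ 1 := card_le_one.2 hLL
  have c2 : (P1U i psi e).card ≤ 1 := card_le_one.2 hUU
  by_contra hcon
  obtain ⟨y, hy⟩ := card_pos.1 (show 0 < (P1L i psi e).card by omega)
  obtain ⟨y', hy'⟩ := card_pos.1 (show 0 < (P1U i psi e).card by omega)
  exact hLU y hy y' hy'

/-- THE HYPOTHESIS OF THE FRAME -/
lemma Fr.cost {n K : ℕ} (hn : n / 2 = K + 1) (h8 : n ≤ 8) (h3 : n ≠ 3)
    (h : Okc i psi C e) (hE : ∑ z, e z ≤ n) : kp i e ≤ K + (Xg.CC i e).card ∨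
      (∑ z, e z = n ∧ kp i e = (K + 1 : ℕ) ∧ Xg.CC i e = ∅) := by
  have h1 := F.half h
  have hc : ((∑ x, e x : ℕ) : ℤ) = ∑ x, (e x : ℤ) := by push_cast; rfl
  rw [← hc] at h1
  rcases (Xg.CC i e).eq_empty_or_nonempty with hcc | hcc
  · have h2 := F.gen h (by omega)
    have h4 := F.gs h hcc
    have h5 := F.p1_le hm h
    have hz : (Xg.CC i e).card = 0 := by rw [hcc, card_empty]
    rw [hz] at h2 ⊢
    unfold nb at h2
    push_cast at h2 ⊢
    by_cases hE' : ∑ z, e z = n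
    · by_cases hk : kp i e = K + 1
      · exact Or.inr ⟨hE', hk, hcc⟩
      · left
        omega
    · left
      omega
  · left
    have := card_pos.2 hcc
    omega

end one

/-! ### leading coefficients -/

/-- the sign of a configuration -/
noncomputable def sgn (i : ℕ) (e : P → ℕ) : ℤ :=
  (-1) ^ (aL i e + aU i e + pU i e + (AL i e).card)

/-- the term of an admissible configuration -/
lemma tC_form (ha : Xg.Adm i e) :
    tC i C e = dd ^ (pL i e + pU i e + ((st i C).card - (AL i e).card - (AU i e).card)) *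
      (xx ^ aL i e * xi ^ (aU i e + pU i e) * xx ^ (AL i e).card) := by
  unfold tC
  rw [if_pos ha.d]
  unfold cw
  rw [if_pos ⟨ha.l, ha.u⟩, pow_add dd]
  ring

/-- the leading coefficient of a term -/
theorem lead (H : Gr P r) (hC : Part i C) (he : Spt C e) (ha : Xg.Adm i e) {k : ℕ}
    (hk : kp i e = k) : PowerSeries.coeff (st i C).card (dd ^ k * tC i C e : A) = sgn i e := by
  have hle : (AL i e).card + (AU i e).card ≤ (st i C).card := by
    rw [← card_union_of_disjoint ha.d]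
    exact card_le_card (union_subset (AL_sub hC he) (AU_sub H hC he))
  unfold kp at hk
  rw [tC_form ha, ← mul_assoc, ← pow_add, show k + (pL i e + pU i e +
    ((st i C).card - (AL i e).card - (AU i e).card)) = (st i C).card by omega]
  unfold dd
  rw [PowerSeries.coeff_X_pow_mul', if_pos le_rfl, Nat.sub_self,
    PowerSeries.coeff_zero_eq_constantCoeff_apply, map_mul, map_mul, map_pow, map_pow, map_pow,
    cc_xx, cc_xi]
  unfold sgn
  rw [← pow_add, ← pow_add]
  congr 1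
  ring

section values

variable (F : Fr r i psi C) (hm : Meet i C) (ht : Far i t) (h1 : Once i C t)
include F hm ht h1

/-- THE LEADING COEFFICIENT of a pinned sum: the signs of the tight cores -/
theorem Fr.top {n K : ℕ} (hn : n / 2 = K + 1) (h8 : n ≤ 8) (h3 : n ≠ 3) :
    hc n (st i C).card (ZPS i C t) = ∑ e ∈ TT i psi C t n (K + 1), sgn i e := by
  rw [hc_TT F.E ht h1 hn (fun e he _ hE => F.cost hm hn h8 h3 he hE)]
  refine Finset.sum_congr rfl fun e he => ?_
  obtain ⟨a1, a2, a3, a4, a5⟩ := mem_TT.1 he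
  exact lead F.E.H F.E.part a2.spt a2.adm a4

/-- no tight cores for even energies -/
lemma Fr.tt_even {m : ℕ} (h2 : 2 ≤ m) (h4 : m ≤ 4) : TT i psi C t (2 * m) m = ∅ := by
  rw [eq_empty_iff_forall_notMem]
  intro e he
  obtain ⟨a1, a2, a3, a4, a5⟩ := mem_TT.1 he
  have g1 := F.gen a2 (by omega)
  have g2 := F.gs a2 a5
  have g3 := F.p1_le hm a2
  rw [a5, card_empty, a4, a1] at g1
  rw [a1] at g2
  unfold nb at g1
  push_cast at g1
  omega

end values

end Pool.Agent.GaussPoset.Win.Pn
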