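import Pool.Agent.W_448pn_h63.PnL

/-!
# The even leading coefficients of the pinned sums (MP_448cb3_co, G2, case B, window j - 1)
-/

set_option autoImplicit false

namespace Pool.Agent.GaussPoset.Win.Pn

set_option linter.unusedSectionVars false

open Finset W4
open Pool.Agent.GaussPoset.Win.H2 (NoT)
open Pool.Agent.GaussPoset.Win.Xg (Okc kp CanD)
open Pool.Agent.GaussPoset.Win.Rd (P1L P1U TWL TWU GS Hyp hypL hypU)
open Pool.Agent.GaussPoset.Win.SO (con PN on mem_PN Cls BL BU nL nU mem_con self_con)

universe u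

variable {P : Type u} [Fintype P] [PartialOrder P] [DecidableEq P] {r i : ℕ}
variable {e f : P → ℕ} {psi : P → P} {C K s : Finset P} {t : P → ℕ} {d x p : P}

/-! ### labels one -/

lemma on_one {y : P} (h : y ∈ s) : on s y = 1 := by unfold SO.on; rw [if_pos h]

lemma on_zero {y : P} (h : y ∉ s) : on s y = 0 := by unfold SO.on; rw [if_neg h]

lemma on_le {y : P} : on s y ≤ 1 := by unfold SO.on; split_ifs <;> omega

lemma on_pos {y : P} : 1 ≤ on s y ↔ y ∈ s := by
  by_cases h : y ∈ s
  · rw [on_one h]; simp [h]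
  · rw [on_zero h]; simp [h]

lemma on_empty : (on (∅ : Finset P) : P → ℕ) = 0 := by
  funext y
  rw [on_zero (notMem_empty y)]
  rfl

/-- near elements of `s` are touched -/
lemma core_on (h : ∀ y ∈ s, (lev y = i + 1 → ∃ z ∈ s, z ⋖ y) ∧ (lev y + 1 = i → ∃ z ∈ s, y ⋖ z)) :
    IsCore i ∅ psi (on s) := by
  intro y hy
  by_contra h0
  have hys : y ∈ s := on_pos.1 (by omega)
  obtain ⟨h1, h2, h3, -⟩ := mem_Rst.1 hy
  apply h3
  rw [mem_Tch]
  rcases mem_near.1 h1 with h4 | h4
  · obtain ⟨z, hz, hzy⟩ := (h y hys).1 h4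
    exact Or.inl ⟨h4, z, hzy, by rw [on_one hz]; omega⟩
  · obtain ⟨z, hz, hzy⟩ := (h y hys).2 h4
    exact Or.inr ⟨h4, z, hzy, by rw [on_one hz]; omega⟩

section one

variable (E : Env r i psi C)
include E

lemma adm_on (hs : Cls i s) (hd : Disjoint (BL i s) (BU i s)) : Xg.Adm i (on s) := by
  obtain ⟨a1, a2, a3, a4, a5, a6, a7, a8⟩ := SO.on_data E.H E.hi E.hi2 hs
  exact ⟨a1, a2, by rw [a7, a8]; exact hd⟩

lemma kp_on (hs : Cls i s) : kp i (on s) =
    ((BL i s).card : ℤ) + (BU i s).card - (nL i s).card - (nU i s).card := by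
  obtain ⟨a1, a2, a3, a4, a5, a6, a7, a8⟩ := SO.on_data E.H E.hi E.hi2 hs
  unfold kp
  rw [a5, a6, a7, a8]

lemma sgn_on (hs : Cls i s) : sgn i (on s) = (-1) ^ ((BL i s).card + (nU i s).card) := by
  obtain ⟨a1, a2, a3, a4, a5, a6, a7, a8⟩ := SO.on_data E.H E.hi E.hi2 hs
  unfold sgn
  rw [a3, a4, a6, a7]
  congr 1
  omega

/-- nothing can be exchanged without an exchangeable element -/
lemma cc_none (h : ∀ d, 1 ≤ e d → (lev d = i + 2 → (uc d).card ≤ 1) ∧
    (lev d + 2 = i → (dc d).card ≤ 1)) : Xg.CC i e = ∅ := by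
  rw [eq_empty_iff_forall_notMem]
  rintro ⟨d, x⟩ hdx
  have hc : CanD i e d x := (Xg.mem_CC E.H).1 hdx
  have hl := hc.lvl E.H
  rcases hc with ⟨w, w2, p, q, T, Ex, -⟩ | ⟨w, w2, p, q, T, Ex, -⟩
  · have h1 := (h d Ex.pos).1 (by have := T.ld; unfold Xg.laL at this; omega)
    rw [T.ud, card_pair T.ne] at h1
    omega
  · have h1 := (h d Ex.pos).2 (by have := T.ld; unfold Xg.laU at this; omega)
    rw [T.ud, card_pair T.ne] at h1
    omega

lemma PN_cases (hp : p ∈ PN i C) : ∃ y, con i p = {p, y} ∧ p ≠ y ∧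
    ((lev p = i + 2 ∧ lev y = i + 1 ∧ uc p = {y} ∧ (uc y).card = 2 ∧ p ∈ PD P i) ∨
      (lev p + 2 = i ∧ lev y + 1 = i ∧ dc p = {y} ∧ (dc y).card = 2 ∧ p ∈ PU P i)) := by
  obtain ⟨hC, h | h⟩ := mem_PN.1 hp
  · obtain ⟨y, h1, h2, h3, h4, -⟩ := SO.PD_data E.H h
    exact ⟨y, SO.con_PD E.H h2 h1, by rintro rfl; omega, Or.inl ⟨h2, h3, h1, h4, h⟩⟩
  · obtain ⟨y, h1, h2, h3, h4, -⟩ := SO.PU_data E.H h
    exact ⟨y, SO.con_PU E.H h2 h1, by rintro rfl; omega, Or.inr ⟨h2, h3, h1, h4, h⟩⟩

/-- the pendant block is a tight core -/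
lemma bk_TT (hp : p ∈ PN i C) (hP : Pin C t (on (con i p))) :
    on (con i p) ∈ TT i psi C t 2 1 ∧ sgn i (on (con i p)) = SO.vp i p := by
  obtain ⟨y, hc, hne, hyp⟩ := PN_cases E hp
  have N := SO.num_PN E.H hp
  have hcls := SO.con_cls E.H N.ns
  have hnum := N.num
  have hdj : Disjoint (BL i (con i p)) (BU i (con i p)) := by
    rcases Nat.lt_or_gt_of_ne N.ns with h | h
    · rw [SO.BL_con_upp E.H h]; exact disjoint_empty_left _
    · rw [SO.BU_con_low E.H h]; exact disjoint_empty_right _
  refine ⟨mem_TT.2 ⟨?_, ⟨?_, ?_, adm_on E hcls hdj⟩, hP, ?_, ?_⟩, ?_⟩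
  · rw [SO.on_sum, N.cd]
  · exact SO.on_spt (SO.con_sub E.H E.hC N.mC N.ns)
  · apply core_on
    intro z hz
    rw [hc, mem_insert, mem_singleton] at hz
    rcases hyp with ⟨l1, l2, h1, -, -⟩ | ⟨l1, l2, h1, -, -⟩
    · refine ⟨fun h => ?_, fun h => ?_⟩
      · rcases hz with rfl | rfl
        · omega
        · exact ⟨p, by rw [hc]; simp, mem_uc.1 (by rw [h1]; simp)⟩
      · rcases hz with rfl | rfl <;> omega
    · refine ⟨fun h => ?_, fun h => ?_⟩
      · rcases hz with rfl | rfl <;> omega
      · rcases hz with rfl | rfl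
        · omega
        · exact ⟨p, by rw [hc]; simp, mem_dc.1 (by rw [h1]; simp)⟩
  · rw [kp_on E hcls]
    push_cast
    omega
  · apply cc_none E
    intro d hd
    have hd' := on_pos.1 hd
    rw [hc, mem_insert, mem_singleton] at hd'
    rcases hyp with ⟨l1, l2, h1, -, -⟩ | ⟨l1, l2, h1, -, -⟩
    · rcases hd' with rfl | rfl
      · exact ⟨fun _ => by rw [h1]; simp, fun _ => by omega⟩
      · exact ⟨fun _ => by omega, fun _ => by omega⟩
    · rcases hd' with rfl | rfl
      · exact ⟨fun _ => by omega, fun _ => by rw [h1]; simp⟩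
      · exact ⟨fun _ => by omega, fun _ => by omega⟩
  · rw [sgn_on E hcls, N.sgn]

lemma bk_inj {p' : P} (hp : p ∈ PN i C) (hp' : p' ∈ PN i C)
    (h : (on (con i p) : P → ℕ) = on (con i p')) : p = p' := by
  obtain ⟨y, hc, hne, hyp⟩ := PN_cases E hp
  obtain ⟨y', hc', hne', hyp'⟩ := PN_cases E hp'
  have h1 : 1 ≤ on (con i p') p := by
    rw [← h]
    exact on_pos.2 (by rw [hc]; simp)
  have h2 := on_pos.1 h1
  rw [hc', mem_insert, mem_singleton] at h2
  rcases h2 with h2 | rfl
  · exact h2
  · omega

/-- pins of a block -/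
lemma pin_bk (ht : Far i t) (hp : p ∈ PN i C) :
    Pin C t (on (con i p)) ↔ ∀ w ∈ pns C t, w = p ∧ t w = 1 := by
  obtain ⟨y, hc, hne, hyp⟩ := PN_cases E hp
  constructor
  · intro h w hw
    obtain ⟨h1, h2⟩ := mem_pns.1 hw
    have h3 := h w h1
    have h4 := on_pos.1 (h2.trans h3)
    have h5 := ht w h2
    have h6 : on (con i p) w ≤ 1 := on_le
    rw [hc, mem_insert, mem_singleton] at h4
    refine ⟨?_, by omega⟩
    rcases h4 with h4 | rfl
    · exact h4
    · omega
  · intro h w hw
    by_cases h1 : 1 ≤ t w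
    · obtain ⟨rfl, h2⟩ := h w (mem_pns.2 ⟨hw, h1⟩)
      rw [h2, on_one (by rw [hc]; simp)]
    · omega

end one

section two

variable (F : Fr r i psi C) (hm : Meet i C) (ht : Far i t)
include F hm ht

/-- the tight cores of energy two -/
lemma tt_two {e : P → ℕ} (he : e ∈ TT i psi C t 2 1) :
    ∃ p ∈ PN i C, e = on (con i p) := by
  obtain ⟨a1, a2, a3, a4, a5⟩ := mem_TT.1 he
  have g1 := F.gen a2 (by omega)
  have g2 := F.gs a2 a5
  rw [a5, card_empty, a4, a1] at g1
  rw [a1] at g2
  unfold nb at g1
  push_cast at g1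
  have h1 : 0 < (P1L i psi e).card ∨ 0 < (P1U i psi e).card := by omega
  have key : ∀ p y : P, p ≠ y → e y = 1 → e p = 1 → e = on {p, y} := by
    intro p y hne h2 h3
    funext z
    by_cases hz : z ∈ ({p, y} : Finset P)
    · rw [on_one hz]
      rw [mem_insert, mem_singleton] at hz
      rcases hz with rfl | rfl <;> assumption
    · rw [on_zero hz]
      have h4 : ∑ x ∈ insert z ({p, y} : Finset P), e x ≤ ∑ x, e x :=
        sum_le_sum_of_subset (subset_univ _)
      rw [sum_insert hz, Finset.sum_pair hne, a1] at h4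
      omega
  rcases h1 with h1 | h1
  · obtain ⟨y, hy⟩ := card_pos.1 h1
    obtain ⟨p, v, v', B, ly, hp, hpC⟩ := F.blkL a2 hy
    have lp := (mem_PD.1 hp).1
    refine ⟨p, mem_PN.2 ⟨hpC, Or.inl hp⟩, ?_⟩
    rw [SO.con_PD F.E.H lp B.cp]
    exact key p y (by rintro rfl; omega) B.e1 B.e2
  · obtain ⟨y, hy⟩ := card_pos.1 h1
    obtain ⟨p, v, v', B, ly, hp, hpC⟩ := F.blkU a2 hy
    have lp := (mem_PU.1 hp).1
    refine ⟨p, mem_PN.2 ⟨hpC, Or.inr hp⟩, ?_⟩
    rw [SO.con_PU F.E.H lp B.cp]
    exact key p y (by rintro rfl; omega) B.e1 B.e2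

open Classical in
/-- THE COEFFICIENT of the energy two -/
theorem hc_two (h1 : Once i C t) : hc 2 (st i C).card (ZPS i C t) =
    ∑ p ∈ (PN i C).filter (fun p => ∀ w ∈ pns C t, w = p ∧ t w = 1), SO.vp i p := by
  rw [F.top hm ht h1 (n := 2) (K := 0) rfl (by omega) (by omega)]
  have h2 : TT i psi C t 2 (0 + 1) = ((PN i C).filter
      (fun p => ∀ w ∈ pns C t, w = p ∧ t w = 1)).image (fun p => on (con i p)) := by
    ext e
    rw [mem_image]
    constructor
    · intro he
      obtain ⟨p, hp, rfl⟩ := tt_two F hm ht he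
      refine ⟨p, mem_filter.2 ⟨hp, ?_⟩, rfl⟩
      exact (pin_bk F.E ht hp).1 (mem_TT.1 he).2.2.1
    · rintro ⟨p, hp, rfl⟩
      rw [mem_filter] at hp
      exact (bk_TT F.E hp.1 ((pin_bk F.E ht hp.1).2 hp.2)).1
  rw [h2, Finset.sum_image]
  · refine Finset.sum_congr rfl fun p hp => ?_
    rw [mem_filter] at hp
    exact (bk_TT F.E hp.1 ((pin_bk F.E ht hp.1).2 hp.2)).2
  · intro p hp p' hp' h
    exact bk_inj F.E (mem_filter.1 hp).1 (mem_filter.1 hp').1 h

/-- THE COEFFICIENT of the energy zero -/
theorem hc_zero : hc 0 (st i C).card (ZPS i C t) = if pns C t = ∅ then 1 else 0 := by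
  classical
  unfold hc
  rw [coeff_ZPS, Nat.zero_div, pow_zero, one_mul]
  unfold ZP
  rw [Finset.piAntidiag_zero, Finset.filter_singleton]
  have h1 : Pin C t 0 ↔ pns C t = ∅ := by
    rw [eq_empty_iff_forall_notMem]
    constructor
    · intro h w hw
      obtain ⟨h2, h3⟩ := mem_pns.1 hw
      have := h w h2
      rw [Pi.zero_apply] at this
      omega
    · intro h w hw
      by_contra h2
      rw [Pi.zero_apply] at h2
      exact h w (mem_pns.2 ⟨hw, by omega⟩)
  simp only [h1]
  split_ifs with h
  · rw [sum_singleton]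
    have hcl : Cls i (∅ : Finset P) := ⟨by simp, by simp, by simp⟩
    have hb : BL i (∅ : Finset P) = ∅ := by
      rw [eq_empty_iff_forall_notMem]
      intro v hv
      obtain ⟨-, x, hx, -⟩ := SO.mem_BL.1 hv
      exact notMem_empty _ hx
    have hu : BU i (∅ : Finset P) = ∅ := by
      rw [eq_empty_iff_forall_notMem]
      intro v hv
      obtain ⟨-, x, hx, -⟩ := SO.mem_BU.1 hv
      exact notMem_empty _ hx
    have hnL : nL i (∅ : Finset P) = ∅ := by
      rw [eq_empty_iff_forall_notMem]
      intro v hv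
      exact notMem_empty _ (SO.mem_nL.1 hv).1
    have hnU : nU i (∅ : Finset P) = ∅ := by
      rw [eq_empty_iff_forall_notMem]
      intro v hv
      exact notMem_empty _ (SO.mem_nU.1 hv).1
    have ha : Xg.Adm i (0 : P → ℕ) := by
      rw [← on_empty]
      exact adm_on F.E hcl (by rw [hb]; exact disjoint_empty_left _)
    have hk : kp i (0 : P → ℕ) = (0 : ℕ) := by
      rw [← on_empty, kp_on F.E hcl, hb, hu, hnL, hnU]
      simp
    have h2 := lead F.E.H F.E.part (C := C) (e := (0 : P → ℕ)) (fun _ _ => rfl) ha hk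
    rw [pow_zero, one_mul] at h2
    rw [h2, ← on_empty, sgn_on F.E hcl, hb, hnU]
    simp
  · rw [sum_empty, map_zero]

open Classical in
/-- THE EVEN LEADING COEFFICIENTS -/
theorem Fr.mo (hb : Bal i C) (h1 : Once i C t) : Mo (st i C).card (ZPS i C t) (pns C t).card
    (if Gd i C t then 1 else 0) where
  hp := F.hp ht
  ev := by
    intro m hm4
    rcases Nat.lt_or_ge m 2 with h2 | h2
    · rcases Nat.lt_or_ge m 1 with h3 | h3
      · obtain rfl : m = 0 := by omega
        rw [mul_zero, hc_zero F hm ht]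
        by_cases h4 : pns C t = ∅
        · have h5 : Gd i C t := by
            unfold Gd
            rw [h4]
            simp
          rw [if_pos h4, h4, card_empty, if_pos rfl, if_pos h5]
        · rw [if_neg h4, if_neg]
          intro h5
          exact h4 (card_eq_zero.1 h5.symm)
      · obtain rfl : m = 1 := by omega
        rw [mul_one, hc_two F hm ht h1]
        by_cases h4 : pns C t = ∅
        · rw [h4, card_empty, if_neg (by omega)]
          have h5 : (PN i C).filter (fun p => ∀ w ∈ (∅ : Finset P), w = p ∧ t w = 1) =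
              PN i C := by
            apply filter_true_of_mem
            intro p _ w hw
            exact absurd hw (notMem_empty _)
          rw [h5]
          have h6 : PN i C = C.filter (· ∈ PD P i) ∪ C.filter (· ∈ PU P i) := by
            unfold SO.PN
            rw [filter_or]
          have h7 : Disjoint (C.filter (· ∈ PD P i)) (C.filter (· ∈ PU P i)) := by
            rw [disjoint_left]
            intro p hp hp'
            have := (mem_PD.1 (mem_filter.1 hp).2).1
            have := (mem_PU.1 (mem_filter.1 hp').2).1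
            omega
          rw [h6, sum_union h7, Finset.sum_congr rfl (fun p hp => SO.vp_PD (mem_filter.1 hp).2),
            Finset.sum_congr rfl (fun p hp => SO.vp_PU (mem_filter.1 hp).2)]
          unfold Bal at hb
          rw [Finset.sum_const, Finset.sum_const, hb]
          simp
        · obtain ⟨w, hw⟩ := nonempty_iff_ne_empty.2 h4
          by_cases h5 : (pns C t).card = 1
          · obtain ⟨w', hw'⟩ := card_eq_one.1 h5
            rw [hw', mem_singleton] at hw
            subst hw
            have hwC := (mem_pns.1 (by rw [hw']; simp : w ∈ pns C t))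
            have hfar := ht w hwC.2
            rw [h5, if_pos rfl]
            by_cases h6 : Gd i C t
            · rw [if_pos h6]
              have h7 := h6.1 w (by rw [hw']; simp)
              have h8 : (PN i C).filter (fun p => ∀ w ∈ pns C t, w = p ∧ t w = 1) = {w} := by
                ext p
                rw [mem_filter, mem_singleton, hw']
                simp only [mem_singleton, forall_eq]
                constructor
                · rintro ⟨-, h, -⟩
                  exact h.symm
                · rintro rfl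
                  exact ⟨mem_PN.2 ⟨hwC.1, Or.inl h7.2⟩, rfl, h7.1⟩
              rw [h8, sum_singleton, SO.vp_PD h7.2]
            · rw [if_neg h6]
              apply Finset.sum_eq_zero
              intro p hp
              rw [mem_filter] at hp
              exfalso
              obtain ⟨rfl, h7⟩ := hp.2 w (by rw [hw']; simp)
              apply h6
              unfold Gd
              rw [hw']
              refine ⟨fun a ha => ?_, fun a ha b hb hab => ?_⟩
              · rw [mem_singleton] at ha
                subst ha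
                refine ⟨h7, ?_⟩
                rcases (mem_PN.1 hp.1).2 with h | h
                · exact h
                · have := (mem_PU.1 h).1
                  omega
              · rw [mem_singleton] at ha hb
                exact absurd (ha.trans hb.symm) hab
          · rw [if_neg (fun h => h5 h.symm)]
            apply Finset.sum_eq_zero
            intro p hp
            rw [mem_filter] at hp
            exfalso
            apply h5
            rw [card_eq_one]
            refine ⟨p, ?_⟩
            ext a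
            rw [mem_singleton]
            constructor
            · exact fun ha => (hp.2 a ha).1
            · rintro rfl
              have := (hp.2 w hw).1
              rwa [this] at hw
    · have h3 := F.top hm ht h1 (n := 2 * m) (K := m - 1) (by omega) (by omega) (by omega)
      rw [h3, show m - 1 + 1 = m by omega, F.tt_even hm ht h1 h2 hm4, sum_empty]
      by_cases h4 : m = (pns C t).card
      · rw [if_pos h4, if_neg]
        rintro ⟨g1, g2⟩
        have h5 : 1 < (pns C t).card := by omega
        obtain ⟨w, hw, w', hw', hne⟩ := one_lt_card.1 h5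
        have p1 := g1 w hw
        have p2 := g1 w' hw'
        refine hm w (mem_PN.2 ⟨(mem_pns.1 hw).1, Or.inl p1.2⟩) w'
          (mem_PN.2 ⟨(mem_pns.1 hw').1, Or.inl p2.2⟩) hne ?_
        rw [sit_low F.E.H (by have := (mem_PD.1 p1.2).1; omega),
          sit_low F.E.H (by have := (mem_PD.1 p2.2).1; omega)]
        exact g2 w hw w' hw' hne
      · rw [if_neg h4]

end two

end Pool.Agent.GaussPoset.Win.Pn
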