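import Pool.Agent.W_448pn_h63.PnM

/-!
# Labels one on closed sets with sites, and the removal of a pendant block
(MP_448cb3_co, G2, case B, window j - 1)
-/

set_option autoImplicit false

namespace Pool.Agent.GaussPoset.Win.Pn

set_option linter.unusedSectionVars false

open Finset W4
open Pool.Agent.GaussPoset.Win.H2 (NoT)
open Pool.Agent.GaussPoset.Win.Xg (Okc kp CanD PBk rm rm_of rm_y rm_p rm_le laL laU)
open Pool.Agent.GaussPoset.Win.Rd (P1L P1U TWL TWU GS Hyp hypL hypU)
open Pool.Agent.GaussPoset.Win.SO (con PN on mem_PN Cls BL BU nL nU mem_con self_con LowD UppD)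

universe u

variable {P : Type u} [Fintype P] [PartialOrder P] [DecidableEq P] {r i : ℕ}
variable {e f : P → ℕ} {psi : P → P} {C K s : Finset P} {t : P → ℕ} {d x p : P}

/-! ### closed sets with sites -/

/-- `s` is closed towards the window -/
structure ClsS (i : ℕ) (s : Finset P) : Prop where
  lo : ∀ x ∈ s, i + 1 < lev x → ∀ y, x ⋖ y → y ∈ s
  up : ∀ x ∈ s, lev x + 1 < i → ∀ y, y ⋖ x → y ∈ s

lemma Cls.S (h : Cls i s) : ClsS i s := ⟨h.lo, h.up⟩

open Classical in
/-- the killed sites, below -/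
noncomputable def kLs (i : ℕ) (s : Finset P) : Finset P :=
  (lv P i).filter (fun v => v ∉ s ∧ ∃ x ∈ s, x ⋖ v)

open Classical in
/-- the killed sites, above -/
noncomputable def kUs (i : ℕ) (s : Finset P) : Finset P :=
  (lv P i).filter (fun v => v ∉ s ∧ ∃ x ∈ s, v ⋖ x)

open Classical in
/-- the free near elements, below -/
noncomputable def fLs (i : ℕ) (s : Finset P) : Finset P :=
  s.filter (fun z => lev z = i + 1 ∧ ∀ y, z ⋖ y → y ∉ s)

open Classical in
/-- the free near elements, above -/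
noncomputable def fUs (i : ℕ) (s : Finset P) : Finset P :=
  s.filter (fun z => lev z + 1 = i ∧ ∀ y, y ⋖ z → y ∉ s)

lemma mem_kLs {v : P} : v ∈ kLs i s ↔ lev v = i ∧ v ∉ s ∧ ∃ x ∈ s, x ⋖ v := by
  classical
  unfold kLs
  rw [mem_filter, mem_lv]

lemma mem_kUs {v : P} : v ∈ kUs i s ↔ lev v = i ∧ v ∉ s ∧ ∃ x ∈ s, v ⋖ x := by
  classical
  unfold kUs
  rw [mem_filter, mem_lv]

lemma mem_fLs {z : P} : z ∈ fLs i s ↔ z ∈ s ∧ lev z = i + 1 ∧ ∀ y, z ⋖ y → y ∉ s := by
  classical
  unfold fLs
  rw [mem_filter]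

lemma mem_fUs {z : P} : z ∈ fUs i s ↔ z ∈ s ∧ lev z + 1 = i ∧ ∀ y, y ⋖ z → y ∉ s := by
  classical
  unfold fUs
  rw [mem_filter]

lemma low_S (H : Gr P r) (hs : ClsS i s) : LowD i (on s) ∅ (fLs i s) (kLs i s) := by
  have hk : ∀ z, i < lev z → ¬ FD (on s) z := by
    rintro z hz ⟨y, hy, hlt⟩
    have hl := lev_cov H hy
    have h1 : y ∈ s := by
      by_contra h
      rw [on_zero h] at hlt
      omega
    rw [on_one h1, on_one (hs.lo y h1 (by omega) z hy)] at hlt
    omega
  refine ⟨?_, ?_, ?_, ?_, ?_, fun v hv => (mem_kLs.1 hv).1⟩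
  · intro z hz
    exact ⟨fun h => absurd h (hk z hz), fun h => absurd h (notMem_empty _)⟩
  · intro z hz
    rw [mem_kLs]
    constructor
    · rintro ⟨y, hy, hlt⟩
      have h1 : y ∈ s := by
        by_contra h
        rw [on_zero h] at hlt
        omega
      refine ⟨hz, fun h => ?_, y, h1, hy⟩
      rw [on_one h, on_one h1] at hlt
      omega
    · rintro ⟨-, h, y, hy, hyz⟩
      exact ⟨y, hyz, by rw [on_zero h, on_one hy]; omega⟩
  · intro z hz
    rw [mem_fLs]
    constructor
    · rintro ⟨y, hy, hle⟩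
      refine ⟨notMem_empty _, fun h => ?_⟩
      rw [on_one h.1, on_zero (h.2.2 y hy)] at hle
      omega
    · rintro ⟨-, h⟩
      by_cases hzs : z ∈ s
      · rcases Nat.lt_or_ge (i + 1) (lev z) with hl | hl
        · obtain ⟨y, hy⟩ := uc_nonempty H (x := z) (by omega)
          have := hs.lo z hzs hl y (mem_uc.1 hy)
          exact ⟨y, mem_uc.1 hy, by rw [on_one hzs, on_one this]⟩
        · by_contra hgu
          apply h
          refine ⟨hzs, by omega, fun y hy hys => hgu ⟨y, hy, ?_⟩⟩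
          rw [on_one hzs, on_one hys]
      · obtain ⟨y, hy⟩ := uc_nonempty H (x := z) (by omega)
        exact ⟨y, mem_uc.1 hy, by rw [on_zero hzs]; omega⟩
  · intro z hz
    exact absurd hz (notMem_empty _)
  · intro z hz
    have := mem_fLs.1 hz
    exact ⟨by omega, notMem_empty _⟩

lemma upp_S (H : Gr P r) (hir : i ≤ r) (hs : ClsS i s) :
    UppD i (on s) ∅ (fUs i s) (kUs i s) := by
  have hne : ∀ z : P, lev z < i → ∃ y, y ⋖ z := by
    intro z hz
    obtain ⟨y, hy⟩ := dc_nonempty H (x := z) (by omega)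
    exact ⟨y, mem_dc.1 hy⟩
  have hk : ∀ z, lev z < i → ¬ FU (on s) z := by
    rintro z hz ⟨y, hy, hlt⟩
    have hl := lev_cov H hy
    have h1 : y ∈ s := by
      by_contra h
      rw [on_zero h] at hlt
      omega
    rw [on_one h1, on_one (hs.up y h1 (by omega) z hy)] at hlt
    omega
  refine ⟨?_, ?_, ?_, ?_, ?_, fun v hv => (mem_kUs.1 hv).1⟩
  · intro z hz
    exact ⟨fun h => absurd h (hk z hz), fun h => absurd h (notMem_empty _)⟩
  · intro z hz
    rw [mem_kUs]
    constructor
    · rintro ⟨y, hy, hlt⟩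
      have h1 : y ∈ s := by
        by_contra h
        rw [on_zero h] at hlt
        omega
      refine ⟨hz, fun h => ?_, y, h1, hy⟩
      rw [on_one h, on_one h1] at hlt
      omega
    · rintro ⟨-, h, y, hy, hyz⟩
      exact ⟨y, hyz, by rw [on_zero h, on_one hy]; omega⟩
  · intro z hz
    rw [mem_fUs]
    constructor
    · rintro ⟨y, hy, hle⟩
      refine ⟨notMem_empty _, fun h => ?_⟩
      rw [on_one h.1, on_zero (h.2.2 y hy)] at hle
      omega
    · rintro ⟨-, h⟩
      by_cases hzs : z ∈ s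
      · rcases Nat.lt_or_ge (lev z + 1) i with hl | hl
        · obtain ⟨y, hy⟩ := hne z hz
          have := hs.up z hzs hl y hy
          exact ⟨y, hy, by rw [on_one hzs, on_one this]⟩
        · by_contra hgu
          apply h
          refine ⟨hzs, by omega, fun y hy hys => hgu ⟨y, hy, ?_⟩⟩
          rw [on_one hzs, on_one hys]
      · obtain ⟨y, hy⟩ := hne z hz
        exact ⟨y, hy, by rw [on_zero hzs]; omega⟩
  · intro z hz
    exact absurd hz (notMem_empty _)
  · intro z hz
    have := mem_fUs.1 hz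
    exact ⟨by omega, notMem_empty _⟩

section one

variable (E : Env r i psi C)
include E

lemma adm_S (hs : ClsS i s) (hd : Disjoint (kLs i s) (kUs i s)) : Xg.Adm i (on s) := by
  have D := low_S E.H hs
  have D' := upp_S E.H (by have := E.hi2; omega) hs
  exact ⟨D.adm, D'.adm, by rw [D.AL_eq, D'.AU_eq]; exact hd⟩

lemma kp_S (hs : ClsS i s) : kp i (on s) =
    ((kLs i s).card : ℤ) + (kUs i s).card - (fLs i s).card - (fUs i s).card := by
  have D := low_S E.H hs
  have D' := upp_S E.H (by have := E.hi2; omega) hs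
  unfold kp
  rw [D.AL_eq, D'.AU_eq, D.pL_eq, D'.pU_eq]

lemma sgn_S (hs : ClsS i s) : sgn i (on s) = (-1) ^ ((kLs i s).card + (fUs i s).card) := by
  have D := low_S E.H hs
  have D' := upp_S E.H (by have := E.hi2; omega) hs
  unfold sgn
  rw [D.AL_eq, D.aL_eq, D'.aU_eq, D'.pU_eq, card_empty]
  congr 1
  omega

/-- labels one without sites: nothing can be exchanged -/
lemma cc_on (hs : Cls i s) : Xg.CC i (on s) = ∅ := by
  rw [eq_empty_iff_forall_notMem]
  rintro ⟨d, x⟩ hdx
  have hc : CanD i (on s) d x := (Xg.mem_CC E.H).1 hdx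
  have hl := hc.lvl E.H
  have hx : on s x = 0 := on_zero (fun h => hs.ns x h hl.2.1)
  rcases hc with ⟨w, w2, p, q, T, Ex, -⟩ | ⟨w, w2, p, q, T, Ex, -⟩
  · have hd := on_pos.1 Ex.pos
    have ld : lev d = i + 2 := by
      have := T.ld
      unfold laL at this
      omega
    have mw : w ∈ s := hs.lo d hd (by omega) w (mem_uc.1 (by rw [T.ud]; simp))
    have mw2 : w2 ∈ s := hs.lo d hd (by omega) w2 (mem_uc.1 (by rw [T.ud]; simp))
    rcases Ex.act with (h | h) | (h | h)
    · rw [on_one mw, on_one hd] at h; omega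
    · rw [on_one mw, hx] at h; omega
    · rw [on_one mw2, on_one hd] at h; omega
    · rw [on_one mw2, hx] at h; omega
  · have hd := on_pos.1 Ex.pos
    have ld : lev d + 2 = i := by
      have := T.ld
      unfold laU at this
      omega
    have mw : w ∈ s := hs.up d hd (by omega) w (mem_dc.1 (by rw [T.ud]; simp))
    have mw2 : w2 ∈ s := hs.up d hd (by omega) w2 (mem_dc.1 (by rw [T.ud]; simp))
    rcases Ex.act with (h | h) | (h | h)
    · rw [on_one mw, on_one hd] at h; omega
    · rw [on_one mw, hx] at h; omega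
    · rw [on_one mw2, on_one hd] at h; omega
    · rw [on_one mw2, hx] at h; omega

end one

/-! ### removal of a block -/

lemma rm_add {y p : P} (h : y ≠ p) (h1 : e y = 1) (h2 : e p = 1) :
    e = rm y p e + on {p, y} := by
  funext z
  rw [Pi.add_apply]
  by_cases hz : z = y
  · subst hz
    rw [rm_y, on_one (by simp), h1]
  · by_cases hz' : z = p
    · subst hz'
      rw [rm_p, on_one (by simp), h2]
    · rw [rm_of hz hz', on_zero (by simp [hz, hz']), add_zero]

lemma rm_sum {y p : P} (h : y ≠ p) (h1 : e y = 1) (h2 : e p = 1) :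
    ∑ z, e z = ∑ z, rm y p e z + 2 := by
  have h3 := rm_add h h1 h2
  calc ∑ z, e z = ∑ z, (rm y p e + on {p, y}) z := by rw [← h3]
    _ = ∑ z, (rm y p e z + on {p, y} z) := rfl
    _ = _ := by rw [sum_add_distrib, SO.on_sum, card_pair h.symm]

section remove

variable (F : Fr r i psi C)
include F

/-- REMOVAL of a lower pendant block -/
theorem rm_low (h : Okc i psi C e) {y p v v' : P} (B : PBk dc uc (laL i) y p v v' e) :
    Okc i psi C (rm y p e) ∧ kp i e = kp i (rm y p e) + 1 ∧ sgn i e = sgn i (rm y p e) ∧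
      ∑ z, e z = ∑ z, rm y p e z + 2 ∧ e = rm y p e + on {p, y} := by
  have H := F.E.H
  have S := Xg.sideL H i
  obtain ⟨a1, a2, a3, a4, a5, a6, a7, a8⟩ := Xg.low_blk H B
  have a9 := Xg.low_blk_AL H B
  have hlv := B.lv S
  have ly := B.ly
  unfold laL at hlv ly
  have hne : y ≠ p := by rintro rfl; omega
  refine ⟨⟨?_, ?_, ?_⟩, ?_, ?_, rm_sum hne B.e1 B.e2, rm_add hne B.e1 B.e2⟩
  · intro z hz
    have h1 := h.spt z hz
    have h2 := rm_le (y := y) (p := p) (e := e) (z := z)
    omega
  · -- a core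
    obtain ⟨b1, b2, b3⟩ := Rd.psiL F.E.hM (by omega : lev y = i + 1)
      (by rw [B.uy, card_pair B.ne])
    have hpsi : e (psi y) = 0 := by
      by_contra h0
      have hv : v ∈ dc (psi y) := by rw [b2, B.uy]; simp
      have m1 : v ∈ AL i e := by rw [a9]; simp
      have m2 : v ∈ AU i e := by
        rw [NormD_mem_AU]
        exact ⟨by omega, psi y, mem_dc.1 hv, by rw [B.ev]; omega⟩
      exact disjoint_left.1 h.adm.d m1 m2
    have htc : ∀ z, z ≠ y → z ∈ Tch i e → z ∈ Tch i (rm y p e) := by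
      intro z hz hzt
      rw [mem_Tch] at hzt ⊢
      rcases hzt with ⟨l1, d, hd, hd1⟩ | ⟨l1, d, hd, hd1⟩
      · refine Or.inl ⟨l1, d, hd, ?_⟩
        have ld := lev_cov H hd
        rw [rm_of (by rintro rfl; omega) (by
          rintro rfl
          have := mem_uc.2 hd
          rw [B.upp, mem_singleton] at this
          exact hz this)]
        exact hd1
      · refine Or.inr ⟨l1, d, hd, ?_⟩
        have ld := lev_cov H hd
        rw [rm_of (by rintro rfl; omega) (by rintro rfl; omega)]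
        exact hd1
    intro z hz
    obtain ⟨c1, c2, c3, c4⟩ := mem_Rst.1 hz
    by_cases hzy : z = y
    · rw [hzy, rm_y]
    by_cases hzp : z = p
    · rw [hzp, rm_p]
    rw [rm_of hzy hzp]
    by_cases hzpsi : z = psi y
    · rw [hzpsi, hpsi]
    apply h.core z
    refine mem_Rst.2 ⟨c1, c2, fun h1 => c3 (htc z hzy h1), ?_⟩
    rintro ⟨h1, h2⟩
    apply c4
    refine ⟨h1, htc _ ?_ h2⟩
    intro h3
    apply hzpsi
    rw [← h3, (F.E.hM.invol z h1 (notMem_empty _)).1]
  · refine ⟨a7.1 h.adm.l, a8.1 h.adm.u, ?_⟩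
    rw [← a6]
    refine disjoint_of_subset_left ?_ h.adm.d
    rw [a9]
    exact (subset_insert _ _).trans (subset_insert _ _)
  · unfold kp
    rw [a2, a3, a5, a6]
    push_cast
    ring
  · unfold sgn
    rw [a1, a3, a4, a5, pow_add, pow_add, pow_add, pow_add, pow_add, pow_add, pow_add]
    ring

/-- REMOVAL of an upper pendant block -/
theorem rm_upp (h : Okc i psi C e) {y p v v' : P} (B : PBk uc dc (laU i) y p v v' e) :
    Okc i psi C (rm y p e) ∧ kp i e = kp i (rm y p e) + 1 ∧ sgn i e = - sgn i (rm y p e) ∧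
      ∑ z, e z = ∑ z, rm y p e z + 2 ∧ e = rm y p e + on {p, y} := by
  have H := F.E.H
  have S := Xg.sideU H i
  obtain ⟨a1, a2, a3, a4, a5, a6, a7, a8⟩ := Xg.upp_blk H B
  have a9 := Xg.upp_blk_AU H B
  have hlv := B.lv S
  have ly := B.ly
  unfold laU at hlv ly
  have hne : y ≠ p := by rintro rfl; omega
  refine ⟨⟨?_, ?_, ?_⟩, ?_, ?_, rm_sum hne B.e1 B.e2, rm_add hne B.e1 B.e2⟩
  · intro z hz
    have h1 := h.spt z hz
    have h2 := rm_le (y := y) (p := p) (e := e) (z := z)
    omega
  · -- a core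
    obtain ⟨b1, b2, b3⟩ := Rd.psiU F.E.hM (by omega : lev y + 1 = i)
      (by rw [B.uy, card_pair B.ne])
    have hpsi : e (psi y) = 0 := by
      by_contra h0
      have hv : v ∈ uc (psi y) := by rw [b2, B.uy]; simp
      have m1 : v ∈ AU i e := by rw [a9]; simp
      have m2 : v ∈ AL i e := by
        rw [NormD_mem_AL]
        exact ⟨by omega, psi y, mem_uc.1 hv, by rw [B.ev]; omega⟩
      exact disjoint_left.1 h.adm.d m2 m1
    have htc : ∀ z, z ≠ y → z ∈ Tch i e → z ∈ Tch i (rm y p e) := by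
      intro z hz hzt
      rw [mem_Tch] at hzt ⊢
      rcases hzt with ⟨l1, d, hd, hd1⟩ | ⟨l1, d, hd, hd1⟩
      · refine Or.inl ⟨l1, d, hd, ?_⟩
        have ld := lev_cov H hd
        rw [rm_of (by rintro rfl; omega) (by rintro rfl; omega)]
        exact hd1
      · refine Or.inr ⟨l1, d, hd, ?_⟩
        have ld := lev_cov H hd
        rw [rm_of (by rintro rfl; omega) (by
          rintro rfl
          have := mem_dc.2 hd
          rw [B.upp, mem_singleton] at this
          exact hz this)]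
        exact hd1
    intro z hz
    obtain ⟨c1, c2, c3, c4⟩ := mem_Rst.1 hz
    by_cases hzy : z = y
    · rw [hzy, rm_y]
    by_cases hzp : z = p
    · rw [hzp, rm_p]
    rw [rm_of hzy hzp]
    by_cases hzpsi : z = psi y
    · rw [hzpsi, hpsi]
    apply h.core z
    refine mem_Rst.2 ⟨c1, c2, fun h1 => c3 (htc z hzy h1), ?_⟩
    rintro ⟨h1, h2⟩
    apply c4
    refine ⟨h1, htc _ ?_ h2⟩
    intro h3
    apply hzpsi
    rw [← h3, (F.E.hM.invol z h1 (notMem_empty _)).1]
  · refine ⟨a8.1 h.adm.l, a7.1 h.adm.u, ?_⟩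
    rw [← a6]
    refine disjoint_of_subset_right ?_ h.adm.d
    rw [a9]
    exact (subset_insert _ _).trans (subset_insert _ _)
  · unfold kp
    rw [a2, a3, a5, a6]
    push_cast
    ring
  · unfold sgn
    rw [a1, a2, a4, a6, show aL i (rm y p e) + aU i (rm y p e) + (pU i (rm y p e) + 1) +
      (AL i (rm y p e)).card = (aL i (rm y p e) + aU i (rm y p e) + pU i (rm y p e) +
      (AL i (rm y p e)).card) + 1 by ring, pow_succ]
    ring

end remove

end Pool.Agent.GaussPoset.Win.Pn
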