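import Pool.Agent.W_448pn_h63.PnN

/-!
# The cores of energy three without pendants (MP_448cb3_co, G2, case B, window j - 1)
-/

set_option autoImplicit false

namespace Pool.Agent.GaussPoset.Win.Pn

set_option linter.unusedSectionVars false

open Finset W4
open Pool.Agent.GaussPoset.Win.Xg (Okc kp)
open Pool.Agent.GaussPoset.Win.SO (con PN on mem_PN Cls BL BU nL nU mem_con self_con)

universe u

variable {P : Type u} [Fintype P] [PartialOrder P] [DecidableEq P] {r i : ℕ}
variable {e f : P → ℕ} {psi : P → P} {C K s : Finset P} {t : P → ℕ} {d x p : P}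

lemma eq_on (h1 : ∀ z ∈ s, 1 ≤ e z) (h2 : ∑ x, e x ≤ s.card) : e = on s := by
  have h3 : ∀ x, on s x ≤ e x := by
    intro x
    by_cases h : x ∈ s
    · rw [on_one h]; exact h1 x h
    · rw [on_zero h]; exact Nat.zero_le _
  have h4 : ∑ x, on s x = ∑ x, e x := by
    apply le_antisymm
    · exact sum_le_sum fun x _ => h3 x
    · rw [SO.on_sum]; exact h2
  funext x
  exact ((Finset.sum_eq_sum_iff_of_le (fun x _ => h3 x)).1 h4 x (mem_univ x)).symm

lemma pos_low (H : Gr P r) (hL : AdmL i e) {z w : P} (hw : w ∈ uc z) (hl : i < lev w)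
    (hz : 1 ≤ e z) : 1 ≤ e w := by
  by_contra h0
  obtain ⟨x, hx⟩ := uc_nonempty H (x := w) (by omega)
  exact hL w hl ⟨⟨z, mem_uc.1 hw, by omega⟩, x, mem_uc.1 hx, by omega⟩

lemma pos_upp (H : Gr P r) (hir : i ≤ r) (hU : AdmU i e) {z w : P} (hw : w ∈ dc z)
    (hl : lev w < i) (hz : 1 ≤ e z) : 1 ≤ e w := by
  by_contra h0
  obtain ⟨x, hx⟩ := dc_nonempty H (x := w) (by omega)
  exact hU w hl ⟨⟨z, mem_dc.1 hw, by omega⟩, x, mem_dc.1 hx, by omega⟩

lemma apex_low (H : Gr P r) (hL : AdmL i e) {d : P} (hd : i + 2 ≤ lev d) (h : 1 ≤ e d) :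
    ∃ z, lev z = i + 2 ∧ 1 ≤ e z := by
  obtain ⟨n, hn⟩ : ∃ n, lev d = i + 2 + n := ⟨lev d - (i + 2), by omega⟩
  induction n generalizing d with
  | zero => exact ⟨d, hn, h⟩
  | succ n ih =>
    obtain ⟨w, hw⟩ := uc_nonempty H (x := d) (by omega)
    have lw := lev_uc H hw
    exact ih (by omega) (pos_low H hL hw (by omega) h) (by omega)

lemma apex_upp (H : Gr P r) (hir : i ≤ r) (hU : AdmU i e) {d : P} (hd : lev d + 2 ≤ i)
    (h : 1 ≤ e d) : ∃ z, lev z + 2 = i ∧ 1 ≤ e z := by
  obtain ⟨n, hn⟩ : ∃ n, lev d + 2 + n = i := ⟨i - (lev d + 2), by omega⟩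
  induction n generalizing d with
  | zero => exact ⟨d, hn, h⟩
  | succ n ih =>
    obtain ⟨w, hw⟩ := dc_nonempty H (x := d) (by omega)
    have lw := lev_dc H hw
    exact ih (by omega) (pos_upp H hir hU hw (by omega) h) (by omega)

lemma free_low {z : P} (hz : i < lev z) (h1 : ¬ FD e z) (h2 : ¬ GU e z) : 1 ≤ pL i e := by
  classical
  unfold pL
  exact card_pos.2 ⟨z, mem_filter.2 ⟨mem_univ _, hz, h1, h2⟩⟩

lemma free_upp {z : P} (hz : lev z < i) (h1 : ¬ FU e z) (h2 : ¬ GD e z) : 1 ≤ pU i e := by
  classical
  unfold pU
  exact card_pos.2 ⟨z, mem_filter.2 ⟨mem_univ _, hz, h1, h2⟩⟩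

/-- a positive near element of a core is touched, or its partner is -/
lemma touched (hc : IsCore i ∅ psi e) {y : P} (hn : lev y = i + 1 ∨ lev y + 1 = i)
    (hy : 1 ≤ e y) : y ∈ Tch i e ∨ (y ∈ dbL P i ∪ dbU P i ∧ psi y ∈ Tch i e) := by
  by_contra h
  push Not at h
  have := hc y (mem_Rst.2 ⟨mem_near.2 hn, notMem_empty _, h.1, fun h3 => h.2 h3.1 h3.2⟩)
  omega

lemma tch_far (hh : ∀ d : P, i + 2 ≤ lev d ∨ lev d + 2 ≤ i → e d = 0) (H : Gr P r) {y : P} :
    y ∉ Tch i e := by
  intro h
  rw [mem_Tch] at h
  rcases h with ⟨l1, d, hd, hd1⟩ | ⟨l1, d, hd, hd1⟩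
  · have := lev_cov H hd
    have := hh d (by omega)
    omega
  · have := lev_cov H hd
    have := hh d (by omega)
    omega

/-- without far elements there is no deficit -/
lemma no_far (F : Fr r i psi C) (h : Okc i psi C e)
    (hh : ∀ d : P, i + 2 ≤ lev d ∨ lev d + 2 ≤ i → e d = 0) : kp i e ≤ 0 := by
  have H := F.E.H
  have hn : ∀ y : P, lev y = i + 1 ∨ lev y + 1 = i → e y = 0 := by
    intro y hy
    by_contra h0
    rcases touched h.core hy (by omega) with h1 | h1
    · exact tch_far hh H h1
    · exact tch_far hh H h1.2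
  have h1 : AL i e = ∅ := by
    rw [eq_empty_iff_forall_notMem]
    intro a ha
    rw [NormD_mem_AL] at ha
    obtain ⟨la, y, hy, hlt⟩ := ha
    have := lev_cov H hy
    have := hn y (by omega)
    omega
  have h2 : AU i e = ∅ := by
    rw [eq_empty_iff_forall_notMem]
    intro a ha
    rw [NormD_mem_AU] at ha
    obtain ⟨la, y, hy, hlt⟩ := ha
    have := lev_cov H hy
    have := hn y (by omega)
    omega
  unfold kp
  rw [h1, h2, card_empty]
  push_cast
  omega

lemma sum_pair_le {a b : P} (h : a ≠ b) : e a + e b ≤ ∑ x, e x := by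
  rw [← Finset.sum_pair h]
  exact sum_le_sum_of_subset (subset_univ _)

lemma sum_three_le {a b c : P} (h1 : a ≠ b) (h2 : a ≠ c) (h3 : b ≠ c) :
    e a + e b + e c ≤ ∑ x, e x := by
  have h : ∑ x ∈ ({a, b, c} : Finset P), e x ≤ ∑ x, e x :=
    sum_le_sum_of_subset (subset_univ _)
  rw [sum_insert (by simp [h1, h2]), Finset.sum_pair h3] at h
  omega

lemma eq_on_three {a b c : P} (h1 : a ≠ b) (h2 : a ≠ c) (h3 : b ≠ c) (ha : 1 ≤ e a)
    (hb : 1 ≤ e b) (hc : 1 ≤ e c) (hs : ∑ x, e x = 3) : e = on {a, b, c} := by
  apply eq_on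
  · intro z hz
    simp only [mem_insert, mem_singleton] at hz
    rcases hz with rfl | rfl | rfl <;> assumption
  · rw [card_insert_of_notMem (by simp [h1, h2]), card_pair h3, hs]

section main

variable (F : Fr r i psi C)
include F

/-- energy three with a lower far element, no pendant -/
theorem e3_low (h : Okc i psi C e) (hE : ∑ x, e x = 3) (hk : kp i e = 1)
    (hno : ∀ p ∈ PN i C, e p = 0) {z : P} (lz : lev z = i + 2) (hz : 1 ≤ e z) :
    z ∈ ZL i C ∧ e = on (con i z) := by
  classical
  have H := F.E.H
  have hi2 := F.E.hi2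
  have hzC := mem_of_pos h.spt hz
  obtain ⟨w, hw⟩ := uc_nonempty H (x := z) (by omega)
  have lw := lev_uc H hw
  have ew := pos_low H h.adm.l hw (by omega) hz
  have hzw : z ≠ w := by rintro rfl; omega
  by_cases h2 : (uc z).card = 2
  · -- two covers
    obtain ⟨a, b, hab, hc⟩ := card_eq_two.1 h2
    have ma : a ∈ uc z := by rw [hc]; simp
    have mb : b ∈ uc z := by rw [hc]; simp
    have la := lev_uc H ma
    have lb := lev_uc H mb
    have ea := pos_low H h.adm.l ma (by omega) hz
    have eb := pos_low H h.adm.l mb (by omega) hz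
    have hon := eq_on_three (by rintro rfl; omega) (by rintro rfl; omega) hab hz ea eb hE
    have hcon : con i z = {z, a, b} := by rw [SO.con_two_low H lz, hc]
    rw [← hcon] at hon
    refine ⟨mem_ZL.2 ⟨hzC, lz, ?_⟩, hon⟩
    have hcls := SO.con_cls (i := i) H (z := z) (by omega)
    have h3 := kp_on F.E hcls
    rw [← hon, hk, SO.BL_con_low H (by omega), SO.BU_con_low H (by omega),
      SO.nU_con_low H (by omega), card_empty] at h3
    have h4 : nL i (con i z) = {a, b} := by
      ext y
      rw [SO.mem_nL, hcon]
      simp only [mem_insert, mem_singleton]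
      constructor
      · rintro ⟨rfl | rfl | rfl, hl⟩
        · omega
        · exact Or.inl rfl
        · exact Or.inr rfl
      · rintro (rfl | rfl)
        · exact ⟨Or.inr (Or.inl rfl), by omega⟩
        · exact ⟨Or.inr (Or.inr rfl), by omega⟩
    rw [h4, card_pair hab] at h3
    push_cast at h3
    rw [← card_sts]
    omega
  · -- one cover
    exfalso
    have h1 : uc z = {w} := by
      have := uc_card_le H z
      obtain ⟨a, ha⟩ := card_eq_one.1 (show (uc z).card = 1 by
        have := card_pos.2 ⟨w, hw⟩
        omega)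
      rw [ha, mem_singleton] at hw
      rw [ha, hw]
    have hw1 : (uc w).card = 1 := by
      have a1 := uc_card_le H w
      have a2 := card_pos.2 (uc_nonempty H (x := w) (by omega))
      by_contra hne
      have hp : z ∈ PD P i := mem_PD.2 ⟨lz, by rw [h1, card_singleton], w, mem_uc.1 hw, by omega⟩
      have := hno z (mem_PN.2 ⟨hzC, Or.inl hp⟩)
      omega
    obtain ⟨v, hv⟩ := card_eq_one.1 hw1
    have hvw : v ∈ uc w := by rw [hv]; simp
    have lv' := lev_uc H hvw
    -- other near elements are not positive
    have hnl : ∀ y : P, lev y = i + 1 → y ≠ w → e y = 0 := by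
      intro y ly hyw
      by_contra h0
      have hzy : z ≠ y := by rintro rfl; omega
      have hon := eq_on_three hzw hzy (Ne.symm hyw) hz ew (by omega) hE
      have hmem : ∀ a, 1 ≤ e a → a = z ∨ a = w ∨ a = y := by
        intro a ha
        rw [hon] at ha
        have := on_pos.1 ha
        simpa using this
      rcases touched h.core (Or.inl ly) (by omega) with ht | ⟨hd, ht⟩
      · rw [mem_Tch] at ht
        rcases ht with ⟨-, d, hd, hd1⟩ | ⟨l1, -⟩
        · have ld := lev_cov H hd
          rcases hmem d hd1 with rfl | rfl | rfl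
          · have := mem_uc.2 hd
            rw [h1, mem_singleton] at this
            exact hyw this
          · omega
          · omega
        · omega
      · have hyd : (uc y).card = 2 := by
          rcases mem_union.1 hd with h5 | h5
          · exact (mem_dbL.1 h5).2
          · have := (mem_dbU.1 h5).1
            omega
        obtain ⟨⟨b1, -⟩, -, -⟩ := Rd.psiL F.E.hM ly hyd
        rw [mem_Tch] at ht
        rcases ht with ⟨l1, -⟩ | ⟨-, d, hd, hd1⟩
        · omega
        · have ld := lev_cov H hd
          rcases hmem d hd1 with rfl | rfl | rfl <;> omega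
    have hnu : ∀ y : P, lev y + 1 = i → e y = 0 := by
      intro y ly
      by_contra h0
      have hzy : z ≠ y := by rintro rfl; omega
      have hwy : w ≠ y := by rintro rfl; omega
      have hon := eq_on_three hzw hzy hwy hz ew (by omega) hE
      have hmem : ∀ a, 1 ≤ e a → a = z ∨ a = w ∨ a = y := by
        intro a ha
        rw [hon] at ha
        have := on_pos.1 ha
        simpa using this
      rcases touched h.core (Or.inr ly) (by omega) with ht | ⟨hd, ht⟩
      · rw [mem_Tch] at ht
        rcases ht with ⟨l1, -⟩ | ⟨-, d, hd, hd1⟩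
        · omega
        · have ld := lev_cov H hd
          rcases hmem d hd1 with rfl | rfl | rfl <;> omega
      · have hyd : (dc y).card = 2 := by
          rcases mem_union.1 hd with h5 | h5
          · have := (mem_dbL.1 h5).1
            omega
          · exact (mem_dbU.1 h5).2
        obtain ⟨⟨b1, b2⟩, -, -⟩ := Rd.psiU F.E.hM ly hyd
        rw [mem_Tch] at ht
        rcases ht with ⟨-, d, hd, hd1⟩ | ⟨l1, -⟩
        · have ld := lev_cov H hd
          rcases hmem d hd1 with rfl | rfl | rfl
          · have := mem_uc.2 hd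
            rw [h1, mem_singleton] at this
            rw [this] at b2
            omega
          · omega
          · omega
        · omega
    have hAU : AU i e = ∅ := by
      rw [eq_empty_iff_forall_notMem]
      intro a ha
      rw [NormD_mem_AU] at ha
      obtain ⟨la, y, hy, hlt⟩ := ha
      have := lev_cov H hy
      have := hnu y (by omega)
      omega
    have hAL : AL i e ⊆ {v} := by
      intro a ha
      rw [NormD_mem_AL] at ha
      obtain ⟨la, y, hy, hlt⟩ := ha
      have ly := lev_cov H hy
      by_cases hyw : y = w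
      · rw [hyw] at hy
        rw [← hv]
        exact mem_uc.2 hy
      · have := hnl y (by omega) hyw
        omega
    have hcard := card_le_card hAL
    rw [card_singleton] at hcard
    unfold kp at hk
    rw [hAU, card_empty] at hk
    push_cast at hk
    have hp0 : pL i e = 0 := by omega
    have hAL1 : (AL i e).card = 1 := by omega
    obtain ⟨a, ha⟩ := card_eq_one.1 hAL1
    have hav : a = v := by
      have := hAL (by rw [ha]; simp : a ∈ AL i e)
      simpa using this
    have hlt : e v < e w := by
      have h5 : v ∈ AL i e := by rw [ha, hav]; simp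
      rw [NormD_mem_AL] at h5
      obtain ⟨la, y, hy, hlt⟩ := h5
      have ly := lev_cov H hy
      by_cases hyw : y = w
      · rw [← hyw]; exact hlt
      · have := hnl y (by omega) hyw
        omega
    have hgw : ¬ GU e w := by
      rintro ⟨y, hy, hle⟩
      have := mem_uc.2 hy
      rw [hv, mem_singleton] at this
      rw [this] at hle
      omega
    have hfw : FD e w := by
      by_contra hf
      have := free_low (i := i) (by omega) hf hgw
      omega
    obtain ⟨z1, hz1, hz1e⟩ := hfw
    have lz1 := lev_cov H hz1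
    by_cases hzz : z1 = z
    · subst hzz
      have hsum := sum_pair_le (e := e) hzw
      have hg : ¬ GU e z1 := by
        rintro ⟨y, hy, hle⟩
        have := mem_uc.2 hy
        rw [h1, mem_singleton] at this
        rw [this] at hle
        omega
      have hf : ¬ FD e z1 := by
        rintro ⟨q, hq, hqe⟩
        have lq := lev_cov H hq
        have := sum_three_le (e := e) hzw (show z1 ≠ q by rintro rfl; omega)
          (show w ≠ q by rintro rfl; omega)
        omega
      have := free_low (i := i) (by omega) hf hg
      omega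
    · have := sum_three_le (e := e) hzw (Ne.symm hzz) (show w ≠ z1 by rintro rfl; omega)
      omega

/-- energy three with an upper far element, no pendant -/
theorem e3_upp (h : Okc i psi C e) (hE : ∑ x, e x = 3) (hk : kp i e = 1)
    (hno : ∀ p ∈ PN i C, e p = 0) {z : P} (lz : lev z + 2 = i) (hz : 1 ≤ e z) :
    z ∈ ZU i C ∧ e = on (con i z) := by
  classical
  have H := F.E.H
  have hi2 := F.E.hi2
  have hir : i ≤ r := by omega
  have hzC := mem_of_pos h.spt hz
  obtain ⟨w, hw⟩ := dc_nonempty H (x := z) (by omega)
  have lw := lev_dc H hw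
  have ew := pos_upp H hir h.adm.u hw (by omega) hz
  have hzw : z ≠ w := by rintro rfl; omega
  by_cases h2 : (dc z).card = 2
  · obtain ⟨a, b, hab, hc⟩ := card_eq_two.1 h2
    have ma : a ∈ dc z := by rw [hc]; simp
    have mb : b ∈ dc z := by rw [hc]; simp
    have la := lev_dc H ma
    have lb := lev_dc H mb
    have ea := pos_upp H hir h.adm.u ma (by omega) hz
    have eb := pos_upp H hir h.adm.u mb (by omega) hz
    have hon := eq_on_three (by rintro rfl; omega) (by rintro rfl; omega) hab hz ea eb hE
    have hcon : con i z = {z, a, b} := by rw [SO.con_two_upp H lz, hc]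
    rw [← hcon] at hon
    refine ⟨mem_ZU.2 ⟨hzC, lz, ?_⟩, hon⟩
    have hcls := SO.con_cls (i := i) H (z := z) (by omega)
    have h3 := kp_on F.E hcls
    rw [← hon, hk, SO.BU_con_upp H (by omega), SO.BL_con_upp H (by omega),
      SO.nL_con_upp H (by omega), card_empty] at h3
    have h4 : nU i (con i z) = {a, b} := by
      ext y
      rw [SO.mem_nU, hcon]
      simp only [mem_insert, mem_singleton]
      constructor
      · rintro ⟨rfl | rfl | rfl, hl⟩
        · omega
        · exact Or.inl rfl
        · exact Or.inr rfl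
      · rintro (rfl | rfl)
        · exact ⟨Or.inr (Or.inl rfl), by omega⟩
        · exact ⟨Or.inr (Or.inr rfl), by omega⟩
    rw [h4, card_pair hab] at h3
    push_cast at h3
    rw [← card_stD]
    omega
  · exfalso
    have h1 : dc z = {w} := by
      have := dc_card_le H z
      obtain ⟨a, ha⟩ := card_eq_one.1 (show (dc z).card = 1 by
        have := card_pos.2 ⟨w, hw⟩
        omega)
      rw [ha, mem_singleton] at hw
      rw [ha, hw]
    have hw1 : (dc w).card = 1 := by
      have a1 := dc_card_le H w
      have a2 := card_pos.2 (dc_nonempty H (x := w) (by omega))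
      by_contra hne
      have hp : z ∈ PU P i := mem_PU.2 ⟨lz, by rw [h1, card_singleton], w, mem_dc.1 hw, by omega⟩
      have := hno z (mem_PN.2 ⟨hzC, Or.inr hp⟩)
      omega
    obtain ⟨v, hv⟩ := card_eq_one.1 hw1
    have hvw : v ∈ dc w := by rw [hv]; simp
    have lv' := lev_dc H hvw
    have hnu : ∀ y : P, lev y + 1 = i → y ≠ w → e y = 0 := by
      intro y ly hyw
      by_contra h0
      have hzy : z ≠ y := by rintro rfl; omega
      have hon := eq_on_three hzw hzy (Ne.symm hyw) hz ew (by omega) hE
      have hmem : ∀ a, 1 ≤ e a → a = z ∨ a = w ∨ a = y := by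
        intro a ha
        rw [hon] at ha
        have := on_pos.1 ha
        simpa using this
      rcases touched h.core (Or.inr ly) (by omega) with ht | ⟨hd, ht⟩
      · rw [mem_Tch] at ht
        rcases ht with ⟨l1, -⟩ | ⟨-, d, hd, hd1⟩
        · omega
        · have ld := lev_cov H hd
          rcases hmem d hd1 with rfl | rfl | rfl
          · have := mem_dc.2 hd
            rw [h1, mem_singleton] at this
            exact hyw this
          · omega
          · omega
      · have hyd : (dc y).card = 2 := by
          rcases mem_union.1 hd with h5 | h5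
          · have := (mem_dbL.1 h5).1
            omega
          · exact (mem_dbU.1 h5).2
        obtain ⟨⟨b1, -⟩, -, -⟩ := Rd.psiU F.E.hM ly hyd
        rw [mem_Tch] at ht
        rcases ht with ⟨-, d, hd, hd1⟩ | ⟨l1, -⟩
        · have ld := lev_cov H hd
          rcases hmem d hd1 with rfl | rfl | rfl <;> omega
        · omega
    have hnl : ∀ y : P, lev y = i + 1 → e y = 0 := by
      intro y ly
      by_contra h0
      have hzy : z ≠ y := by rintro rfl; omega
      have hwy : w ≠ y := by rintro rfl; omega
      have hon := eq_on_three hzw hzy hwy hz ew (by omega) hE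
      have hmem : ∀ a, 1 ≤ e a → a = z ∨ a = w ∨ a = y := by
        intro a ha
        rw [hon] at ha
        have := on_pos.1 ha
        simpa using this
      rcases touched h.core (Or.inl ly) (by omega) with ht | ⟨hd, ht⟩
      · rw [mem_Tch] at ht
        rcases ht with ⟨-, d, hd, hd1⟩ | ⟨l1, -⟩
        · have ld := lev_cov H hd
          rcases hmem d hd1 with rfl | rfl | rfl <;> omega
        · omega
      · have hyd : (uc y).card = 2 := by
          rcases mem_union.1 hd with h5 | h5
          · exact (mem_dbL.1 h5).2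
          · have := (mem_dbU.1 h5).1
            omega
        obtain ⟨⟨b1, b2⟩, -, -⟩ := Rd.psiL F.E.hM ly hyd
        rw [mem_Tch] at ht
        rcases ht with ⟨l1, -⟩ | ⟨-, d, hd, hd1⟩
        · omega
        · have ld := lev_cov H hd
          rcases hmem d hd1 with rfl | rfl | rfl
          · have := mem_dc.2 hd
            rw [h1, mem_singleton] at this
            rw [this] at b2
            omega
          · omega
          · omega
    have hAL : AL i e = ∅ := by
      rw [eq_empty_iff_forall_notMem]
      intro a ha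
      rw [NormD_mem_AL] at ha
      obtain ⟨la, y, hy, hlt⟩ := ha
      have := lev_cov H hy
      have := hnl y (by omega)
      omega
    have hAU : AU i e ⊆ {v} := by
      intro a ha
      rw [NormD_mem_AU] at ha
      obtain ⟨la, y, hy, hlt⟩ := ha
      have ly := lev_cov H hy
      by_cases hyw : y = w
      · rw [hyw] at hy
        rw [← hv]
        exact mem_dc.2 hy
      · have := hnu y (by omega) hyw
        omega
    have hcard := card_le_card hAU
    rw [card_singleton] at hcard
    unfold kp at hk
    rw [hAL, card_empty] at hk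
    push_cast at hk
    have hp0 : pU i e = 0 := by omega
    have hAU1 : (AU i e).card = 1 := by omega
    obtain ⟨a, ha⟩ := card_eq_one.1 hAU1
    have hav : a = v := by
      have := hAU (by rw [ha]; simp : a ∈ AU i e)
      simpa using this
    have hlt : e v < e w := by
      have h5 : v ∈ AU i e := by rw [ha, hav]; simp
      rw [NormD_mem_AU] at h5
      obtain ⟨la, y, hy, hlt⟩ := h5
      have ly := lev_cov H hy
      by_cases hyw : y = w
      · rw [← hyw]; exact hlt
      · have := hnu y (by omega) hyw
        omega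
    have hgw : ¬ GD e w := by
      rintro ⟨y, hy, hle⟩
      have := mem_dc.2 hy
      rw [hv, mem_singleton] at this
      rw [this] at hle
      omega
    have hfw : FU e w := by
      by_contra hf
      have := free_upp (i := i) (by omega) hf hgw
      omega
    obtain ⟨z1, hz1, hz1e⟩ := hfw
    have lz1 := lev_cov H hz1
    by_cases hzz : z1 = z
    · subst hzz
      have hsum := sum_pair_le (e := e) hzw
      have hg : ¬ GD e z1 := by
        rintro ⟨y, hy, hle⟩
        have := mem_dc.2 hy
        rw [h1, mem_singleton] at this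
        rw [this] at hle
        omega
      have hf : ¬ FU e z1 := by
        rintro ⟨q, hq, hqe⟩
        have lq := lev_cov H hq
        have := sum_three_le (e := e) hzw (show z1 ≠ q by rintro rfl; omega)
          (show w ≠ q by rintro rfl; omega)
        omega
      have := free_upp (i := i) (by omega) hf hg
      omega
    · have := sum_three_le (e := e) hzw (Ne.symm hzz) (show w ≠ z1 by rintro rfl; omega)
      omega

/-- THE CORES OF ENERGY THREE with one deficit and without pendants -/
theorem e3_class (h : Okc i psi C e) (hE : ∑ x, e x = 3) (hk : kp i e = 1)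
    (hno : ∀ p ∈ PN i C, e p = 0) :
    ∃ z, (z ∈ ZL i C ∨ z ∈ ZU i C) ∧ e = on (con i z) := by
  have hir : i ≤ r := by have := F.E.hi2; omega
  by_cases h1 : ∃ d : P, i + 2 ≤ lev d ∧ 1 ≤ e d
  · obtain ⟨d, hd, hd1⟩ := h1
    obtain ⟨z, lz, hz⟩ := apex_low F.E.H h.adm.l hd hd1
    obtain ⟨a, b⟩ := e3_low F h hE hk hno lz hz
    exact ⟨z, Or.inl a, b⟩
  · by_cases h2 : ∃ d : P, lev d + 2 ≤ i ∧ 1 ≤ e d
    · obtain ⟨d, hd, hd1⟩ := h2
      obtain ⟨z, lz, hz⟩ := apex_upp F.E.H hir h.adm.u hd hd1
      obtain ⟨a, b⟩ := e3_upp F h hE hk hno lz hz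
      exact ⟨z, Or.inr a, b⟩
    · exfalso
      push Not at h1 h2
      have := no_far F h (fun d hd => by
        rcases hd with hd | hd
        · have := h1 d hd
          omega
        · have := h2 d hd
          omega)
      omega

end main

end Pool.Agent.GaussPoset.Win.Pn
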