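import Pool.Agent.W_448pn_h63.PnO

/-!
# Pendant blocks (MP_448cb3_co, G2, case B, window j - 1)
-/

set_option autoImplicit false

namespace Pool.Agent.GaussPoset.Win.Pn

set_option linter.unusedSectionVars false

open Finset W4
open Pool.Agent.GaussPoset.Win.Xg (Okc kp CanD PBk rm rm_of rm_y rm_p rm_le laL laU)
open Pool.Agent.GaussPoset.Win.Rd (P1L P1U TWL TWU GS Hyp hypL hypU)
open Pool.Agent.GaussPoset.Win.SO (con PN on mem_PN Cls BL BU nL nU mem_con self_con vp I5 mem_I5 c5)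

universe u

variable {P : Type u} [Fintype P] [PartialOrder P] [DecidableEq P] {r i : ℕ}
variable {e f : P → ℕ} {psi : P → P} {C K s : Finset P} {t : P → ℕ} {d x p : P}

/-- an isolated pendant block of a core -/
structure Blo (i : ℕ) (psi : P → P) (C : Finset P) (e : P → ℕ) (p y : P) : Prop where
  mem : p ∈ PN i C
  side : (lev p = i + 2 ∧ lev y = i + 1 ∧ uc p = {y} ∧ (uc y).card = 2) ∨
    (lev p + 2 = i ∧ lev y + 1 = i ∧ dc p = {y} ∧ (dc y).card = 2)
  e1 : e y = 1
  e2 : e p = 1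
  ia : ∀ a ∈ sit i p, e a = 0 ∧ (∀ z ∈ dc a, z ≠ y → e z = 0) ∧ (∀ z ∈ uc a, z ≠ y → e z = 0)
  oth : ∀ z, z ≠ p → (z ∈ dc y ∨ z ∈ uc y) → e z = 0
  ok : Okc i psi C (rm y p e)
  kp : kp i e = kp i (rm y p e) + 1
  sg : sgn i e = vp i p * sgn i (rm y p e)
  su : ∑ z, e z = ∑ z, rm y p e z + 2
  ad : e = rm y p e + on (con i p)

section sites

variable (H : Gr P r)
include H

lemma mem_sit_low {z a : P} (hz : lev z = i + 2) : a ∈ sit i z ↔ ∃ w ∈ uc z, a ∈ uc w := by
  rw [sit_low H (by omega), mem_sts_iff H hz]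

lemma mem_sit_upp {z a : P} (hz : lev z + 2 = i) : a ∈ sit i z ↔ ∃ w ∈ dc z, a ∈ dc w := by
  rw [sit_upp H (by omega), mem_stD_iff H hz]

/-- an excited far element away from a block has other sites -/
lemma Blo.disj (hir : i ≤ r) (h : Xg.Adm i e) {y : P} (B : Blo i psi C e p y) {z : P}
    (hl : lev z = i + 2 ∨ lev z + 2 = i) (hz : 1 ≤ e z) (hy : y ∉ con i z) :
    Disjoint (sit i z) (sit i p) := by
  rw [disjoint_left]
  intro a ha hb
  obtain ⟨a1, a2, a3⟩ := B.ia a hb
  rcases hl with hl | hl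
  · rw [mem_sit_low H hl] at ha
    obtain ⟨w, hw, hwa⟩ := ha
    have lw := lev_uc H hw
    have h1 := pos_low H h.l hw (by omega) hz
    have h2 := a2 w (mem_dc.2 (mem_uc.1 hwa)) (by
      rintro rfl
      apply hy
      rw [SO.con_two_low H hl]
      exact mem_insert_of_mem hw)
    omega
  · rw [mem_sit_upp H hl] at ha
    obtain ⟨w, hw, hwa⟩ := ha
    have lw := lev_dc H hw
    have h1 := pos_upp H hir h.u hw (by omega) hz
    have h2 := a3 w (mem_uc.2 (mem_dc.1 hwa)) (by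
      rintro rfl
      apply hy
      rw [SO.con_two_upp H hl]
      exact mem_insert_of_mem hw)
    omega

end sites

section fr

variable (F : Fr r i psi C) (hm : Meet i C)
include F hm

/-- the other pendants are not excited -/
lemma Blo.alone (h : Okc i psi C e) {y : P} (B : Blo i psi C e p y) :
    ∀ p' ∈ PN i C, p' ≠ p → e p' = 0 := by
  intro p' hp' hne
  by_contra h0
  have H := F.E.H
  obtain ⟨y', hc, hne', hyp⟩ := PN_cases F.E hp'
  have hl : lev p' = i + 2 ∨ lev p' + 2 = i := by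
    rcases hyp with h1 | h1
    · exact Or.inl h1.1
    · exact Or.inr h1.1
  have hyy : y ≠ y' := by
    rintro rfl
    rcases hyp with ⟨-, -, h1, -⟩ | ⟨-, -, h1, -⟩
    · have := B.oth p' hne (Or.inl (mem_dc.2 (mem_uc.1 (by rw [h1]; simp))))
      omega
    · have := B.oth p' hne (Or.inr (mem_uc.2 (mem_dc.1 (by rw [h1]; simp))))
      omega
  have hyp' : y ≠ p' := by
    rintro rfl
    have := B.side
    omega
  exact hm p' hp' p B.mem hne (B.disj H (by have := F.E.hi2; omega) h.adm hl (by omega) (by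
    rw [hc]
    simp [hyy, hyp']))

lemma p1u_low (h : Okc i psi C e) :
    ∀ y ∈ Rd.P1 uc dc e (fun x : P => lev x - i) (I2.lS P i) (Rd.BGL i psi e),
    ∀ y' ∈ Rd.P1 uc dc e (fun x : P => lev x - i) (I2.lS P i) (Rd.BGL i psi e), y' = y := by
  intro y hy y' hy'
  have H := F.E.H
  have hL := hypL F.G F.hT F.hQ F.E.hM h.adm.l h.adm.u h.adm.d h.core
  obtain ⟨p, v, v', B, yS, ty⟩ := p1_blk hL hy
  obtain ⟨p', w, w', B', yS', ty'⟩ := p1_blk hL hy'
  by_contra hne
  rw [I2.mem_lS] at yS yS'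
  have lp := lev_uc H (show y ∈ uc p by rw [B.cp]; simp)
  have lp' := lev_uc H (show y' ∈ uc p' by rw [B'.cp]; simp)
  have hp : p ∈ PD P i := mem_PD.2 ⟨by omega, by rw [B.cp]; simp, y,
    mem_uc.1 (by rw [B.cp]; simp), by rw [B.cy, card_pair B.ne]⟩
  have hp' : p' ∈ PD P i := mem_PD.2 ⟨by omega, by rw [B'.cp]; simp, y',
    mem_uc.1 (by rw [B'.cp]; simp), by rw [B'.cy, card_pair B'.ne]⟩
  have hpp : p ≠ p' := by
    rintro rfl
    have := B.cp.symm.trans B'.cp
    exact hne (singleton_injective this).symm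
  refine hm p (mem_PN.2 ⟨mem_of_pos h.spt (by rw [B.e2]), Or.inl hp⟩) p'
    (mem_PN.2 ⟨mem_of_pos h.spt (by rw [B'.e2]), Or.inl hp'⟩) hpp ?_
  rw [sit_PDs H hp B.cp, sit_PDs H hp' B'.cp, disjoint_left]
  intro a ha ha'
  have m : y' ∈ dc a := mem_dc.2 (mem_uc.1 ha')
  rw [B.cy, mem_insert, mem_singleton] at ha
  rcases ha with rfl | rfl
  · have := B.nv y' m hne
    rw [B'.e1] at this
    omega
  · have := B.nv' y' m hne
    rw [B'.e1] at this
    omega

lemma p1u_upp (h : Okc i psi C e) :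
    ∀ y ∈ Rd.P1 dc uc e (fun x : P => i - lev x) (I2.uS P i) (Rd.BGU i psi e),
    ∀ y' ∈ Rd.P1 dc uc e (fun x : P => i - lev x) (I2.uS P i) (Rd.BGU i psi e), y' = y := by
  intro y hy y' hy'
  have H := F.E.H
  have hU := hypU F.G F.hT F.E.hM h.adm.l h.adm.u h.adm.d h.core
  obtain ⟨p, v, v', B, yS, ty⟩ := p1_blk hU hy
  obtain ⟨p', w, w', B', yS', ty'⟩ := p1_blk hU hy'
  by_contra hne
  rw [I2.mem_uS] at yS yS'
  have lp := lev_dc H (show y ∈ dc p by rw [B.cp]; simp)
  have lp' := lev_dc H (show y' ∈ dc p' by rw [B'.cp]; simp)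
  have hp : p ∈ PU P i := mem_PU.2 ⟨by omega, by rw [B.cp]; simp, y,
    mem_dc.1 (by rw [B.cp]; simp), by rw [B.cy, card_pair B.ne]⟩
  have hp' : p' ∈ PU P i := mem_PU.2 ⟨by omega, by rw [B'.cp]; simp, y',
    mem_dc.1 (by rw [B'.cp]; simp), by rw [B'.cy, card_pair B'.ne]⟩
  have hpp : p ≠ p' := by
    rintro rfl
    have := B.cp.symm.trans B'.cp
    exact hne (singleton_injective this).symm
  refine hm p (mem_PN.2 ⟨mem_of_pos h.spt (by rw [B.e2]), Or.inr hp⟩) p'
    (mem_PN.2 ⟨mem_of_pos h.spt (by rw [B'.e2]), Or.inr hp'⟩) hpp ?_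
  rw [sit_PUs H hp B.cp, sit_PUs H hp' B'.cp, disjoint_left]
  intro a ha ha'
  have m : y' ∈ uc a := mem_uc.2 (mem_dc.1 ha')
  rw [B.cy, mem_insert, mem_singleton] at ha
  rcases ha with rfl | rfl
  · have := B.nv y' m hne
    rw [B'.e1] at this
    omega
  · have := B.nv' y' m hne
    rw [B'.e1] at this
    omega

/-- a lower block -/
lemma blo_low (h : Okc i psi C e) {y : P} (hy : y ∈ P1L i psi e) :
    ∃ p, Blo i psi C e p y := by
  classical
  have H := F.E.H
  have hL := hypL F.G F.hT F.hQ F.E.hM h.adm.l h.adm.u h.adm.d h.core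
  unfold P1L Rd.P1s at hy
  simp only [Finset.mem_filter] at hy
  obtain ⟨hy1, hq⟩ := hy
  obtain ⟨p, v, v', B, yS, ty⟩ := p1_blk hL hy1
  rw [I2.mem_lS] at yS
  have lp := lev_uc H (show y ∈ uc p by rw [B.cp]; simp)
  have ly : lev y = i + 1 := by omega
  have cy : (uc y).card = 2 := by rw [B.cy, card_pair B.ne]
  have hp : p ∈ PD P i := mem_PD.2 ⟨by omega, by rw [B.cp]; simp, y,
    mem_uc.1 (by rw [B.cp]; simp), cy⟩
  have hpC : p ∈ C := mem_of_pos h.spt (by rw [B.e2])
  have np : ∀ z ∈ dc p, e z = 0 := by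
    intro z hz
    by_contra h0
    have lz := lev_dc H hz
    have hgu : GU e p := ⟨y, mem_uc.1 (by rw [B.cp]; simp), by rw [B.e1, B.e2]⟩
    have hle : e z ≤ e p := by
      by_contra h1
      exact h.adm.l p (by omega) ⟨⟨z, mem_dc.1 hz, by omega⟩, hgu⟩
    rw [B.e2] at hle
    apply hq z
    refine ⟨hy1, I2.mem_lS.2 (by omega), by simp only []; omega, by omega,
      ⟨p, mem_uc.2 (mem_dc.1 hz), by rw [B.cp]; simp, by rw [B.e2]⟩, ?_⟩
    intro y' hy' _ _ _ _
    exact p1u_low F hm h y hy1 y' hy'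
  have BB : PBk dc uc (laL i) y p v v' e :=
    ⟨by unfold laL; omega, B.cy, B.ne, B.cp, B.e1, B.e2, B.ev, B.ev', B.nv, B.nv', B.ny, np⟩
  obtain ⟨r1, r2, r3, r4, r5⟩ := rm_low F h BB
  refine ⟨p, mem_PN.2 ⟨hpC, Or.inl hp⟩, Or.inl ⟨by omega, ly, B.cp, cy⟩, B.e1, B.e2, ?_, ?_,
    r1, r2, ?_, r4, ?_⟩
  · intro a ha
    rw [sit_PDs H hp B.cp] at ha
    have la := lev_uc H ha
    have ea : e a = 0 := by
      rw [B.cy, mem_insert, mem_singleton] at ha
      rcases ha with rfl | rfl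
      · exact B.ev
      · exact B.ev'
    refine ⟨ea, ?_, ?_⟩
    · rw [B.cy, mem_insert, mem_singleton] at ha
      rcases ha with rfl | rfl
      · exact B.nv
      · exact B.nv'
    · intro z hz _
      by_contra h0
      have m1 : a ∈ AL i e := by
        rw [NormD_mem_AL]
        exact ⟨by omega, y, mem_uc.1 ha, by rw [B.e1, ea]; omega⟩
      have m2 : a ∈ AU i e := by
        rw [NormD_mem_AU]
        exact ⟨by omega, z, mem_uc.1 hz, by omega⟩
      exact disjoint_left.1 h.adm.d m1 m2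
  · intro z hne hz
    rcases hz with hz | hz
    · exact B.ny z hz hne
    · rw [B.cy, mem_insert, mem_singleton] at hz
      rcases hz with rfl | rfl
      · exact B.ev
      · exact B.ev'
  · rw [r3, SO.vp_PD hp, one_mul]
  · rw [SO.con_PD H (by omega : lev p = i + 2) B.cp]
    exact r5

/-- an upper block -/
lemma blo_upp (h : Okc i psi C e) {y : P} (hy : y ∈ P1U i psi e) :
    ∃ p, Blo i psi C e p y := by
  classical
  have H := F.E.H
  have hU := hypU F.G F.hT F.E.hM h.adm.l h.adm.u h.adm.d h.core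
  unfold P1U Rd.P1s at hy
  simp only [Finset.mem_filter] at hy
  obtain ⟨hy1, hq⟩ := hy
  obtain ⟨p, v, v', B, yS, ty⟩ := p1_blk hU hy1
  rw [I2.mem_uS] at yS
  have lp := lev_dc H (show y ∈ dc p by rw [B.cp]; simp)
  have ly : lev y + 1 = i := by omega
  have cy : (dc y).card = 2 := by rw [B.cy, card_pair B.ne]
  have hp : p ∈ PU P i := mem_PU.2 ⟨by omega, by rw [B.cp]; simp, y,
    mem_dc.1 (by rw [B.cp]; simp), cy⟩
  have hpC : p ∈ C := mem_of_pos h.spt (by rw [B.e2])
  have np : ∀ z ∈ uc p, e z = 0 := by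
    intro z hz
    by_contra h0
    have lz := lev_uc H hz
    have hgu : GD e p := ⟨y, mem_dc.1 (by rw [B.cp]; simp), by rw [B.e1, B.e2]⟩
    have hle : e z ≤ e p := by
      by_contra h1
      exact h.adm.u p (by omega) ⟨⟨z, mem_uc.1 hz, by omega⟩, hgu⟩
    rw [B.e2] at hle
    apply hq z
    refine ⟨hy1, I2.mem_uS.2 (by omega), by simp only []; omega, by omega,
      ⟨p, mem_dc.2 (mem_uc.1 hz), by rw [B.cp]; simp, by rw [B.e2]⟩, ?_⟩
    intro y' hy' _ _ _ _
    exact p1u_upp F hm h y hy1 y' hy'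
  have BB : PBk uc dc (laU i) y p v v' e :=
    ⟨by unfold laU; omega, B.cy, B.ne, B.cp, B.e1, B.e2, B.ev, B.ev', B.nv, B.nv', B.ny, np⟩
  obtain ⟨r1, r2, r3, r4, r5⟩ := rm_upp F h BB
  refine ⟨p, mem_PN.2 ⟨hpC, Or.inr hp⟩, Or.inr ⟨by omega, ly, B.cp, cy⟩, B.e1, B.e2, ?_, ?_,
    r1, r2, ?_, r4, ?_⟩
  · intro a ha
    rw [sit_PUs H hp B.cp] at ha
    have la := lev_dc H ha
    have ea : e a = 0 := by
      rw [B.cy, mem_insert, mem_singleton] at ha
      rcases ha with rfl | rfl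
      · exact B.ev
      · exact B.ev'
    refine ⟨ea, ?_, ?_⟩
    · intro z hz _
      by_contra h0
      have m1 : a ∈ AU i e := by
        rw [NormD_mem_AU]
        exact ⟨by omega, y, mem_dc.1 ha, by rw [B.e1, ea]; omega⟩
      have m2 : a ∈ AL i e := by
        rw [NormD_mem_AL]
        exact ⟨by omega, z, mem_dc.1 hz, by omega⟩
      exact disjoint_left.1 h.adm.d m2 m1
    · rw [B.cy, mem_insert, mem_singleton] at ha
      rcases ha with rfl | rfl
      · exact B.nv
      · exact B.nv'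
  · intro z hne hz
    rcases hz with hz | hz
    · rw [B.cy, mem_insert, mem_singleton] at hz
      rcases hz with rfl | rfl
      · exact B.ev
      · exact B.ev'
    · exact B.ny z hz hne
  · rw [r3, SO.vp_PU hp]
    ring
  · rw [SO.con_PU H (by omega : lev p + 2 = i) B.cp]
    exact r5

/-- THE BLOCK of a core with an element of `P1` -/
theorem blo_of (h : Okc i psi C e) (h1 : 0 < (P1L i psi e).card + (P1U i psi e).card) :
    ∃ p y, Blo i psi C e p y := by
  rcases Nat.eq_zero_or_pos (P1L i psi e).card with h2 | h2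
  · obtain ⟨y, hy⟩ := card_pos.1 (show 0 < (P1U i psi e).card by omega)
    obtain ⟨p, hp⟩ := blo_upp F hm h hy
    exact ⟨p, y, hp⟩
  · obtain ⟨y, hy⟩ := card_pos.1 h2
    obtain ⟨p, hp⟩ := blo_low F hm h hy
    exact ⟨p, y, hp⟩

/-- energy five with a block: a pendant and a charged element with disjoint sites -/
theorem blk_five (h : Okc i psi C e) (hE : ∑ x, e x = 5) (hk : kp i e = 2) {y : P}
    (B : Blo i psi C e p y) : ∃ z, (z, p) ∈ I5 i C ∧ e = c5 i (z, p) := by
  have H := F.E.H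
  have hir : i ≤ r := by have := F.E.hi2; omega
  have ne_yp : y ≠ p := by
    rintro rfl
    have := B.side
    omega
  have hno : ∀ p' ∈ PN i C, rm y p e p' = 0 := by
    intro p' hp'
    by_cases h1 : p' = p
    · rw [h1, rm_p]
    · have h2 : p' ≠ y := by
        rintro rfl
        obtain ⟨y', -, -, hyp⟩ := PN_cases F.E hp'
        have := B.side
        omega
      rw [rm_of h2 h1]
      exact B.alone F hm h p' hp' h1
  obtain ⟨z, hz, hez⟩ := e3_class F B.ok (by have := B.su; omega) (by have := B.kp; omega) hno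
  have hZ : lev z = i + 2 ∨ lev z + 2 = i := by
    rcases hz with hz | hz
    · exact Or.inl (mem_ZL.1 hz).2.1
    · exact Or.inr (mem_ZU.1 hz).2.1
  have hzi : lev z ≠ i := by omega
  have hyz : y ∉ con i z := by
    intro h1
    have h2 : rm y p e y = 1 := by rw [hez, on_one h1]
    rw [rm_y] at h2
    omega
  have hz1 : 1 ≤ e z := by
    have h1 : rm y p e z = 1 := by rw [hez, on_one (self_con hzi)]
    have h2 := rm_le (y := y) (p := p) (e := e) (z := z)
    omega
  have hdj := B.disj H hir h.adm hZ hz1 hyz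
  refine ⟨z, mem_I5.2 ⟨hz, B.mem, hdj⟩, ?_⟩
  have hpi : lev p ≠ i := by have := B.side; omega
  have hcd := SO.con_disj H hir hzi hpi hdj
  have h1 := B.ad
  rw [hez] at h1
  rw [h1]
  funext a
  unfold SO.c5
  rw [Pi.add_apply]
  by_cases ha : a ∈ con i z
  · rw [on_one ha, on_zero (disjoint_left.1 hcd ha), on_one (mem_union_left _ ha)]
  · by_cases hb : a ∈ con i p
    · rw [on_zero ha, on_one hb, on_one (mem_union_right _ hb)]
    · rw [on_zero ha, on_zero hb, on_zero (by simp [ha, hb])]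

end fr

end Pool.Agent.GaussPoset.Win.Pn
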