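import Pool.Agent.W_448pn_h63.PnP

/-!
# Twins and guarded pairs (MP_448cb3_co, G2, case B, window j - 1)
-/

set_option autoImplicit false

namespace Pool.Agent.GaussPoset.Win.Pn

set_option linter.unusedSectionVars false

open Finset W4
open Pool.Agent.GaussPoset.Win.Xg (Okc kp CanD laL laU Tee Exo SdO Act)
open Pool.Agent.GaussPoset.Win.Rd (P1L P1U TWL TWU GS N4L N4U Hyp hypL hypU TS)
open Pool.Agent.GaussPoset.Win.SO (con PN on mem_PN Cls BL BU nL nU mem_con self_con vp)

universe u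

variable {P : Type u} [Fintype P] [PartialOrder P] [DecidableEq P] {r i : ℕ}
variable {e f g : P → ℕ} {psi : P → P} {C K s : Finset P} {t : P → ℕ} {d x p : P}

lemma eq_of_le_sum (h1 : ∀ x, g x ≤ e x) (h2 : ∑ x, e x ≤ ∑ x, g x) : e = g := by
  have h3 : ∑ x, g x = ∑ x, e x := le_antisymm (sum_le_sum fun x _ => h1 x) h2
  funext x
  exact ((Finset.sum_eq_sum_iff_of_le (fun x _ => h1 x)).1 h3 x (mem_univ x)).symm

/-- the configuration of a pair of twins -/
noncomputable def cT (i : ℕ) (z z' : P) : P → ℕ :=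
  fun y => on (con i z ∪ con i z') y + on {z} y

/-- the configuration of two pendants with one common site -/
noncomputable def cD (i : ℕ) (p p' : P) : P → ℕ :=
  on (con i p ∪ con i p' ∪ (sit i p ∩ sit i p'))

/-- twins below the window, ordered by the numbering -/
structure Tw (i : ℕ) (C : Finset P) (z z' : P) : Prop where
  zl : z ∈ ZL i C
  mC : z' ∈ C
  ne : z ≠ z'
  uc : uc z = uc z'
  rk : Xg.rk z' < Xg.rk z

/-! ### twins -/

section tw

variable (F : Fr r i psi C)
include F

/-- the data of twins, one of them kills -/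
lemma tw_data (h : Okc i psi C e) {z : P} (hz : z ∈ TWL i e) :
    ∃ w w2 a x b z', Tee dc uc (laL i) z w w2 a x b ∧ lev z = i + 2 ∧ lev z' = i + 2 ∧
      uc z' = {w, w2} ∧ z' ≠ z ∧ dc w = {z, z'} ∧ dc w2 = {z, z'} ∧ 1 ≤ e z' ∧ 1 ≤ e w ∧
      1 ≤ e w2 ∧ 2 ≤ e z ∧ z ∈ ZL i C ∧ z' ∈ C := by
  classical
  have H := F.E.H
  have hL := hypL F.G F.hT F.hQ F.E.hM h.adm.l h.adm.u h.adm.d h.core
  obtain ⟨w, w2, a, x, b, z', T, h1, h2, h3, h4, h5, h6, h7, h8, h9⟩ := hL.tw_spec (by
    unfold TWL at hz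
    exact hz)
  have lz : lev z = i + 2 := by have := T.tz; omega
  have mw : w ∈ uc z := by rw [T.cz]; simp
  have lw := lev_uc H mw
  have lz' := lev_uc H (show w ∈ uc z' by rw [h1]; simp)
  have hsit : sts i z = {a, x, b} := by
    ext v
    rw [mem_sts_iff H lz, T.cz]
    simp only [mem_insert, mem_singleton, exists_eq_or_imp, exists_eq_left]
    rw [T.cw, T.cw2]
    simp only [mem_insert, mem_singleton]
    tauto
  refine ⟨w, w2, a, x, b, z', ⟨by unfold laL; omega, T.cz, T.cw, T.cw2, T.dx, T.ne, T.px, T.xq,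
    T.pq⟩, lz, by omega, h1, h2, h3, h4, h5, by omega, by omega, h8, ?_, mem_of_pos h.spt h5⟩
  rw [mem_ZL]
  refine ⟨mem_of_pos h.spt (by omega), lz, ?_⟩
  rw [← card_sts, hsit, card_insert_of_notMem (by simp [T.px, T.pq]), card_pair T.xq]

/-- the numbering of the twins of a core without exchangeable places -/
lemma tw_rk (hcc : Xg.CC i e = ∅) {z z' w w2 a x b : P} (T : Tee dc uc (laL i) z w w2 a x b)
    (hz' : uc z' = {w, w2}) (hne : z' ≠ z) (hw : dc w = {z, z'}) (hw2 : dc w2 = {z, z'})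
    (ez : e z = 2) (ez' : e z' = 1) (ew : e w = 1) (ew2 : e w2 = 1) (ea : e a = 0)
    (ex : e x = 0) (eb : e b = 0) (ht : ∀ t ∈ dc z, e t = 0) (hu : ∀ u ∈ uc x, e u = 0) :
    Xg.rk z' < Xg.rk z := by
  by_contra hrk
  have H := F.E.H
  have E : Exo dc uc z w w2 a x b e := by
    refine ⟨by omega, ?_, ?_, ?_, ?_, ?_⟩
    · intro t h1
      have := ht t h1
      omega
    · intro u h1
      have := hu u h1
      omega
    · right
      refine ⟨fun d hd hdz => ?_, by omega⟩
      rw [hw, mem_insert, mem_singleton] at hd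
      rcases hd with rfl | rfl
      · exact absurd rfl hdz
      · omega
    · right
      refine ⟨fun d hd hdz => ?_, by omega⟩
      rw [hw2, mem_insert, mem_singleton] at hd
      rcases hd with rfl | rfl
      · exact absurd rfl hdz
      · omega
    · left
      left
      omega
  have hc : CanD i e z x := by
    refine Or.inl ⟨w, w2, a, b, T, E, fun d hd hdr => ?_⟩
    have hdw : d ∈ dc w := mem_dc.2 (mem_uc.1 (by rw [hd]; simp))
    rw [hw, mem_insert, mem_singleton] at hdw
    rcases hdw with rfl | rfl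
    · omega
    · omega
  have := (Xg.mem_CC (i := i) (e := e) (t := (z, x)) H).2 hc
  rw [hcc] at this
  exact notMem_empty _ this

lemma cT_sum {z z' w w2 : P} (hz : lev z = i + 2) (hz2 : lev z' = i + 2) (h1 : uc z = {w, w2})
    (h2 : uc z' = {w, w2}) (hw : w ≠ w2) (hne : z' ≠ z) : ∑ y, cT i z z' y = 5 := by
  have H := F.E.H
  have lw := lev_uc H (show w ∈ uc z by rw [h1]; simp)
  have lw2 := lev_uc H (show w2 ∈ uc z by rw [h1]; simp)
  have hc : con i z ∪ con i z' = {z, z', w, w2} := by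
    rw [SO.con_two_low H hz, SO.con_two_low H hz2, h1, h2]
    ext y
    simp only [mem_union, mem_insert, mem_singleton]
    tauto
  unfold cT
  rw [sum_add_distrib, SO.on_sum, SO.on_sum, hc, card_singleton,
    card_insert_of_notMem, card_insert_of_notMem, card_pair hw]
  · simp only [mem_insert, mem_singleton]
    rintro (rfl | rfl) <;> omega
  · simp only [mem_insert, mem_singleton]
    rintro (h | rfl | rfl)
    · exact hne h.symm
    · omega
    · omega

lemma cT_le {z z' w w2 : P} (hz : lev z = i + 2) (hz2 : lev z' = i + 2) (h1 : uc z = {w, w2})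
    (h2 : uc z' = {w, w2}) (a1 : 2 ≤ e z) (a2 : 1 ≤ e z') (a3 : 1 ≤ e w) (a4 : 1 ≤ e w2)
    (y : P) : cT i z z' y ≤ e y := by
  have H := F.E.H
  unfold cT
  by_cases hy : y = z
  · subst hy
    rw [on_one (mem_union_left _ (self_con (by omega))), on_one (mem_singleton_self _)]
    omega
  · rw [on_zero (s := {z}) (by simpa using hy)]
    by_cases hy2 : y ∈ con i z ∪ con i z'
    · rw [on_one hy2]
      rw [SO.con_two_low H hz, SO.con_two_low H hz2, h1, h2] at hy2
      simp only [mem_union, mem_insert, mem_singleton] at hy2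
      rcases hy2 with (rfl | rfl | rfl) | (rfl | rfl | rfl)
      · exact absurd rfl hy
      all_goals omega
    · rw [on_zero hy2]
      omega

lemma cT_vals {z z' w w2 : P} (hz : lev z = i + 2) (hz2 : lev z' = i + 2) (h1 : uc z = {w, w2})
    (h2 : uc z' = {w, w2}) (hne : z' ≠ z) : cT i z z' z = 2 ∧ cT i z z' z' = 1 ∧
      cT i z z' w = 1 ∧ cT i z z' w2 = 1 ∧
      ∀ y, y ≠ z → y ≠ z' → y ≠ w → y ≠ w2 → cT i z z' y = 0 := by
  have H := F.E.H
  have lw := lev_uc H (show w ∈ uc z by rw [h1]; simp)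
  have lw2 := lev_uc H (show w2 ∈ uc z by rw [h1]; simp)
  have hc : con i z ∪ con i z' = {z, z', w, w2} := by
    rw [SO.con_two_low H hz, SO.con_two_low H hz2, h1, h2]
    ext y
    simp only [mem_union, mem_insert, mem_singleton]
    tauto
  unfold cT
  rw [hc]
  refine ⟨?_, ?_, ?_, ?_, ?_⟩
  · rw [on_one (by simp), on_one (by simp)]
  · rw [on_one (by simp), on_zero (by simpa using hne)]
  · rw [on_one (by simp), on_zero (by
      simp only [mem_singleton]
      rintro rfl
      omega)]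
  · rw [on_one (by simp), on_zero (by
      simp only [mem_singleton]
      rintro rfl
      omega)]
  · intro y a1 a2 a3 a4
    rw [on_zero (by simp [a1, a2, a3, a4]), on_zero (by simp [a1])]

/-- energy five with twins -/
theorem tw_five (h : Okc i psi C e) (hE : ∑ x, e x = 5) (hcc : Xg.CC i e = ∅) {z : P}
    (hz : z ∈ TWL i e) : ∃ z', Tw i C z z' ∧ e = cT i z z' := by
  have H := F.E.H
  obtain ⟨w, w2, a, x, b, z', T, lz, lz', h1, h2, h3, h4, h5, h6, h7, h8, h9, h10⟩ :=
    tw_data F h hz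
  have hs := cT_sum F lz lz' T.ud h1 T.ne h2
  have he : e = cT i z z' := eq_of_le_sum (cT_le F lz lz' T.ud h1 h8 h5 h6 h7) (by omega)
  obtain ⟨v1, v2, v3, v4, v5⟩ := cT_vals F lz lz' T.ud h1 h2
  rw [← he] at v1 v2 v3 v4 v5
  have lw := lev_uc H (show w ∈ uc z by rw [T.ud]; simp)
  have lw2 := lev_uc H (show w2 ∈ uc z by rw [T.ud]; simp)
  have la := lev_uc H (show a ∈ uc w by rw [T.uw]; simp)
  have lx := lev_uc H (show x ∈ uc w by rw [T.uw]; simp)
  have lb := lev_uc H (show b ∈ uc w2 by rw [T.uw2]; simp)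
  have hzero : ∀ y, lev y ≠ i + 1 → lev y ≠ i + 2 → e y = 0 := by
    intro y l1 l2
    apply v5
    · rintro rfl; omega
    · rintro rfl; omega
    · rintro rfl; omega
    · rintro rfl; omega
  refine ⟨z', ⟨h9, h10, h2.symm, by rw [T.ud, h1], ?_⟩, he⟩
  refine tw_rk F hcc T h1 h2 h3 h4 v1 v2 v3 v4 (hzero a (by omega) (by omega))
    (hzero x (by omega) (by omega)) (hzero b (by omega) (by omega)) ?_ ?_
  · intro t ht
    have := lev_dc H ht
    exact hzero t (by omega) (by omega)
  · intro u hu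
    have := lev_uc H hu
    exact hzero u (by omega) (by omega)

end tw

/-! ### guarded pairs -/

/-- an element which kills one site alone and is guarded by the other one -/
structure Gu (i : ℕ) (e : P → ℕ) (x y z o : P) : Prop where
  side : (lev y = i + 1 ∧ uc y = {o, x} ∧ z ∈ dc y) ∨ (lev y + 1 = i ∧ dc y = {o, x} ∧ z ∈ uc y)
  ne : o ≠ x
  ey : e y = 1
  ez : 1 ≤ e z
  iso : ∀ v, (v ∈ dc o ∨ v ∈ uc o) → v ≠ y → e v = 0

section gu

variable (F : Fr r i psi C)
include F

lemma gu_low (h : Okc i psi C e) {y x : P} (hy : y ∈ N4L i psi e) (hx : x ∈ uc y)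
    (ex : 1 ≤ e x) : ∃ z o, Gu i e x y z o := by
  classical
  have H := F.E.H
  have hL := hypL F.G F.hT F.hQ F.E.hM h.adm.l h.adm.u h.adm.d h.core
  obtain ⟨⟨ly, cy⟩, yB, -, -⟩ := Rd.mem_N4L' hy
  obtain ⟨o, x', hox, hc, e1, e2, e3, h4⟩ := hL.n4_spec (by
    unfold N4L at hy
    exact hy)
  have hxx : x = x' := by
    rw [hc, mem_insert, mem_singleton] at hx
    rcases hx with rfl | rfl
    · omega
    · rfl
  subst hxx
  obtain ⟨z, hz, hz1⟩ := hL.touch y (I2.mem_lS.2 (by omega)) (by omega) cy yB (by omega)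
  have ho := lev_uc H (show o ∈ uc y by rw [hc]; simp)
  refine ⟨z, o, Or.inl ⟨ly, hc, hz⟩, hox, e1, hz1, ?_⟩
  rintro v (hv | hv) hne
  · exact h4 v hv hne
  · by_contra h0
    have m1 : o ∈ AL i e := by
      rw [NormD_mem_AL]
      exact ⟨by omega, y, mem_uc.1 (by rw [hc]; simp), by omega⟩
    have m2 : o ∈ AU i e := by
      rw [NormD_mem_AU]
      exact ⟨by omega, v, mem_uc.1 hv, by omega⟩
    exact disjoint_left.1 h.adm.d m1 m2

lemma gu_upp (h : Okc i psi C e) {y x : P} (hy : y ∈ N4U i psi e) (hx : x ∈ dc y)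
    (ex : 1 ≤ e x) : ∃ z o, Gu i e x y z o := by
  classical
  have H := F.E.H
  have hU := hypU F.G F.hT F.E.hM h.adm.l h.adm.u h.adm.d h.core
  obtain ⟨⟨ly, cy⟩, yB, -, -⟩ := Rd.mem_N4U' hy
  obtain ⟨o, x', hox, hc, e1, e2, e3, h4⟩ := hU.n4_spec (by
    unfold N4U at hy
    exact hy)
  have hxx : x = x' := by
    rw [hc, mem_insert, mem_singleton] at hx
    rcases hx with rfl | rfl
    · omega
    · rfl
  subst hxx
  obtain ⟨z, hz, hz1⟩ := hU.touch y (I2.mem_uS.2 (by omega)) (by omega) cy yB (by omega)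
  have ho := lev_dc H (show o ∈ dc y by rw [hc]; simp)
  refine ⟨z, o, Or.inr ⟨ly, hc, hz⟩, hox, e1, hz1, ?_⟩
  rintro v (hv | hv) hne
  · by_contra h0
    have m1 : o ∈ AU i e := by
      rw [NormD_mem_AU]
      exact ⟨by omega, y, mem_dc.1 (by rw [hc]; simp), by omega⟩
    have m2 : o ∈ AL i e := by
      rw [NormD_mem_AL]
      exact ⟨by omega, v, mem_dc.1 hv, by omega⟩
    exact disjoint_left.1 h.adm.d m2 m1
  · exact h4 v hv hne

/-- the data of a guarded pair of a core without exchangeable places -/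
lemma gs_data (h : Okc i psi C e) (hcc : Xg.CC i e = ∅) (hg : 0 < (GS i psi e).card) :
    ∃ x y z o y' z' o', e x = 1 ∧ lev x = i ∧ y ≠ y' ∧ Gu i e x y z o ∧ Gu i e x y' z' o' ∧
      (z ∉ dc y' ∧ z ∉ uc y') ∧ (z' ∉ dc y ∧ z' ∉ uc y) := by
  classical
  have H := F.E.H
  obtain ⟨x, hx⟩ := card_pos.1 hg
  unfold GS at hx
  obtain ⟨hxl, ex, y, y', hne, h1, h2⟩ := mem_filter.1 hx
  rw [mem_lv] at hxl
  have ncL : ∀ a ∈ N4L i psi e, ∀ b ∈ N4L i psi e, a ≠ b → ∀ z ∈ dc a, 1 ≤ e z → z ∉ dc b := by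
    intro a ha b hb hab z hz ez hzb
    obtain ⟨q, hq⟩ := Rd.n4L_child F.G F.hT F.hQ F.E.hM h.adm.l h.adm.u h.adm.d h.core ha hb hab
      hz hzb ez
    rw [hcc] at hq
    exact notMem_empty _ hq
  have ncU : ∀ a ∈ N4U i psi e, ∀ b ∈ N4U i psi e, a ≠ b → ∀ z ∈ uc a, 1 ≤ e z → z ∉ uc b := by
    intro a ha b hb hab z hz ez hzb
    obtain ⟨q, hq⟩ := Rd.n4U_child F.G F.hT F.hQ F.E.hM h.adm.l h.adm.u h.adm.d h.core ha hb hab
      hz hzb ez
    rw [hcc] at hq
    exact notMem_empty _ hq
  have main : ∀ a b, a ≠ b → ((a ∈ N4L i psi e ∧ x ∈ uc a) ∨ (a ∈ N4U i psi e ∧ x ∈ dc a)) →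
      ((b ∈ N4L i psi e ∧ x ∈ uc b) ∨ (b ∈ N4U i psi e ∧ x ∈ dc b)) →
      ∃ z o, Gu i e x a z o ∧ z ∉ dc b ∧ z ∉ uc b := by
    intro a b hab ha hb
    rcases ha with ⟨ha, hxa⟩ | ⟨ha, hxa⟩
    · obtain ⟨z, o, G⟩ := gu_low F h ha hxa (by omega)
      have la := (Rd.mem_N4L' ha).1.1
      have hz : z ∈ dc a := by
        rcases G.side with g | g
        · exact g.2.2
        · omega
      have lz := lev_dc H hz
      refine ⟨z, o, G, ?_, ?_⟩
      · intro hzb
        have lb := lev_dc H hzb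
        rcases hb with ⟨hb, -⟩ | ⟨hb, -⟩
        · exact ncL a ha b hb hab z hz G.ez hzb
        · have := (Rd.mem_N4U' hb).1.1
          omega
      · intro hzb
        have lb := lev_uc H hzb
        rcases hb with ⟨hb, -⟩ | ⟨hb, -⟩
        · have := (Rd.mem_N4L' hb).1.1
          omega
        · have := (Rd.mem_N4U' hb).1.1
          omega
    · obtain ⟨z, o, G⟩ := gu_upp F h ha hxa (by omega)
      have la := (Rd.mem_N4U' ha).1.1
      have hz : z ∈ uc a := by
        rcases G.side with g | g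
        · omega
        · exact g.2.2
      have lz := lev_uc H hz
      refine ⟨z, o, G, ?_, ?_⟩
      · intro hzb
        have lb := lev_dc H hzb
        rcases hb with ⟨hb, -⟩ | ⟨hb, -⟩
        · have := (Rd.mem_N4L' hb).1.1
          omega
        · have := (Rd.mem_N4U' hb).1.1
          omega
      · intro hzb
        have lb := lev_uc H hzb
        rcases hb with ⟨hb, -⟩ | ⟨hb, -⟩
        · have := (Rd.mem_N4L' hb).1.1
          omega
        · exact ncU a ha b hb hab z hz G.ez hzb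
  obtain ⟨z, o, G1, k1, k2⟩ := main y y' hne h1 h2
  obtain ⟨z', o', G2, k3, k4⟩ := main y' y hne.symm h2 h1
  exact ⟨x, y, z, o, y', z', o', ex, hxl, hne, G1, G2, ⟨k1, k2⟩, ⟨k3, k4⟩⟩

omit F in
lemma Gu.levs (H : Gr P r) {x y z o : P} (G : Gu i e x y z o) :
    lev x = i ∧ ((lev y = i + 1 ∧ lev z = i + 2) ∨ (lev y + 1 = i ∧ lev z + 2 = i)) := by
  rcases G.side with ⟨h1, h2, h3⟩ | ⟨h1, h2, h3⟩
  · have := lev_uc H (show x ∈ uc y by rw [h2]; simp)
    have := lev_dc H h3
    omega
  · have := lev_dc H (show x ∈ dc y by rw [h2]; simp)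
    have := lev_uc H h3
    omega

/-- the child of a guarded element is a pendant if its other covers are not excited -/
lemma Gu.pen (h : Okc i psi C e) {x y z o : P} (G : Gu i e x y z o)
    (hn : ∀ w, 1 ≤ e w → (z ∈ dc w ∨ z ∈ uc w) → (lev w = i + 1 ∨ lev w + 1 = i) → w = y) :
    z ∈ PN i C ∧ con i z = {z, y} ∧ sit i z = {o, x} := by
  have H := F.E.H
  have hir : i ≤ r := by have := F.E.hi2; omega
  have hzC := mem_of_pos h.spt G.ez
  rcases G.side with ⟨h1, h2, h3⟩ | ⟨h1, h2, h3⟩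
  · have lz := lev_dc H h3
    have hyz : y ∈ uc z := mem_uc.2 (mem_dc.1 h3)
    have hc : uc z = {y} := by
      ext w
      rw [mem_singleton]
      constructor
      · intro hw
        have lw := lev_uc H hw
        have ew := pos_low H h.adm.l hw (by omega) G.ez
        exact hn w ew (Or.inl (mem_dc.2 (mem_uc.1 hw))) (Or.inl (by omega))
      · rintro rfl
        exact hyz
    have hp : z ∈ PD P i := mem_PD.2 ⟨by omega, by rw [hc, card_singleton], y, mem_uc.1 hyz,
      by rw [h2, card_pair G.ne]⟩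
    exact ⟨mem_PN.2 ⟨hzC, Or.inl hp⟩, SO.con_PD H (by omega) hc, by rw [sit_PDs H hp hc, h2]⟩
  · have lz := lev_uc H h3
    have hyz : y ∈ dc z := mem_dc.2 (mem_uc.1 h3)
    have hc : dc z = {y} := by
      ext w
      rw [mem_singleton]
      constructor
      · intro hw
        have lw := lev_dc H hw
        have ew := pos_upp H hir h.adm.u hw (by omega) G.ez
        exact hn w ew (Or.inr (mem_uc.2 (mem_dc.1 hw))) (Or.inr (by omega))
      · rintro rfl
        exact hyz
    have hp : z ∈ PU P i := mem_PU.2 ⟨by omega, by rw [hc, card_singleton], y, mem_dc.1 hyz,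
      by rw [h2, card_pair G.ne]⟩
    exact ⟨mem_PN.2 ⟨hzC, Or.inr hp⟩, SO.con_PU H (by omega) hc, by rw [sit_PUs H hp hc, h2]⟩

/-- energy five with a guarded pair: two pendants with exactly one common site -/
theorem gs_five (h : Okc i psi C e) (hE : ∑ x, e x = 5) (hcc : Xg.CC i e = ∅)
    (hg : 0 < (GS i psi e).card) : ∃ p ∈ PN i C, ∃ p' ∈ PN i C, p ≠ p' ∧
      (sit i p ∩ sit i p').card = 1 ∧ e = cD i p p' := by
  have H := F.E.H
  obtain ⟨x, y, z, o, y', z', o', ex, lx, hne, G, G', ⟨n1, n2⟩, ⟨n3, n4⟩⟩ := gs_data F h hcc hg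
  obtain ⟨-, L⟩ := G.levs H
  obtain ⟨-, L'⟩ := G'.levs H
  have hzz : z ≠ z' := by
    rintro rfl
    rcases G'.side with g | g
    · exact n1 g.2.2
    · exact n2 g.2.2
  have hyz' : y ≠ z' := by rintro rfl; omega
  have hyz : y ≠ z := by rintro rfl; omega
  have hy'z : y' ≠ z := by rintro rfl; omega
  have hy'z' : y' ≠ z' := by rintro rfl; omega
  have he : e = on {x, y, y', z, z'} := by
    apply eq_on
    · intro a ha
      simp only [mem_insert, mem_singleton] at ha
      rcases ha with rfl | rfl | rfl | rfl | rfl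
      · omega
      · have := G.ey; omega
      · have := G'.ey; omega
      · exact G.ez
      · exact G'.ez
    · rw [card_insert_of_notMem, card_insert_of_notMem, card_insert_of_notMem, card_pair hzz, hE]
      · simp [hy'z, hy'z']
      · simp [hne, hyz, hyz']
      · simp only [mem_insert, mem_singleton]
        rintro (rfl | rfl | rfl | rfl) <;> omega
  have hmem : ∀ w, 1 ≤ e w → (lev w = i + 1 ∨ lev w + 1 = i) → w = y ∨ w = y' := by
    intro w hw hl
    rw [he] at hw
    have := on_pos.1 hw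
    simp only [mem_insert, mem_singleton] at this
    rcases this with rfl | rfl | rfl | rfl | rfl
    · omega
    · exact Or.inl rfl
    · exact Or.inr rfl
    · omega
    · omega
  obtain ⟨a1, a2, a3⟩ := G.pen F h (fun w hw hzw hl => by
    rcases hmem w hw hl with h1 | h1
    · exact h1
    · exfalso
      rw [h1] at hzw
      rcases hzw with h2 | h2
      · exact n1 h2
      · exact n2 h2)
  obtain ⟨b1, b2, b3⟩ := G'.pen F h (fun w hw hzw hl => by
    rcases hmem w hw hl with h1 | h1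
    · exfalso
      rw [h1] at hzw
      rcases hzw with h2 | h2
      · exact n3 h2
      · exact n4 h2
    · exact h1)
  have hoo : o ≠ o' := by
    rintro rfl
    have h1 : y' ∈ dc o ∨ y' ∈ uc o := by
      rcases G'.side with g | g
      · exact Or.inl (mem_dc.2 (mem_uc.1 (by rw [g.2.1]; simp)))
      · exact Or.inr (mem_uc.2 (mem_dc.1 (by rw [g.2.1]; simp)))
    have := G.iso y' h1 hne.symm
    have := G'.ey
    omega
  have hint : sit i z ∩ sit i z' = {x} := by
    rw [a3, b3]
    ext a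
    simp only [mem_inter, mem_insert, mem_singleton]
    constructor
    · rintro ⟨h1 | h1, h2 | h2⟩
      · exact absurd (h1.symm.trans h2) hoo
      · exact h2
      · exact h1
      · exact h1
    · rintro rfl
      exact ⟨Or.inr rfl, Or.inr rfl⟩
  refine ⟨z, a1, z', b1, hzz, by rw [hint, card_singleton], ?_⟩
  rw [he]
  unfold cD
  rw [hint, a2, b2]
  congr 1
  ext a
  simp only [mem_union, mem_insert, mem_singleton]
  tauto

end gu

end Pool.Agent.GaussPoset.Win.Pn
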