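import Pool.Agent.W_448pn_h63.PnQ

/-!
# The tight cores of energy five (MP_448cb3_co, G2, case B, window j - 1)
-/

set_option autoImplicit false

namespace Pool.Agent.GaussPoset.Win.Pn

set_option linter.unusedSectionVars false

open Finset W4
open Pool.Agent.GaussPoset.Win.H2 (NoT)
open Pool.Agent.GaussPoset.Win.Xg (Okc kp CanD laL laU Tee Exo SdO Act)
open Pool.Agent.GaussPoset.Win.Rd (P1L P1U TWL TWU GS N4L N4U Hyp hypL hypU TS)
open Pool.Agent.GaussPoset.Win.I2 (lS uS mem_lS mem_uS)
open Pool.Agent.GaussPoset.Win.SO (con PN on mem_PN Cls BL BU nL nU mem_con self_con vp I5 mem_I5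
  c5 TD tL tU)

universe u

variable {P : Type u} [Fintype P] [PartialOrder P] [DecidableEq P] {r i : ℕ}
variable {e f g : P → ℕ} {psi : P → P} {C K s : Finset P} {t : P → ℕ} {d x p : P}

section conv

variable (F : Fr r i psi C)
include F

/-- a core with a nonzero leading coefficient is tight -/
theorem of_coeff (hs : Spt C e) (hc : IsCore i ∅ psi e) {k : ℕ} {c : ℤ}
    (hE : ∑ x, e x ≤ 2 * k + 1)
    (hcf : PowerSeries.coeff (st i C).card (dd ^ k * tC i C e : A) = c) (h0 : c ≠ 0) :
    Okc i psi C e ∧ kp i e = k ∧ sgn i e = c := by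
  have H := F.E.H
  have ha : Xg.Adm i e := by
    by_contra hna
    have h1 : tC i C e = 0 := by
      unfold tC
      split_ifs with hd
      · have h2 : ¬ (AdmL i e ∧ AdmU i e) := fun h => hna ⟨h.1, h.2, hd⟩
        unfold cw
        rw [if_neg h2]
        ring
      · rfl
    rw [h1, mul_zero, map_zero] at hcf
    exact h0 hcf.symm
  have hok : Okc i psi C e := ⟨hs, hc, ha⟩
  have h1 := F.half hok
  have h2 : (∑ x, (e x : ℤ)) ≤ 2 * k + 1 := by exact_mod_cast hE
  have h3 : kp i e = k := by
    by_contra hne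
    have hlt : kp i e < k := by omega
    have hle : (AL i e).card + (AU i e).card ≤ (st i C).card := by
      rw [← card_union_of_disjoint ha.d]
      exact card_le_card (union_subset (AL_sub F.E.part hs) (AU_sub H F.E.part hs))
    rw [tC_form ha, ← mul_assoc, ← pow_add] at hcf
    unfold dd at hcf
    rw [PowerSeries.coeff_X_pow_mul', if_neg (by unfold kp at hlt; omega)] at hcf
    exact h0 hcf.symm
  exact ⟨hok, h3, by rw [← lead H F.E.part hs ha h3, hcf]⟩

omit F in
/-- near elements above a far one are touched -/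
lemma con_touch (H : Gr P r) {z : P} (hz : lev z = i + 2 ∨ lev z + 2 = i) {y : P}
    (hy : y ∈ con i z) : (lev y = i + 1 → z ⋖ y) ∧ (lev y + 1 = i → y ⋖ z) := by
  rcases hz with hz | hz
  · rw [SO.con_two_low H hz, mem_insert] at hy
    rcases hy with rfl | hy
    · exact ⟨fun h => by omega, fun h => by omega⟩
    · have := lev_uc H hy
      exact ⟨fun _ => mem_uc.1 hy, fun h => by omega⟩
  · rw [SO.con_two_upp H hz, mem_insert] at hy
    rcases hy with rfl | hy
    · exact ⟨fun h => by omega, fun h => by omega⟩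
    · have := lev_dc H hy
      exact ⟨fun h => by omega, fun _ => mem_dc.1 hy⟩

lemma pn_lev (hp : p ∈ PN i C) : lev p = i + 2 ∨ lev p + 2 = i := by
  obtain ⟨y, -, -, h⟩ := PN_cases F.E hp
  rcases h with h | h
  · exact Or.inl h.1
  · exact Or.inr h.1

/-- a pair of a charged element and a pendant -/
theorem c5_ok {q : P × P} (hq : q ∈ I5 i C) : Okc i psi C (c5 i q) ∧ kp i (c5 i q) = 2 ∧
    sgn i (c5 i q) = chg i C q.1 * vp i q.2 ∧ Xg.CC i (c5 i q) = ∅ ∧ ∑ x, c5 i q x = 5 := by
  have H := F.E.H
  obtain ⟨h1, h2, h3⟩ := mem_I5.1 hq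
  obtain ⟨v1, v2⟩ := SO.I5_value H F.E.hi F.E.hi2 F.E.hC hq
  have hz : lev q.1 = i + 2 ∨ lev q.1 + 2 = i := by
    rcases h1 with h1 | h1
    · exact Or.inl (mem_ZL.1 h1).2.1
    · exact Or.inr (mem_ZU.1 h1).2.1
  have hp := pn_lev F h2
  have hcore : IsCore i ∅ psi (c5 i q) := by
    unfold SO.c5
    apply core_on
    intro y hy
    rcases mem_union.1 hy with hy | hy
    · have := con_touch H hz hy
      exact ⟨fun h => ⟨q.1, mem_union_left _ (self_con (by omega)), this.1 h⟩,
        fun h => ⟨q.1, mem_union_left _ (self_con (by omega)), this.2 h⟩⟩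
    · have := con_touch H hp hy
      exact ⟨fun h => ⟨q.2, mem_union_right _ (self_con (by omega)), this.1 h⟩,
        fun h => ⟨q.2, mem_union_right _ (self_con (by omega)), this.2 h⟩⟩
  have h4 : chg i C q.1 ≠ 0 := by unfold chg; split_ifs <;> norm_num
  have h5 : vp i q.2 ≠ 0 := by unfold SO.vp; split_ifs <;> norm_num
  obtain ⟨o1, o2, o3⟩ := of_coeff F (k := 2) (SO.c5_spt H F.E.hC hq) hcore (by omega) v2
    (mul_ne_zero h4 h5)
  refine ⟨o1, o2, o3, ?_, v1⟩
  unfold SO.c5
  apply cc_on F.E
  have c1 := SO.con_cls H (z := q.1) (i := i) (by omega)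
  have c2 := SO.con_cls H (z := q.2) (i := i) (by omega)
  constructor
  · intro x hx
    rcases mem_union.1 hx with hx | hx
    · exact c1.ns x hx
    · exact c2.ns x hx
  · intro x hx hl y hy
    rcases mem_union.1 hx with hx | hx
    · exact mem_union_left _ (c1.lo x hx hl y hy)
    · exact mem_union_right _ (c2.lo x hx hl y hy)
  · intro x hx hl y hy
    rcases mem_union.1 hx with hx | hx
    · exact mem_union_left _ (c1.up x hx hl y hy)
    · exact mem_union_right _ (c2.up x hx hl y hy)

/-! ### twins -/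

/-- the elements with three sites -/
lemma zl_td {z : P} (hz : z ∈ ZL i C) :
    ∃ x x' s, TD uc (tL (P := P) i) (lS P i) z x x' s := by
  have H := F.E.H
  obtain ⟨h1, h2, h3⟩ := mem_ZL.1 hz
  obtain ⟨x, x', hne, hc⟩ := card_eq_two.1 (card_uc_of_up H h2 h3)
  have hu : (uc x ∪ uc x').card = 3 := by
    rw [← card_sts] at h3
    rw [← h3]
    congr 1
    ext v
    rw [mem_sts_iff H h2, mem_union, hc]
    simp
  have hi1 := card_union_add_card_inter (uc x) (uc x')
  have c1 := uc_card_le H x
  have c2 := uc_card_le H x'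
  have hI : 1 ≤ (uc x ∩ uc x').card := by
    rw [Nat.one_le_iff_ne_zero, card_ne_zero]
    by_cases h4 : (uc x).card = 2
    · obtain ⟨a, ha, hb⟩ := F.hT z h2 x (by rw [hc]; simp) x' (by rw [hc]; simp) hne h4
      exact ⟨a, mem_inter.2 ⟨ha, hb⟩⟩
    · obtain ⟨a, ha, hb⟩ := F.hT z h2 x' (by rw [hc]; simp) x (by rw [hc]; simp) hne.symm
        (by omega)
      exact ⟨a, mem_inter.2 ⟨hb, ha⟩⟩
  obtain ⟨s, hs⟩ := card_eq_one.1 (show (uc x ∩ uc x').card = 1 by omega)
  have hs' : s ∈ uc x ∩ uc x' := by rw [hs]; simp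
  rw [mem_inter] at hs'
  refine ⟨x, x', s, ⟨mem_lS.2 (by omega), by unfold SO.tL; omega, hc, hne, by omega, by omega,
    hs'.1, hs'.2, ?_⟩⟩
  intro v hv hv'
  have : v ∈ uc x ∩ uc x' := mem_inter.2 ⟨hv, hv'⟩
  rw [hs, mem_singleton] at this
  exact this

/-- the data of a pair of twins -/
lemma twd {z z' : P} (T : Tw i C z z') : ∃ x x' s,
    TD uc (tL (P := P) i) (lS P i) z x x' s ∧ TD uc (tL (P := P) i) (lS P i) z' x x' s ∧
      lev z = i + 2 ∧ lev z' = i + 2 ∧ lev x = i + 1 ∧ lev x' = i + 1 := by
  have H := F.E.H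
  obtain ⟨x, x', s, D⟩ := zl_td F T.zl
  have lz := (mem_ZL.1 T.zl).2.1
  have mx : x ∈ uc z := by rw [D.cw]; simp
  have mx' : x' ∈ uc z := by rw [D.cw]; simp
  have l1 := lev_uc H mx
  have l2 := lev_uc H mx'
  have l3 := lev_uc H (show x ∈ uc z' by rw [← T.uc]; exact mx)
  exact ⟨x, x', s, D, ⟨mem_lS.2 (by omega), by unfold SO.tL; omega, by rw [← T.uc, D.cw], D.ne,
    D.cx, D.cx', D.sx, D.sx', D.only⟩, lz, by omega, by omega, by omega⟩

omit F in
lemma cT_spt (H : Gr P r) (hC : Part (i + 1) C) {z z' : P} (hz : z ∈ C) (hz' : z' ∈ C)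
    (l1 : lev z = i + 2) (l2 : lev z' = i + 2) : Spt C (cT i z z') := by
  intro y hy
  unfold cT
  rw [on_zero, on_zero]
  · rw [mem_singleton]
    rintro rfl
    exact hy hz
  · intro h
    rcases mem_union.1 h with h | h
    · exact hy (SO.con_sub H hC hz (by omega) h)
    · exact hy (SO.con_sub H hC hz' (by omega) h)

/-- a pair of twins -/
theorem tw_ok {z z' : P} (T : Tw i C z z') : Okc i psi C (cT i z z') ∧
    kp i (cT i z z') = 2 ∧ sgn i (cT i z z') = -1 ∧ Xg.CC i (cT i z z') = ∅ ∧
    ∑ x, cT i z z' x = 5 := by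
  have H := F.E.H
  obtain ⟨x, x', s, D, D', lz, lz', lx, lx'⟩ := twd F T
  obtain ⟨v1, v2, v3, v4, v5⟩ := cT_vals F lz lz' D.cw D'.cw T.ne.symm
  have hsp := cT_spt H F.E.hC (mem_ZL.1 T.zl).1 T.mC lz lz'
  have hlab : ∀ y, cT i z z' y = if y = z then 2 else if y = z' ∨ y = x ∨ y = x' then 1 else 0 := by
    intro y
    split_ifs with h1 h2
    · rw [h1, v1]
    · rcases h2 with rfl | rfl | rfl <;> assumption
    · push Not at h2
      exact v5 y h1 h2.1 h2.2.1 h2.2.2
  obtain ⟨g1, g2, g3, g4, -, g5⟩ := SO.clo_coeff H F.E.hi F.E.hi2 F.E.hC hsp D D' T.ne hlab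
  have hcore : IsCore i ∅ psi (cT i z z') := by
    intro y hy
    by_contra h0
    obtain ⟨h1, h2, h3, -⟩ := mem_Rst.1 hy
    apply h3
    rw [mem_Tch]
    have hyx : y = x ∨ y = x' := by
      by_contra hne
      push Not at hne
      rcases mem_near.1 h1 with h4 | h4
      · exact h0 (v5 y (by rintro rfl; omega) (by rintro rfl; omega) hne.1 hne.2)
      · exact h0 (v5 y (by rintro rfl; omega) (by rintro rfl; omega) hne.1 hne.2)
    rcases hyx with rfl | rfl
    · exact Or.inl ⟨lx, z, mem_uc.1 (by rw [D.cw]; simp), by omega⟩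
    · exact Or.inl ⟨lx', z, mem_uc.1 (by rw [D.cw]; simp), by omega⟩
  obtain ⟨o1, o2, o3⟩ := of_coeff F (k := 2) hsp hcore (by omega) g5 (by norm_num)
  refine ⟨o1, o2, o3, ?_, g4⟩
  rw [eq_empty_iff_forall_notMem]
  rintro ⟨d, v⟩ hdx
  have hc : CanD i (cT i z z') d v := (Xg.mem_CC H).1 hdx
  have hl := hc.lvl H
  have hv : cT i z z' v = 0 := by
    apply v5 <;> rintro rfl <;> omega
  rcases hc with ⟨w, w2, p, q, T', Ex, hrk⟩ | ⟨w, w2, p, q, T', Ex, -⟩
  · have ld : lev d = i + 2 := by
      have := T'.ld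
      unfold laL at this
      omega
    have hd : d = z ∨ d = z' := by
      by_contra hne
      push Not at hne
      have := Ex.pos
      rw [v5 d hne.1 hne.2 (by rintro rfl; omega) (by rintro rfl; omega)] at this
      omega
    rcases hd with rfl | rfl
    · have := hrk z' (by rw [← T.uc, T'.ud]) T.rk
      omega
    · have hww : ({w, w2} : Finset P) = {x, x'} := by rw [← T'.ud, ← T.uc, D.cw]
      have hw : cT i z d w = 1 := by
        have : w ∈ ({x, x'} : Finset P) := by rw [← hww]; simp
        rw [mem_insert, mem_singleton] at this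
        rcases this with rfl | rfl <;> assumption
      have hw2 : cT i z d w2 = 1 := by
        have : w2 ∈ ({x, x'} : Finset P) := by rw [← hww]; simp
        rw [mem_insert, mem_singleton] at this
        rcases this with rfl | rfl <;> assumption
      rcases Ex.act with (h | h) | (h | h) <;> omega
  · have ld : lev d + 2 = i := by
      have := T'.ld
      unfold laU at this
      omega
    have := Ex.pos
    rw [v5 d (by rintro rfl; omega) (by rintro rfl; omega) (by rintro rfl; omega)
      (by rintro rfl; omega)] at this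
    omega

/-! ### pendants with one common site -/

/-- the lower side of a pendant block -/
lemma pn_low (hp : p ∈ PN i C) {a : P} (ha : lev a = i) :
    (∃ x ∈ con i p, x ⋖ a) ↔ (p ∈ PD P i ∧ a ∈ sit i p) := by
  have H := F.E.H
  obtain ⟨y, hc, hne, h⟩ := PN_cases F.E hp
  rw [hc]
  simp only [mem_insert, mem_singleton, exists_eq_or_imp, exists_eq_left]
  rcases h with ⟨l1, l2, h1, h2, h3⟩ | ⟨l1, l2, h1, h2, h3⟩
  · rw [sit_PDs H h3 h1, mem_uc]
    constructor
    · rintro (h | h)
      · have := lev_cov H h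
        omega
      · exact ⟨h3, h⟩
    · exact fun h => Or.inr h.2
  · constructor
    · rintro (h | h)
      · have := lev_cov H h
        omega
      · have := lev_cov H h
        omega
    · rintro ⟨h, -⟩
      have := (mem_PD.1 h).1
      omega

/-- the upper side of a pendant block -/
lemma pn_upp (hp : p ∈ PN i C) {a : P} (ha : lev a = i) :
    (∃ x ∈ con i p, a ⋖ x) ↔ (p ∉ PD P i ∧ a ∈ sit i p) := by
  have H := F.E.H
  obtain ⟨y, hc, hne, h⟩ := PN_cases F.E hp
  rw [hc]
  simp only [mem_insert, mem_singleton, exists_eq_or_imp, exists_eq_left]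
  rcases h with ⟨l1, l2, h1, h2, h3⟩ | ⟨l1, l2, h1, h2, h3⟩
  · constructor
    · rintro (h | h)
      · have := lev_cov H h
        omega
      · have := lev_cov H h
        omega
    · rintro ⟨h, -⟩
      exact absurd h3 h
  · have hnd : p ∉ PD P i := by
      intro h
      have := (mem_PD.1 h).1
      omega
    rw [sit_PUs H h3 h1, mem_dc]
    constructor
    · rintro (h | h)
      · have := lev_cov H h
        omega
      · exact ⟨hnd, h⟩
    · exact fun h => Or.inr h.2

lemma pn_two (hp : p ∈ PN i C) : (sit i p).card = 2 ∧ ∀ a ∈ sit i p, lev a = i := by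
  have H := F.E.H
  obtain ⟨y, hc, hne, h⟩ := PN_cases F.E hp
  rcases h with ⟨l1, l2, h1, h2, h3⟩ | ⟨l1, l2, h1, h2, h3⟩
  · rw [sit_PDs H h3 h1]
    refine ⟨h2, fun a ha => ?_⟩
    have := lev_uc H ha
    omega
  · rw [sit_PUs H h3 h1]
    refine ⟨h2, fun a ha => ?_⟩
    have := lev_dc H ha
    omega

/-- the near element of a pendant is next to all its sites -/
lemma pn_near (hp : p ∈ PN i C) {x : P} (hx : x ∈ con i p) {a : P} (ha : a ∈ sit i p) :
    (lev x = i + 1 → x ⋖ a) ∧ (lev x + 1 = i → a ⋖ x) := by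
  have H := F.E.H
  obtain ⟨y, hc, hne, h⟩ := PN_cases F.E hp
  rw [hc, mem_insert, mem_singleton] at hx
  rcases h with ⟨l1, l2, h1, h2, h3⟩ | ⟨l1, l2, h1, h2, h3⟩
  · rw [sit_PDs H h3 h1, mem_uc] at ha
    rcases hx with rfl | rfl
    · exact ⟨fun h => by omega, fun h => by omega⟩
    · exact ⟨fun _ => ha, fun h => by omega⟩
  · rw [sit_PUs H h3 h1, mem_dc] at ha
    rcases hx with rfl | rfl
    · exact ⟨fun h => by omega, fun h => by omega⟩
    · exact ⟨fun h => by omega, fun _ => ha⟩

/-- two pendants with exactly one common site -/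
theorem cD_ok {p' : P} (hp : p ∈ PN i C) (hp' : p' ∈ PN i C) (hne : p ≠ p')
    (h1 : (sit i p ∩ sit i p').card = 1) : Okc i psi C (cD i p p') ∧
    kp i (cD i p p') = 2 ∧ sgn i (cD i p p') = vp i p * vp i p' ∧ Xg.CC i (cD i p p') = ∅ ∧
    ∑ x, cD i p p' x = 5 := by
  classical
  have H := F.E.H
  have hC := F.E.hC
  obtain ⟨v, hv⟩ := card_eq_one.1 h1
  obtain ⟨c1, k1⟩ := pn_two F hp
  obtain ⟨c2, k2⟩ := pn_two F hp'
  have hvm : v ∈ sit i p ∩ sit i p' := by rw [hv]; simp
  obtain ⟨hv1, hv2⟩ := mem_inter.1 hvm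
  have lv' := k1 v hv1
  obtain ⟨y, hc, hny, hy⟩ := PN_cases F.E hp
  obtain ⟨y', hc', hny', hy'⟩ := PN_cases F.E hp'
  have hyy : y ≠ y' := by
    rintro rfl
    rcases hy with ⟨a1, a2, a3, a4, a5⟩ | ⟨a1, a2, a3, a4, a5⟩
    · rcases hy' with ⟨b1, b2, b3, b4, b5⟩ | ⟨b1, b2, b3, b4, b5⟩
      · rw [sit_PDs H a5 a3, sit_PDs H b5 b3, inter_self] at h1
        omega
      · omega
    · rcases hy' with ⟨b1, b2, b3, b4, b5⟩ | ⟨b1, b2, b3, b4, b5⟩
      · omega
      · rw [sit_PUs H a5 a3, sit_PUs H b5 b3, inter_self] at h1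
        omega
  set s : Finset P := con i p ∪ con i p' ∪ (sit i p ∩ sit i p') with hsdef
  have hse : s = {p, y, p', y', v} := by
    rw [hsdef, hc, hc', hv]
    ext a
    simp only [mem_union, mem_insert, mem_singleton]
    tauto
  have hlp := pn_lev F hp
  have hlp' := pn_lev F hp'
  have hly : lev y = i + 1 ∨ lev y + 1 = i := by
    rcases hy with h | h
    · exact Or.inl h.2.1
    · exact Or.inr h.2.1
  have hly' : lev y' = i + 1 ∨ lev y' + 1 = i := by
    rcases hy' with h | h
    · exact Or.inl h.2.1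
    · exact Or.inr h.2.1
  have hcard : s.card = 5 := by
    rw [hse, card_insert_of_notMem, card_insert_of_notMem, card_insert_of_notMem, card_pair]
    · rintro rfl; omega
    · simp only [mem_insert, mem_singleton]
      rintro (rfl | rfl)
      · exact hny' rfl
      · omega
    · simp only [mem_insert, mem_singleton]
      rintro (rfl | rfl | rfl)
      · omega
      · exact hyy rfl
      · omega
    · simp only [mem_insert, mem_singleton]
      rintro (rfl | rfl | rfl | rfl)
      · exact hny rfl
      · exact hne rfl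
      · omega
      · omega
  have hsC : s ⊆ C := by
    intro a ha
    rcases mem_union.1 ha with ha | ha
    · rcases mem_union.1 ha with ha | ha
      · exact SO.con_sub H hC (mem_PN.1 hp).1 (by omega) ha
      · exact SO.con_sub H hC (mem_PN.1 hp').1 (by omega) ha
    · have := SO.sit_part H hC (mem_PN.1 hp).1 (mem_inter.1 ha).1
      exact (mem_st.1 this).1
  have hcls : ClsS i s := by
    have q1 := SO.con_cls H (z := p) (i := i) (by omega)
    have q2 := SO.con_cls H (z := p') (i := i) (by omega)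
    constructor
    · intro x hx hl w hw
      rcases mem_union.1 hx with hx | hx
      · rcases mem_union.1 hx with hx | hx
        · exact mem_union_left _ (mem_union_left _ (q1.lo x hx hl w hw))
        · exact mem_union_left _ (mem_union_right _ (q2.lo x hx hl w hw))
      · have := k1 x (mem_inter.1 hx).1
        omega
    · intro x hx hl w hw
      rcases mem_union.1 hx with hx | hx
      · rcases mem_union.1 hx with hx | hx
        · exact mem_union_left _ (mem_union_left _ (q1.up x hx hl w hw))
        · exact mem_union_left _ (mem_union_right _ (q2.up x hx hl w hw))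
      · have := k1 x (mem_inter.1 hx).1
        omega
  have hsite : ∀ a, lev a = i → (a ∈ s ↔ a ∈ sit i p ∩ sit i p') := by
    intro a ha
    constructor
    · intro h
      rcases mem_union.1 h with h | h
      · exfalso
        rcases mem_union.1 h with h | h
        · exact (SO.con_cls H (z := p) (i := i) (by omega)).ns a h ha
        · exact (SO.con_cls H (z := p') (i := i) (by omega)).ns a h ha
      · exact h
    · exact fun h => mem_union_right _ h
  -- the killed sites
  have hkL : kLs i s = (if p ∈ PD P i then sit i p \ sit i p' else ∅) ∪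
      (if p' ∈ PD P i then sit i p' \ sit i p else ∅) := by
    ext a
    rw [mem_kLs]
    constructor
    · rintro ⟨la, hns, x, hx, hxa⟩
      rw [hsite a la, mem_inter] at hns
      rcases mem_union.1 hx with hx | hx
      · rcases mem_union.1 hx with hx | hx
        · obtain ⟨g1, g2⟩ := (pn_low F hp la).1 ⟨x, hx, hxa⟩
          rw [if_pos g1]
          exact mem_union_left _ (mem_sdiff.2 ⟨g2, fun h => hns ⟨g2, h⟩⟩)
        · obtain ⟨g1, g2⟩ := (pn_low F hp' la).1 ⟨x, hx, hxa⟩
          rw [if_pos g1]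
          exact mem_union_right _ (mem_sdiff.2 ⟨g2, fun h => hns ⟨h, g2⟩⟩)
      · have := k1 x (mem_inter.1 hx).1
        have := lev_cov H hxa
        omega
    · intro h
      rcases mem_union.1 h with h | h
      · split_ifs at h with g
        · obtain ⟨h2, h3⟩ := mem_sdiff.1 h
          have la := k1 a h2
          obtain ⟨x, hx, hxa⟩ := (pn_low F hp la).2 ⟨g, h2⟩
          exact ⟨la, fun h4 => h3 (mem_inter.1 ((hsite a la).1 h4)).2, x,
            mem_union_left _ (mem_union_left _ hx), hxa⟩
        · exact absurd h (notMem_empty _)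
      · split_ifs at h with g
        · obtain ⟨h2, h3⟩ := mem_sdiff.1 h
          have la := k2 a h2
          obtain ⟨x, hx, hxa⟩ := (pn_low F hp' la).2 ⟨g, h2⟩
          exact ⟨la, fun h4 => h3 (mem_inter.1 ((hsite a la).1 h4)).1, x,
            mem_union_left _ (mem_union_right _ hx), hxa⟩
        · exact absurd h (notMem_empty _)
  have hkU : kUs i s = (if p ∈ PD P i then ∅ else sit i p \ sit i p') ∪
      (if p' ∈ PD P i then ∅ else sit i p' \ sit i p) := by
    ext a
    rw [mem_kUs]
    constructor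
    · rintro ⟨la, hns, x, hx, hxa⟩
      rw [hsite a la, mem_inter] at hns
      rcases mem_union.1 hx with hx | hx
      · rcases mem_union.1 hx with hx | hx
        · obtain ⟨g1, g2⟩ := (pn_upp F hp la).1 ⟨x, hx, hxa⟩
          rw [if_neg g1]
          exact mem_union_left _ (mem_sdiff.2 ⟨g2, fun h => hns ⟨g2, h⟩⟩)
        · obtain ⟨g1, g2⟩ := (pn_upp F hp' la).1 ⟨x, hx, hxa⟩
          rw [if_neg g1 (c := p' ∈ PD P i)]
          exact mem_union_right _ (mem_sdiff.2 ⟨g2, fun h => hns ⟨h, g2⟩⟩)
      · have := k1 x (mem_inter.1 hx).1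
        have := lev_cov H hxa
        omega
    · intro h
      rcases mem_union.1 h with h | h
      · split_ifs at h with g
        · exact absurd h (notMem_empty _)
        · obtain ⟨h2, h3⟩ := mem_sdiff.1 h
          have la := k1 a h2
          obtain ⟨x, hx, hxa⟩ := (pn_upp F hp la).2 ⟨g, h2⟩
          exact ⟨la, fun h4 => h3 (mem_inter.1 ((hsite a la).1 h4)).2, x,
            mem_union_left _ (mem_union_left _ hx), hxa⟩
      · split_ifs at h with g
        · exact absurd h (notMem_empty _)
        · obtain ⟨h2, h3⟩ := mem_sdiff.1 h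
          have la := k2 a h2
          obtain ⟨x, hx, hxa⟩ := (pn_upp F hp' la).2 ⟨g, h2⟩
          exact ⟨la, fun h4 => h3 (mem_inter.1 ((hsite a la).1 h4)).1, x,
            mem_union_left _ (mem_union_right _ hx), hxa⟩
  have hfL : fLs i s = ∅ := by
    rw [eq_empty_iff_forall_notMem]
    intro z hz
    obtain ⟨h2, h3, h4⟩ := mem_fLs.1 hz
    have hvs : v ∈ s := (hsite v lv').2 hvm
    rcases mem_union.1 h2 with h2 | h2
    · rcases mem_union.1 h2 with h2 | h2
      · exact h4 v ((pn_near F hp h2 hv1).1 h3) hvs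
      · exact h4 v ((pn_near F hp' h2 hv2).1 h3) hvs
    · have := k1 z (mem_inter.1 h2).1
      omega
  have hfU : fUs i s = ∅ := by
    rw [eq_empty_iff_forall_notMem]
    intro z hz
    obtain ⟨h2, h3, h4⟩ := mem_fUs.1 hz
    have hvs : v ∈ s := (hsite v lv').2 hvm
    rcases mem_union.1 h2 with h2 | h2
    · rcases mem_union.1 h2 with h2 | h2
      · exact h4 v ((pn_near F hp h2 hv1).2 h3) hvs
      · exact h4 v ((pn_near F hp' h2 hv2).2 h3) hvs
    · have := k1 z (mem_inter.1 h2).1
      omega
  have n1 : (sit i p \ sit i p').card = 1 := by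
    have := card_sdiff_add_card_inter (sit i p) (sit i p')
    omega
  have n2 : (sit i p' \ sit i p).card = 1 := by
    have := card_sdiff_add_card_inter (sit i p') (sit i p)
    rw [inter_comm] at this
    omega
  have hdis : Disjoint (sit i p \ sit i p') (sit i p' \ sit i p) := by
    rw [disjoint_left]
    intro a ha hb
    exact (mem_sdiff.1 ha).2 (mem_sdiff.1 hb).1
  have hd : Disjoint (kLs i s) (kUs i s) := by
    rw [hkL, hkU]
    split_ifs <;> simp [hdis, hdis.symm]
  have hS : cD i p p' = on s := rfl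
  rw [hS]
  refine ⟨⟨?_, ?_, adm_S F.E hcls hd⟩, ?_, ?_, ?_, ?_⟩
  · exact SO.on_spt hsC
  · apply core_on
    intro z hz
    rcases mem_union.1 hz with hz | hz
    · rcases mem_union.1 hz with hz | hz
      · have := con_touch H hlp hz
        exact ⟨fun h => ⟨p, mem_union_left _ (mem_union_left _ (self_con (by omega))),
          this.1 h⟩, fun h => ⟨p, mem_union_left _ (mem_union_left _ (self_con (by omega))),
          this.2 h⟩⟩
      · have := con_touch H hlp' hz
        exact ⟨fun h => ⟨p', mem_union_left _ (mem_union_right _ (self_con (by omega))),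
          this.1 h⟩, fun h => ⟨p', mem_union_left _ (mem_union_right _ (self_con (by omega))),
          this.2 h⟩⟩
    · have := k1 z (mem_inter.1 hz).1
      exact ⟨fun h => by omega, fun h => by omega⟩
  · rw [kp_S F.E hcls, hfL, hfU, hkL, hkU]
    split_ifs with g1 g2 g2
    · rw [card_union_of_disjoint hdis, n1, n2]
      simp
    · rw [union_empty, empty_union, n1, n2]
      simp
    · rw [union_empty, empty_union, n1, n2]
      simp
    · rw [card_union_of_disjoint hdis, n1, n2]
      simp
  · rw [sgn_S F.E hcls, hfU, hkL]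
    unfold SO.vp
    split_ifs with g1 g2 g2
    · rw [card_union_of_disjoint hdis, n1, n2]
      simp
    · rw [union_empty, n1]
      simp
    · rw [empty_union, n2]
      simp
    · simp
  · apply cc_none F.E
    intro d hd'
    have hds := on_pos.1 hd'
    rw [hse] at hds
    simp only [mem_insert, mem_singleton] at hds
    constructor
    · intro hl
      rcases hds with rfl | rfl | rfl | rfl | rfl
      · rcases hy with h | h
        · rw [h.2.2.1]; simp
        · omega
      · omega
      · rcases hy' with h | h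
        · rw [h.2.2.1]; simp
        · omega
      · omega
      · omega
    · intro hl
      rcases hds with rfl | rfl | rfl | rfl | rfl
      · rcases hy with h | h
        · omega
        · rw [h.2.2.1]; simp
      · omega
      · rcases hy' with h | h
        · omega
        · rw [h.2.2.1]; simp
      · omega
      · omega
  · rw [SO.on_sum, hcard]

end conv

section cls

variable (F : Fr r i psi C) (hm : Meet i C)
include F hm

/-- THE TIGHT CORES of energy five -/
theorem tt_five (h : Okc i psi C e) (hE : ∑ x, e x = 5) (hk : kp i e = 2)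
    (hcc : Xg.CC i e = ∅) : (∃ q ∈ I5 i C, e = c5 i q) ∨ (∃ z z', Tw i C z z' ∧ e = cT i z z') ∨
      ∃ p ∈ PN i C, ∃ p' ∈ PN i C, p ≠ p' ∧ (sit i p ∩ sit i p').card = 1 ∧ e = cD i p p' := by
  have g1 := F.gen h (by omega)
  rw [hcc, card_empty, hk, hE] at g1
  unfold nb at g1
  push_cast at g1
  have hTU : TWU i e = ∅ := Rd.TWU_empty F.G
  rcases Nat.eq_zero_or_pos ((P1L i psi e).card + (P1U i psi e).card) with h1 | h1
  · rcases Nat.eq_zero_or_pos (GS i psi e).card with h2 | h2
    · rcases Nat.eq_zero_or_pos (TWL i e).card with h3 | h3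
      · exfalso
        rw [hTU, card_empty] at g1
        push_cast at g1
        omega
      · obtain ⟨z, hz⟩ := card_pos.1 h3
        obtain ⟨z', a, b⟩ := tw_five F h hE hcc hz
        exact Or.inr (Or.inl ⟨z, z', a, b⟩)
    · exact Or.inr (Or.inr (gs_five F h hE hcc h2))
  · obtain ⟨p, y, B⟩ := blo_of F hm h h1
    obtain ⟨z, a, b⟩ := blk_five F hm h hE hk B
    exact Or.inl ⟨(z, p), a, b⟩

end cls

end Pool.Agent.GaussPoset.Win.Pn
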