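import Pool.Agent.W_448pn_h63.PnR

/-!
# The series pinned at one element, energy five (MP_448cb3_co, G2, case B, window j - 1)
-/

set_option autoImplicit false

namespace Pool.Agent.GaussPoset.Win.Pn

set_option linter.unusedSectionVars false

open Finset W4
open Pool.Agent.GaussPoset.Win.Xg (Okc kp CanD)
open Pool.Agent.GaussPoset.Win.SO (con PN on mem_PN Cls BL BU nL nU mem_con self_con vp I5 mem_I5
  c5 TD tL tU)

universe u

variable {P : Type u} [Fintype P] [PartialOrder P] [DecidableEq P] {r i : ℕ}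
variable {e f g : P → ℕ} {psi : P → P} {C K s : Finset P} {t : P → ℕ} {d x p w : P}

/-- the element is at distance two of the window -/
def Two (i : ℕ) (z : P) : Prop := lev z = i + 2 ∨ lev z + 2 = i

lemma con_far (H : Gr P r) {a z : P} (ha : Two i a) (hz : Two i z) : a ∈ con i z ↔ a = z := by
  unfold Two at ha hz
  constructor
  · intro h
    rcases hz with hz | hz
    · rw [SO.con_two_low H hz, mem_insert] at h
      rcases h with h | h
      · exact h
      · have := lev_uc H h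
        omega
    · rw [SO.con_two_upp H hz, mem_insert] at h
      rcases h with h | h
      · exact h
      · have := lev_dc H h
        omega
  · rintro rfl
    exact self_con (by omega)

lemma pin_ind (hw : w ∈ C) : Pin C (ind w) e ↔ 1 ≤ e w := by
  constructor
  · intro h
    have := h w hw
    rwa [ind_self] at this
  · intro h y hy
    by_cases h1 : y = w
    · rw [h1, ind_self]
      exact h
    · rw [ind_ne h1]
      exact Nat.zero_le _

lemma far_ind (hw : lev w = i + 2) : Far i (ind w) := by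
  intro y hy
  by_cases h1 : y = w
  · rw [h1, hw]
  · rw [ind_ne h1] at hy
    omega

lemma once_ind : Once i C (ind w) := fun y _ _ => ind_le y

open Classical in
/-- the ordered pairs of twins -/
noncomputable def Tws (i : ℕ) (C : Finset P) : Finset (P × P) :=
  (C ×ˢ C).filter (fun q => Tw i C q.1 q.2)

lemma mem_Tws {q : P × P} : q ∈ Tws i C ↔ Tw i C q.1 q.2 := by
  classical
  unfold Tws
  rw [mem_filter, mem_product]
  exact ⟨fun h => h.2, fun h => ⟨⟨(mem_ZL.1 h.zl).1, h.mC⟩, h⟩⟩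

open Classical in
/-- the pendants which have exactly one site in common with the pendant `w` -/
noncomputable def Ov (i : ℕ) (C : Finset P) (w : P) : Finset P :=
  (PN i C).filter (fun p => w ∈ PN i C ∧ w ≠ p ∧ (sit i w ∩ sit i p).card = 1)

lemma mem_Ov {p : P} : p ∈ Ov i C w ↔ p ∈ PN i C ∧ w ∈ PN i C ∧ w ≠ p ∧
    (sit i w ∩ sit i p).card = 1 := by
  classical
  unfold Ov
  rw [mem_filter]

lemma cD_comm {p p' : P} : cD i p p' = cD i p' p := by
  unfold cD
  rw [union_comm (con i p), inter_comm]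

section vals

variable (F : Fr r i psi C)
include F

lemma c5_pos {q : P × P} (hq : q ∈ I5 i C) {a : P} (ha : Two i a) :
    1 ≤ c5 i q a ↔ q.1 = a ∨ q.2 = a := by
  have H := F.E.H
  obtain ⟨h1, h2, h3⟩ := mem_I5.1 hq
  have z1 : Two i q.1 := by
    rcases h1 with h1 | h1
    · exact Or.inl (mem_ZL.1 h1).2.1
    · exact Or.inr (mem_ZU.1 h1).2.1
  have z2 : Two i q.2 := pn_lev F h2
  unfold SO.c5
  rw [on_pos, mem_union, con_far H ha z1, con_far H ha z2, eq_comm, eq_comm (a := a)]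

lemma c5_le {q : P × P} {a : P} : c5 i q a ≤ 1 := on_le

lemma c5_site {q : P × P} (hq : q ∈ I5 i C) {a : P} (ha : lev a = i) : c5 i q a = 0 := by
  have H := F.E.H
  obtain ⟨h1, h2, h3⟩ := mem_I5.1 hq
  have z1 : Two i q.1 := by
    rcases h1 with h1 | h1
    · exact Or.inl (mem_ZL.1 h1).2.1
    · exact Or.inr (mem_ZU.1 h1).2.1
  have z2 : Two i q.2 := pn_lev F h2
  unfold Two at z1 z2
  unfold SO.c5
  apply on_zero
  intro h
  rcases mem_union.1 h with h | h
  · exact (SO.con_cls H (z := q.1) (i := i) (by omega)).ns a h ha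
  · exact (SO.con_cls H (z := q.2) (i := i) (by omega)).ns a h ha

lemma cT_pos {z z' : P} (T : Tw i C z z') {a : P} (ha : Two i a) :
    1 ≤ cT i z z' a ↔ z = a ∨ z' = a := by
  have H := F.E.H
  obtain ⟨x, x', s, D, D', lz, lz', lx, lx'⟩ := twd F T
  obtain ⟨v1, v2, v3, v4, v5⟩ := cT_vals F lz lz' D.cw D'.cw T.ne.symm
  unfold Two at ha
  constructor
  · intro h
    by_contra hne
    push Not at hne
    rw [v5 a (fun h' => hne.1 h'.symm) (fun h' => hne.2 h'.symm) (by rintro rfl; omega)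
      (by rintro rfl; omega)] at h
    omega
  · rintro (rfl | rfl)
    · omega
    · omega

lemma cT_two {z z' : P} (T : Tw i C z z') : cT i z z' z = 2 := by
  obtain ⟨x, x', s, D, D', lz, lz', lx, lx'⟩ := twd F T
  exact (cT_vals F lz lz' D.cw D'.cw T.ne.symm).1

lemma cT_eq_two {z z' : P} (T : Tw i C z z') {a : P} (ha : cT i z z' a = 2) : a = z := by
  obtain ⟨x, x', s, D, D', lz, lz', lx, lx'⟩ := twd F T
  obtain ⟨v1, v2, v3, v4, v5⟩ := cT_vals F lz lz' D.cw D'.cw T.ne.symm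
  by_contra hne
  by_cases h1 : a = z'
  · rw [h1, v2] at ha
    omega
  by_cases h2 : a = x
  · rw [h2, v3] at ha
    omega
  by_cases h3 : a = x'
  · rw [h3, v4] at ha
    omega
  rw [v5 a hne h1 h2 h3] at ha
  omega

lemma cT_inj {q q' : P × P} (T : Tw i C q.1 q.2) (T' : Tw i C q'.1 q'.2)
    (h : cT i q.1 q.2 = cT i q'.1 q'.2) : q = q' := by
  have h1 : q.1 = q'.1 := by
    apply cT_eq_two F T'
    rw [← h, cT_two F T]
  obtain ⟨x, x', s, D, D', lz, lz', lx, lx'⟩ := twd F T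
  have h2 : 1 ≤ cT i q'.1 q'.2 q.2 := by
    rw [← h, cT_pos F T (Or.inl lz')]
    exact Or.inr rfl
  rw [cT_pos F T' (Or.inl lz')] at h2
  rcases h2 with h2 | h2
  · exact absurd (h1.trans h2) T.ne
  · exact Prod.ext h1 h2.symm

lemma cD_pos {p p' : P} (hp : p ∈ PN i C) (hp' : p' ∈ PN i C) {a : P} (ha : Two i a) :
    1 ≤ cD i p p' a ↔ p = a ∨ p' = a := by
  have H := F.E.H
  obtain ⟨c1, k1⟩ := pn_two F hp
  have z1 : Two i p := pn_lev F hp
  have z2 : Two i p' := pn_lev F hp'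
  unfold cD
  rw [on_pos, mem_union, mem_union, con_far H ha z1, con_far H ha z2]
  unfold Two at ha
  constructor
  · rintro ((h | h) | h)
    · exact Or.inl h.symm
    · exact Or.inr h.symm
    · have := k1 a (mem_inter.1 h).1
      omega
  · rintro (h | h)
    · exact Or.inl (Or.inl h.symm)
    · exact Or.inl (Or.inr h.symm)

open Classical in
/-- THE COEFFICIENT of the energy five of a series pinned at one element -/
theorem hc_five_ind (hm : Meet i C) (hw : w ∈ C) (lw : lev w = i + 2) :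
    hc 5 (st i C).card (ZPS i C (ind w)) =
      ∑ q ∈ (I5 i C).filter (fun q => q.1 = w ∨ q.2 = w), chg i C q.1 * vp i q.2 -
        (((Tws i C).filter (fun q => q.1 = w ∨ q.2 = w)).card : ℤ) +
          ∑ p ∈ Ov i C w, vp i w * vp i p := by
  have H := F.E.H
  have tw : Two i w := Or.inl lw
  rw [F.top hm (far_ind lw) once_ind (n := 5) (K := 1) rfl (by omega) (by omega)]
  have h1 : TT i psi C (ind w) 5 (1 + 1) =
      (((I5 i C).filter (fun q => q.1 = w ∨ q.2 = w)).image (c5 i) ∪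
        ((Tws i C).filter (fun q => q.1 = w ∨ q.2 = w)).image (fun q => cT i q.1 q.2)) ∪
          (Ov i C w).image (cD i w) := by
    ext e
    rw [mem_TT, mem_union, mem_union, mem_image, mem_image, mem_image, pin_ind hw]
    constructor
    · rintro ⟨a1, a2, a3, a4, a5⟩
      rcases tt_five F hm a2 a1 (by rw [a4]; rfl) a5 with ⟨q, hq, rfl⟩ | ⟨z, z', T, rfl⟩ |
        ⟨p, hp, p', hp', hne, hI, rfl⟩
      · left; left
        exact ⟨q, mem_filter.2 ⟨hq, (c5_pos F hq tw).1 a3⟩, rfl⟩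
      · left; right
        exact ⟨(z, z'), mem_filter.2 ⟨mem_Tws.2 T, (cT_pos F T tw).1 a3⟩, rfl⟩
      · right
        rcases (cD_pos F hp hp' tw).1 a3 with rfl | rfl
        · exact ⟨p', mem_Ov.2 ⟨hp', hp, hne, hI⟩, rfl⟩
        · exact ⟨p, mem_Ov.2 ⟨hp, hp', hne.symm, by rw [inter_comm]; exact hI⟩, cD_comm⟩
    · rintro ((⟨q, hq, rfl⟩ | ⟨q, hq, rfl⟩) | ⟨p, hp, rfl⟩)
      · obtain ⟨hq1, hq2⟩ := mem_filter.1 hq
        obtain ⟨b1, b2, b3, b4, b5⟩ := c5_ok F hq1
        exact ⟨b5, b1, (c5_pos F hq1 tw).2 hq2, by rw [b2]; rfl, b4⟩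
      · obtain ⟨hq1, hq2⟩ := mem_filter.1 hq
        rw [mem_Tws] at hq1
        obtain ⟨b1, b2, b3, b4, b5⟩ := tw_ok F hq1
        exact ⟨b5, b1, (cT_pos F hq1 tw).2 hq2, by rw [b2]; rfl, b4⟩
      · obtain ⟨hp1, hp2, hp3, hp4⟩ := mem_Ov.1 hp
        obtain ⟨b1, b2, b3, b4, b5⟩ := cD_ok F hp2 hp1 hp3 hp4
        exact ⟨b5, b1, (cD_pos F hp2 hp1 tw).2 (Or.inl rfl), by rw [b2]; rfl, b4⟩
  have d1 : Disjoint (((I5 i C).filter (fun q => q.1 = w ∨ q.2 = w)).image (c5 i))
      (((Tws i C).filter (fun q => q.1 = w ∨ q.2 = w)).image (fun q => cT i q.1 q.2)) := by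
    rw [disjoint_left]
    intro e he he'
    obtain ⟨q, hq, rfl⟩ := mem_image.1 he
    obtain ⟨q', hq', h2⟩ := mem_image.1 he'
    have T := mem_Tws.1 (mem_filter.1 hq').1
    have h3 := cT_two F T
    have h4 : c5 i q q'.1 ≤ 1 := on_le
    have h5 := congrFun h2 q'.1
    omega
  have d2 : Disjoint (((I5 i C).filter (fun q => q.1 = w ∨ q.2 = w)).image (c5 i) ∪
        ((Tws i C).filter (fun q => q.1 = w ∨ q.2 = w)).image (fun q => cT i q.1 q.2))
      ((Ov i C w).image (cD i w)) := by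
    rw [disjoint_left]
    intro e he he'
    obtain ⟨p, hp, rfl⟩ := mem_image.1 he'
    obtain ⟨hp1, hp2, hp3, hp4⟩ := mem_Ov.1 hp
    rcases mem_union.1 he with he | he
    · obtain ⟨q, hq, h2⟩ := mem_image.1 he
      obtain ⟨v, hv⟩ := card_eq_one.1 hp4
      have hvm : v ∈ sit i w ∩ sit i p := by rw [hv]; simp
      have lv' := (pn_two F hp2).2 v (mem_inter.1 hvm).1
      have h3 := c5_site F (mem_filter.1 hq).1 lv'
      have h4 : cD i w p v = 1 := by
        unfold cD
        exact on_one (mem_union_right _ hvm)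
      rw [h2, h4] at h3
      omega
    · obtain ⟨q', hq', h2⟩ := mem_image.1 he
      have T := mem_Tws.1 (mem_filter.1 hq').1
      have h3 := cT_two F T
      have h4 : cD i w p q'.1 ≤ 1 := on_le
      have h5 := congrFun h2 q'.1
      omega
  rw [h1, sum_union d2, sum_union d1, Finset.sum_image, Finset.sum_image, Finset.sum_image]
  · have s1 : ∑ q ∈ (I5 i C).filter (fun q => q.1 = w ∨ q.2 = w), sgn i (c5 i q) =
        ∑ q ∈ (I5 i C).filter (fun q => q.1 = w ∨ q.2 = w), chg i C q.1 * vp i q.2 :=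
      Finset.sum_congr rfl fun q hq => (c5_ok F (mem_filter.1 hq).1).2.2.1
    have s2 : ∑ q ∈ (Tws i C).filter (fun q => q.1 = w ∨ q.2 = w), sgn i (cT i q.1 q.2) =
        ∑ q ∈ (Tws i C).filter (fun q => q.1 = w ∨ q.2 = w), (-1 : ℤ) :=
      Finset.sum_congr rfl fun q hq => (tw_ok F (mem_Tws.1 (mem_filter.1 hq).1)).2.2.1
    have s3 : ∑ p ∈ Ov i C w, sgn i (cD i w p) = ∑ p ∈ Ov i C w, vp i w * vp i p :=
      Finset.sum_congr rfl fun p hp => by
        obtain ⟨hp1, hp2, hp3, hp4⟩ := mem_Ov.1 hp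
        exact (cD_ok F hp2 hp1 hp3 hp4).2.2.1
    rw [s1, s2, s3, Finset.sum_const, nsmul_eq_mul]
    ring
  · intro p hp p' hp' h
    obtain ⟨a1, a2, a3, a4⟩ := mem_Ov.1 hp
    obtain ⟨b1, b2, b3, b4⟩ := mem_Ov.1 hp'
    have h2 : 1 ≤ cD i w p' p := by
      rw [← h, cD_pos F a2 a1 (pn_lev F a1)]
      exact Or.inr rfl
    rw [cD_pos F b2 b1 (pn_lev F a1)] at h2
    rcases h2 with h2 | h2
    · exact absurd h2 a3
    · exact h2.symm
  · intro q hq q' hq' h
    exact cT_inj F (mem_Tws.1 (mem_filter.1 hq).1) (mem_Tws.1 (mem_filter.1 hq').1) h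
  · intro q hq q' hq' h
    exact SO.c5_inj H (by have := F.E.hi2; omega) (mem_filter.1 hq).1 (mem_filter.1 hq').1 h

end vals

end Pool.Agent.GaussPoset.Win.Pn
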