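import Pool.Agent.W_448pn_h63.PnS

/-!
# The series pinned at one element, energy five: the values
(MP_448cb3_co, G2, case B, window j - 1)
-/

set_option autoImplicit false

namespace Pool.Agent.GaussPoset.Win.Pn

set_option linter.unusedSectionVars false

open Finset W4
open Pool.Agent.GaussPoset.Win.Xg (Okc kp CanD)
open Pool.Agent.GaussPoset.Win.SO (con PN on mem_PN Cls BL BU nL nU mem_con self_con vp I5 mem_I5
  c5 TD tL tU)

universe u

variable {P : Type u} [Fintype P] [PartialOrder P] [DecidableEq P] {r i : ℕ}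
variable {e f g : P → ℕ} {psi : P → P} {C K s : Finset P} {t : P → ℕ} {d x p w : P}

/-- the number of twins of `w` -/
noncomputable def ntw (C : Finset P) (w : P) : ℕ :=
  (C.filter (fun z => z ≠ w ∧ uc z = uc w)).card

section lv2

variable (H : Gr P r)
include H

lemma PD_card (hp : w ∈ PD P i) : (uc w).card ≤ 1 := (mem_PD.1 hp).2.1.le

lemma ZL_card (hz : w ∈ ZL i C) : (uc w).card = 2 :=
  card_uc_of_up H (mem_ZL.1 hz).2.1 (mem_ZL.1 hz).2.2

lemma ZL_of_eq {z : P} (hz : z ∈ ZL i C) (hw : w ∈ C) (h : uc z = uc w) : w ∈ ZL i C := by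
  obtain ⟨h1, h2, h3⟩ := mem_ZL.1 hz
  have h4 := ZL_card H hz
  obtain ⟨x, hx⟩ := card_pos.1 (show 0 < (uc z).card by omega)
  have l1 := lev_uc H hx
  have l2 := lev_uc H (show x ∈ uc w by rw [← h]; exact hx)
  have l3 : lev w = i + 2 := by omega
  refine mem_ZL.2 ⟨hw, l3, ?_⟩
  rw [← card_sts] at h3 ⊢
  rw [← h3]
  congr 1
  ext v
  rw [mem_sts_iff H l3, mem_sts_iff H h2, h]

lemma ZL_not_PD (hz : w ∈ ZL i C) : w ∉ PD P i := by
  intro h
  have := ZL_card H hz
  have := PD_card H h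
  omega

lemma PN_low (lw : lev w = i + 2) : w ∈ PN i C ↔ w ∈ C ∧ w ∈ PD P i := by
  rw [mem_PN]
  constructor
  · rintro ⟨h1, h2 | h2⟩
    · exact ⟨h1, h2⟩
    · have := (mem_PU.1 h2).1
      omega
  · exact fun h => ⟨h.1, Or.inl h.2⟩

lemma Z_low (lw : lev w = i + 2) : (w ∈ ZL i C ∨ w ∈ ZU i C) ↔ w ∈ ZL i C := by
  constructor
  · rintro (h | h)
    · exact h
    · have := (mem_ZU.1 h).2.1
      omega
  · exact Or.inl

omit H in
lemma chg_ZL (hz : w ∈ ZL i C) (H : Gr P r) : chg i C w = -1 := by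
  unfold chg
  rw [if_neg]
  intro h
  have h1 := (mem_ZL.1 hz).2.1
  rcases mem_union.1 h with h | h
  · have := (mem_ZU.1 h).2.1
    omega
  · have := lev_FL H h
    omega

open Classical in
/-- the pairs of twins of one element -/
lemma card_Tws (hz : w ∈ ZL i C) :
    ((Tws i C).filter (fun q => q.1 = w ∨ q.2 = w)).card = ntw C w := by
  unfold ntw
  refine Finset.card_bij' (fun q _ => if q.1 = w then q.2 else q.1)
    (fun z _ => if Xg.rk z < Xg.rk w then (w, z) else (z, w)) ?_ ?_ ?_ ?_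
  · rintro ⟨a, b⟩ hq
    obtain ⟨h1, h2⟩ := mem_filter.1 hq
    have T := mem_Tws.1 h1
    simp only at h2 T ⊢
    rcases h2 with rfl | rfl
    · rw [if_pos rfl]
      exact mem_filter.2 ⟨T.mC, T.ne.symm, T.uc.symm⟩
    · rw [if_neg T.ne]
      exact mem_filter.2 ⟨(mem_ZL.1 T.zl).1, T.ne, T.uc⟩
  · intro z hz'
    obtain ⟨h1, h2, h3⟩ := mem_filter.1 hz'
    have hzl : z ∈ ZL i C := ZL_of_eq H hz h1 h3.symm
    split_ifs with h4
    · exact mem_filter.2 ⟨mem_Tws.2 ⟨hz, h1, h2.symm, h3.symm, h4⟩, Or.inl rfl⟩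
    · refine mem_filter.2 ⟨mem_Tws.2 ⟨hzl, (mem_ZL.1 hz).1, h2, h3, ?_⟩, Or.inr rfl⟩
      have : Xg.rk w ≠ Xg.rk z := fun h => h2 (Xg.rk_inj h).symm
      simp only
      omega
  · rintro ⟨a, b⟩ hq
    obtain ⟨h1, h2⟩ := mem_filter.1 hq
    have T := mem_Tws.1 h1
    have hrk := T.rk
    simp only at h2 T hrk ⊢
    rcases h2 with rfl | rfl
    · rw [if_pos rfl, if_pos hrk]
    · rw [if_neg T.ne, if_neg (by omega)]
  · intro z hz'
    obtain ⟨h1, h2, h3⟩ := mem_filter.1 hz'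
    by_cases h4 : Xg.rk z < Xg.rk w
    · rw [if_pos h4]
      simp
    · rw [if_neg h4]
      simp [h2]

end lv2

section five

variable (F : Fr r i psi C) (hm : Meet i C)
include F hm

open Classical in
/-- the value at a pendant -/
theorem rho5_PD (hw : w ∈ C) (hp : w ∈ PD P i) :
    hc 5 (st i C).card (ZPS i C (ind w)) =
      ∑ z ∈ (ZL i C ∪ ZU i C).filter (fun z => Disjoint (sit i z) (sit i w)), chg i C z +
        ∑ p ∈ Ov i C w, vp i p := by
  have H := F.E.H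
  have lw : lev w = i + 2 := (mem_PD.1 hp).1
  have hwn : w ∈ PN i C := mem_PN.2 ⟨hw, Or.inl hp⟩
  have hv : vp i w = 1 := SO.vp_PD hp
  have hnz : ¬ (w ∈ ZL i C ∨ w ∈ ZU i C) := by
    rw [Z_low H lw]
    exact fun h => ZL_not_PD H h hp
  rw [hc_five_ind F hm hw lw]
  have h1 : (Tws i C).filter (fun q => q.1 = w ∨ q.2 = w) = ∅ := by
    rw [eq_empty_iff_forall_notMem]
    intro q hq
    obtain ⟨h1, h2⟩ := mem_filter.1 hq
    have T := mem_Tws.1 h1
    rcases h2 with h2 | h2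
    · exact ZL_not_PD H (h2 ▸ T.zl) hp
    · exact ZL_not_PD H (ZL_of_eq H T.zl T.mC T.uc) (h2 ▸ hp)
  have h2 : ∑ q ∈ (I5 i C).filter (fun q => q.1 = w ∨ q.2 = w), chg i C q.1 * vp i q.2 =
      ∑ z ∈ (ZL i C ∪ ZU i C).filter (fun z => Disjoint (sit i z) (sit i w)), chg i C z := by
    refine Finset.sum_nbij' (fun q => q.1) (fun z => (z, w)) ?_ ?_ ?_ ?_ ?_
    · intro q hq
      obtain ⟨h3, h4⟩ := mem_filter.1 hq
      obtain ⟨g1, g2, g3⟩ := mem_I5.1 h3
      rcases h4 with h4 | h4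
      · exact absurd (h4 ▸ g1) hnz
      · rw [mem_filter, mem_union, ← h4]
        exact ⟨g1, g3⟩
    · intro z hz
      rw [mem_filter, mem_union] at hz
      exact mem_filter.2 ⟨mem_I5.2 ⟨hz.1, hwn, hz.2⟩, Or.inr rfl⟩
    · intro q hq
      obtain ⟨h3, h4⟩ := mem_filter.1 hq
      obtain ⟨g1, g2, g3⟩ := mem_I5.1 h3
      rcases h4 with h4 | h4
      · exact absurd (h4 ▸ g1) hnz
      · exact Prod.ext rfl h4.symm
    · intro z hz
      rfl
    · intro q hq
      obtain ⟨h3, h4⟩ := mem_filter.1 hq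
      obtain ⟨g1, g2, g3⟩ := mem_I5.1 h3
      rcases h4 with h4 | h4
      · exact absurd (h4 ▸ g1) hnz
      · rw [h4, hv, mul_one]
  rw [h1, h2, card_empty, hv]
  simp

open Classical in
/-- the value at an element with three sites -/
theorem rho5_ZL (hz : w ∈ ZL i C) :
    hc 5 (st i C).card (ZPS i C (ind w)) =
      -∑ p ∈ (PN i C).filter (fun p => Disjoint (sit i w) (sit i p)), vp i p -
        (ntw C w : ℤ) := by
  have H := F.E.H
  obtain ⟨hw, lw, h3s⟩ := mem_ZL.1 hz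
  have hwn : w ∉ PN i C := by
    rw [PN_low H lw]
    exact fun h => ZL_not_PD H hz h.2
  rw [hc_five_ind F hm hw lw, card_Tws H hz]
  have h1 : Ov i C w = ∅ := by
    rw [eq_empty_iff_forall_notMem]
    intro p hp
    exact hwn (mem_Ov.1 hp).2.1
  have h2 : ∑ q ∈ (I5 i C).filter (fun q => q.1 = w ∨ q.2 = w), chg i C q.1 * vp i q.2 =
      ∑ p ∈ (PN i C).filter (fun p => Disjoint (sit i w) (sit i p)), -vp i p := by
    refine Finset.sum_nbij' (fun q => q.2) (fun p => (w, p)) ?_ ?_ ?_ ?_ ?_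
    · intro q hq
      obtain ⟨h3, h4⟩ := mem_filter.1 hq
      obtain ⟨g1, g2, g3⟩ := mem_I5.1 h3
      rcases h4 with h4 | h4
      · rw [mem_filter, ← h4]
        exact ⟨g2, g3⟩
      · exact absurd (h4 ▸ g2) hwn
    · intro p hp
      rw [mem_filter] at hp
      exact mem_filter.2 ⟨mem_I5.2 ⟨Or.inl hz, hp.1, hp.2⟩, Or.inl rfl⟩
    · intro q hq
      obtain ⟨h3, h4⟩ := mem_filter.1 hq
      obtain ⟨g1, g2, g3⟩ := mem_I5.1 h3
      rcases h4 with h4 | h4
      · exact Prod.ext h4.symm rfl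
      · exact absurd (h4 ▸ g2) hwn
    · intro p hp
      rfl
    · intro q hq
      obtain ⟨h3, h4⟩ := mem_filter.1 hq
      obtain ⟨g1, g2, g3⟩ := mem_I5.1 h3
      rcases h4 with h4 | h4
      · rw [h4, chg_ZL hz H, neg_one_mul]
      · exact absurd (h4 ▸ g2) hwn
  rw [h1, h2, sum_empty, add_zero, sum_neg_distrib]

/-- the value at the other elements -/
theorem rho5_else (hw : w ∈ C) (lw : lev w = i + 2) (hp : w ∉ PD P i) (hz : w ∉ ZL i C) :
    hc 5 (st i C).card (ZPS i C (ind w)) = 0 := by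
  classical
  have H := F.E.H
  have hwn : w ∉ PN i C := by
    rw [PN_low H lw]
    exact fun h => hp h.2
  have hwz : ¬ (w ∈ ZL i C ∨ w ∈ ZU i C) := by
    rw [Z_low H lw]
    exact hz
  rw [hc_five_ind F hm hw lw]
  have h1 : Ov i C w = ∅ := by
    rw [eq_empty_iff_forall_notMem]
    intro p hp
    exact hwn (mem_Ov.1 hp).2.1
  have h2 : (I5 i C).filter (fun q => q.1 = w ∨ q.2 = w) = ∅ := by
    rw [eq_empty_iff_forall_notMem]
    intro q hq
    obtain ⟨h3, h4⟩ := mem_filter.1 hq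
    obtain ⟨g1, g2, g3⟩ := mem_I5.1 h3
    rcases h4 with h4 | h4
    · exact hwz (h4 ▸ g1)
    · exact hwn (h4 ▸ g2)
  have h3 : (Tws i C).filter (fun q => q.1 = w ∨ q.2 = w) = ∅ := by
    rw [eq_empty_iff_forall_notMem]
    intro q hq
    obtain ⟨h1, h2⟩ := mem_filter.1 hq
    have T := mem_Tws.1 h1
    rcases h2 with h2 | h2
    · exact hz (h2 ▸ T.zl)
    · exact hz (h2 ▸ ZL_of_eq H T.zl T.mC T.uc)
  rw [h1, h2, h3]
  simp

end five

end Pool.Agent.GaussPoset.Win.Pn
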