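import Pool.Agent.W_448pn_h63.PnT

/-!
# The tight cores of energy seven (MP_448cb3_co, G2, case B, window j - 1)
-/

set_option autoImplicit false

namespace Pool.Agent.GaussPoset.Win.Pn

set_option linter.unusedSectionVars false

open Finset W4
open Pool.Agent.GaussPoset.Win.Xg (Okc kp CanD laL laU Tee Exo SdO Act PBk rm rm_of rm_y rm_p rm_le)
open Pool.Agent.GaussPoset.Win.Rd (P1L P1U TWL TWU GS N4L N4U Hyp hypL hypU TS)
open Pool.Agent.GaussPoset.Win.I2 (lS uS mem_lS mem_uS)
open Pool.Agent.GaussPoset.Win.SO (con PN on mem_PN Cls BL BU nL nU mem_con self_con vp I5 mem_I5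
  c5 TD tL tU)

universe u

variable {P : Type u} [Fintype P] [PartialOrder P] [DecidableEq P] {r i : ℕ}
variable {e f g : P → ℕ} {psi : P → P} {C K s : Finset P} {t : P → ℕ} {d x p w : P}

/-- twins and a pendant -/
noncomputable def cS (i : ℕ) (z z' p : P) : P → ℕ := fun y => cT i z z' y + on (con i p) y

section seven

variable (F : Fr r i psi C)
include F

/-- the configuration of twins and a pendant is a tight core -/
theorem cS_ok {z z' : P} (T : Tw i C z z') (hp : p ∈ PN i C)
    (hd : Disjoint (sit i z) (sit i p)) : Okc i psi C (cS i z z' p) ∧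
    kp i (cS i z z' p) = 3 ∧ sgn i (cS i z z' p) = -vp i p ∧ Xg.CC i (cS i z z' p) = ∅ ∧
    ∑ x, cS i z z' p x = 7 := by
  classical
  have H := F.E.H
  obtain ⟨x, x', s, D, D', lz, lz', lx, lx'⟩ := twd F T
  obtain ⟨v1, v2, v3, v4, v5⟩ := cT_vals F lz lz' D.cw D'.cw T.ne.symm
  obtain ⟨t1, t2, t3, t4, t5⟩ := tw_ok F T
  obtain ⟨y, hc, hny, hy⟩ := PN_cases F.E hp
  obtain ⟨c1, k1⟩ := pn_two F hp
  have mx : x ∈ uc z := by rw [D.cw]; simp
  have mx' : x' ∈ uc z := by rw [D.cw]; simp
  have nsx : ∀ v ∈ sit i p, v ∉ uc x ∧ v ∉ uc x' := by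
    intro v hv
    constructor
    · intro h
      exact disjoint_left.1 hd ((mem_sit_low H lz).2 ⟨x, mx, h⟩) hv
    · intro h
      exact disjoint_left.1 hd ((mem_sit_low H lz).2 ⟨x', mx', h⟩) hv
  have hyx : y ≠ x ∧ y ≠ x' := by
    obtain ⟨v, hv⟩ := card_pos.1 (show 0 < (sit i p).card by omega)
    obtain ⟨n1, n2⟩ := nsx v hv
    rcases hy with ⟨l1, l2, h1, h2, h3⟩ | ⟨l1, l2, h1, h2, h3⟩
    · rw [sit_PDs H h3 h1] at hv
      constructor
      · rintro rfl
        exact n1 hv
      · rintro rfl
        exact n2 hv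
    · constructor <;> rintro rfl <;> omega
  have hpz : p ≠ z ∧ p ≠ z' := by
    rcases hy with ⟨l1, l2, h1, h2, h3⟩ | ⟨l1, l2, h1, h2, h3⟩
    · constructor
      · rintro rfl
        rw [h1, mem_singleton] at mx
        exact hyx.1 mx.symm
      · rintro rfl
        rw [T.uc, h1, mem_singleton] at mx
        exact hyx.1 mx.symm
    · constructor <;> rintro rfl <;> omega
  have hpx : p ≠ x ∧ p ≠ x' := by
    rcases hy with h | h <;> constructor <;> rintro rfl <;> omega
  have hyz : y ≠ z ∧ y ≠ z' := by
    rcases hy with h | h <;> constructor <;> rintro rfl <;> omega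
  have hTp : cT i z z' p = 0 := v5 p hpz.1 hpz.2 hpx.1 hpx.2
  have hTy : cT i z z' y = 0 := v5 y hyz.1 hyz.2 hyx.1 hyx.2
  have o1 : on (con i p) p = 1 := on_one (by rw [hc]; simp)
  have o2 : on (con i p) y = 1 := on_one (by rw [hc]; simp)
  have o3 : ∀ a, a ≠ p → a ≠ y → on (con i p) a = 0 := fun a h1 h2 =>
    on_zero (by rw [hc]; simp [h1, h2])
  have e1 : cS i z z' p y = 1 := by unfold cS; omega
  have e2 : cS i z z' p p = 1 := by unfold cS; omega
  have e3 : ∀ a, a ≠ p → a ≠ y → cS i z z' p a = cT i z z' a := by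
    intro a h1 h2
    unfold cS
    rw [o3 a h1 h2, add_zero]
  have hrm : rm y p (cS i z z' p) = cT i z z' := by
    funext a
    by_cases h1 : a = y
    · rw [h1, rm_y, hTy]
    by_cases h2 : a = p
    · rw [h2, rm_p, hTp]
    rw [rm_of h1 h2, e3 a h2 h1]
  have hpos : ∀ a, a ≠ p → a ≠ y → 1 ≤ cS i z z' p a → a = z ∨ a = z' ∨ a = x ∨ a = x' := by
    intro a h1 h2 h3
    rw [e3 a h1 h2] at h3
    by_contra hne
    push Not at hne
    rw [v5 a hne.1 hne.2.1 hne.2.2.1 hne.2.2.2] at h3
    omega
  have hfar : ∀ a, lev a ≠ i + 1 → lev a ≠ i + 2 → lev a + 1 ≠ i → lev a + 2 ≠ i →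
      cS i z z' p a = 0 := by
    intro a a1 a2 a3 a4
    rw [e3 a (by rintro rfl; omega) (by rintro rfl; omega)]
    exact v5 a (by rintro rfl; omega) (by rintro rfl; omega) (by rintro rfl; omega)
      (by rintro rfl; omega)
  have hspt : Spt C (cS i z z' p) := by
    intro a ha
    rw [e3 a (by rintro rfl; exact ha (mem_PN.1 hp).1) (by
      rintro rfl
      apply ha
      refine SO.con_sub H F.E.hC (mem_PN.1 hp).1 ?_ (by rw [hc]; simp)
      omega)]
    exact t1.spt a ha
  have hcore : IsCore i ∅ psi (cS i z z' p) := by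
    intro a ha
    by_contra h0
    obtain ⟨h1, h2, h3, -⟩ := mem_Rst.1 ha
    apply h3
    rw [mem_Tch]
    by_cases g1 : a = p
    · exfalso
      subst g1
      rcases mem_near.1 h1 with h4 | h4 <;> omega
    by_cases g2 : a = y
    · rw [g2]
      rcases hy with ⟨l1, l2, h1, h2, h3⟩ | ⟨l1, l2, h1, h2, h3⟩
      · exact Or.inl ⟨l2, p, mem_uc.1 (by rw [h1]; simp), by omega⟩
      · exact Or.inr ⟨l2, p, mem_dc.1 (by rw [h1]; simp), by omega⟩
    have hz1 : 1 ≤ cS i z z' p z := by
      rw [e3 z hpz.1.symm hyz.1.symm]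
      omega
    rcases hpos a g1 g2 (by omega) with rfl | rfl | rfl | rfl
    · exfalso
      rcases mem_near.1 h1 with h4 | h4 <;> omega
    · exfalso
      rcases mem_near.1 h1 with h4 | h4 <;> omega
    · exact Or.inl ⟨lx, z, mem_uc.1 mx, hz1⟩
    · exact Or.inl ⟨lx', z, mem_uc.1 mx', hz1⟩
  have hAU : AU i (cT i z z') = ∅ := by
    rw [eq_empty_iff_forall_notMem]
    intro v hv
    rw [NormD_mem_AU] at hv
    obtain ⟨lv', u, hu, h1⟩ := hv
    have := lev_cov H hu
    rw [v5 u (by rintro rfl; omega) (by rintro rfl; omega) (by rintro rfl; omega)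
      (by rintro rfl; omega)] at h1
    omega
  have hAL : ∀ v ∈ sit i p, v ∉ AL i (cT i z z') := by
    intro v hv h
    rw [NormD_mem_AL] at h
    obtain ⟨lv', u, hu, h1⟩ := h
    have := lev_cov H hu
    by_cases g1 : u = x
    · rw [g1] at hu
      exact (nsx v hv).1 (mem_uc.2 hu)
    by_cases g2 : u = x'
    · rw [g2] at hu
      exact (nsx v hv).2 (mem_uc.2 hu)
    rw [v5 u (by rintro rfl; omega) (by rintro rfl; omega) g1 g2] at h1
    omega
  -- the block
  have main : Xg.Adm i (cS i z z' p) ∧ kp i (cS i z z' p) = 3 ∧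
      sgn i (cS i z z' p) = -vp i p := by
    rcases hy with ⟨l1, l2, h1, h2, h3⟩ | ⟨l1, l2, h1, h2, h3⟩
    · obtain ⟨v, v', hne, hvv⟩ := card_eq_two.1 h2
      have hsit : sit i p = {v, v'} := by rw [sit_PDs H h3 h1, hvv]
      have lv1 := k1 v (by rw [hsit]; simp)
      have lv2 := k1 v' (by rw [hsit]; simp)
      have nv : ∀ a ∈ sit i p, ∀ b ∈ dc a, b ≠ y → cS i z z' p b = 0 := by
        intro a ha b hb hby
        by_contra h0
        have lb := lev_dc H hb
        have la := k1 a ha
        rcases hpos b (by rintro rfl; omega) hby (by omega) with rfl | rfl | rfl | rfl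
        · omega
        · omega
        · exact (nsx a ha).1 (mem_uc.2 (mem_dc.1 hb))
        · exact (nsx a ha).2 (mem_uc.2 (mem_dc.1 hb))
      have B : PBk dc uc (laL i) y p v v' (cS i z z' p) := by
        refine ⟨by unfold laL; omega, hvv, hne, h1, e1, e2, hfar v (by omega) (by omega)
          (by omega) (by omega), hfar v' (by omega) (by omega) (by omega) (by omega),
          nv v (by rw [hsit]; simp), nv v' (by rw [hsit]; simp), ?_, ?_⟩
        · intro b hb hbp
          by_contra h0
          have lb := lev_dc H hb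
          have hyb : y ∈ uc b := mem_uc.2 (mem_dc.1 hb)
          rcases hpos b hbp (by rintro rfl; omega) (by omega) with rfl | rfl | rfl | rfl
          · rw [D.cw, mem_insert, mem_singleton] at hyb
            rcases hyb with h | h
            · exact hyx.1 h
            · exact hyx.2 h
          · rw [D'.cw, mem_insert, mem_singleton] at hyb
            rcases hyb with h | h
            · exact hyx.1 h
            · exact hyx.2 h
          · omega
          · omega
        · intro b hb
          have lb := lev_dc H hb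
          exact hfar b (by omega) (by omega) (by omega) (by omega)
      obtain ⟨a1, a2, a3, a4, a5, a6, a7, a8⟩ := Xg.low_blk H B
      have a9 := Xg.low_blk_AL H B
      rw [hrm] at a1 a2 a3 a4 a5 a6 a7 a8 a9
      refine ⟨⟨a7.2 t1.adm.l, a8.2 t1.adm.u, ?_⟩, ?_, ?_⟩
      · rw [a6, hAU]
        exact disjoint_empty_right _
      · unfold kp at t2 ⊢
        rw [a2, a3, a5, a6]
        push_cast
        omega
      · unfold sgn at t3 ⊢
        rw [a1, a3, a4, a5, SO.vp_PD h3, show aL i (cT i z z') + aU i (cT i z z') +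
          pU i (cT i z z') + ((AL i (cT i z z')).card + 2) = (aL i (cT i z z') +
          aU i (cT i z z') + pU i (cT i z z') + (AL i (cT i z z')).card) + 2 by ring,
          pow_add, t3]
        norm_num
    · obtain ⟨v, v', hne, hvv⟩ := card_eq_two.1 h2
      have hsit : sit i p = {v, v'} := by rw [sit_PUs H h3 h1, hvv]
      have lv1 := k1 v (by rw [hsit]; simp)
      have lv2 := k1 v' (by rw [hsit]; simp)
      have nv : ∀ a ∈ sit i p, ∀ b ∈ uc a, b ≠ y → cS i z z' p b = 0 := by
        intro a ha b hb hby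
        by_contra h0
        have lb := lev_uc H hb
        have la := k1 a ha
        rcases hpos b (by rintro rfl; omega) hby (by omega) with rfl | rfl | rfl | rfl <;> omega
      have B : PBk uc dc (laU i) y p v v' (cS i z z' p) := by
        refine ⟨by unfold laU; omega, hvv, hne, h1, e1, e2, hfar v (by omega) (by omega)
          (by omega) (by omega), hfar v' (by omega) (by omega) (by omega) (by omega),
          nv v (by rw [hsit]; simp), nv v' (by rw [hsit]; simp), ?_, ?_⟩
        · intro b hb hbp
          by_contra h0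
          have lb := lev_uc H hb
          rcases hpos b hbp (by rintro rfl; omega) (by omega) with rfl | rfl | rfl | rfl <;> omega
        · intro b hb
          have lb := lev_uc H hb
          exact hfar b (by omega) (by omega) (by omega) (by omega)
      obtain ⟨a1, a2, a3, a4, a5, a6, a7, a8⟩ := Xg.upp_blk H B
      have a9 := Xg.upp_blk_AU H B
      rw [hrm] at a1 a2 a3 a4 a5 a6 a7 a8 a9
      refine ⟨⟨a8.2 t1.adm.l, a7.2 t1.adm.u, ?_⟩, ?_, ?_⟩
      · rw [a6, a9, hAU, disjoint_right]
        intro a ha
        apply hAL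
        rw [hsit]
        simpa using ha
      · unfold kp at t2 ⊢
        rw [a2, a3, a5, a6]
        push_cast
        omega
      · have hvp : vp i p = -1 := SO.vp_PU h3
        unfold sgn at t3 ⊢
        rw [a1, a2, a4, a6, hvp, show aL i (cT i z z') + aU i (cT i z z') +
          (pU i (cT i z z') + 1) + (AL i (cT i z z')).card = (aL i (cT i z z') +
          aU i (cT i z z') + pU i (cT i z z') + (AL i (cT i z z')).card) + 1 by ring,
          pow_succ, t3]
        ring
  refine ⟨⟨hspt, hcore, main.1⟩, main.2.1, main.2.2, ?_, ?_⟩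
  · rw [eq_empty_iff_forall_notMem]
    rintro ⟨d, v⟩ hdx
    have hcan : CanD i (cS i z z' p) d v := (Xg.mem_CC H).1 hdx
    have hl := hcan.lvl H
    have hv : cS i z z' p v = 0 := hfar v (by omega) (by omega) (by omega) (by omega)
    have q1 : cS i z z' p z' = 1 := by rw [e3 z' hpz.2.symm hyz.2.symm, v2]
    have q2 : cS i z z' p x = 1 := by rw [e3 x hpx.1.symm hyx.1.symm, v3]
    have q3 : cS i z z' p x' = 1 := by rw [e3 x' hpx.2.symm hyx.2.symm, v4]
    rcases hcan with ⟨w, w2, p1, q, T', Ex, hrk⟩ | ⟨w, w2, p1, q, T', Ex, -⟩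
    · have ld : lev d = i + 2 := by
        have := T'.ld
        unfold laL at this
        omega
      have hdp : d ≠ p := by
        rintro rfl
        rcases hy with ⟨l1, l2, h1, h2, h3⟩ | ⟨l1, l2, h1, h2, h3⟩
        · have h4 := T'.ud
          rw [h1] at h4
          have h5 := congrArg Finset.card h4
          rw [card_singleton, card_pair T'.ne] at h5
          omega
        · omega
      rcases hpos d hdp (by rintro rfl; omega) Ex.pos with rfl | rfl | rfl | rfl
      · have := hrk z' (by rw [← T.uc, T'.ud]) T.rk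
        omega
      · have hww : ({w, w2} : Finset P) = {x, x'} := by rw [← T'.ud, ← T.uc, D.cw]
        have hw : cS i z d p w = 1 := by
          have : w ∈ ({x, x'} : Finset P) := by rw [← hww]; simp
          rw [mem_insert, mem_singleton] at this
          rcases this with rfl | rfl <;> assumption
        have hw2 : cS i z d p w2 = 1 := by
          have : w2 ∈ ({x, x'} : Finset P) := by rw [← hww]; simp
          rw [mem_insert, mem_singleton] at this
          rcases this with rfl | rfl <;> assumption
        rcases Ex.act with (h | h) | (h | h) <;> omega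
      · omega
      · omega
    · have ld : lev d + 2 = i := by
        have := T'.ld
        unfold laU at this
        omega
      have hdp : d ≠ p := by
        rintro rfl
        rcases hy with ⟨l1, l2, h1, h2, h3⟩ | ⟨l1, l2, h1, h2, h3⟩
        · omega
        · have h4 := T'.ud
          rw [h1] at h4
          have h5 := congrArg Finset.card h4
          rw [card_singleton, card_pair T'.ne] at h5
          omega
      rcases hpos d hdp (by rintro rfl; omega) Ex.pos with rfl | rfl | rfl | rfl <;> omega
  · unfold cS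
    rw [sum_add_distrib, t5, SO.on_sum, hc, card_pair hny]

end seven

end Pool.Agent.GaussPoset.Win.Pn
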