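import Pool.Agent.W_448pn_h63.PnU

/-!
# The tight cores of energy seven: classification (MP_448cb3_co, G2, case B, window j - 1)
-/

set_option autoImplicit false

namespace Pool.Agent.GaussPoset.Win.Pn

set_option linter.unusedSectionVars false

open Finset W4
open Pool.Agent.GaussPoset.Win.Xg (Okc kp CanD laL laU Tee Exo SdO Act PBk rm rm_of rm_y rm_p rm_le)
open Pool.Agent.GaussPoset.Win.Rd (P1L P1U TWL TWU GS N4L N4U Hyp hypL hypU TS)
open Pool.Agent.GaussPoset.Win.I2 (lS uS mem_lS mem_uS)
open Pool.Agent.GaussPoset.Win.SO (con PN on mem_PN Cls BL BU nL nU mem_con self_con vp I5 mem_I5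
  c5 TD tL tU)

universe u

variable {P : Type u} [Fintype P] [PartialOrder P] [DecidableEq P] {r i : ℕ}
variable {e f g : P → ℕ} {psi : P → P} {C K s : Finset P} {t : P → ℕ} {d x p w : P}

section seven

variable (F : Fr r i psi C) (hm : Meet i C)
include F

lemma Blo.con {y : P} (B : Blo i psi C e p y) : con i p = {p, y} := by
  have H := F.E.H
  rcases B.side with ⟨h1, h2, h3, h4⟩ | ⟨h1, h2, h3, h4⟩
  · exact SO.con_PD H h1 h3
  · exact SO.con_PU H h1 h3

/-- twins and a pendant -/
lemma tw_seven (h : Okc i psi C e) (hE : ∑ x, e x = 7) (hcc : Xg.CC i e = ∅) {z : P}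
    (hz : z ∈ TWL i e) {y : P} (B : Blo i psi C e p y) :
    ∃ z', Tw i C z z' ∧ Disjoint (sit i z) (sit i p) ∧ e = cS i z z' p := by
  have H := F.E.H
  have hir : i ≤ r := by have := F.E.hi2; omega
  obtain ⟨w, w2, a, x, b, z', T, lz, lz', h1, h2, h3, h4, h5, h6, h7, h8, h9, h10⟩ :=
    tw_data F h hz
  have lw := lev_uc H (show w ∈ uc z by rw [T.ud]; simp)
  have lw2 := lev_uc H (show w2 ∈ uc z by rw [T.ud]; simp)
  have la := lev_uc H (show a ∈ uc w by rw [T.uw]; simp)
  have lx := lev_uc H (show x ∈ uc w by rw [T.uw]; simp)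
  have lb := lev_uc H (show b ∈ uc w2 by rw [T.uw2]; simp)
  have hcon := B.con F
  have hpz : p ≠ z := by
    rintro rfl
    rcases B.side with ⟨g1, g2, g3, g4⟩ | ⟨g1, g2, g3, g4⟩
    · have g5 := T.ud
      rw [g3] at g5
      have g6 := congrArg Finset.card g5
      rw [card_singleton, card_pair T.ne] at g6
      omega
    · omega
  have hpz' : p ≠ z' := by
    rintro rfl
    rcases B.side with ⟨g1, g2, g3, g4⟩ | ⟨g1, g2, g3, g4⟩
    · have g5 := h1
      rw [g3] at g5
      have g6 := congrArg Finset.card g5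
      rw [card_singleton, card_pair T.ne] at g6
      omega
    · omega
  have hy1 : y ≠ w := by
    rintro rfl
    have := B.oth z hpz.symm (Or.inl (by rw [h3]; simp))
    omega
  have hy2 : y ≠ w2 := by
    rintro rfl
    have := B.oth z hpz.symm (Or.inl (by rw [h4]; simp))
    omega
  have hly : lev y = i + 1 ∨ lev y + 1 = i := by
    rcases B.side with g | g
    · exact Or.inl g.2.1
    · exact Or.inr g.2.1
  have hlp : lev p = i + 2 ∨ lev p + 2 = i := by
    rcases B.side with g | g
    · exact Or.inl g.1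
    · exact Or.inr g.1
  have hyz : y ≠ z := by rintro rfl; omega
  have hyz' : y ≠ z' := by rintro rfl; omega
  have hny : p ≠ y := by rintro rfl; omega
  obtain ⟨v1, v2, v3, v4, v5⟩ := cT_vals F lz lz' T.ud h1 h2
  have hTp : cT i z z' p = 0 := v5 p hpz hpz' (by rintro rfl; omega) (by rintro rfl; omega)
  have hTy : cT i z z' y = 0 := v5 y hyz hyz' hy1 hy2
  have hdj : Disjoint (sit i z) (sit i p) := by
    apply B.disj H hir h.adm (Or.inl lz) (by omega)
    rw [SO.con_two_low H lz, T.ud]
    simp [hyz, hy1, hy2]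
  have he : e = cS i z z' p := by
    apply eq_of_le_sum
    · intro c
      unfold cS
      rw [hcon]
      by_cases g1 : c = p
      · rw [g1, hTp, on_one (by simp), B.e2]
      by_cases g2 : c = y
      · rw [g2, hTy, on_one (by simp), B.e1]
      rw [on_zero (by simp [g1, g2]), add_zero]
      exact cT_le F lz lz' T.ud h1 h8 h5 h6 h7 c
    · unfold cS
      rw [sum_add_distrib, cT_sum F lz lz' T.ud h1 T.ne h2, SO.on_sum, hcon, card_pair hny]
      omega
  have e3 : ∀ c, c ≠ p → c ≠ y → e c = cT i z z' c := by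
    intro c g1 g2
    rw [he]
    unfold cS
    rw [hcon, on_zero (by simp [g1, g2]), add_zero]
  have esite : ∀ c, lev c = i → e c = 0 := by
    intro c hc
    rw [e3 c (by rintro rfl; omega) (by rintro rfl; omega)]
    exact v5 c (by rintro rfl; omega) (by rintro rfl; omega) (by rintro rfl; omega)
      (by rintro rfl; omega)
  refine ⟨z', ⟨h9, h10, h2.symm, by rw [T.ud, h1], ?_⟩, hdj, he⟩
  refine tw_rk F hcc T h1 h2 h3 h4 (by rw [e3 z hpz.symm hyz.symm, v1])
    (by rw [e3 z' hpz'.symm hyz'.symm, v2])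
    (by rw [e3 w (by rintro rfl; omega) hy1.symm, v3])
    (by rw [e3 w2 (by rintro rfl; omega) hy2.symm, v4])
    (esite a (by omega)) (esite x (by omega)) (esite b (by omega)) ?_ ?_
  · intro t ht
    have lt := lev_dc H ht
    rw [e3 t (by rintro rfl; omega) (by rintro rfl; omega)]
    exact v5 t (by rintro rfl; omega) (by rintro rfl; omega) (by rintro rfl; omega)
      (by rintro rfl; omega)
  · intro u hu
    have lu := lev_uc H hu
    by_cases g1 : u = y
    · exfalso
      subst g1
      rcases B.side with ⟨g1, g2, g3, g4⟩ | ⟨g1, g2, g3, g4⟩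
      · omega
      · have hx1 : x ∈ sit i p := (mem_sit_upp H g1).2 ⟨u, by rw [g3]; simp,
          mem_dc.2 (mem_uc.1 hu)⟩
        have hx2 : x ∈ sit i z := (mem_sit_low H lz).2 ⟨w, by rw [T.ud]; simp,
          by rw [T.uw]; simp⟩
        exact disjoint_left.1 hdj hx2 hx1
    · rw [e3 u (by rintro rfl; omega) g1]
      exact v5 u (by rintro rfl; omega) (by rintro rfl; omega) (by rintro rfl; omega)
        (by rintro rfl; omega)

include hm

/-- no guarded pair next to a pendant block -/
lemma gs_seven (h : Okc i psi C e) (hE : ∑ x, e x = 7) (hcc : Xg.CC i e = ∅)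
    (hg : 0 < (GS i psi e).card) {y0 : P} (B : Blo i psi C e p y0) : False := by
  have H := F.E.H
  obtain ⟨x, y, z, o, y', z', o', ex, lx, hne, G, G', ⟨n1, n2⟩, ⟨n3, n4⟩⟩ := gs_data F h hcc hg
  obtain ⟨-, L⟩ := G.levs H
  obtain ⟨-, L'⟩ := G'.levs H
  have hly0 : lev y0 = i + 1 ∨ lev y0 + 1 = i := by
    rcases B.side with g | g
    · exact Or.inl g.2.1
    · exact Or.inr g.2.1
  have hlp : lev p = i + 2 ∨ lev p + 2 = i := by
    rcases B.side with g | g
    · exact Or.inl g.1
    · exact Or.inr g.1
  -- the elements which kill are not the element of the block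
  have nex : ∀ {a b c : P}, Gu i e x a b c → a ≠ y0 := by
    rintro a b c G1 rfl
    have hxs : x ∈ sit i p := by
      rcases B.side with ⟨g1, g2, g3, g4⟩ | ⟨g1, g2, g3, g4⟩
      · rcases G1.side with ⟨k1, k2, k3⟩ | ⟨k1, k2, k3⟩
        · exact (mem_sit_low H g1).2 ⟨a, by rw [g3]; simp, by rw [k2]; simp⟩
        · omega
      · rcases G1.side with ⟨k1, k2, k3⟩ | ⟨k1, k2, k3⟩
        · omega
        · exact (mem_sit_upp H g1).2 ⟨a, by rw [g3]; simp, by rw [k2]; simp⟩
    have := (B.ia x hxs).1
    omega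
  have hy := nex G
  have hy' := nex G'
  have nz : ∀ {a b c : P}, Gu i e x a b c → a ≠ y0 → b ≠ p := by
    rintro a b c G1 ha rfl
    rcases B.side with ⟨g1, g2, g3, g4⟩ | ⟨g1, g2, g3, g4⟩
    · rcases G1.side with ⟨k1, k2, k3⟩ | ⟨k1, k2, k3⟩
      · have := mem_uc.2 (mem_dc.1 k3)
        rw [g3, mem_singleton] at this
        exact ha this
      · have := lev_uc H k3
        omega
    · rcases G1.side with ⟨k1, k2, k3⟩ | ⟨k1, k2, k3⟩
      · have := lev_dc H k3
        omega
      · have := mem_dc.2 (mem_uc.1 k3)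
        rw [g3, mem_singleton] at this
        exact ha this
  have hz := nz G hy
  have hz' := nz G' hy'
  have hzz : z ≠ z' := by
    rintro rfl
    rcases G'.side with g | g
    · exact n1 g.2.2
    · exact n2 g.2.2
  have hyz' : y ≠ z' := by rintro rfl; omega
  have hyz : y ≠ z := by rintro rfl; omega
  have hy'z : y' ≠ z := by rintro rfl; omega
  have hy'z' : y' ≠ z' := by rintro rfl; omega
  have hyp : y ≠ p := by rintro rfl; omega
  have hy'p : y' ≠ p := by rintro rfl; omega
  have hy0p : y0 ≠ p := by rintro rfl; omega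
  have hzy0 : z ≠ y0 := by rintro rfl; omega
  have hz'y0 : z' ≠ y0 := by rintro rfl; omega
  have he : e = on {x, y, y', z, z', y0, p} := by
    apply eq_on
    · intro a ha
      simp only [mem_insert, mem_singleton] at ha
      rcases ha with rfl | rfl | rfl | rfl | rfl | rfl | rfl
      · omega
      · have := G.ey; omega
      · have := G'.ey; omega
      · exact G.ez
      · exact G'.ez
      · rw [B.e1]
      · rw [B.e2]
    · rw [card_insert_of_notMem, card_insert_of_notMem, card_insert_of_notMem,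
        card_insert_of_notMem, card_insert_of_notMem, card_pair hy0p, hE]
      · simp [hz'y0, hz']
      · simp [hzz, hzy0, hz]
      · simp [hy'z, hy'z', hy', hy'p]
      · simp [hne, hyz, hyz', hy, hyp]
      · simp only [mem_insert, mem_singleton]
        rintro (rfl | rfl | rfl | rfl | rfl | rfl) <;> omega
  obtain ⟨a1, a2, a3⟩ := G.pen F h (fun w hw hzw hl => by
    rw [he] at hw
    have hw1 := on_pos.1 hw
    simp only [mem_insert, mem_singleton] at hw1
    rcases hw1 with rfl | rfl | rfl | rfl | rfl | rfl | rfl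
    · omega
    · rfl
    · exfalso
      rcases hzw with h2 | h2
      · exact n1 h2
      · exact n2 h2
    · omega
    · omega
    · exfalso
      have := B.oth z hz hzw
      have := G.ez
      omega
    · omega)
  have := B.alone F hm h z a1 hz
  have := G.ez
  omega

/-- THE TIGHT CORES of energy seven -/
theorem tt_seven (h : Okc i psi C e) (hE : ∑ x, e x = 7) (hk : kp i e = 3)
    (hcc : Xg.CC i e = ∅) : ∃ z z' p, Tw i C z z' ∧ p ∈ PN i C ∧ Disjoint (sit i z) (sit i p) ∧
      e = cS i z z' p := by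
  have g1 := F.gen h (by omega)
  rw [hcc, card_empty, hk, hE] at g1
  unfold nb at g1
  push_cast at g1
  have g2 := F.gs h hcc
  have g3 := F.p1_le hm h
  have hTU : TWU i e = ∅ := Rd.TWU_empty F.G
  rw [hTU, card_empty] at g1 g2
  push_cast at g1
  rw [hE] at g2
  have h1 : 0 < (P1L i psi e).card + (P1U i psi e).card := by omega
  obtain ⟨p, y, B⟩ := blo_of F hm h h1
  rcases Nat.eq_zero_or_pos (GS i psi e).card with h2 | h2
  · obtain ⟨z, hz⟩ := card_pos.1 (show 0 < (TWL i e).card by omega)
    obtain ⟨z', a, b, c⟩ := tw_seven F h hE hcc hz B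
    exact ⟨z, z', p, a, B.mem, b, c⟩
  · exact absurd (gs_seven F hm h hE hcc h2 B) id

end seven

end Pool.Agent.GaussPoset.Win.Pn
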