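import Pool.Agent.W_448pn_h63.PnV

/-!
# The series pinned at one element, energy seven (MP_448cb3_co, G2, case B, window j - 1)
-/

set_option autoImplicit false

namespace Pool.Agent.GaussPoset.Win.Pn

set_option linter.unusedSectionVars false

open Finset W4
open Pool.Agent.GaussPoset.Win.Xg (Okc kp CanD)
open Pool.Agent.GaussPoset.Win.SO (con PN on mem_PN Cls BL BU nL nU mem_con self_con vp I5 mem_I5
  c5 TD tL tU)

universe u

variable {P : Type u} [Fintype P] [PartialOrder P] [DecidableEq P] {r i : ℕ}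
variable {e f g : P → ℕ} {psi : P → P} {C K s : Finset P} {t : P → ℕ} {d x p w : P}

open Classical in
/-- twins and a pendant with other sites -/
noncomputable def F7 (i : ℕ) (C : Finset P) : Finset ((P × P) × P) :=
  ((Tws i C) ×ˢ (PN i C)).filter (fun q => Disjoint (sit i q.1.1) (sit i q.2))

lemma mem_F7 {q : (P × P) × P} : q ∈ F7 i C ↔ Tw i C q.1.1 q.1.2 ∧ q.2 ∈ PN i C ∧
    Disjoint (sit i q.1.1) (sit i q.2) := by
  classical
  unfold F7
  rw [mem_filter, mem_product, mem_Tws, and_assoc]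

section seven

variable (F : Fr r i psi C)
include F

lemma cS_pos {z z' : P} (T : Tw i C z z') (hp : p ∈ PN i C) {a : P} (ha : Two i a) :
    1 ≤ cS i z z' p a ↔ z = a ∨ z' = a ∨ p = a := by
  have H := F.E.H
  have z2 : Two i p := pn_lev F hp
  have h1 := cT_pos F T ha
  have h2 : 1 ≤ on (con i p) a ↔ a = p := by rw [on_pos, con_far H ha z2]
  unfold cS
  constructor
  · intro h
    by_cases g : 1 ≤ cT i z z' a
    · rcases h1.1 g with g | g
      · exact Or.inl g
      · exact Or.inr (Or.inl g)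
    · exact Or.inr (Or.inr (h2.1 (by omega)).symm)
  · rintro (g | g | g)
    · have := h1.2 (Or.inl g)
      omega
    · have := h1.2 (Or.inr g)
      omega
    · have := h2.2 g.symm
      omega

lemma tw_not_PN {z z' : P} (T : Tw i C z z') : z ∉ PN i C ∧ z' ∉ PN i C := by
  have H := F.E.H
  have hz' : z' ∈ ZL i C := ZL_of_eq H T.zl T.mC T.uc
  constructor
  · rw [PN_low H (mem_ZL.1 T.zl).2.1]
    exact fun h => ZL_not_PD H T.zl h.2
  · rw [PN_low H (mem_ZL.1 hz').2.1]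
    exact fun h => ZL_not_PD H hz' h.2

lemma cS_inj {q q' : (P × P) × P} (h1 : q ∈ F7 i C) (h2 : q' ∈ F7 i C)
    (h : cS i q.1.1 q.1.2 q.2 = cS i q'.1.1 q'.1.2 q'.2) : q = q' := by
  have H := F.E.H
  obtain ⟨T, hp, hd⟩ := mem_F7.1 h1
  obtain ⟨T', hp', hd'⟩ := mem_F7.1 h2
  obtain ⟨n1, n2⟩ := tw_not_PN F T
  obtain ⟨n1', n2'⟩ := tw_not_PN F T'
  obtain ⟨x, x', s, D, D', lz, lz', lx, lx'⟩ := twd F T
  obtain ⟨y, y', s2, D2, D2', mz, mz', my, my'⟩ := twd F T'
  have tp := pn_lev F hp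
  have tp' := pn_lev F hp'
  have g1 : q.1.1 = q'.1.1 := by
    have k1 : 1 ≤ cS i q'.1.1 q'.1.2 q'.2 q.1.1 := by
      rw [← h, cS_pos F T hp (Or.inl lz)]
      exact Or.inl rfl
    rw [cS_pos F T' hp' (Or.inl lz)] at k1
    rcases k1 with k1 | k1 | k1
    · exact k1.symm
    · -- the value two
      exfalso
      have k2 : 2 ≤ cS i q.1.1 q.1.2 q.2 q.1.1 := by
        unfold cS
        rw [cT_two F T]
        omega
      rw [h] at k2
      unfold cS at k2
      have k3 : on (con i q'.2) q.1.1 = 0 := on_zero (by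
        rw [con_far H (Or.inl lz) tp']
        rintro h'
        exact n1 (h' ▸ hp'))
      have k4 : cT i q'.1.1 q'.1.2 q.1.1 = 1 := by
        rw [← k1]
        exact (cT_vals F mz mz' D2.cw D2'.cw T'.ne.symm).2.1
      omega
    · exact absurd (k1 ▸ hp') n1
  have g2 : q.1.2 = q'.1.2 := by
    have k1 : 1 ≤ cS i q'.1.1 q'.1.2 q'.2 q.1.2 := by
      rw [← h, cS_pos F T hp (Or.inl lz')]
      exact Or.inr (Or.inl rfl)
    rw [cS_pos F T' hp' (Or.inl lz')] at k1
    rcases k1 with k1 | k1 | k1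
    · exact absurd (g1.trans k1) T.ne
    · exact k1.symm
    · exact absurd (k1 ▸ hp') n2
  have g3 : q.2 = q'.2 := by
    have k1 : 1 ≤ cS i q'.1.1 q'.1.2 q'.2 q.2 := by
      rw [← h, cS_pos F T hp tp]
      exact Or.inr (Or.inr rfl)
    rw [cS_pos F T' hp' tp] at k1
    rcases k1 with k1 | k1 | k1
    · exact absurd (k1 ▸ hp) n1'
    · exact absurd (k1 ▸ hp) n2'
    · exact k1.symm
  exact Prod.ext (Prod.ext g1 g2) g3

open Classical in
/-- THE COEFFICIENT of the energy seven of a series pinned at one element -/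
theorem hc_seven_ind (hm : Meet i C) (hw : w ∈ C) (lw : lev w = i + 2) :
    hc 7 (st i C).card (ZPS i C (ind w)) =
      ∑ q ∈ (F7 i C).filter (fun q => q.1.1 = w ∨ q.1.2 = w ∨ q.2 = w), -vp i q.2 := by
  have H := F.E.H
  have tw : Two i w := Or.inl lw
  rw [F.top hm (far_ind lw) once_ind (n := 7) (K := 2) rfl (by omega) (by omega)]
  have h1 : TT i psi C (ind w) 7 (2 + 1) =
      ((F7 i C).filter (fun q => q.1.1 = w ∨ q.1.2 = w ∨ q.2 = w)).image
        (fun q => cS i q.1.1 q.1.2 q.2) := by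
    ext e
    rw [mem_TT, mem_image, pin_ind hw]
    constructor
    · rintro ⟨a1, a2, a3, a4, a5⟩
      obtain ⟨z, z', p, T, hp, hd, rfl⟩ := tt_seven F hm a2 a1 (by rw [a4]; rfl) a5
      exact ⟨((z, z'), p), mem_filter.2 ⟨mem_F7.2 ⟨T, hp, hd⟩, (cS_pos F T hp tw).1 a3⟩, rfl⟩
    · rintro ⟨q, hq, rfl⟩
      obtain ⟨hq1, hq2⟩ := mem_filter.1 hq
      obtain ⟨T, hp, hd⟩ := mem_F7.1 hq1
      obtain ⟨b1, b2, b3, b4, b5⟩ := cS_ok F T hp hd
      exact ⟨b5, b1, (cS_pos F T hp tw).2 hq2, by rw [b2]; rfl, b4⟩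
  rw [h1, Finset.sum_image]
  · refine Finset.sum_congr rfl fun q hq => ?_
    obtain ⟨T, hp, hd⟩ := mem_F7.1 (mem_filter.1 hq).1
    exact (cS_ok F T hp hd).2.2.1
  · intro q hq q' hq' h
    exact cS_inj F (mem_filter.1 hq).1 (mem_filter.1 hq').1 h

variable (hm : Meet i C)
include hm

open Classical in
/-- the value at a pendant -/
theorem rho7_PD (hw : w ∈ C) (hp : w ∈ PD P i) :
    hc 7 (st i C).card (ZPS i C (ind w)) =
      -(((Tws i C).filter (fun q => Disjoint (sit i q.1) (sit i w))).card : ℤ) := by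
  have H := F.E.H
  have lw : lev w = i + 2 := (mem_PD.1 hp).1
  have hwn : w ∈ PN i C := mem_PN.2 ⟨hw, Or.inl hp⟩
  have hv : vp i w = 1 := SO.vp_PD hp
  rw [hc_seven_ind F hm hw lw]
  have h2 : ∑ q ∈ (F7 i C).filter (fun q => q.1.1 = w ∨ q.1.2 = w ∨ q.2 = w), -vp i q.2 =
      ∑ q ∈ (Tws i C).filter (fun q => Disjoint (sit i q.1) (sit i w)), (-1 : ℤ) := by
    refine Finset.sum_nbij' (fun q => q.1) (fun q => (q, w)) ?_ ?_ ?_ ?_ ?_
    · intro q hq
      obtain ⟨h3, h4⟩ := mem_filter.1 hq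
      obtain ⟨T, g2, g3⟩ := mem_F7.1 h3
      obtain ⟨n1, n2⟩ := tw_not_PN F T
      rcases h4 with h4 | h4 | h4
      · exact absurd hwn (h4 ▸ n1)
      · exact absurd hwn (h4 ▸ n2)
      · rw [← h4]
        exact mem_filter.2 ⟨mem_Tws.2 T, g3⟩
    · intro q hq
      obtain ⟨h3, h4⟩ := mem_filter.1 hq
      exact mem_filter.2 ⟨mem_F7.2 ⟨mem_Tws.1 h3, hwn, h4⟩, Or.inr (Or.inr rfl)⟩
    · intro q hq
      obtain ⟨h3, h4⟩ := mem_filter.1 hq
      obtain ⟨T, g2, g3⟩ := mem_F7.1 h3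
      obtain ⟨n1, n2⟩ := tw_not_PN F T
      rcases h4 with h4 | h4 | h4
      · exact absurd hwn (h4 ▸ n1)
      · exact absurd hwn (h4 ▸ n2)
      · exact Prod.ext rfl h4.symm
    · intro q hq
      rfl
    · intro q hq
      obtain ⟨h3, h4⟩ := mem_filter.1 hq
      obtain ⟨T, g2, g3⟩ := mem_F7.1 h3
      obtain ⟨n1, n2⟩ := tw_not_PN F T
      rcases h4 with h4 | h4 | h4
      · exact absurd hwn (h4 ▸ n1)
      · exact absurd hwn (h4 ▸ n2)
      · rw [h4, hv]
  rw [h2, Finset.sum_const, nsmul_eq_mul]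
  ring

open Classical in
/-- the value at an element with three sites -/
theorem rho7_ZL (hz : w ∈ ZL i C) :
    hc 7 (st i C).card (ZPS i C (ind w)) =
      -((ntw C w : ℤ) *
        ∑ p ∈ (PN i C).filter (fun p => Disjoint (sit i w) (sit i p)), vp i p) := by
  have H := F.E.H
  obtain ⟨hw, lw, h3s⟩ := mem_ZL.1 hz
  have hwn : w ∉ PN i C := by
    rw [PN_low H lw]
    exact fun h => ZL_not_PD H hz h.2
  rw [hc_seven_ind F hm hw lw]
  have hsit : ∀ q ∈ Tws i C, (q.1 = w ∨ q.2 = w) → sit i q.1 = sit i w := by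
    intro q hq h
    have T := mem_Tws.1 hq
    rcases h with h | h
    · rw [h]
    · rw [← h, sit_low H (by have := (mem_ZL.1 T.zl).2.1; omega),
        sit_low H (by rw [h]; omega)]
      ext v
      rw [mem_sts_iff H (mem_ZL.1 T.zl).2.1, mem_sts_iff H (by rw [h]; exact lw), T.uc]
  have h2 : (F7 i C).filter (fun q => q.1.1 = w ∨ q.1.2 = w ∨ q.2 = w) =
      ((Tws i C).filter (fun q => q.1 = w ∨ q.2 = w)) ×ˢ
        ((PN i C).filter (fun p => Disjoint (sit i w) (sit i p))) := by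
    ext q
    rw [mem_filter, mem_product, mem_filter, mem_filter, mem_F7]
    constructor
    · rintro ⟨⟨T, g2, g3⟩, h⟩
      have h4 : q.1.1 = w ∨ q.1.2 = w := by
        rcases h with h | h | h
        · exact Or.inl h
        · exact Or.inr h
        · exact absurd (h ▸ g2) hwn
      rw [hsit q.1 (mem_Tws.2 T) h4] at g3
      exact ⟨⟨mem_Tws.2 T, h4⟩, g2, g3⟩
    · rintro ⟨⟨T, h⟩, g2, g3⟩
      rw [← hsit q.1 T h] at g3
      refine ⟨⟨mem_Tws.1 T, g2, g3⟩, ?_⟩
      tauto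
  rw [h2, Finset.sum_product]
  simp only []
  rw [Finset.sum_const, card_Tws H hz, nsmul_eq_mul, sum_neg_distrib]
  ring

/-- the value at the other elements -/
theorem rho7_else (hw : w ∈ C) (lw : lev w = i + 2) (hp : w ∉ PD P i) (hz : w ∉ ZL i C) :
    hc 7 (st i C).card (ZPS i C (ind w)) = 0 := by
  classical
  have H := F.E.H
  have hwn : w ∉ PN i C := by
    rw [PN_low H lw]
    exact fun h => hp h.2
  rw [hc_seven_ind F hm hw lw]
  apply Finset.sum_eq_zero
  intro q hq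
  exfalso
  obtain ⟨h3, h4⟩ := mem_filter.1 hq
  obtain ⟨T, g2, g3⟩ := mem_F7.1 h3
  rcases h4 with h4 | h4 | h4
  · exact hz (h4 ▸ T.zl)
  · exact hz (h4 ▸ ZL_of_eq H T.zl T.mC T.uc)
  · exact hwn (h4 ▸ g2)

end seven

end Pool.Agent.GaussPoset.Win.Pn
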