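import Pool.Agent.W_448pn_h63.PnW
import Pool.Agent.W_448xc_h84.XhB

/-!
# The pinned series in case B at the window `j - 1` (MP_448cb3_co, G2)
-/

set_option autoImplicit false

namespace Pool.Agent.GaussPoset.Win.Pn

set_option linter.unusedSectionVars false

open Finset W4 Wd
open Pool.Agent.GaussPoset.Win.SO (con PN on mem_PN vp)
open Pool.Agent.GaussPoset.Win.I2 (bb VV)

universe u

variable {P : Type u} [Fintype P] [PartialOrder P] [DecidableEq P] {r j i : ℕ}
  {psi : P → P} {C : Finset P}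

section nj

variable (h : NJ P r j) (hij : i + 1 = j) (hi1 : 1 ≤ i)
include h hij hi1

/-- the frame of a part -/
theorem nj_fr (hM : Mat P i ∅ psi) (t : Tops P) : Fr r i psi (SS i t) := by
  have g : GoodTo P r (i + 1) := by rw [hij]; exact h.g
  have hQ : K2.NoQ P (i + 3) := by
    have h1 := Pool.Agent.GaussPoset.EK.NJ.noQ h (by omega)
    rwa [show j + 2 = i + 3 by omega] at h1
  exact ⟨⟨h.g.H, hi1, g.hr, hM, h.part (by omega) (by omega) t⟩, g, h.noTT hij hi1, hQ⟩

/-- at most one pendant below and one above, and as many below as above -/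
theorem nj_one (t : Tops P) : ((SS i t).filter (· ∈ PD P i)).card ≤ 1 ∧
    ((SS i t).filter (· ∈ PU P i)).card ≤ 1 ∧ Bal i (SS i t) := by
  classical
  have hone := indiv_21 h.g i (by omega) t t.2
  have h1 : (SS i t).filter (· ∈ PD P i) = PDt i (t : P) := by
    ext q
    rw [mem_filter, mem_PDt]
    constructor
    · rintro ⟨h1, h2⟩
      have := (lev_PD h2).1
      exact ⟨h2, (h.mem (by omega) t (by omega)).1 h1⟩
    · rintro ⟨h1, h2⟩
      have := (lev_PD h1).1
      exact ⟨(h.mem (by omega) t (by omega)).2 h2, h1⟩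
  have h2 : (SS i t).filter (· ∈ PU P i) = PUt i (t : P) := by
    ext q
    rw [mem_filter, mem_PUt]
    constructor
    · rintro ⟨h1, h2⟩
      have := (mem_PU.1 h2).1
      exact ⟨h2, (h.mem (by omega) t (by omega)).1 h1⟩
    · rintro ⟨h1, h2⟩
      have := (mem_PU.1 h1).1
      exact ⟨(h.mem (by omega) t (by omega)).2 h2, h1⟩
  unfold Bal
  rw [h1, h2, hone.2]
  exact ⟨hone.1, hone.1, rfl⟩

/-- two pendants of a part have a common site -/
theorem nj_meet (hM : Mat P i ∅ psi) (t : Tops P) : Meet i (SS i t) := by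
  classical
  have F := nj_fr h hij hi1 hM t
  have H := h.g.H
  obtain ⟨n1, n2, -⟩ := nj_one h hij hi1 t
  rw [card_le_one] at n1 n2
  have key : ∀ p ∈ SS i t, p ∈ PD P i → ∀ p' ∈ SS i t, p' ∈ PU P i →
      ¬ Disjoint (sit i p) (sit i p') := by
    intro p hp hpD p' hp' hpU hd
    have hpn : p ∈ PN i (SS i t) := mem_PN.2 ⟨hp, Or.inl hpD⟩
    have hpn' : p' ∈ PN i (SS i t) := mem_PN.2 ⟨hp', Or.inr hpU⟩
    obtain ⟨c1, -⟩ := pn_two F hpn
    obtain ⟨c2, -⟩ := pn_two F hpn'
    have h4 : 4 ≤ (st i (SS i t)).card := by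
      have h5 : sit i p ∪ sit i p' ⊆ st i (SS i t) :=
        union_subset (SO.sit_part H F.E.hC hp) (SO.sit_part H F.E.hC hp')
      have h6 := card_le_card h5
      rw [card_union_of_disjoint hd, c1, c2] at h6
      exact h6
    obtain ⟨lo, hi, e, Cm⟩ := Cp.comp_exists h.g.H t.2 h.g.hr h.g.good
    have hc := h.card_SS (i := i) (by omega) Cm
    rcases h.dich hij hi1 Cm (by omega) hM with hN | ⟨y, q, w, u, v, v', O⟩
    · exact (hN p hp).1 hpD
    · have e1 := O.low p hp hpD
      have e2 := O.upp p' hp' hpU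
      subst e1 e2
      rw [sit_PDs H hpD O.F.up, sit_PUs H hpU O.F.du, O.F.uy, O.F.dw, disjoint_self] at hd
      exact (insert_ne_empty _ _) hd
  intro p hp p' hp' hne hd
  obtain ⟨m1, k1⟩ := mem_PN.1 hp
  obtain ⟨m2, k2⟩ := mem_PN.1 hp'
  rcases k1 with k1 | k1 <;> rcases k2 with k2 | k2
  · exact hne (n1 p (mem_filter.2 ⟨m1, k1⟩) p' (mem_filter.2 ⟨m2, k2⟩))
  · exact key p m1 k1 p' m2 k2 hd
  · exact key p' m2 k2 p m1 k1 hd.symm
  · exact hne (n2 p (mem_filter.2 ⟨m1, k1⟩) p' (mem_filter.2 ⟨m2, k2⟩))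

/-- THE PINNED SERIES of the parts in case B -/
theorem nj_pinH : PinH i (topOf : P → Tops P) := by
  classical
  obtain ⟨psi, hM⟩ := good_mat h.g.H (h.g.good i (by omega))
  have hl : i + 2 = j + 1 := by omega
  have hc : ∀ t : Tops P, cext (i + 2) (topOf : P → Tops P) t = SS i t := by
    intro t
    rw [hl]
    exact h.cext_eq (by omega) t
  have hb : ∀ t : Tops P, bb i (i + 2) (topOf : P → Tops P) t = (st i (SS i t)).card := by
    intro t
    rw [hl]
    exact h.bb_eq (by omega) t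
  constructor
  · intro a _ t ht _
    rw [hc, hb]
    exact (nj_fr h hij hi1 hM a).hp ht
  · intro a _ t ht _ h1
    rw [hc] at h1 ⊢
    rw [hb]
    exact (nj_fr h hij hi1 hM a).mo (nj_meet h hij hi1 hM a) ht
      (nj_one h hij hi1 a).2.2 h1

/-- no crossing element has two exchangeable covers -/
theorem nj_noTT : NoTT i (topOf : P → Tops P) := by
  classical
  intro z hz
  have H := h.g.H
  have hl : i + 2 = j + 1 := by omega
  have hκ : Split (i + 2) (topOf : P → Tops P) := by rw [hl]; exact h.split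
  obtain ⟨p, p', a, a', hu, hne, ha, ha', haa, hpa, hpa'⟩ := z1s_covers H hκ hz
  by_contra hcon
  push Not at hcon
  obtain ⟨w, w2, q1, x, q2, T⟩ := hcon p (by rw [hu]; simp)
  obtain ⟨w', w2', q1', x', q2', T'⟩ := hcon p' (by rw [hu]; simp)
  have lp : lev p = i + 2 := by
    have := T.ld
    unfold Xg.laL at this
    omega
  have lz := lev_uc H (show p ∈ uc z by rw [hu]; simp)
  have hQ : K2.NoQ P (i + 3) := by
    have h1 := Pool.Agent.GaussPoset.EK.NJ.noQ h (by omega)
    rwa [show j + 2 = i + 3 by omega] at h1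
  obtain ⟨v, hv, hv'⟩ := hQ z (by omega) p (by rw [hu]; simp) p' (by rw [hu]; simp) hne
    (by rw [T.ud, card_pair T.ne]) (by rw [T'.ud, card_pair T'.ne])
  have lv1 := lev_uc H hv
  have k1 := mem_cext.1 hpa v (mem_uc.1 hv).le (by omega)
  have k2 := mem_cext.1 hpa' v (mem_uc.1 hv').le (by omega)
  exact haa (k1.symm.trans k2)

end nj

end Pool.Agent.GaussPoset.Win.Pn
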