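import Pool.Agent.W_448pn_h63.PnX

/-!
# The crossing numbers in case B at the window `j - 1` (MP_448cb3_co, G2)

`XX 8` and `XX 10`: explicit values.
-/

set_option autoImplicit false

namespace Pool.Agent.GaussPoset.Win.Pn

set_option linter.unusedSectionVars false

open Finset W4 Wd
open Pool.Agent.GaussPoset.Win.SO (con PN on mem_PN vp)
open Pool.Agent.GaussPoset.Win.I2 (bb VV)
open Pool.Agent.GaussPoset.Win.So (N5s)
open Pool.Agent.GaussPoset.Win.T8 (XX)

universe u

variable {P : Type u} [Fintype P] [PartialOrder P] [DecidableEq P] {r j i : ℕ}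
  {psi : P → P} {C : Finset P} {p p' w z : P}

section pair

variable {ι : Type*} [DecidableEq ι] {κ : P → ι}

lemma sg_three (a : ι) : sg i κ 3 a = I2.al 3 (bb i (i + 2) κ a) (VV i (i + 2) κ a) := by
  unfold sg hc I2.al
  rw [show 3 / 2 = 1 from rfl, pow_one]

lemma sg_five (a : ι) : sg i κ 5 a = I2.be 5 (bb i (i + 2) κ a) (VV i (i + 2) κ a) := rfl

open Classical in
/-- the contribution of a crossing element with the covers `p` and `p'` -/
theorem WW_pair (hu : uc z = {p, p'}) (hne : p ≠ p') (m : ℕ) : WW i κ m z =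
    (if p' ∈ PD P i then rho i κ (2 * m - 1) p else 0) +
      (if p ∈ PD P i then rho i κ (2 * m - 1) p' else 0) +
        (if p ∈ PD P i ∧ p' ∈ PD P i then ∑ a ∈ univ.image κ, sg i κ (2 * m - 3) a -
          (sg i κ (2 * m - 3) (κ p) + sg i κ (2 * m - 3) (κ p')) else 0) := by
  unfold WW
  rw [hu, Finset.sum_pair hne, Finset.sum_pair hne]
  have h1 : (∀ q ∈ ({p, p'} : Finset P), q ≠ p → q ∈ PD P i) ↔ p' ∈ PD P i := by
    simp only [mem_insert, mem_singleton, forall_eq_or_imp, forall_eq]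
    exact ⟨fun h => h.2 hne.symm, fun h => ⟨fun h' => absurd rfl h', fun _ => h⟩⟩
  have h2 : (∀ q ∈ ({p, p'} : Finset P), q ≠ p' → q ∈ PD P i) ↔ p ∈ PD P i := by
    simp only [mem_insert, mem_singleton, forall_eq_or_imp, forall_eq]
    exact ⟨fun h => h.1 hne, fun h => ⟨fun _ => h, fun h' => absurd rfl h'⟩⟩
  have h3 : (∀ q ∈ ({p, p'} : Finset P), q ∈ PD P i) ↔ p ∈ PD P i ∧ p' ∈ PD P i := by
    simp only [mem_insert, mem_singleton, forall_eq_or_imp, forall_eq]
  simp only [h1, h2, h3]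

end pair

section nj

variable (h : NJ P r j) (hij : i + 1 = j) (hi1 : 1 ≤ i)
include h hij hi1

/-- THE CROSSING NUMBER at the energy eight -/
theorem nj_XX8 (hb : 1 ≤ (lv P i).card) : XX i (topOf : P → Tops P) 8 =
    ∑ z ∈ X3 i (topOf : P → Tops P), WW i topOf 3 z +
      ((PR i (topOf : P → Tops P) 3).card : ℤ) := by
  have hκ : Split (i + 2) (topOf : P → Tops P) := by
    rw [show i + 2 = j + 1 by omega]
    exact h.split
  exact XX_eight' h.g.H hi1 (by have := h.g.hr; omega) hκ hb (nj_pinH h hij hi1)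
    (nj_noTT h hij hi1)

/-- THE CROSSING NUMBER at the energy ten -/
theorem nj_XX10 (hb : 1 ≤ (lv P i).card) : XX i (topOf : P → Tops P) 10 =
    ∑ z ∈ X3 i (topOf : P → Tops P), WW i topOf 4 z +
      ((PR i (topOf : P → Tops P) 4).card : ℤ) + ((N5s i (topOf : P → Tops P)).card : ℤ) := by
  have hκ : Split (i + 2) (topOf : P → Tops P) := by
    rw [show i + 2 = j + 1 by omega]
    exact h.split
  exact XX_ten' h.g.H hi1 (by have := h.g.hr; omega) (h.g.good i (by omega)) hκ hb
    (nj_pinH h hij hi1) (nj_noTT h hij hi1)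

lemma nj_rho (n : ℕ) : rho i (topOf : P → Tops P) n p =
    hc n (st i (SS i (topOf p))).card (ZPS i (SS i (topOf p)) (ind p)) := by
  unfold rho
  rw [show i + 2 = j + 1 by omega, h.cext_eq (i := i) (by omega), h.bb_eq (i := i) (by omega)]

lemma nj_mem (lw : lev w = i + 2) : w ∈ SS i (topOf w) :=
  (h.mem (by omega) (topOf w) (by omega)).2 (le_topOf w)

open Classical in
theorem nj_rho5_PD (hp : p ∈ PD P i) : rho i (topOf : P → Tops P) 5 p =
    ∑ z ∈ (ZL i (SS i (topOf p)) ∪ ZU i (SS i (topOf p))).filter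
      (fun z => Disjoint (sit i z) (sit i p)), chg i (SS i (topOf p)) z +
        ∑ p' ∈ Ov i (SS i (topOf p)) p, vp i p' := by
  obtain ⟨psi, hM⟩ := good_mat h.g.H (h.g.good i (by omega))
  rw [nj_rho h hij hi1]
  exact rho5_PD (nj_fr h hij hi1 hM _) (nj_meet h hij hi1 hM _)
    (nj_mem h hij hi1 (mem_PD.1 hp).1) hp

open Classical in
theorem nj_rho5_ZL (hz : w ∈ ZL i (SS i (topOf w))) : rho i (topOf : P → Tops P) 5 w =
    -∑ p ∈ (PN i (SS i (topOf w))).filter (fun p => Disjoint (sit i w) (sit i p)), vp i p -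
      (ntw (SS i (topOf w)) w : ℤ) := by
  obtain ⟨psi, hM⟩ := good_mat h.g.H (h.g.good i (by omega))
  rw [nj_rho h hij hi1]
  exact rho5_ZL (nj_fr h hij hi1 hM _) (nj_meet h hij hi1 hM _) hz

theorem nj_rho5_else (lw : lev w = i + 2) (hp : w ∉ PD P i)
    (hz : w ∉ ZL i (SS i (topOf w))) : rho i (topOf : P → Tops P) 5 w = 0 := by
  obtain ⟨psi, hM⟩ := good_mat h.g.H (h.g.good i (by omega))
  rw [nj_rho h hij hi1]
  exact rho5_else (nj_fr h hij hi1 hM _) (nj_meet h hij hi1 hM _) (nj_mem h hij hi1 lw) lw hp hz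

open Classical in
theorem nj_rho7_PD (hp : p ∈ PD P i) : rho i (topOf : P → Tops P) 7 p =
    -(((Tws i (SS i (topOf p))).filter (fun q => Disjoint (sit i q.1) (sit i p))).card : ℤ) := by
  obtain ⟨psi, hM⟩ := good_mat h.g.H (h.g.good i (by omega))
  rw [nj_rho h hij hi1]
  exact rho7_PD (nj_fr h hij hi1 hM _) (nj_meet h hij hi1 hM _)
    (nj_mem h hij hi1 (mem_PD.1 hp).1) hp

open Classical in
theorem nj_rho7_ZL (hz : w ∈ ZL i (SS i (topOf w))) : rho i (topOf : P → Tops P) 7 w =
    -((ntw (SS i (topOf w)) w : ℤ) * ∑ p ∈ (PN i (SS i (topOf w))).filter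
      (fun p => Disjoint (sit i w) (sit i p)), vp i p) := by
  obtain ⟨psi, hM⟩ := good_mat h.g.H (h.g.good i (by omega))
  rw [nj_rho h hij hi1]
  exact rho7_ZL (nj_fr h hij hi1 hM _) (nj_meet h hij hi1 hM _) hz

theorem nj_rho7_else (lw : lev w = i + 2) (hp : w ∉ PD P i)
    (hz : w ∉ ZL i (SS i (topOf w))) : rho i (topOf : P → Tops P) 7 w = 0 := by
  obtain ⟨psi, hM⟩ := good_mat h.g.H (h.g.good i (by omega))
  rw [nj_rho h hij hi1]
  exact rho7_else (nj_fr h hij hi1 hM _) (nj_meet h hij hi1 hM _) (nj_mem h hij hi1 lw) lw hp hz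

/-- a part with at least four sites: the sum over the pendants with other sites vanishes -/
theorem nj_pn_zero (hM : Mat P i ∅ psi) (t : Tops P) (h4 : 4 ≤ (st i (SS i t)).card)
    [DecidablePred (fun p : P => Disjoint (sit i w) (sit i p))] :
    ∑ p ∈ (PN i (SS i t)).filter (fun p => Disjoint (sit i w) (sit i p)), vp i p = 0 := by
  obtain ⟨lo, hi, e, Cm⟩ := Cp.comp_exists h.g.H t.2 h.g.hr h.g.good
  have hc := h.card_SS (i := i) (by omega) Cm
  rcases h.dich hij hi1 Cm (by omega) hM with hN | ⟨y, q, w', u, v, v', O⟩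
  · apply Finset.sum_eq_zero
    intro p hp
    exfalso
    obtain ⟨h1, h2⟩ := mem_PN.1 (mem_filter.1 hp).1
    rcases h2 with h2 | h2
    · exact (hN p h1).1 h2
    · exact (hN p h1).2 h2
  · have H := h.g.H
    have hF := O.F
    have lv1 := lev_uc H (show v ∈ uc y by rw [hF.uy]; simp)
    have ly := hF.ly
    have lw' := hF.lw
    have lq : lev q = i + 2 := by
      have := lev_uc H (show y ∈ uc q by rw [hF.up]; simp)
      omega
    have lu : lev u + 2 = i := by
      have := lev_dc H (show w' ∈ dc u by rw [hF.du]; simp)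
      omega
    have hqD : q ∈ PD P i := mem_PD.2 ⟨lq, by rw [hF.up, card_singleton], y,
      mem_uc.1 (by rw [hF.up]; simp), by rw [hF.uy, card_pair hF.ne]⟩
    have huU : u ∈ PU P i := mem_PU.2 ⟨lu, by rw [hF.du, card_singleton], w',
      mem_dc.1 (by rw [hF.du]; simp), by rw [hF.dw, card_pair hF.ne]⟩
    have s1 : sit i q = {v, v'} := by rw [sit_PDs H hqD hF.up, hF.uy]
    have s2 : sit i u = {v, v'} := by rw [sit_PUs H huU hF.du, hF.dw]
    have hPN : PN i (SS i t) = {q, u} := by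
      ext p
      rw [mem_PN, mem_insert, mem_singleton]
      constructor
      · rintro ⟨h1, h2 | h2⟩
        · exact Or.inl (O.low p h1 h2)
        · exact Or.inr (O.upp p h1 h2)
      · rintro (rfl | rfl)
        · exact ⟨O.mp, Or.inl hqD⟩
        · exact ⟨O.mu, Or.inr huU⟩
    have hqu : q ≠ u := by rintro rfl; omega
    rw [hPN]
    by_cases hd : Disjoint (sit i w) {v, v'}
    · rw [filter_true_of_mem, Finset.sum_pair hqu, SO.vp_PD hqD, SO.vp_PU huU]
      · norm_num
      · intro p hp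
        rw [mem_insert, mem_singleton] at hp
        rcases hp with rfl | rfl
        · rw [s1]; exact hd
        · rw [s2]; exact hd
    · rw [filter_false_of_mem, sum_empty]
      intro p hp
      rw [mem_insert, mem_singleton] at hp
      rcases hp with rfl | rfl
      · rw [s1]; exact hd
      · rw [s2]; exact hd

/-- a part with at least four sites: no pendants with exactly one common site -/
theorem nj_ov_empty (hM : Mat P i ∅ psi) (t : Tops P) (h4 : 4 ≤ (st i (SS i t)).card) :
    Ov i (SS i t) w = ∅ := by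
  rw [eq_empty_iff_forall_notMem]
  intro p hp
  obtain ⟨hp1, hw, hne, hc1⟩ := mem_Ov.1 hp
  obtain ⟨lo, hi, e, Cm⟩ := Cp.comp_exists h.g.H t.2 h.g.hr h.g.good
  have hc := h.card_SS (i := i) (by omega) Cm
  obtain ⟨m1, k1⟩ := mem_PN.1 hp1
  obtain ⟨m2, k2⟩ := mem_PN.1 hw
  have H := h.g.H
  rcases h.dich hij hi1 Cm (by omega) hM with hN | ⟨y, q, w', u, v, v', O⟩
  · rcases k1 with k1 | k1
    · exact (hN p m1).1 k1
    · exact (hN p m1).2 k1
  · have hF := O.F
    rcases k1 with k1 | k1 <;> rcases k2 with k2 | k2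
    · exact hne ((O.low w m2 k2).trans (O.low p m1 k1).symm)
    · have e1 := O.low p m1 k1
      have e2 := O.upp w m2 k2
      subst e1 e2
      rw [sit_PDs H k1 hF.up, sit_PUs H k2 hF.du, hF.uy, hF.dw, inter_self,
        card_pair hF.ne] at hc1
      omega
    · have e1 := O.upp p m1 k1
      have e2 := O.low w m2 k2
      subst e1 e2
      rw [sit_PDs H k2 hF.up, sit_PUs H k1 hF.du, hF.uy, hF.dw, inter_self,
        card_pair hF.ne] at hc1
      omega
    · exact hne ((O.upp w m2 k2).trans (O.upp p m1 k1).symm)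

end nj

end Pool.Agent.GaussPoset.Win.Pn
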