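import Pool.Agent.W_448pn_h63.PnY

/-!
# The totals (8,3) and (10,4) in case B at the window `j - 1` (MP_448cb3_co, G2)
-/

set_option autoImplicit false

namespace Pool.Agent.GaussPoset.Win.Pn

set_option linter.unusedSectionVars false

open Finset W4 Wd
open Pool.Agent.GaussPoset.Win.SO (con PN on mem_PN vp)
open Pool.Agent.GaussPoset.Win.I2 (bb VV)
open Pool.Agent.GaussPoset.Win.So (N5s Z2s mem_Z2s)
open Pool.Agent.GaussPoset.Win.T8 (XX P10 Q8 Q10 cg)

universe u

variable {P : Type u} [Fintype P] [PartialOrder P] [DecidableEq P] {r j i : ℕ}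
  {psi : P → P} {C : Finset P} {p p' w z : P}

section gen

variable {ι : Type*} [DecidableEq ι] {κ : P → ι}

open Classical in
/-- the local contribution of a crossing element of the level `i + 3` -/
noncomputable def Wn (i : ℕ) (κ : P → ι) (m : ℕ) (z : P) : ℤ :=
  ∑ p ∈ uc z, (if ∀ q ∈ uc z, q ≠ p → q ∈ PD P i then rho i κ (2 * m - 1) p else 0) -
    (if ∀ q ∈ uc z, q ∈ PD P i then ∑ p ∈ uc z, sg i κ (2 * m - 3) (κ p) else 0)

open Classical in
theorem Wn_pair (hu : uc z = {p, p'}) (hne : p ≠ p') (m : ℕ) : Wn i κ m z =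
    (if p' ∈ PD P i then rho i κ (2 * m - 1) p else 0) +
      (if p ∈ PD P i then rho i κ (2 * m - 1) p' else 0) -
        (if p ∈ PD P i ∧ p' ∈ PD P i then
          sg i κ (2 * m - 3) (κ p) + sg i κ (2 * m - 3) (κ p') else 0) := by
  unfold Wn
  rw [hu, Finset.sum_pair hne, Finset.sum_pair hne]
  have h1 : (∀ q ∈ ({p, p'} : Finset P), q ≠ p → q ∈ PD P i) ↔ p' ∈ PD P i := by
    simp only [mem_insert, mem_singleton, forall_eq_or_imp, forall_eq]
    exact ⟨fun h => h.2 hne.symm, fun h => ⟨fun h' => absurd rfl h', fun _ => h⟩⟩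
  have h2 : (∀ q ∈ ({p, p'} : Finset P), q ≠ p' → q ∈ PD P i) ↔ p ∈ PD P i := by
    simp only [mem_insert, mem_singleton, forall_eq_or_imp, forall_eq]
    exact ⟨fun h => h.1 hne, fun h => ⟨fun _ => h, fun h' => absurd rfl h'⟩⟩
  have h3 : (∀ q ∈ ({p, p'} : Finset P), q ∈ PD P i) ↔ p ∈ PD P i ∧ p' ∈ PD P i := by
    simp only [mem_insert, mem_singleton, forall_eq_or_imp, forall_eq]
  simp only [h1, h2, h3]

variable (H : Gr P r) (hκ : Split (i + 2) κ)
include H hκ

/-- the crossing elements with two pendants as covers -/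
lemma X3_Z2s : z ∈ Z2s i κ ↔ z ∈ X3 i κ ∧ ∀ q ∈ uc z, q ∈ PD P i := by
  constructor
  · intro hz
    obtain ⟨h1, h2, -, -⟩ := mem_Z2s.1 hz
    exact ⟨mem_X3.2 ⟨h1, h2⟩, fun q hq => (Z2s_cov H hκ hz hq).1⟩
  · rintro ⟨hz, hq⟩
    obtain ⟨h1, h2⟩ := mem_X3.1 hz
    have hcov : ∀ y, z ⋖ y → y ∈ cuni (i + 2) κ := by
      intro y hy
      have := lev_uc H (mem_uc.2 hy)
      exact le_mem_cuni hκ (by omega)
    obtain ⟨p, p', a, a', huc, hpp, ha, ha', haa, hpa, hpa'⟩ :=
      z1s_covers H hκ (mem_z1s.2 ⟨h2, hcov⟩)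
    have q1 := hq p (by rw [huc]; simp)
    have q1' := hq p' (by rw [huc]; simp)
    have l1 := PD_lev q1
    have l1' := PD_lev q1'
    obtain ⟨-, c1, y, hy, c2⟩ := mem_PD.1 q1
    obtain ⟨-, c1', y', hy', c2'⟩ := mem_PD.1 q1'
    have k1 : κ p = a := mem_cext.1 hpa p le_rfl (by omega)
    have k2 : κ p' = a' := mem_cext.1 hpa' p' le_rfl (by omega)
    have u1 : uc p = {y} := by
      obtain ⟨w, hw⟩ := card_eq_one.1 c1
      have := mem_uc.2 hy
      rw [hw, mem_singleton] at this
      rw [hw, this]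
    have u2 : uc p' = {y'} := by
      obtain ⟨w, hw⟩ := card_eq_one.1 c1'
      have := mem_uc.2 hy'
      rw [hw, mem_singleton] at this
      rw [hw, this]
    exact So.ZD.mem (⟨⟨h1, huc, by rw [k1, k2]; exact haa⟩, u1, u2, c2, c2'⟩ :
      So.ZD i κ z p p' y y') H hκ

/-- the local contributions -/
theorem sum_WW (m : ℕ) : ∑ z ∈ X3 i κ, WW i κ m z = ∑ z ∈ X3 i κ, Wn i κ m z +
    ((Z2s i κ).card : ℤ) * ∑ a ∈ univ.image κ, sg i κ (2 * m - 3) a := by
  classical
  have h1 : ∀ z ∈ X3 i κ, WW i κ m z = Wn i κ m z +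
      (if ∀ q ∈ uc z, q ∈ PD P i then ∑ a ∈ univ.image κ, sg i κ (2 * m - 3) a else 0) := by
    intro z _
    unfold WW Wn
    split_ifs <;> ring
  rw [Finset.sum_congr rfl h1, sum_add_distrib, ← Finset.sum_filter, Finset.sum_const,
    nsmul_eq_mul]
  have h2 : (X3 i κ).filter (fun z => ∀ q ∈ uc z, q ∈ PD P i) = Z2s i κ := by
    ext z
    rw [mem_filter, X3_Z2s H hκ]
  rw [h2]

end gen

section nj

variable (h : NJ P r j) (hij : i + 1 = j) (hi1 : 1 ≤ i)
include h hij hi1

/-- two joins of pendants: no conditions on the sites -/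
lemma nj_PR (k : ℕ) : PR i (topOf : P → Tops P) k =
    ((Z2s i (topOf : P → Tops P)).powersetCard 2).filter (fun s => (s.biUnion uc).card = k) := by
  classical
  have H := h.g.H
  have hκ : Split (i + 2) (topOf : P → Tops P) := by
    rw [show i + 2 = j + 1 by omega]
    exact h.split
  ext s
  rw [mem_PR, mem_filter, mem_powersetCard]
  constructor
  · rintro ⟨h1, h2, -⟩
    exact ⟨h1, h2⟩
  · rintro ⟨h1, h2⟩
    refine ⟨h1, h2, ?_⟩
    intro w hw w' hw' hne hk
    exfalso
    obtain ⟨z, hz, hzw⟩ := mem_biUnion.1 hw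
    obtain ⟨z', hz', hzw'⟩ := mem_biUnion.1 hw'
    have q := (Z2s_cov H hκ (h1.1 hz) hzw).1
    have q' := (Z2s_cov H hκ (h1.1 hz') hzw').1
    have m := nj_mem h hij hi1 (PD_lev q)
    have m' := nj_mem h hij hi1 (PD_lev q')
    rw [← hk] at m'
    obtain ⟨n1, -, -⟩ := nj_one h hij hi1 (topOf w)
    rw [card_le_one] at n1
    exact hne (n1 w (mem_filter.2 ⟨m, q⟩) w' (mem_filter.2 ⟨m', q'⟩))

/-- pairs of joins of the same two pendants -/
noncomputable def DB (i : ℕ) (κ : P → Tops P) : Finset (Finset P) :=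
  ((Z2s i κ).powersetCard 2).filter (fun s => (s.biUnion uc).card = 2)

/-- the pairs of joins of pendants -/
theorem nj_pairs : ((Z2s i (topOf : P → Tops P)).card : ℤ) ^ 2 =
    ((Z2s i (topOf : P → Tops P)).card : ℤ) +
      2 * ((PR i (topOf : P → Tops P) 4).card : ℤ) + 2 * ((PR i (topOf : P → Tops P) 3).card : ℤ) +
        2 * ((DB i (topOf : P → Tops P)).card : ℤ) := by
  classical
  have H := h.g.H
  have hκ : Split (i + 2) (topOf : P → Tops P) := by
    rw [show i + 2 = j + 1 by omega]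
    exact h.split
  have hc : ∀ z ∈ Z2s i (topOf : P → Tops P), (uc z).card = 2 := by
    intro z hz
    obtain ⟨p, p', y, y', D⟩ := So.Z2s_ZD H hκ hz
    have hne : p ≠ p' := by
      rintro rfl
      exact D.ne rfl
    rw [D.cov, card_pair hne]
  have h1 : ((Z2s i (topOf : P → Tops P)).powersetCard 2).card =
      (PR i (topOf : P → Tops P) 4).card + (PR i (topOf : P → Tops P) 3).card +
        (DB i (topOf : P → Tops P)).card := by
    rw [nj_PR h hij hi1, nj_PR h hij hi1]
    unfold DB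
    rw [← card_union_of_disjoint, ← card_union_of_disjoint]
    · congr 1
      ext s
      simp only [mem_union, mem_filter]
      constructor
      · intro hs
        obtain ⟨s1, s2⟩ := mem_powersetCard.1 hs
        obtain ⟨a, b, hab, rfl⟩ := card_eq_two.1 s2
        have ha := hc a (s1 (by simp))
        have hb := hc b (s1 (by simp))
        have h5 : ({a, b} : Finset P).biUnion uc = uc a ∪ uc b := by
          rw [biUnion_insert, singleton_biUnion]
        have h3 := card_union_le (uc a) (uc b)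
        have h4 := card_le_card (subset_union_left (s₁ := uc a) (s₂ := uc b))
        rw [h5]
        have : (uc a ∪ uc b).card = 4 ∨ (uc a ∪ uc b).card = 3 ∨ (uc a ∪ uc b).card = 2 := by
          omega
        rcases this with h6 | h6 | h6
        · exact Or.inl (Or.inl ⟨hs, h6⟩)
        · exact Or.inl (Or.inr ⟨hs, h6⟩)
        · exact Or.inr ⟨hs, h6⟩
      · rintro ((h2 | h2) | h2) <;> exact h2.1
    · rw [disjoint_left]
      intro s hs hs'
      have k2 := (mem_filter.1 hs').2
      rcases mem_union.1 hs with hs | hs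
      · have k1 := (mem_filter.1 hs).2
        omega
      · have k1 := (mem_filter.1 hs).2
        omega
    · rw [disjoint_left]
      intro s hs hs'
      have k1 := (mem_filter.1 hs).2
      have k2 := (mem_filter.1 hs').2
      omega
  rw [card_powersetCard, Nat.choose_two_right] at h1
  have h2 := Nat.even_mul_pred_self (Z2s i (topOf : P → Tops P)).card
  obtain ⟨k, hk⟩ := h2
  rw [hk, show (k + k) / 2 = k by omega] at h1
  rcases Nat.eq_zero_or_pos (Z2s i (topOf : P → Tops P)).card with h3 | h3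
  · rw [h3] at hk ⊢
    simp only [Nat.zero_mul] at hk
    have : k = 0 := by omega
    push_cast
    omega
  · obtain ⟨m, hm⟩ := Nat.exists_eq_add_of_le h3
    rw [hm] at hk ⊢
    rw [show 1 + m - 1 = m by omega] at hk
    have h4 : ((1 + m : ℕ) : ℤ) * m = k + k := by exact_mod_cast hk
    have h5 : (k : ℤ) = (PR i (topOf : P → Tops P) 4).card +
      (PR i (topOf : P → Tops P) 3).card + (DB i (topOf : P → Tops P)).card := by exact_mod_cast h1
    push_cast at h4 ⊢
    nlinarith

variable (hb : 1 ≤ (lv P i).card)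
  (hP : ∀ a ∈ univ.image (topOf : P → Tops P), P10 (bb i (i + 2) topOf a)
    (VV i (i + 2) topOf a))
include hb hP

/-- TOTAL (8,3) at the window `j - 1`, case B -/
theorem nj_tot8 : ∑ a ∈ univ.image (topOf : P → Tops P), Q8 (bb i (i + 2) topOf a)
    (VV i (i + 2) topOf a) = ∑ z ∈ X3 i (topOf : P → Tops P), Wn i topOf 3 z +
      ((PR i (topOf : P → Tops P) 3).card : ℤ) := by
  have H := h.g.H
  have hir : i + 1 ≤ r := by have := h.g.hr; omega
  have hκ : Split (i + 2) (topOf : P → Tops P) := by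
    rw [show i + 2 = j + 1 by omega]
    exact h.split
  have h1 := T8.tot_eight H hi1 hir (h.g.good i (by omega)) hκ hb hP
  have h3 : ∑ a ∈ univ.image (topOf : P → Tops P), sg i topOf 3 a = 0 := by
    obtain ⟨-, -, h3, -⟩ := T8.prod_ten (univ.image (topOf : P → Tops P))
      (bb i (i + 2) topOf) (VV i (i + 2) topOf) hP
      (fun a _ => by rw [T8.cg_cf (by omega), So.cf_zero]; exact I2.eps_VV H (by omega) a)
    rw [So.sum_bb hκ, T8.cg_cf (by omega), So.cf_three, So.al3_prod H (by omega) hκ] at h3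
    rw [h3]
    refine Finset.sum_congr rfl fun a _ => ?_
    rw [sg_three, T8.cg_cf (by omega), So.cf_three]
  rw [h1, nj_XX8 h hij hi1 hb, sum_WW H hκ, show 2 * 3 - 3 = 3 from rfl, h3]
  ring

/-- TOTAL (10,4) at the window `j - 1`, case B -/
theorem nj_tot10 : ∑ a ∈ univ.image (topOf : P → Tops P), Q10 (bb i (i + 2) topOf a)
    (VV i (i + 2) topOf a) + ((Z2s i (topOf : P → Tops P)).card : ℤ) +
      2 * ((PR i (topOf : P → Tops P) 3).card : ℤ) +
        2 * ((DB i (topOf : P → Tops P)).card : ℤ) =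
      2 * ∑ z ∈ X3 i (topOf : P → Tops P), Wn i topOf 4 z +
        2 * ((N5s i (topOf : P → Tops P)).card : ℤ) := by
  have H := h.g.H
  have hir : i + 1 ≤ r := by have := h.g.hr; omega
  have hκ : Split (i + 2) (topOf : P → Tops P) := by
    rw [show i + 2 = j + 1 by omega]
    exact h.split
  have h1 := T8.tot_ten H hi1 hir (h.g.good i (by omega)) hκ hb hP
  have h3 : ∑ a ∈ univ.image (topOf : P → Tops P), sg i topOf 5 a =
      -((Z2s i (topOf : P → Tops P)).card : ℤ) := by
    obtain ⟨-, -, -, h3, -⟩ := T8.prod_ten (univ.image (topOf : P → Tops P))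
      (bb i (i + 2) topOf) (VV i (i + 2) topOf) hP
      (fun a _ => by rw [T8.cg_cf (by omega), So.cf_zero]; exact I2.eps_VV H (by omega) a)
    rw [So.sum_bb hκ, T8.cg_cf (by omega),
      So.cf5_prod H hi1 hir (h.g.good i (by omega)) hκ hb] at h3
    rw [h3]
    refine Finset.sum_congr rfl fun a _ => ?_
    rw [sg_five, T8.cg_cf (by omega), So.cf_five]
  have h4 := nj_pairs h hij hi1
  rw [h1, nj_XX10 h hij hi1 hb, sum_WW H hκ, show 2 * 4 - 3 = 5 from rfl, h3]
  linarith

end nj

end Pool.Agent.GaussPoset.Win.Pn
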