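import Pool.Agent.W_448pn_h63.PnZ

/-!
# The profile of all parts, and their (5,2) value, in case B at the window `j - 1`
(MP_448cb3_co, G2)
-/

set_option autoImplicit false

namespace Pool.Agent.GaussPoset.Win.Pn

set_option linter.unusedSectionVars false

open Finset W4 Wd
open Pool.Agent.GaussPoset.Win.Xg (Okc kp CanD)
open Pool.Agent.GaussPoset.Win.SO (con PN on mem_PN vp I5 mem_I5 c5 F5 mem_F5)
open Pool.Agent.GaussPoset.Win.I2 (bb VV)
open Pool.Agent.GaussPoset.Win.T8 (P10)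

universe u

variable {P : Type u} [Fintype P] [PartialOrder P] [DecidableEq P] {r j i : ℕ}
  {psi : P → P} {C : Finset P} {p p' w z : P}

/-- a vanishing leading coefficient raises the order -/
lemma up_one {b k : ℕ} {G : A} (h : dd ^ b ∣ dd ^ (k + 1) * G)
    (h0 : PowerSeries.coeff b (dd ^ (k + 1) * G : A) = 0) : dd ^ b ∣ dd ^ k * G := by
  unfold dd at h h0 ⊢
  rw [PowerSeries.X_pow_dvd_iff] at h ⊢
  intro m hm
  have h1 : PowerSeries.coeff (m + 1) (PowerSeries.X ^ (k + 1) * G : A) = 0 := by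
    rcases Nat.lt_or_ge (m + 1) b with h2 | h2
    · exact h _ h2
    · have : m + 1 = b := by omega
      rw [this]
      exact h0
  rw [pow_succ', mul_assoc, PowerSeries.coeff_succ_X_mul] at h1
  exact h1

section part

variable (F : Fr r i psi C) (hm : Meet i C)
include F hm

lemma far_zero : Far i (fun _ : P => 0) := fun w hw => by simp at hw

lemma once_zero : Once i C (fun _ : P => 0) := fun _ _ _ => Nat.zero_le _

lemma pin_zero {e : P → ℕ} : Pin C (fun _ => 0) e := fun _ _ => Nat.zero_le _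

/-- THE (7,3) COEFFICIENT of a part -/
theorem hc_seven : hc 7 (st i C).card (ZS i C) = ∑ q ∈ F7 i C, -vp i q.2 := by
  classical
  have H := F.E.H
  have h0 : ZPS i C (fun _ : P => 0) = ZS i C := ZPS_disj fun _ _ => rfl
  rw [← h0, F.top hm (fun w hw => by simp at hw) (fun _ _ _ => Nat.zero_le _) (n := 7) (K := 2)
    rfl (by omega) (by omega)]
  have h1 : TT i psi C (fun _ : P => 0) 7 (2 + 1) =
      (F7 i C).image (fun q => cS i q.1.1 q.1.2 q.2) := by
    ext e
    rw [mem_TT, mem_image]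
    constructor
    · rintro ⟨a1, a2, a3, a4, a5⟩
      obtain ⟨z, z', p, T, hp, hd, rfl⟩ := tt_seven F hm a2 a1 (by rw [a4]; rfl) a5
      exact ⟨((z, z'), p), mem_F7.2 ⟨T, hp, hd⟩, rfl⟩
    · rintro ⟨q, hq, rfl⟩
      obtain ⟨T, hp, hd⟩ := mem_F7.1 hq
      obtain ⟨b1, b2, b3, b4, b5⟩ := cS_ok F T hp hd
      exact ⟨b5, b1, fun _ _ => Nat.zero_le _, by rw [b2]; rfl, b4⟩
  rw [h1, Finset.sum_image]
  · refine Finset.sum_congr rfl fun q hq => ?_
    obtain ⟨T, hp, hd⟩ := mem_F7.1 hq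
    exact (cS_ok F T hp hd).2.2.1
  · intro q hq q' hq' h
    exact cS_inj F hq hq' h

open Classical in
/-- the unordered pairs of pendants with exactly one common site -/
noncomputable def OvP (i : ℕ) (C : Finset P) : Finset (P × P) :=
  (PN i C ×ˢ PN i C).filter (fun q => Xg.rk q.1 < Xg.rk q.2 ∧ (sit i q.1 ∩ sit i q.2).card = 1)

omit F hm in
lemma mem_OvP {q : P × P} : q ∈ OvP i C ↔ q.1 ∈ PN i C ∧ q.2 ∈ PN i C ∧
    Xg.rk q.1 < Xg.rk q.2 ∧ (sit i q.1 ∩ sit i q.2).card = 1 := by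
  classical
  unfold OvP
  rw [mem_filter, mem_product, and_assoc]

/-- THE (5,2) COEFFICIENT of a part -/
theorem hc_five : hc 5 (st i C).card (ZS i C) =
    ∑ q ∈ I5 i C, chg i C q.1 * vp i q.2 - ((Tws i C).card : ℤ) +
      ∑ q ∈ OvP i C, vp i q.1 * vp i q.2 := by
  classical
  have H := F.E.H
  have h0 : ZPS i C (fun _ : P => 0) = ZS i C := ZPS_disj fun _ _ => rfl
  rw [← h0, F.top hm (fun w hw => by simp at hw) (fun _ _ _ => Nat.zero_le _) (n := 5) (K := 1)
    rfl (by omega) (by omega)]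
  have h1 : TT i psi C (fun _ : P => 0) 5 (1 + 1) =
      ((I5 i C).image (c5 i) ∪ (Tws i C).image (fun q => cT i q.1 q.2)) ∪
          (OvP i C).image (fun q => cD i q.1 q.2) := by
    ext e
    rw [mem_TT, mem_union, mem_union, mem_image, mem_image, mem_image]
    constructor
    · rintro ⟨a1, a2, a3, a4, a5⟩
      rcases tt_five F hm a2 a1 (by rw [a4]; rfl) a5 with ⟨q, hq, rfl⟩ | ⟨z, z', T, rfl⟩ |
        ⟨p, hp, p', hp', hne, hI, rfl⟩
      · left; left
        exact ⟨q, hq, rfl⟩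
      · left; right
        exact ⟨(z, z'), mem_Tws.2 T, rfl⟩
      · right
        rcases Nat.lt_or_gt_of_ne (fun h => hne (Xg.rk_inj h)) with h | h
        · exact ⟨(p, p'), mem_OvP.2 ⟨hp, hp', h, hI⟩, rfl⟩
        · exact ⟨(p', p), mem_OvP.2 ⟨hp', hp, h, by rw [inter_comm]; exact hI⟩, cD_comm⟩
    · rintro ((⟨q, hq, rfl⟩ | ⟨q, hq, rfl⟩) | ⟨q, hq, rfl⟩)
      · obtain ⟨b1, b2, b3, b4, b5⟩ := c5_ok F hq
        exact ⟨b5, b1, fun _ _ => Nat.zero_le _, by rw [b2]; rfl, b4⟩
      · rw [mem_Tws] at hq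
        obtain ⟨b1, b2, b3, b4, b5⟩ := tw_ok F hq
        exact ⟨b5, b1, fun _ _ => Nat.zero_le _, by rw [b2]; rfl, b4⟩
      · obtain ⟨hp1, hp2, hp3, hp4⟩ := mem_OvP.1 hq
        obtain ⟨b1, b2, b3, b4, b5⟩ := cD_ok F hp1 hp2 (by
          intro h
          rw [h] at hp3
          exact lt_irrefl _ hp3) hp4
        exact ⟨b5, b1, fun _ _ => Nat.zero_le _, by rw [b2]; rfl, b4⟩
  have d1 : Disjoint ((I5 i C).image (c5 i)) ((Tws i C).image (fun q => cT i q.1 q.2)) := by
    rw [disjoint_left]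
    intro e he he'
    obtain ⟨q, hq, rfl⟩ := mem_image.1 he
    obtain ⟨q', hq', h2⟩ := mem_image.1 he'
    have h3 := cT_two F (mem_Tws.1 hq')
    have h4 : c5 i q q'.1 ≤ 1 := on_le
    have h5 := congrFun h2 q'.1
    omega
  have d2 : Disjoint ((I5 i C).image (c5 i) ∪ (Tws i C).image (fun q => cT i q.1 q.2))
      ((OvP i C).image (fun q => cD i q.1 q.2)) := by
    rw [disjoint_left]
    intro e he he'
    obtain ⟨q0, hq0, rfl⟩ := mem_image.1 he'
    obtain ⟨hp1, hp2, hp3, hp4⟩ := mem_OvP.1 hq0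
    rcases mem_union.1 he with he | he
    · obtain ⟨q, hq, h2⟩ := mem_image.1 he
      obtain ⟨v, hv⟩ := card_eq_one.1 hp4
      have hvm : v ∈ sit i q0.1 ∩ sit i q0.2 := by rw [hv]; simp
      have lv' := (pn_two F hp1).2 v (mem_inter.1 hvm).1
      have h3 := c5_site F hq lv'
      have h4 : cD i q0.1 q0.2 v = 1 := by
        unfold cD
        exact on_one (mem_union_right _ hvm)
      rw [h2, h4] at h3
      omega
    · obtain ⟨q', hq', h2⟩ := mem_image.1 he
      have h3 := cT_two F (mem_Tws.1 hq')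
      have h4 : cD i q0.1 q0.2 q'.1 ≤ 1 := on_le
      have h5 := congrFun h2 q'.1
      omega
  rw [h1, sum_union d2, sum_union d1, Finset.sum_image, Finset.sum_image, Finset.sum_image]
  · have s1 : ∑ q ∈ I5 i C, sgn i (c5 i q) = ∑ q ∈ I5 i C, chg i C q.1 * vp i q.2 :=
      Finset.sum_congr rfl fun q hq => (c5_ok F hq).2.2.1
    have s2 : ∑ q ∈ Tws i C, sgn i (cT i q.1 q.2) = ∑ q ∈ Tws i C, (-1 : ℤ) :=
      Finset.sum_congr rfl fun q hq => (tw_ok F (mem_Tws.1 hq)).2.2.1
    have s3 : ∑ q ∈ OvP i C, sgn i (cD i q.1 q.2) = ∑ q ∈ OvP i C, vp i q.1 * vp i q.2 :=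
      Finset.sum_congr rfl fun q hq => by
        obtain ⟨hp1, hp2, hp3, hp4⟩ := mem_OvP.1 hq
        exact (cD_ok F hp1 hp2 (by
          intro h
          rw [h] at hp3
          exact lt_irrefl _ hp3) hp4).2.2.1
    rw [s1, s2, s3, Finset.sum_const, nsmul_eq_mul]
    ring
  · intro q hq q' hq' h
    obtain ⟨a1, a2, a3, a4⟩ := mem_OvP.1 hq
    obtain ⟨b1, b2, b3, b4⟩ := mem_OvP.1 hq'
    change cD i q.1 q.2 = cD i q'.1 q'.2 at h
    have k1 : 1 ≤ cD i q'.1 q'.2 q.1 := by
      rw [← h, cD_pos F a1 a2 (pn_lev F a1)]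
      exact Or.inl rfl
    have k2 : 1 ≤ cD i q'.1 q'.2 q.2 := by
      rw [← h, cD_pos F a1 a2 (pn_lev F a2)]
      exact Or.inr rfl
    rw [cD_pos F b1 b2 (pn_lev F a1)] at k1
    rw [cD_pos F b1 b2 (pn_lev F a2)] at k2
    rcases k1 with k1 | k1
    · rcases k2 with k2 | k2
      · rw [← k1, ← k2] at a3
        exact absurd a3 (lt_irrefl _)
      · exact Prod.ext k1.symm k2.symm
    · rcases k2 with k2 | k2
      · exfalso
        rw [k1, k2] at b3
        omega
      · rw [← k1, ← k2] at a3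
        exact absurd a3 (lt_irrefl _)
  · intro q hq q' hq' h
    exact cT_inj F (mem_Tws.1 hq) (mem_Tws.1 hq') h
  · intro q hq q' hq' h
    exact SO.c5_inj H (by have := F.E.hi2; omega) hq hq' h

/-- THE PROFILE of a part with at most three sites -/
theorem p10_small (hb : Bal i C) (h3 : (st i C).card ≤ 3) : P10 (st i C).card (ZS i C) := by
  classical
  have h0 : ZPS i C (fun _ : P => 0) = ZS i C := ZPS_disj fun _ _ => rfl
  have hMo := F.mo hm (t := fun _ : P => 0) (fun w hw => by simp at hw) hb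
    (fun _ _ _ => Nat.zero_le _)
  have hp0 : pns C (fun _ : P => 0) = ∅ := pns_zero fun _ _ => rfl
  rw [h0, hp0, card_empty] at hMo
  have hHP := hMo.hp
  have hev := hMo.ev
  have e2 : hc 2 (st i C).card (ZS i C) = 0 := by
    have := hev 1 (by omega)
    rwa [if_neg (by omega)] at this
  have e4 : hc 4 (st i C).card (ZS i C) = 0 := by
    have := hev 2 (by omega)
    rwa [if_neg (by omega)] at this
  have e6 : hc 6 (st i C).card (ZS i C) = 0 := by
    have := hev 3 (by omega)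
    rwa [if_neg (by omega)] at this
  have e7 : hc 7 (st i C).card (ZS i C) = 0 := by
    rw [hc_seven F hm]
    apply Finset.sum_eq_zero
    intro q hq
    exfalso
    obtain ⟨T, hp, hd⟩ := mem_F7.1 hq
    have h4 : sit i q.1.1 ∪ sit i q.2 ⊆ st i C :=
      union_subset (SO.sit_part F.E.H F.E.hC (mem_ZL.1 T.zl).1)
        (SO.sit_part F.E.H F.E.hC (mem_PN.1 hp).1)
    have h5 := card_le_card h4
    have h6 : (sit i q.1.1).card = 3 := by
      rw [sit_low F.E.H (by have := (mem_ZL.1 T.zl).2.1; omega), card_sts]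
      exact (mem_ZL.1 T.zl).2.2
    rw [card_union_of_disjoint hd, h6, (pn_two F hp).1] at h5
    omega
  intro n hn
  have big : 3 ≤ T8.kk n → dd ^ (st i C).card ∣ dd ^ T8.kk n * PowerSeries.coeff n (ZS i C) :=
    fun h => dvd_mul_of_dvd_left (pow_dvd_pow dd (h3.trans h)) _
  have cases : n = 0 ∨ n = 1 ∨ n = 2 ∨ n = 3 ∨ n = 4 ∨ n = 5 ∨ n = 6 ∨ n = 7 ∨ 8 ≤ n := by omega
  rcases cases with rfl | rfl | rfl | rfl | rfl | rfl | rfl | rfl | h8
  · exact hHP 0 (by omega)
  · exact hHP 1 (by omega)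
  · exact up_one (k := 0) (hHP 2 (by omega)) e2
  · exact hHP 3 (by omega)
  · exact up_one (k := 1) (hHP 4 (by omega)) e4
  · exact hHP 5 (by omega)
  · exact up_one (k := 2) (hHP 6 (by omega)) e6
  · exact up_one (k := 2) (hHP 7 (by omega)) e7
  · apply big
    unfold T8.kk
    split_ifs <;> omega

end part

section nj

variable (h : NJ P r j) (hij : i + 1 = j) (hi1 : 1 ≤ i)
include h hij hi1

/-- THE PROFILE of every part in case B at the window `j - 1` -/
theorem nj_P10 (t : Tops P) : P10 (st i (SS i t)).card (ZS i (SS i t)) := by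
  obtain ⟨psi, hM⟩ := good_mat h.g.H (h.g.good i (by omega))
  rcases Nat.lt_or_ge 3 (st i (SS i t)).card with h4 | h4
  · obtain ⟨lo, hi, e, Cm⟩ := Cp.comp_exists h.g.H t.2 h.g.hr h.g.good
    have hc := h.card_SS (i := i) (by omega) Cm
    intro n hn
    have h1 := h.prof10 hij hi1 Cm (by omega) hM hn
    rw [coeff_ZS]
    have h2 : Rd.K10 n = T8.kk n := by
      unfold Rd.K10 T8.kk
      rfl
    rw [h2] at h1
    refine (pow_dvd_pow dd (show (st i (SS i t)).card ≤ T8.kk n +
      ((st i (SS i t)).card - T8.kk n) by omega)).trans ?_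
    rw [pow_add]
    exact mul_dvd_mul_left _ h1
  · exact p10_small (nj_fr h hij hi1 hM t) (nj_meet h hij hi1 hM t) (nj_one h hij hi1 t).2.2 h4

theorem nj_P10' : ∀ a ∈ univ.image (topOf : P → Tops P), P10 (bb i (i + 2) topOf a)
    (VV i (i + 2) topOf a) := by
  intro a _
  rw [show i + 2 = j + 1 by omega, h.bb_eq (i := i) (by omega), h.VV_eq (i := i) (by omega)]
  exact nj_P10 h hij hi1 a

/-- THE (5,2) VALUE of every part in case B at the window `j - 1`: twins and flips -/
theorem nj_be5 (t : Tops P) : I2.be 5 (st i (SS i t)).card (ZS i (SS i t)) =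
    -((Tws i (SS i t)).card : ℤ) - ((F5 i (SS i t)).card : ℤ) := by
  classical
  obtain ⟨psi, hM⟩ := good_mat h.g.H (h.g.good i (by omega))
  have F := nj_fr h hij hi1 hM t
  have hm := nj_meet h hij hi1 hM t
  have H := h.g.H
  obtain ⟨n1, n2, -⟩ := nj_one h hij hi1 t
  rw [card_le_one] at n1 n2
  have h5 := hc_five F hm
  have e1 : ∑ q ∈ I5 i (SS i t), chg i (SS i t) q.1 * vp i q.2 = 0 := by
    have k1 : ∑ q ∈ I5 i (SS i t), chg i (SS i t) q.1 * vp i q.2 =
        ∑ z ∈ ZL i (SS i t) ∪ ZU i (SS i t), chg i (SS i t) z *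
          ∑ p ∈ (PN i (SS i t)).filter (fun p => Disjoint (sit i z) (sit i p)), vp i p := by
      unfold SO.I5
      rw [Finset.sum_filter, Finset.sum_product]
      refine Finset.sum_congr rfl fun z _ => ?_
      rw [mul_sum, Finset.sum_filter]
    rw [k1]
    apply Finset.sum_eq_zero
    intro z hz
    rcases Nat.lt_or_ge 3 (st i (SS i t)).card with h4 | h4
    · rw [nj_pn_zero h hij hi1 hM t h4, mul_zero]
    · rw [filter_false_of_mem, sum_empty, mul_zero]
      intro p hp hd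
      have hzC : z ∈ SS i t := by
        rcases mem_union.1 hz with hz | hz
        · exact (mem_ZL.1 hz).1
        · exact (mem_ZU.1 hz).1
      have h6 : (sit i z).card = 3 := by
        rcases mem_union.1 hz with hz | hz
        · rw [sit_low H (by have := (mem_ZL.1 hz).2.1; omega), card_sts]
          exact (mem_ZL.1 hz).2.2
        · rw [sit_upp H (by have := (mem_ZU.1 hz).2.1; omega), card_stD]
          exact (mem_ZU.1 hz).2.2
      have h7 : sit i z ∪ sit i p ⊆ st i (SS i t) :=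
        union_subset (SO.sit_part H F.E.hC hzC) (SO.sit_part H F.E.hC (mem_PN.1 hp).1)
      have h8 := card_le_card h7
      rw [card_union_of_disjoint hd, h6, (pn_two F hp).1] at h8
      omega
  have e2 : ∑ q ∈ OvP i (SS i t), vp i q.1 * vp i q.2 = -((F5 i (SS i t)).card : ℤ) := by
    have key : ∀ q ∈ OvP i (SS i t), (q.1 ∈ PD P i ∧ q.2 ∈ PU P i) ∨
        (q.1 ∈ PU P i ∧ q.2 ∈ PD P i) := by
      intro q hq
      obtain ⟨a1, a2, a3, a4⟩ := mem_OvP.1 hq
      obtain ⟨m1, k1⟩ := mem_PN.1 a1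
      obtain ⟨m2, k2⟩ := mem_PN.1 a2
      have hne : q.1 ≠ q.2 := by
        intro h
        rw [h] at a3
        exact lt_irrefl _ a3
      rcases k1 with k1 | k1 <;> rcases k2 with k2 | k2
      · exact absurd (n1 q.1 (mem_filter.2 ⟨m1, k1⟩) q.2 (mem_filter.2 ⟨m2, k2⟩)) hne
      · exact Or.inl ⟨k1, k2⟩
      · exact Or.inr ⟨k1, k2⟩
      · exact absurd (n2 q.1 (mem_filter.2 ⟨m1, k1⟩) q.2 (mem_filter.2 ⟨m2, k2⟩)) hne
    have hval : ∀ q ∈ OvP i (SS i t), vp i q.1 * vp i q.2 = -1 := by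
      intro q hq
      rcases key q hq with ⟨k1, k2⟩ | ⟨k1, k2⟩
      · rw [SO.vp_PD k1, SO.vp_PU k2]; norm_num
      · rw [SO.vp_PU k1, SO.vp_PD k2]; norm_num
    rw [Finset.sum_congr rfl hval, Finset.sum_const, nsmul_eq_mul]
    have hcard : (OvP i (SS i t)).card = (F5 i (SS i t)).card := by
      refine Finset.card_bij' (fun q _ => if q.1 ∈ PD P i then q else q.swap)
        (fun q _ => if Xg.rk q.1 < Xg.rk q.2 then q else q.swap) ?_ ?_ ?_ ?_
      · intro q hq
        obtain ⟨a1, a2, a3, a4⟩ := mem_OvP.1 hq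
        obtain ⟨m1, -⟩ := mem_PN.1 a1
        obtain ⟨m2, -⟩ := mem_PN.1 a2
        rcases key q hq with ⟨k1, k2⟩ | ⟨k1, k2⟩
        · rw [if_pos k1]
          exact mem_F5.2 ⟨m1, k1, m2, k2, a4⟩
        · rw [if_neg (by
            intro h
            have := (mem_PD.1 h).1
            have := (mem_PU.1 k1).1
            omega)]
          exact mem_F5.2 ⟨m2, k2, m1, k1, by rw [inter_comm]; exact a4⟩
      · intro q hq
        obtain ⟨a1, a2, a3, a4, a5⟩ := mem_F5.1 hq
        have hne : Xg.rk q.1 ≠ Xg.rk q.2 := by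
          intro h
          have := Xg.rk_inj h
          rw [this] at a2
          have := (mem_PD.1 a2).1
          have := (mem_PU.1 a4).1
          omega
        split_ifs with h1
        · exact mem_OvP.2 ⟨mem_PN.2 ⟨a1, Or.inl a2⟩, mem_PN.2 ⟨a3, Or.inr a4⟩, h1, a5⟩
        · exact mem_OvP.2 ⟨mem_PN.2 ⟨a3, Or.inr a4⟩, mem_PN.2 ⟨a1, Or.inl a2⟩,
            by simp only [Prod.fst_swap, Prod.snd_swap]; omega, by
              simp only [Prod.fst_swap, Prod.snd_swap]
              rw [inter_comm]; exact a5⟩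
      · intro q hq
        obtain ⟨a1, a2, a3, a4⟩ := mem_OvP.1 hq
        split_ifs with h1 h2
        · rfl
        · simp only [Prod.fst_swap, Prod.snd_swap] at h2
          omega
        · exact Prod.swap_swap q
      · intro q hq
        obtain ⟨a1, a2, a3, a4, a5⟩ := mem_F5.1 hq
        have hU : q.2 ∉ PD P i := by
          intro h
          have := (mem_PD.1 h).1
          have := (mem_PU.1 a4).1
          omega
        split_ifs with h1 h2
        · rfl
        · simp only [Prod.fst_swap] at h2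
          exact absurd h2 hU
        · exact Prod.swap_swap q
    rw [hcard]
    ring
  have e3 : hc 5 (st i (SS i t)).card (ZS i (SS i t)) =
      I2.be 5 (st i (SS i t)).card (ZS i (SS i t)) := rfl
  rw [← e3, h5, e1, e2]
  ring

/-- TOTAL (8,3) at the window `j - 1`, case B, unconditional -/
theorem nj_tot8' (hb : 1 ≤ (lv P i).card) :
    ∑ a ∈ univ.image (topOf : P → Tops P), T8.Q8 (bb i (i + 2) topOf a)
    (VV i (i + 2) topOf a) = ∑ z ∈ X3 i (topOf : P → Tops P), Wn i topOf 3 z +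
      ((PR i (topOf : P → Tops P) 3).card : ℤ) :=
  nj_tot8 h hij hi1 hb (nj_P10' h hij hi1)

/-- TOTAL (10,4) at the window `j - 1`, case B, unconditional -/
theorem nj_tot10' (hb : 1 ≤ (lv P i).card) :
    ∑ a ∈ univ.image (topOf : P → Tops P), T8.Q10 (bb i (i + 2) topOf a)
    (VV i (i + 2) topOf a) + ((So.Z2s i (topOf : P → Tops P)).card : ℤ) +
      2 * ((PR i (topOf : P → Tops P) 3).card : ℤ) +
        2 * ((DB i (topOf : P → Tops P)).card : ℤ) =
      2 * ∑ z ∈ X3 i (topOf : P → Tops P), Wn i topOf 4 z +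
        2 * ((So.N5s i (topOf : P → Tops P)).card : ℤ) :=
  nj_tot10 h hij hi1 hb (nj_P10' h hij hi1)

end nj

end Pool.Agent.GaussPoset.Win.Pn
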