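import Pool.Agent.W_448pn_h63.PoA
import Pool.Agent.W_448nf_h84.NfB

/-!
# The parts with few sites in case B at the window `j - 1` (MP_448cb3_co, G2)
-/

set_option autoImplicit false

namespace Pool.Agent.GaussPoset.Win.Pn

set_option linter.unusedSectionVars false

open Finset W4 Wd
open Pool.Agent.GaussPoset.Win.I2 (bb VV)
open Pool.Agent.GaussPoset.Win.T8 (P10 cg Q8 Q10)

universe u

variable {P : Type u} [Fintype P] [PartialOrder P] [DecidableEq P] {r j i : ℕ}
  {C : Finset P}

/-- the leading coefficients of a part with few sites vanish -/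
theorem cg_small (H : Gr P r) (hC : Part i C) (h1 : (st i C).Nonempty) {n : ℕ}
    (h : (st i C).card ≤ T8.kk n) : cg n (st i C).card (ZS i C) = 0 := by
  unfold T8.cg
  rw [coeff_ZS]
  have h2 := dd_dvd_ZC H hC h1 n
  have h3 : dd ^ ((st i C).card + 1) ∣ dd ^ T8.kk n * ZC i C n := by
    refine (pow_dvd_pow dd (show (st i C).card + 1 ≤ T8.kk n + 1 by omega)).trans ?_
    rw [pow_succ]
    exact mul_dvd_mul_left _ h2
  unfold dd at h3 ⊢
  exact PowerSeries.X_pow_dvd_iff.1 h3 _ (Nat.lt_succ_self _)

section nj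

variable (h : NJ P r j) (hij : i + 1 = j)
include h hij

lemma nj_st (t : Tops P) : (st i (SS i t)).Nonempty := by
  obtain ⟨lo, hi, e, Cm⟩ := Cp.comp_exists h.g.H t.2 h.g.hr h.g.good
  have hc := h.card_SS (i := i) (by omega) Cm
  have := Cm.toWin.lohi i (by omega)
  rw [← card_pos]
  omega

lemma nj_part (t : Tops P) : Part i (SS i t) := h.part (by omega) (by omega) t

/-- parts with at most three sites: the value (8,3) -/
theorem nj_Q8_small (t : Tops P) (h3 : (st i (SS i t)).card ≤ 3) :
    Q8 (st i (SS i t)).card (ZS i (SS i t)) =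
      I2.al 3 (st i (SS i t)).card (ZS i (SS i t)) *
        I2.be 5 (st i (SS i t)).card (ZS i (SS i t)) := by
  unfold T8.Q8
  rw [cg_small h.g.H (nj_part h hij t) (nj_st h hij t) (n := 8) (by
    rw [show T8.kk 8 = 3 from rfl]
    omega), sub_zero, T8.cg_cf (by omega), T8.cg_cf (by omega), So.cf_three, So.cf_five]

/-- parts with at most four sites: the value (10,4) -/
theorem nj_Q10_small (t : Tops P) (h4 : (st i (SS i t)).card ≤ 4) :
    Q10 (st i (SS i t)).card (ZS i (SS i t)) =
      I2.be 5 (st i (SS i t)).card (ZS i (SS i t)) ^ 2 := by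
  unfold T8.Q10
  rw [cg_small h.g.H (nj_part h hij t) (nj_st h hij t) (n := 10) (by
    rw [show T8.kk 10 = 4 from rfl]
    omega), mul_zero, sub_zero, T8.cg_cf (by omega), So.cf_five]

/-- parts with at most two sites: the value (5,2) -/
theorem nj_be5_small (t : Tops P) (h2 : (st i (SS i t)).card ≤ 2) :
    I2.be 5 (st i (SS i t)).card (ZS i (SS i t)) = 0 := by
  rw [← So.cf_five, ← T8.cg_cf (by omega)]
  exact cg_small h.g.H (nj_part h hij t) (nj_st h hij t) (n := 5) (by
    rw [show T8.kk 5 = 2 from rfl]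
    omega)

/-- parts with at most two sites: the value (6,2) -/
theorem nj_be6_small (t : Tops P) (h2 : (st i (SS i t)).card ≤ 2) :
    I2.be 6 (st i (SS i t)).card (ZS i (SS i t)) = 0 := by
  have h3 := cg_small h.g.H (nj_part h hij t) (nj_st h hij t) (n := 6) (by
    rw [show T8.kk 6 = 2 from rfl]
    omega)
  unfold T8.cg at h3
  unfold I2.be
  exact h3

/-- parts with one site: the value (3,1) -/
theorem nj_al3_small (t : Tops P) (h1 : (st i (SS i t)).card ≤ 1) :
    I2.al 3 (st i (SS i t)).card (ZS i (SS i t)) = 0 := by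
  rw [← So.cf_three, ← T8.cg_cf (by omega)]
  exact cg_small h.g.H (nj_part h hij t) (nj_st h hij t) (n := 3) (by
    rw [show T8.kk 3 = 1 from rfl]
    omega)

/-- parts with at most two sites: (8,3) and (10,4) vanish -/
theorem nj_Q_two (t : Tops P) (h2 : (st i (SS i t)).card ≤ 2) :
    Q8 (st i (SS i t)).card (ZS i (SS i t)) = 0 ∧
      Q10 (st i (SS i t)).card (ZS i (SS i t)) = 0 := by
  have h5 := nj_be5_small h hij t h2
  rw [nj_Q8_small h hij t (by omega), nj_Q10_small h hij t (by omega), h5]
  constructor <;> ring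

end nj

end Pool.Agent.GaussPoset.Win.Pn
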