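import Pool.Agent.W_448so_h63.DK

/-!
# Parts with three sites: the reflection class is cheap (MP_448cb3_co, G2, window `j - 1`)
-/

set_option autoImplicit false

namespace Pool.Agent.GaussPoset.Win.Pf

set_option linter.unusedSectionVars false

open Finset I2
open Pool.Agent.GaussPoset.Win.So

universe u

variable {P : Type u} [DecidableEq P] [Fintype P]
variable {c c' : P → Finset P} {e : P → ℕ} {t t' : P → ℕ} {V Sd Sd' : Finset P} {psi : P → P}

/-- a near element which is not guarded gives a free element -/
lemma free_of {q : P} (hq : q ∈ Sd) (hg : ¬ gu c e q)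
    (h1 : ∀ z ∈ c' q, e q < e z → z ∈ Sd ∧ ¬ gu c e z ∧ ¬ kd c' e z) :
    ∃ f ∈ fr c c' e Sd, f = q ∨ (f ∈ c' q ∧ e q < e f) := by
  classical
  by_cases hk : kd c' e q
  · obtain ⟨z, hz, hlt⟩ := hk
    obtain ⟨a1, a2, a3⟩ := h1 z hz hlt
    refine ⟨z, ?_, Or.inr ⟨hz, hlt⟩⟩
    unfold fr
    rw [mem_filter]
    exact ⟨a1, a3, a2⟩
  · refine ⟨q, ?_, Or.inl rfl⟩
    unfold fr
    rw [mem_filter]
    exact ⟨hq, hk, hg⟩

/-- THE REFLECTION CLASS HAS AT MOST ONE DEFICIT if there are at most three sites and no flip -/
theorem ref3 (W : SO.Two c c' t t' V Sd Sd' psi) (C : SO.Cfg c c' t t' V Sd Sd' psi e)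
    (pd : SO.PDx c t Sd e) (hE : ∑ x, e x ≤ 6) {T : Finset P} (hT : T.card ≤ 3)
    (hT1 : ∀ s ∈ V, s ∉ T → e s = 0) (hT2 : KD c' e V ⊆ T) (hT3 : KD c e V ⊆ T)
    (hnf : ¬ ∃ p y p' u, SO.Pen c t Sd p y ∧ SO.Pen c' t' Sd' p' u ∧ 0 < e p ∧ 0 < e p' ∧
      u ≠ psi y)
    {p y : P} (R : SO.Ref c c' t Sd psi e p y) :
    SO.kS c c' V Sd e + SO.kS c' c V Sd' e ≤ 1 := by
  classical
  by_contra hk
  have hk' : ¬ SO.kS c' c V Sd' e + SO.kS c c' V Sd e ≤ 1 := by omega
  have S := side0_of W.s1
  have S' := side0_of W.s2
  have near : ∀ x ∈ Sd, t x = 1 → 0 < e x → ∃ z ∈ c' x, 0 < e z := by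
    intro x mx tx ex
    rcases C.core1 x mx tx ex with h | ⟨h4, z, hz, ez⟩
    · exact h
    · exact absurd (partner_main W C hE mx tx ex h4 hz ez) hk
  have near' : ∀ x ∈ Sd', t' x = 1 → 0 < e x → ∃ z ∈ c x, 0 < e z := by
    intro x mx tx ex
    rcases C.core2 x mx tx ex with h | ⟨h4, z, hz, ez⟩
    · exact h
    · exact absurd (partner_main W.symm C.symm hE mx tx ex h4 hz ez) hk'
  have sS : ∀ {x v : P}, x ∈ Sd → v ∈ Sd' → x ≠ v := by
    rintro x v h1 h2 rfl
    exact disjoint_left.1 W.d3 h1 h2
  have sV : ∀ {x v : P}, x ∈ Sd → v ∈ V → x ≠ v := by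
    rintro x v h1 h2 rfl
    exact disjoint_left.1 W.d1 h1 h2
  have sV' : ∀ {x v : P}, x ∈ Sd' → v ∈ V → x ≠ v := by
    rintro x v h1 h2 rfl
    exact disjoint_left.1 W.d2 h1 h2
  -- the pendant
  have mp := R.pen.m
  have tp := R.pen.tp
  have ep : 1 ≤ e p := R.p1
  obtain ⟨my, ty, ey⟩ := z_cov S C.adm1 mp (by omega) ep
    (show y ∈ c p by rw [R.pen.cp]; exact mem_singleton_self _)
  have ty1 : t y = 1 := by omega
  have py : p ≠ y := by rintro rfl; omega
  have hcp : ∀ {x : P}, x ∈ c p → x = y := by
    intro x hx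
    rwa [R.pen.cp, mem_singleton] at hx
  have sit : ∀ {x v : P}, x ∈ Sd → t x = 1 → v ∈ c x → v ∈ V := by
    intro x v mx tx hv
    obtain ⟨k1, k2⟩ := S.cin x mx v hv
    rcases k1 with k1 | k1
    · have := S.tS v k1
      omega
    · exact k1
  have sit' : ∀ {x v : P}, x ∈ Sd' → t' x = 1 → v ∈ c' x → v ∈ V := by
    intro x v mx tx hv
    obtain ⟨k1, k2⟩ := S'.cin x mx v hv
    rcases k1 with k1 | k1
    · have := S'.tS v k1
      omega
    · exact k1
  -- an element below a near element which is not `y`
  have dn : ∀ {q z : P}, q ∈ Sd → q ≠ y → z ∈ c' q → 1 ≤ e z →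
      z ∈ Sd ∧ z ≠ p ∧ z ≠ y ∧ (∀ x ∈ c z, x ≠ y) := by
    intro q z mq hqy hz ez
    obtain ⟨m1, m2, m3⟩ := z_chd S (Or.inl mq) hz
    have hzp : z ≠ p := by
      rintro rfl
      exact hqy (hcp m3)
    have hzy : z ∉ c' y := fun h => by
      have := R.dy z h hzp
      omega
    refine ⟨m1, hzp, ?_, ?_⟩
    · rintro rfl
      have := S.tS q mq
      omega
    · rintro x hx rfl
      exact hzy ((S.dual z x).1 hx)
  -- counting
  have hcount : (fr c c' e Sd).card + (fr c' c e Sd').card + 2 ≤
      (KD c' e V).card + (KD c e V).card := by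
    unfold SO.kS at hk
    omega
  have hunion : (KD c' e V ∪ KD c e V).card = (KD c' e V).card + (KD c e V).card :=
    card_union_of_disjoint C.dis
  have hsub : KD c' e V ∪ KD c e V ⊆ T := union_subset hT2 hT3
  have hle3 := card_le_card hsub
  have allk : 1 ≤ (fr c c' e Sd).card + (fr c' c e Sd').card →
      ∀ s ∈ T, s ∈ KD c' e V ∨ s ∈ KD c e V := by
    intro h s hs
    have := eq_of_subset_of_card_le hsub (by omega)
    rw [← this] at hs
    exact mem_union.1 hs
  have kpos : ∀ {s : P}, s ∈ KD c' e V ∨ s ∈ KD c e V → ∃ q, e s < e q := by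
    rintro s (h | h)
    · obtain ⟨-, q, -, hq⟩ := mem_KD.1 h
      exact ⟨q, hq⟩
    · obtain ⟨-, q, -, hq⟩ := mem_KD.1 h
      exact ⟨q, hq⟩
  have inT : ∀ {s : P}, s ∈ V → 1 ≤ e s → s ∈ T := by
    intro s hs h
    by_contra h1
    have := hT1 s hs h1
    omega
  have frp : ∀ {f : P}, f ∈ fr c c' e Sd → 1 ≤ (fr c c' e Sd).card := fun h => card_pos.2 ⟨_, h⟩
  have frp' : ∀ {f : P}, f ∈ fr c' c e Sd' → 1 ≤ (fr c' c e Sd').card :=
    fun h => card_pos.2 ⟨_, h⟩
  -- a guarded killer below the window is `y`
  have lowG : ∀ q ∈ Sd, t q = 1 → q ≠ y → gu c e q → kl c e q → False := by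
    rintro q mq tq hqy ⟨s, hs, hle⟩ hkl
    have eq : 1 ≤ e q := z_kl hkl
    obtain ⟨b, hb, hlt⟩ := hkl
    have hsb : s ≠ b := by rintro rfl; omega
    have hc2 : (c q).card = 2 := by
      have h1 : ({s, b} : Finset P) ⊆ c q := by
        intro a ha
        rw [mem_insert, mem_singleton] at ha
        rcases ha with rfl | rfl <;> assumption
      have h2 := card_le_card h1
      rw [card_pair hsb] at h2
      have := S.c2 q
      omega
    obtain ⟨z, hz, ez⟩ := near q mq tq eq
    obtain ⟨mz, hzp, hzy, hzx⟩ := dn mq hqy hz ez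
    obtain ⟨-, tz, hqz⟩ := z_chd S (Or.inl mq) hz
    obtain ⟨x, hx, hxq⟩ : ∃ x ∈ c z, x ≠ q := by
      by_contra h
      push Not at h
      have hcz : c z = {q} := eq_singleton_iff_unique_mem.2 ⟨hqz, h⟩
      exact hzp (pd z q p y ⟨mz, by omega, hcz, hc2⟩ R.pen ez ep)
    obtain ⟨mx, tx, ex⟩ := z_cov S C.adm1 mz (by omega) ez hx
    have hxy := hzx x hx
    have ms := sit mq tq hs
    have es : 1 ≤ e s := by omega
    have n1 : [p, y, q, s, z, x].Nodup := by
      simp only [List.nodup_cons, List.mem_cons, List.not_mem_nil, or_false, not_or,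
        List.nodup_nil, and_true, not_false_eq_true]
      refine ⟨⟨py, ?_, sV mp ms, hzp.symm, ?_⟩, ⟨hqy.symm, sV my ms, hzy.symm, hxy.symm⟩,
        ⟨sV mq ms, ?_, hxq.symm⟩, ⟨(sV mz ms).symm, (sV mx ms).symm⟩, ?_⟩
      · rintro rfl; omega
      · rintro rfl; omega
      · rintro rfl; omega
      · rintro rfl; omega
    have on := on_list n1 (by simpa using hE) (by
      simp only [List.forall_mem_cons, List.not_mem_nil, false_imp_iff, implies_true, and_true]
      and_intros <;> assumption)
    have le1 : ∀ a, e a ≤ 1 := by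
      intro a
      rw [on a]
      split_ifs <;> omega
    have hfr : (fr c c' e Sd).card + (fr c' c e Sd').card = 0 := by
      by_contra h
      obtain ⟨a, ha⟩ := kpos (allk (by omega) s (inT ms es))
      have := le1 a
      omega
    have notfree : ∀ {f : P}, f ∈ Sd → 1 ≤ e f → gu c e f := by
      intro f mf ef
      by_contra h
      have h1 : f ∈ fr c c' e Sd := by
        unfold fr
        rw [mem_filter]
        refine ⟨mf, ?_, h⟩
        rintro ⟨a, -, ha⟩
        have := le1 a
        omega
      have := frp h1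
      omega
    have key : ∀ {f : P}, f ∈ Sd → t f = 1 → 1 ≤ e f → f ∈ c' s := by
      intro f mf tf ef
      obtain ⟨a, ha, hle⟩ := notfree mf ef
      have ma := sit mf tf ha
      have h1 : a ∈ [p, y, q, s, z, x] := by
        by_contra h
        rw [on a, if_neg h] at hle
        omega
      simp only [List.mem_cons, List.not_mem_nil, or_false] at h1
      have has : a = s := by
        rcases h1 with h | h | h | h | h | h
        · exact absurd h.symm (sV mp ma)
        · exact absurd h.symm (sV my ma)
        · exact absurd h.symm (sV mq ma)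
        · exact h
        · exact absurd h.symm (sV mz ma)
        · exact absurd h.symm (sV mx ma)
      rw [has] at ha
      exact (S.dual _ _).1 ha
    have h3 : ({y, q, x} : Finset P) ⊆ c' s := by
      intro f hf
      rw [mem_insert, mem_insert, mem_singleton] at hf
      rcases hf with rfl | rfl | rfl
      · exact key my ty1 ey
      · exact key mq tq eq
      · exact key mx (by omega) ex
    have h4 := card_le_card h3
    rw [card_insert_of_notMem (by
        rw [mem_insert, mem_singleton, not_or]
        exact ⟨hqy.symm, hxy.symm⟩), card_pair hxq.symm] at h4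
    have := S.c2' s
    omega
  -- no guarded killer above the window
  have uppG : ∀ q ∈ Sd', t' q = 1 → gu c' e q → kl c' e q → False := by
    rintro q mq tq ⟨s, hs, hle⟩ hkl
    have eq : 1 ≤ e q := z_kl hkl
    obtain ⟨b, hb, hlt⟩ := hkl
    have hsb : s ≠ b := by rintro rfl; omega
    have hc2 : (c' q).card = 2 := by
      have h1 : ({s, b} : Finset P) ⊆ c' q := by
        intro a ha
        rw [mem_insert, mem_singleton] at ha
        rcases ha with rfl | rfl <;> assumption
      have h2 := card_le_card h1
      rw [card_pair hsb] at h2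
      have := S'.c2 q
      omega
    have hqpsi : q ≠ psi y := by
      rintro rfl
      have := R.u0
      omega
    obtain ⟨z, hz, ez⟩ := near' q mq tq eq
    obtain ⟨mz, tz, hqz⟩ := z_chd S' (Or.inl mq) hz
    obtain ⟨x, hx, hxq⟩ : ∃ x ∈ c' z, x ≠ q := by
      by_contra h
      push Not at h
      have hcz : c' z = {q} := eq_singleton_iff_unique_mem.2 ⟨hqz, h⟩
      exact hnf ⟨p, y, z, q, R.pen, ⟨mz, by omega, hcz, hc2⟩, ep, ez, hqpsi⟩
    obtain ⟨mx, tx, ex⟩ := z_cov S' C.adm2 mz (by omega) ez hx
    have ms := sit' mq tq hs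
    have es : 1 ≤ e s := by omega
    have n1 : [p, y, q, s, z, x].Nodup := by
      simp only [List.nodup_cons, List.mem_cons, List.not_mem_nil, or_false, not_or,
        List.nodup_nil, and_true, not_false_eq_true]
      refine ⟨⟨py, sS mp mq, sV mp ms, sS mp mz, sS mp mx⟩,
        ⟨sS my mq, sV my ms, sS my mz, sS my mx⟩,
        ⟨sV' mq ms, ?_, hxq.symm⟩, ⟨(sV' mz ms).symm, (sV' mx ms).symm⟩, ?_⟩
      · rintro rfl; omega
      · rintro rfl; omega
    have on := on_list n1 (by simpa using hE) (by
      simp only [List.forall_mem_cons, List.not_mem_nil, false_imp_iff, implies_true, and_true]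
      and_intros <;> assumption)
    have le1 : ∀ a, e a ≤ 1 := by
      intro a
      rw [on a]
      split_ifs <;> omega
    have hfr : (fr c c' e Sd).card + (fr c' c e Sd').card = 0 := by
      by_contra h
      obtain ⟨a, ha⟩ := kpos (allk (by omega) s (inT ms es))
      have := le1 a
      omega
    have notfree : gu c e y := by
      by_contra h
      have h1 : y ∈ fr c c' e Sd := by
        unfold fr
        rw [mem_filter]
        refine ⟨my, ?_, h⟩
        rintro ⟨a, -, ha⟩
        have := le1 a
        omega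
      have := frp h1
      omega
    have notfree' : ∀ {f : P}, f ∈ Sd' → 1 ≤ e f → gu c' e f := by
      intro f mf ef
      by_contra h
      have h1 : f ∈ fr c' c e Sd' := by
        unfold fr
        rw [mem_filter]
        refine ⟨mf, ?_, h⟩
        rintro ⟨a, -, ha⟩
        have := le1 a
        omega
      have := frp' h1
      omega
    have only : ∀ {a : P}, a ∈ V → 1 ≤ e a → a = s := by
      intro a ma ea
      have h1 : a ∈ [p, y, q, s, z, x] := by
        by_contra h
        rw [on a, if_neg h] at ea
        omega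
      simp only [List.mem_cons, List.not_mem_nil, or_false] at h1
      rcases h1 with h | h | h | h | h | h
      · exact absurd h.symm (sV mp ma)
      · exact absurd h.symm (sV my ma)
      · exact absurd h.symm (sV' mq ma)
      · exact h
      · exact absurd h.symm (sV' mz ma)
      · exact absurd h.symm (sV' mx ma)
    have keyU : ∀ {f : P}, f ∈ Sd' → t' f = 1 → 1 ≤ e f → f ∈ c s := by
      intro f mf tf ef
      obtain ⟨a, ha, hle⟩ := notfree' mf ef
      have has := only (sit' mf tf ha) (by omega)
      rw [has] at ha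
      exact (S'.dual _ _).1 ha
    obtain ⟨a, ha, hle'⟩ := notfree
    have has := only (sit my ty1 ha) (by omega)
    rw [has] at ha
    obtain ⟨g1, g2, g3, -⟩ := W.psi1 y my ty1 R.pen.cy
    rw [← g3] at ha
    have hpsi : psi y ∈ c s := (S'.dual _ _).1 ha
    have h3 : ({psi y, q, x} : Finset P) ⊆ c s := by
      intro f hf
      rw [mem_insert, mem_insert, mem_singleton] at hf
      rcases hf with rfl | rfl | rfl
      · exact hpsi
      · exact keyU mq tq eq
      · exact keyU mx (by omega) ex
    have hxpsi : x ≠ psi y := by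
      rintro rfl
      have := R.u0
      omega
    have h4 := card_le_card h3
    rw [card_insert_of_notMem (by
        rw [mem_insert, mem_singleton, not_or]
        exact ⟨hqpsi.symm, hxpsi.symm⟩), card_pair hxq.symm] at h4
    have := S.c2 s
    omega
  -- an unguarded near element different from `y` gives a free element
  have freeL : ∀ q ∈ Sd, t q = 1 → q ≠ y → kl c e q → ∃ f ∈ fr c c' e Sd, f ≠ y ∧ f ≠ p := by
    intro q mq tq hqy hkl
    have hng : ¬ gu c e q := fun h => lowG q mq tq hqy h hkl
    have eq : 1 ≤ e q := z_kl hkl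
    obtain ⟨f, hf, h1⟩ := free_of (c' := c') mq hng (by
      intro z hz hlt
      obtain ⟨mz, hzp, hzy, hzx⟩ := dn mq hqy hz (by omega)
      obtain ⟨-, tz, hqz⟩ := z_chd S (Or.inl mq) hz
      refine ⟨mz, ?_, ?_⟩
      · rintro ⟨x, hx, hle⟩
        obtain ⟨mx, tx, ex⟩ := z_cov S C.adm1 mz (by omega) (by omega) hx
        have n1 : [p, y, q, z, x].Nodup := by
          simp only [List.nodup_cons, List.mem_cons, List.not_mem_nil, or_false, not_or,
            List.nodup_nil, and_true, not_false_eq_true]
          refine ⟨⟨py, ?_, hzp.symm, ?_⟩, ⟨hqy.symm, hzy.symm, (hzx x hx).symm⟩,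
            ⟨?_, ?_⟩, ?_⟩
          · rintro rfl; omega
          · rintro rfl; omega
          · rintro rfl; omega
          · rintro rfl; omega
          · rintro rfl; omega
        have hT := tot (e := e) n1
        simp only [List.map_cons, List.sum_cons, List.map_nil, List.sum_nil] at hT
        omega
      · rintro ⟨w, hw, hlt2⟩
        obtain ⟨mw, tw, -⟩ := z_chd S (Or.inl mz) hw
        have n1 : [p, y, q, z, w].Nodup := by
          simp only [List.nodup_cons, List.mem_cons, List.not_mem_nil, or_false, not_or,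
            List.nodup_nil, and_true, not_false_eq_true]
          refine ⟨⟨py, ?_, hzp.symm, ?_⟩, ⟨hqy.symm, hzy.symm, ?_⟩, ⟨?_, ?_⟩, ?_⟩
          · rintro rfl; omega
          · rintro rfl; omega
          · rintro rfl; omega
          · rintro rfl; omega
          · rintro rfl; omega
          · rintro rfl; omega
        have hT := tot (e := e) n1
        simp only [List.map_cons, List.sum_cons, List.map_nil, List.sum_nil] at hT
        omega)
    refine ⟨f, hf, ?_⟩
    rcases h1 with rfl | ⟨h1, h2⟩
    · exact ⟨hqy, by rintro rfl; omega⟩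
    · obtain ⟨mz, hzp, hzy, hzx⟩ := dn mq hqy h1 (by omega)
      exact ⟨hzy, hzp⟩
  have freeU : ∀ q ∈ Sd', t' q = 1 → kl c' e q → ∃ f, f ∈ fr c' c e Sd' := by
    intro q mq tq hkl
    have hng : ¬ gu c' e q := fun h => uppG q mq tq h hkl
    have eq : 1 ≤ e q := z_kl hkl
    obtain ⟨f, hf, h1⟩ := free_of (c' := c) mq hng (by
      intro z hz hlt
      obtain ⟨mz, tz, hqz⟩ := z_chd S' (Or.inl mq) hz
      refine ⟨mz, ?_, ?_⟩
      · rintro ⟨x, hx, hle⟩
        obtain ⟨mx, tx, ex⟩ := z_cov S' C.adm2 mz (by omega) (by omega) hx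
        have n1 : [p, y, q, z, x].Nodup := by
          simp only [List.nodup_cons, List.mem_cons, List.not_mem_nil, or_false, not_or,
            List.nodup_nil, and_true, not_false_eq_true]
          refine ⟨⟨py, sS mp mq, sS mp mz, sS mp mx⟩, ⟨sS my mq, sS my mz, sS my mx⟩,
            ⟨?_, ?_⟩, ?_⟩
          · rintro rfl; omega
          · rintro rfl; omega
          · rintro rfl; omega
        have hT := tot (e := e) n1
        simp only [List.map_cons, List.sum_cons, List.map_nil, List.sum_nil] at hT
        omega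
      · rintro ⟨w, hw, hlt2⟩
        obtain ⟨mw, tw, -⟩ := z_chd S' (Or.inl mz) hw
        have n1 : [p, y, q, z, w].Nodup := by
          simp only [List.nodup_cons, List.mem_cons, List.not_mem_nil, or_false, not_or,
            List.nodup_nil, and_true, not_false_eq_true]
          refine ⟨⟨py, sS mp mq, sS mp mz, sS mp mw⟩, ⟨sS my mq, sS my mz, sS my mw⟩,
            ⟨?_, ?_⟩, ?_⟩
          · rintro rfl; omega
          · rintro rfl; omega
          · rintro rfl; omega
        have hT := tot (e := e) n1
        simp only [List.map_cons, List.sum_cons, List.map_nil, List.sum_nil] at hT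
        omega)
    exact ⟨f, hf⟩
  -- the killer of a killed site
  have killer : ∀ {b : P}, (b ∈ KD c' e V ∨ b ∈ KD c e V) →
      (∃ q ∈ Sd, t q = 1 ∧ b ∈ kn c e q) ∨ (∃ q ∈ Sd', t' q = 1 ∧ b ∈ kn c' e q) := by
    rintro b (h | h)
    · obtain ⟨mb, q, hq, hlt⟩ := mem_KD.1 h
      obtain ⟨m1, m2, m3⟩ := z_chd S (Or.inr mb) hq
      exact Or.inl ⟨q, m1, by rw [m2, S.tV b mb], mem_kn.2 ⟨m3, hlt⟩⟩
    · obtain ⟨mb, q, hq, hlt⟩ := mem_KD.1 h
      obtain ⟨m1, m2, m3⟩ := z_chd S' (Or.inr mb) hq
      exact Or.inr ⟨q, m1, by rw [m2, S'.tV b mb], mem_kn.2 ⟨m3, hlt⟩⟩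
  have klk : ∀ {c : P → Finset P} {b q : P}, b ∈ kn c e q → kl c e q := by
    intro c b q h
    exact kl_iff.2 ⟨b, h⟩
  by_cases gy : gu c e y
  · have hy1 := S.kn_le_one gy
    obtain ⟨s, hs, hle⟩ := gy
    have ms := sit my ty1 hs
    have es : 1 ≤ e s := by omega
    obtain ⟨b, hb, hby⟩ : ∃ b ∈ KD c' e V ∪ KD c e V, b ∉ kn c e y := by
      by_contra h
      push Not at h
      have h2 : KD c' e V ∪ KD c e V ⊆ kn c e y := h
      have h3 := card_le_card h2
      omega
    have hF1 : 1 ≤ (fr c c' e Sd).card + (fr c' c e Sd').card := by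
      rcases killer (mem_union.1 hb) with ⟨q, mq, tq, hq⟩ | ⟨q, mq, tq, hq⟩
      · have hqy : q ≠ y := by
          rintro rfl
          exact hby hq
        obtain ⟨f', hf', n1, n2⟩ := freeL q mq tq hqy (klk hq)
        have := frp hf'
        omega
      · obtain ⟨f', hf'⟩ := freeU q mq tq (klk hq)
        have := frp' hf'
        omega
    rcases killer (allk hF1 s (inT ms es)) with ⟨k, mk, tk, hk1⟩ | ⟨k, mk, tk, hk1⟩
    · obtain ⟨hk2, hk3⟩ := mem_kn.1 hk1
      have hky : k ≠ y := by rintro rfl; omega
      obtain ⟨z, hz, ez⟩ := near k mk tk (by omega)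
      obtain ⟨mz, hzp, hzy, hzx⟩ := dn mk hky hz ez
      obtain ⟨-, tz, hkz⟩ := z_chd S (Or.inl mk) hz
      have n1 : [p, y, s, k, z].Nodup := by
        simp only [List.nodup_cons, List.mem_cons, List.not_mem_nil, or_false, not_or,
          List.nodup_nil, and_true, not_false_eq_true]
        refine ⟨⟨py, sV mp ms, ?_, hzp.symm⟩, ⟨sV my ms, hky.symm, hzy.symm⟩,
          ⟨(sV mk ms).symm, (sV mz ms).symm⟩, ?_⟩
        · rintro rfl; omega
        · rintro rfl; omega
      have pos : ∀ {a : P}, 1 ≤ e a → a = p ∨ a = y ∨ a = s ∨ a = k ∨ a = z := by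
        intro a ha
        have := tot_pos n1 hE (by
          simp only [List.map_cons, List.sum_cons, List.map_nil, List.sum_nil]
          omega) ha
        simpa only [List.mem_cons, List.not_mem_nil, or_false] using this
      have nearL : ∀ {a : P}, a ∈ Sd → t a = 1 → 1 ≤ e a → a = y ∨ a = k := by
        intro a ma ta ea
        rcases pos ea with h | h | h | h | h
        · rw [h] at ta; omega
        · exact Or.inl h
        · exact absurd h (sV ma ms)
        · exact Or.inr h
        · rw [h] at ta; omega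
      have hcz : c z = {k} := by
        refine eq_singleton_iff_unique_mem.2 ⟨hkz, fun x hx => ?_⟩
        obtain ⟨mx, tx, ex⟩ := z_cov S C.adm1 mz (by omega) ez hx
        rcases nearL mx (by omega) ex with h | h
        · exact absurd h (hzx x hx)
        · exact h
      have hck : (kn c e k).card ≤ 1 := by
        have h1 : (kn c e k).card ≤ (c k).card := card_le_card (filter_subset _ _)
        have h2 := S.c2 k
        by_contra h3
        exact hzp (pd z k p y ⟨mz, by omega, hcz, by omega⟩ R.pen ez ep)
      have hsub2 : KD c' e V ∪ KD c e V ⊆ kn c e y ∪ kn c e k := by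
        intro a ha
        rw [mem_union]
        rcases killer (mem_union.1 ha) with ⟨q, mq, tq, hq⟩ | ⟨q, mq, tq, hq⟩
        · rcases nearL mq tq (z_kl (klk hq)) with h | h
          · rw [h] at hq; exact Or.inl hq
          · rw [h] at hq; exact Or.inr hq
        · exfalso
          rcases pos (z_kl (klk hq)) with h | h | h | h | h
          · exact sS mp mq h.symm
          · exact sS my mq h.symm
          · exact sV' mq ms h
          · exact sS mk mq h.symm
          · exact sS mz mq h.symm
      have h4 := card_le_card hsub2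
      have h5 := card_union_le (kn c e y) (kn c e k)
      omega
    · obtain ⟨hk2, hk3⟩ := mem_kn.1 hk1
      obtain ⟨z, hz, ez⟩ := near' k mk tk (by omega)
      obtain ⟨mz, tz, hkz⟩ := z_chd S' (Or.inl mk) hz
      have n1 : [p, y, s, k, z].Nodup := by
        simp only [List.nodup_cons, List.mem_cons, List.not_mem_nil, or_false, not_or,
          List.nodup_nil, and_true, not_false_eq_true]
        refine ⟨⟨py, sV mp ms, sS mp mk, sS mp mz⟩, ⟨sV my ms, sS my mk, sS my mz⟩,
          ⟨(sV' mk ms).symm, (sV' mz ms).symm⟩, ?_⟩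
        · rintro rfl; omega
      have pos : ∀ {a : P}, 1 ≤ e a → a = p ∨ a = y ∨ a = s ∨ a = k ∨ a = z := by
        intro a ha
        have := tot_pos n1 hE (by
          simp only [List.map_cons, List.sum_cons, List.map_nil, List.sum_nil]
          omega) ha
        simpa only [List.mem_cons, List.not_mem_nil, or_false] using this
      have nearL : ∀ {a : P}, a ∈ Sd → t a = 1 → 1 ≤ e a → a = y := by
        intro a ma ta ea
        rcases pos ea with h | h | h | h | h
        · rw [h] at ta; omega
        · exact h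
        · exact absurd h (sV ma ms)
        · exact absurd h (sS ma mk)
        · exact absurd h (sS ma mz)
      have nearU : ∀ {a : P}, a ∈ Sd' → t' a = 1 → 1 ≤ e a → a = k := by
        intro a ma ta ea
        rcases pos ea with h | h | h | h | h
        · exact absurd h.symm (sS mp ma)
        · exact absurd h.symm (sS my ma)
        · exact absurd h (sV' ma ms)
        · exact h
        · rw [h] at ta; omega
      have hcz : c' z = {k} := by
        refine eq_singleton_iff_unique_mem.2 ⟨hkz, fun x hx => ?_⟩
        obtain ⟨mx, tx, ex⟩ := z_cov S' C.adm2 mz (by omega) ez hx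
        exact nearU mx (by omega) ex
      have hck : (kn c' e k).card ≤ 1 := by
        have h1 : (kn c' e k).card ≤ (c' k).card := card_le_card (filter_subset _ _)
        have h2 := S'.c2 k
        by_contra h3
        refine hnf ⟨p, y, z, k, R.pen, ⟨mz, by omega, hcz, by omega⟩, ep, ez, ?_⟩
        rintro rfl
        have := R.u0
        omega
      have hsub2 : KD c' e V ∪ KD c e V ⊆ kn c e y ∪ kn c' e k := by
        intro a ha
        rw [mem_union]
        rcases killer (mem_union.1 ha) with ⟨q, mq, tq, hq⟩ | ⟨q, mq, tq, hq⟩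
        · rw [nearL mq tq (z_kl (klk hq))] at hq
          exact Or.inl hq
        · rw [nearU mq tq (z_kl (klk hq))] at hq
          exact Or.inr hq
      have h4 := card_le_card hsub2
      have h5 := card_union_le (kn c e y) (kn c' e k)
      omega
  · -- `y` kills both its sites
    obtain ⟨f, hf, h1⟩ := free_of (c' := c') my gy (by
      intro z hz hlt
      have hzp : z = p := by
        by_contra h
        have := R.dy z hz h
        omega
      subst hzp
      refine ⟨mp, ?_, ?_⟩
      · rintro ⟨x, hx, hle⟩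
        rw [hcp hx] at hle
        omega
      · rintro ⟨x, hx, hle⟩
        have := R.dp x hx
        omega)
    have hfyp : f = y ∨ f = p := by
      rcases h1 with h1 | ⟨h1, h2⟩
      · exact Or.inl h1
      · right
        by_contra h
        have := R.dy f h1 h
        omega
    have hf1 := frp hf
    obtain ⟨b, hb, hby⟩ : ∃ b ∈ KD c' e V ∪ KD c e V, b ∉ c y := by
      by_contra h
      push Not at h
      have h2 : KD c' e V ∪ KD c e V ⊆ c y := h
      have h3 := card_le_card h2
      rw [R.pen.cy] at h3
      omega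
    rcases killer (mem_union.1 hb) with ⟨q, mq, tq, hq⟩ | ⟨q, mq, tq, hq⟩
    · have hqy : q ≠ y := by
        rintro rfl
        exact hby (mem_kn.1 hq).1
      obtain ⟨f', hf', n1, n2⟩ := freeL q mq tq hqy (klk hq)
      have hne : f ≠ f' := by
        rintro rfl
        rcases hfyp with h | h
        · exact n1 h
        · exact n2 h
      have h4 : ({f, f'} : Finset P) ⊆ fr c c' e Sd := by
        intro a ha
        rw [mem_insert, mem_singleton] at ha
        rcases ha with rfl | rfl <;> assumption
      have h5 := card_le_card h4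
      rw [card_pair hne] at h5
      omega
    · obtain ⟨f', hf'⟩ := freeU q mq tq (klk hq)
      have := frp' hf'
      omega

end Pool.Agent.GaussPoset.Win.Pf
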