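import Pool.Agent.W_448pn_h63.QaA
import Pool.Agent.W_448so_h17.AsF
import Pool.Agent.W_448so_h64.SoR
import Pool.Agent.W_448al_h63.LH

/-!
# Flip parts with three sites: the labellings of energy six over a flip
(MP_448cb3_co, G2, window `j - 1`)
-/

set_option autoImplicit false

namespace Pool.Agent.GaussPoset.Win.Pf

set_option linter.unusedSectionVars false

open Finset
open Pool.Agent.GaussPoset.Win.SO (on PSO PS5)

universe u

variable {P : Type u} [Fintype P] [PartialOrder P] [DecidableEq P] {r i : ℕ} {psi : P → P}
  {e : P → ℕ} {C : Finset P}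

/-- a flip in a part with three sites: `p` below `y` with the sites `a, s`, `q` above `u` with the
sites `s, b` -/
structure Flp (i : ℕ) (C : Finset P) (p y q u a s b : P) : Prop where
  mp : p ∈ C
  mq : q ∈ C
  lp : lev p = i + 2
  ly : lev y = i + 1
  lq : lev q + 2 = i
  lu : lev u + 1 = i
  cp : uc p = {y}
  cy : uc y = {a, s}
  cq : dc q = {u}
  cu : dc u = {s, b}
  as : a ≠ s
  sb : s ≠ b
  ab : a ≠ b
  st : Win.st i C = {a, s, b}

/-- parts with at most one pendant on each side and no closed pair -/
structure Pt (r i : ℕ) (psi : P → P) (C : Finset P) : Prop extends PSO r i psi C where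
  ncl : ∀ w ∈ C, ∀ w' ∈ C, ∀ x x' : P, lev w = i + 2 → x ≠ x' → uc w = {x, x'} →
    uc w' = {x, x'} → (uc x).card = 2 → (uc x').card = 2 → w = w'
  ncu : ∀ w ∈ C, ∀ w' ∈ C, ∀ x x' : P, lev w + 2 = i → x ≠ x' → dc w = {x, x'} →
    dc w' = {x, x'} → (dc x).card = 2 → (dc x').card = 2 → w = w'

variable {p y q u a s b g : P}

namespace Flp

variable (F : Flp i C p y q u a s b)
include F

lemma pD : p ∈ PD P i := mem_PD.2 ⟨F.lp, by rw [F.cp]; exact card_singleton _, y,
  by rw [← mem_uc, F.cp]; exact mem_singleton_self _, by rw [F.cy]; exact card_pair F.as⟩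

lemma qU : q ∈ PU P i := mem_PU.2 ⟨F.lq, by rw [F.cq]; exact card_singleton _, u,
  by rw [← mem_dc, F.cq]; exact mem_singleton_self _, by rw [F.cu]; exact card_pair F.sb⟩

lemma py : p ⋖ y := by rw [← mem_uc, F.cp]; exact mem_singleton_self _
lemma uq : u ⋖ q := by rw [← mem_dc, F.cq]; exact mem_singleton_self _
lemma ya : y ⋖ a := by rw [← mem_uc, F.cy]; exact mem_insert_self _ _
lemma ys : y ⋖ s := by rw [← mem_uc, F.cy]; exact mem_insert_of_mem (mem_singleton_self _)
lemma su : s ⋖ u := by rw [← mem_dc, F.cu]; exact mem_insert_self _ _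
lemma bu : b ⋖ u := by rw [← mem_dc, F.cu]; exact mem_insert_of_mem (mem_singleton_self _)

lemma la : lev a = i := (mem_st.1 (by rw [F.st]; exact mem_insert_self _ _)).2
lemma ls : lev s = i :=
  (mem_st.1 (by rw [F.st]; exact mem_insert_of_mem (mem_insert_self _ _))).2
lemma lb : lev b = i :=
  (mem_st.1 (by rw [F.st]; exact mem_insert_of_mem (mem_insert_of_mem
    (mem_singleton_self _)))).2
lemma sC : s ∈ C := (mem_st.1 (by rw [F.st]; exact mem_insert_of_mem (mem_insert_self _ _))).1

lemma b3 : (Win.st i C).card = 3 := by
  rw [F.st, card_insert_of_notMem, card_pair F.sb]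
  rw [mem_insert, mem_singleton, not_or]
  exact ⟨F.as, F.ab⟩

lemma yC (hC : Part (i + 1) C) : y ∈ C := hC.up F.mp F.py
lemma uC (hC : Part (i + 1) C) : u ∈ C := hC.dn F.mq (by have := F.lq; omega) F.uq

/-- the five elements are different -/
lemma nd : [p, y, s, u, q].Nodup := by
  have h1 := F.lp
  have h2 := F.ly
  have h3 := F.ls
  have h4 := F.lu
  have h5 := F.lq
  have hl : ∀ {v w : P}, lev v ≠ lev w → v ≠ w := fun h h' => h (by rw [h'])
  simp only [List.nodup_cons, List.mem_cons, List.not_mem_nil, or_false, not_or,
    List.nodup_nil, and_true, not_false_eq_true]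
  refine ⟨⟨hl ?_, hl ?_, hl ?_, hl ?_⟩, ⟨hl ?_, hl ?_, hl ?_⟩, ⟨hl ?_, hl ?_⟩, hl ?_⟩ <;> omega

end Flp

/-- labels one on the five elements of a flip -/
def bs (p y q u s : P) : P → ℕ := on {p, y, s, u, q}

lemma bs_apply (x : P) : bs p y q u s x =
    if x = p ∨ x = y ∨ x = s ∨ x = u ∨ x = q then 1 else 0 := by
  unfold bs on
  simp only [mem_insert, mem_singleton]

lemma bs_one (F : Flp i C p y q u a s b) : bs p y q u s p = 1 ∧ bs p y q u s y = 1 ∧
    bs p y q u s s = 1 ∧ bs p y q u s u = 1 ∧ bs p y q u s q = 1 := by
  simp only [bs_apply]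
  simp

/-- the sum of the labels of the flip -/
lemma bs_sum (F : Flp i C p y q u a s b) : ∑ x, bs p y q u s x = 5 := by
  unfold bs on
  rw [Finset.sum_ite_mem, univ_inter, Finset.sum_const, smul_eq_mul, mul_one]
  have h : ({p, y, s, u, q} : Finset P) = [p, y, s, u, q].toFinset := by simp
  rw [h, List.toFinset_card_of_nodup F.nd]
  rfl

/-- one more unit -/
noncomputable def bg (p y q u s g : P) : P → ℕ := bs p y q u s + Pi.single g 1

lemma bg_apply (x : P) : bg p y q u s g x =
    (if x = p ∨ x = y ∨ x = s ∨ x = u ∨ x = q then 1 else 0) + if x = g then 1 else 0 := by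
  unfold bg
  rw [Pi.add_apply, bs_apply, Pi.single_apply]

lemma bg_sum (F : Flp i C p y q u a s b) : ∑ x, bg p y q u s g x = 6 := by
  have h : ∑ x, (Pi.single g 1 : P → ℕ) x = 1 := by
    rw [Finset.sum_pi_single']
    simp
  unfold bg
  simp only [Pi.add_apply]
  rw [Finset.sum_add_distrib, bs_sum F, h]

/-- labels of `bg` outside the five elements -/
lemma bg_out (F : Flp i C p y q u a s b) {x : P} (h : x ≠ p) (h1 : x ≠ y) (h2 : x ≠ s)
    (h3 : x ≠ u) (h4 : x ≠ q) : bg p y q u s g x = if x = g then 1 else 0 := by
  rw [bg_apply, if_neg, zero_add]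
  rintro (h5 | h5 | h5 | h5 | h5)
  · exact h h5
  · exact h1 h5
  · exact h2 h5
  · exact h3 h5
  · exact h4 h5

lemma bg_in (g : P) {x : P} (h : x = p ∨ x = y ∨ x = s ∨ x = u ∨ x = q) :
    bg p y q u s g x = 1 + if x = g then 1 else 0 := by
  rw [bg_apply, if_pos h]

/-- the units which keep two deficits -/
noncomputable def G6 (C : Finset P) (p y q u s : P) : Finset P :=
  {y, u, s} ∪ (FLo C p ∪ FUp C q)

lemma mem_G6 : g ∈ G6 C p y q u s ↔
    g = y ∨ g = u ∨ g = s ∨ (g ∈ C ∧ uc g = {p}) ∨ (g ∈ C ∧ dc g = {q}) := by
  unfold G6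
  rw [mem_union, mem_union, mem_FLo, mem_FUp, mem_insert, mem_insert, mem_singleton]
  tauto

section facts

variable (Q : PSO r i psi C) (F : Flp i C p y q u a s b)
include Q F

/-- the other lower cover of the common site -/
lemma dcs (h : g ⋖ s) (hne : g ≠ y) : g ⋖ b := by
  classical
  have hd : u ∈ dbU P i := by
    unfold dbU
    rw [mem_filter]
    exact ⟨mem_univ _, F.lu, by rw [F.cu]; exact card_pair F.sb⟩
  obtain ⟨g1, g2⟩ := Q.hM.upp u hd (notMem_empty _)
  have hs : s ∈ uc (psi u) := by rw [g2, F.cu]; exact mem_insert_self _ _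
  have hb : b ∈ uc (psi u) := by
    rw [g2, F.cu]; exact mem_insert_of_mem (mem_singleton_self _)
  have hyu : psi u ≠ y := by
    intro h1
    rw [h1, F.cy, mem_insert, mem_singleton] at hb
    rcases hb with h2 | h2
    · exact F.ab h2.symm
    · exact F.sb h2.symm
  have hg : g = psi u := by
    by_contra hgu
    have h3 : ({g, psi u, y} : Finset P) ⊆ dc s := by
      intro x hx
      rw [mem_insert, mem_insert, mem_singleton] at hx
      rcases hx with rfl | rfl | rfl
      · exact mem_dc.2 h
      · exact mem_dc.2 (mem_uc.1 hs)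
      · exact mem_dc.2 F.ys
    have h4 := card_le_card h3
    rw [card_insert_of_notMem (by
      rw [mem_insert, mem_singleton, not_or]
      exact ⟨hgu, hne⟩), card_pair hyu] at h4
    have := dc_card_le Q.H s
    omega
  rw [hg]
  exact mem_uc.1 hb

/-- the other upper cover of the common site -/
lemma ucs (h : s ⋖ g) (hne : g ≠ u) : a ⋖ g := by
  classical
  have hd : y ∈ dbL P i := by
    unfold dbL
    rw [mem_filter]
    exact ⟨mem_univ _, F.ly, by rw [F.cy]; exact card_pair F.as⟩
  obtain ⟨g1, g2⟩ := Q.hM.low y hd (notMem_empty _)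
  have hs : s ∈ dc (psi y) := by
    rw [g2, F.cy]; exact mem_insert_of_mem (mem_singleton_self _)
  have hb : a ∈ dc (psi y) := by rw [g2, F.cy]; exact mem_insert_self _ _
  have hyu : psi y ≠ u := by
    intro h1
    rw [h1, F.cu, mem_insert, mem_singleton] at hb
    rcases hb with h2 | h2
    · exact F.as h2
    · exact F.ab h2
  have hg : g = psi y := by
    by_contra hgu
    have h3 : ({g, psi y, u} : Finset P) ⊆ uc s := by
      intro x hx
      rw [mem_insert, mem_insert, mem_singleton] at hx
      rcases hx with rfl | rfl | rfl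
      · exact mem_uc.2 h
      · exact mem_uc.2 (mem_dc.1 hs)
      · exact mem_uc.2 F.su
    have h4 := card_le_card h3
    rw [card_insert_of_notMem (by
      rw [mem_insert, mem_singleton, not_or]
      exact ⟨hgu, hne⟩), card_pair hyu] at h4
    have := uc_card_le Q.H s
    omega
  rw [hg]
  exact mem_dc.1 hb

lemma site3 {v : P} (hv : v ∈ C) (hl : lev v = i) : v = a ∨ v = s ∨ v = b := by
  have h : v ∈ Win.st i C := mem_st.2 ⟨hv, hl⟩
  rw [F.st, mem_insert, mem_insert, mem_singleton] at h
  exact h

/-- killers below the window -/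
lemma AL_bg {v : P} (hv : v ∈ AL i (bg p y q u s g)) :
    (v = a ∧ g ≠ a) ∨ (v = s ∧ g = y) ∨ (g ≠ y ∧ lev g = i + 1 ∧ g ⋖ v) := by
  rw [NormD_mem_AL] at hv
  obtain ⟨hl, z, hz, hlt⟩ := hv
  have hlz := lev_cov Q.H hz
  have h1 := F.lp
  have h2 := F.ly
  have h3 := F.ls
  have h4 := F.lu
  have h5 := F.lq
  have hla := F.la
  have hl' : ∀ {v w : P}, lev v ≠ lev w → v ≠ w := fun h h' => h (by rw [h'])
  by_cases hzy : z = y
  · rw [hzy] at hz hlt
    rw [← mem_uc, F.cy, mem_insert, mem_singleton] at hz
    rw [bg_in g (x := y) (Or.inr (Or.inl rfl))] at hlt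
    rcases hz with hz | hz
    · left
      refine ⟨hz, ?_⟩
      rintro rfl
      rw [hz, bg_out F (hl' (by omega)) (hl' (by omega)) F.as (hl' (by omega))
        (hl' (by omega)), if_pos rfl, if_neg (hl' (by omega))] at hlt
      omega
    · right; left
      refine ⟨hz, ?_⟩
      rw [hz, bg_in g (x := s) (Or.inr (Or.inr (Or.inl rfl)))] at hlt
      by_contra h
      rw [if_neg (Ne.symm h)] at hlt
      omega
  · right; right
    have : bg p y q u s g z = if z = g then 1 else 0 :=
      bg_out F (hl' (by omega)) hzy (hl' (by omega)) (hl' (by omega)) (hl' (by omega))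
    rw [this] at hlt
    have hzg : z = g := by
      by_contra h
      rw [if_neg h] at hlt
      omega
    rw [← hzg]
    exact ⟨hzy, by omega, hz⟩

/-- killers above the window -/
lemma AU_bg {v : P} (hv : v ∈ AU i (bg p y q u s g)) :
    (v = b ∧ g ≠ b) ∨ (v = s ∧ g = u) ∨ (g ≠ u ∧ lev g + 1 = i ∧ v ⋖ g) := by
  rw [NormD_mem_AU] at hv
  obtain ⟨hl, z, hz, hlt⟩ := hv
  have hlz := lev_cov Q.H hz
  have h1 := F.lp
  have h2 := F.ly
  have h3 := F.ls
  have h4 := F.lu
  have h5 := F.lq
  have hlb := F.lb
  have hl' : ∀ {v w : P}, lev v ≠ lev w → v ≠ w := fun h h' => h (by rw [h'])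
  by_cases hzy : z = u
  · rw [hzy] at hz hlt
    rw [← mem_dc, F.cu, mem_insert, mem_singleton] at hz
    rw [bg_in g (x := u) (Or.inr (Or.inr (Or.inr (Or.inl rfl))))] at hlt
    rcases hz with hz | hz
    · right; left
      refine ⟨hz, ?_⟩
      rw [hz, bg_in g (x := s) (Or.inr (Or.inr (Or.inl rfl)))] at hlt
      by_contra h
      rw [if_neg (Ne.symm h)] at hlt
      omega
    · left
      refine ⟨hz, ?_⟩
      rintro rfl
      rw [hz, bg_out F (hl' (by omega)) (hl' (by omega)) F.sb.symm (hl' (by omega))
        (hl' (by omega)), if_pos rfl, if_neg (hl' (by omega))] at hlt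
      omega
  · right; right
    have : bg p y q u s g z = if z = g then 1 else 0 :=
      bg_out F (hl' (by omega)) (hl' (by omega)) (hl' (by omega)) hzy (hl' (by omega))
    rw [this] at hlt
    have hzg : z = g := by
      by_contra h
      rw [if_neg h] at hlt
      omega
    rw [← hzg]
    exact ⟨hzy, by omega, hz⟩

end facts

/-- ONE MORE UNIT OUTSIDE THE LIST: at most one deficit -/
theorem cheap_g (Q : PSO r i psi C) (F : Flp i C p y q u a s b) (hg : g ∈ C)
    (hG : g ∉ G6 C p y q u s) : Cheap 1 i (bg p y q u s g) := by
  classical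
  have H := Q.H
  have h1 := F.lp
  have h2 := F.ly
  have h3 := F.ls
  have h4 := F.lu
  have h5 := F.lq
  have hla := F.la
  have hlb := F.lb
  have hl' : ∀ {v w : P}, lev v ≠ lev w → v ≠ w := fun h h' => h (by rw [h'])
  rw [mem_G6, not_or, not_or, not_or, not_or] at hG
  obtain ⟨gy, gu, gs, gf, gf'⟩ := hG
  have ea : g ≠ a → bg p y q u s g a = 0 := fun h => by
    rw [bg_out F (hl' (by omega)) (hl' (by omega)) F.as (hl' (by omega)) (hl' (by omega)),
      if_neg (Ne.symm h)]
  have eb : g ≠ b → bg p y q u s g b = 0 := fun h => by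
    rw [bg_out F (hl' (by omega)) (hl' (by omega)) F.sb.symm (hl' (by omega)) (hl' (by omega)),
      if_neg (Ne.symm h)]
  have eg : g ≠ p → g ≠ q → bg p y q u s g g = 1 := fun h h' => by
    rw [bg_out F h gy gs gu h', if_pos rfl]
  have ey : bg p y q u s g y = 1 := by
    rw [bg_in g (Or.inr (Or.inl rfl)), if_neg (Ne.symm gy)]
  have es : bg p y q u s g s = 1 := by
    rw [bg_in g (Or.inr (Or.inr (Or.inl rfl))), if_neg (Ne.symm gs)]
  have eu : bg p y q u s g u = 1 := by
    rw [bg_in g (Or.inr (Or.inr (Or.inr (Or.inl rfl)))), if_neg (Ne.symm gu)]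
  -- levels
  rcases Nat.lt_trichotomy (lev g) i with hlg | hlg | hlg
  · -- above the window
    by_cases hlg1 : lev g + 1 = i
    · have hnp : g ≠ p := hl' (by omega)
      have hnq : g ≠ q := hl' (by omega)
      have hna : g ≠ a := hl' (by omega)
      have hnb : g ≠ b := hl' (by omega)
      by_cases hag : a ⋖ g
      · right; right; left
        intro hd
        have m1 : a ∈ AL i (bg p y q u s g) := by
          rw [NormD_mem_AL]
          exact ⟨hla, y, F.ya, by rw [ea hna, ey]; exact Nat.zero_lt_one⟩
        have m2 : a ∈ AU i (bg p y q u s g) := by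
          rw [NormD_mem_AU]
          exact ⟨hla, g, hag, by rw [ea hna, eg hnp hnq]; exact Nat.zero_lt_one⟩
        exact disjoint_left.1 hd m1 m2
      · have hsg : ¬ s ⋖ g := fun h => hag (ucs Q F h gu)
        have hdg : ∀ v, v ⋖ g → v = b := by
          intro v hv
          have hlv := lev_cov H hv
          rcases site3 Q F (Q.hC.dn hg (by omega) hv) (by omega) with h | h | h
          · rw [h] at hv; exact absurd hv hag
          · rw [h] at hv; exact absurd hv hsg
          · exact h
        right; right; right
        have hp : 1 ≤ pU i (bg p y q u s g) := by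
          unfold pU
          apply card_pos.2
          refine ⟨g, mem_filter.2 ⟨mem_univ _, hlg, ?_, ?_⟩⟩
          · rintro ⟨z, hz, hlt⟩
            have hlz := lev_cov H hz
            rw [eg hnp hnq] at hlt
            by_cases hzq : z = q
            · rw [hzq, bg_in g (Or.inr (Or.inr (Or.inr (Or.inr rfl)))),
                if_neg (Ne.symm hnq)] at hlt
              omega
            · rw [bg_out F (hl' (by omega)) (hl' (by omega)) (hl' (by omega)) (hl' (by omega))
                hzq, if_neg (hl' (by omega))] at hlt
              omega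
          · rintro ⟨z, hz, hle⟩
            rw [hdg z hz, eb hnb, eg hnp hnq] at hle
            omega
        have h6 : AL i (bg p y q u s g) ⊆ {a} := by
          intro v hv
          rw [mem_singleton]
          rcases AL_bg Q F hv with h | h | h
          · exact h.1
          · exact absurd h.2 gy
          · omega
        have h7 : AU i (bg p y q u s g) ⊆ {b} := by
          intro v hv
          rw [mem_singleton]
          rcases AU_bg Q F hv with h | h | h
          · exact h.1
          · exact absurd h.2 gu
          · exact hdg v h.2.2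
        have h8 := card_le_card h6
        have h9 := card_le_card h7
        rw [card_singleton] at h8 h9
        omega
    · by_cases hgq : g = q
      · right; left
        intro hA
        refine hA u (by omega) ⟨⟨q, F.uq, ?_⟩, ⟨s, F.su, by rw [eu, es]⟩⟩
        rw [eu, bg_in g (x := q) (Or.inr (Or.inr (Or.inr (Or.inr rfl)))), if_pos hgq.symm]
        omega
      · have hnp : g ≠ p := hl' (by omega)
        right; left
        intro hA
        have key : ∀ x, x ⋖ g → bg p y q u s g x ≠ 0 := by
          intro x hx h0
          have hlx := lev_cov H hx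
          refine hA x (by omega) ⟨⟨g, hx, by rw [h0, eg hnp hgq]; exact Nat.zero_lt_one⟩, ?_⟩
          obtain ⟨w, hw⟩ := dc_nonempty H (x := x) (by have := Q.hi2; omega)
          exact ⟨w, mem_dc.1 hw, by rw [h0]; exact Nat.zero_le _⟩
        have key2 : ∀ x, x ⋖ g → x = u ∨ x = q := by
          intro x hx
          have hlx := lev_cov H hx
          by_contra h
          rw [not_or] at h
          apply key x hx
          rw [bg_out F (hl' (by omega)) (hl' (by omega)) (hl' (by omega)) h.1 h.2,
            if_neg (hl' (by omega))]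
        obtain ⟨x, hx⟩ := dc_nonempty H (x := g) (by have := Q.hi2; omega)
        have hlx := lev_cov H (mem_dc.1 hx)
        rcases key2 x (mem_dc.1 hx) with h | h
        · apply hgq
          refine Q.pu g hg q F.mq ?_ F.qU
          have hdg : dc g = {u} := by
            refine eq_singleton_iff_unique_mem.2 ⟨by rw [← h]; exact hx, fun x' hx' => ?_⟩
            have hlx' := lev_cov H (mem_dc.1 hx')
            rcases key2 x' (mem_dc.1 hx') with h' | h'
            · exact h'
            · rw [h'] at hlx'
              rw [h] at hlx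
              omega
          exact mem_PU.2 ⟨by rw [h] at hlx; omega, by rw [hdg]; exact card_singleton _, u,
            by rw [← mem_dc, hdg]; exact mem_singleton_self _,
            by rw [F.cu]; exact card_pair F.sb⟩
        · apply gf'
          refine ⟨hg, eq_singleton_iff_unique_mem.2 ⟨by rw [← h]; exact hx, fun x' hx' => ?_⟩⟩
          have hlx' := lev_cov H (mem_dc.1 hx')
          rcases key2 x' (mem_dc.1 hx') with h' | h'
          · rw [h'] at hlx'
            rw [h] at hlx
            omega
          · exact h'
  · -- sites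
    have h6 : g = a ∨ g = b := by
      rcases site3 Q F hg hlg with h | h | h
      · exact Or.inl h
      · exact absurd h gs
      · exact Or.inr h
    right; right; right
    have h7 : AL i (bg p y q u s g) ⊆ ({a} : Finset P).erase g := by
      intro v hv
      rw [mem_erase, mem_singleton]
      rcases AL_bg Q F hv with h | h | h
      · exact ⟨by rw [h.1]; exact Ne.symm h.2, h.1⟩
      · exact absurd h.2 gy
      · omega
    have h8 : AU i (bg p y q u s g) ⊆ ({b} : Finset P).erase g := by
      intro v hv
      rw [mem_erase, mem_singleton]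
      rcases AU_bg Q F hv with h | h | h
      · exact ⟨by rw [h.1]; exact Ne.symm h.2, h.1⟩
      · exact absurd h.2 gu
      · omega
    have h9 := card_le_card h7
    have h10 := card_le_card h8
    rcases h6 with h | h
    · rw [h] at h9 h10
      rw [card_erase_of_mem (mem_singleton_self _), card_singleton] at h9
      have := card_erase_le (s := ({b} : Finset P)) (a := a)
      rw [card_singleton] at this
      rw [h]
      omega
    · rw [h] at h9 h10
      rw [card_erase_of_mem (mem_singleton_self _), card_singleton] at h10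
      have := card_erase_le (s := ({a} : Finset P)) (a := b)
      rw [card_singleton] at this
      rw [h]
      omega
  · -- below the window
    by_cases hlg1 : lev g = i + 1
    · have hnp : g ≠ p := hl' (by omega)
      have hnq : g ≠ q := hl' (by omega)
      have hna : g ≠ a := hl' (by omega)
      have hnb : g ≠ b := hl' (by omega)
      by_cases hbg : g ⋖ b
      · right; right; left
        intro hd
        have m1 : b ∈ AL i (bg p y q u s g) := by
          rw [NormD_mem_AL]
          exact ⟨hlb, g, hbg, by rw [eb hnb, eg hnp hnq]; exact Nat.zero_lt_one⟩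
        have m2 : b ∈ AU i (bg p y q u s g) := by
          rw [NormD_mem_AU]
          exact ⟨hlb, u, F.bu, by rw [eb hnb, eu]; exact Nat.zero_lt_one⟩
        exact disjoint_left.1 hd m1 m2
      · have hsg : ¬ g ⋖ s := fun h => hbg (dcs Q F h gy)
        have hdg : ∀ v, g ⋖ v → v = a := by
          intro v hv
          have hlv := lev_cov H hv
          rcases site3 Q F (Q.hC.up hg hv) (by omega) with h | h | h
          · exact h
          · rw [h] at hv; exact absurd hv hsg
          · rw [h] at hv; exact absurd hv hbg
        right; right; right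
        have hp : 1 ≤ pL i (bg p y q u s g) := by
          unfold pL
          apply card_pos.2
          refine ⟨g, mem_filter.2 ⟨mem_univ _, hlg, ?_, ?_⟩⟩
          · rintro ⟨z, hz, hlt⟩
            have hlz := lev_cov H hz
            rw [eg hnp hnq] at hlt
            by_cases hzq : z = p
            · rw [hzq, bg_in g (Or.inl rfl), if_neg (Ne.symm hnp)] at hlt
              omega
            · rw [bg_out F hzq (hl' (by omega)) (hl' (by omega)) (hl' (by omega))
                (hl' (by omega)), if_neg (hl' (by omega))] at hlt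
              omega
          · rintro ⟨z, hz, hle⟩
            rw [hdg z hz, ea hna, eg hnp hnq] at hle
            omega
        have h6 : AL i (bg p y q u s g) ⊆ {a} := by
          intro v hv
          rw [mem_singleton]
          rcases AL_bg Q F hv with h | h | h
          · exact h.1
          · exact absurd h.2 gy
          · exact hdg v h.2.2
        have h7 : AU i (bg p y q u s g) ⊆ {b} := by
          intro v hv
          rw [mem_singleton]
          rcases AU_bg Q F hv with h | h | h
          · exact h.1
          · exact absurd h.2 gu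
          · omega
        have h8 := card_le_card h6
        have h9 := card_le_card h7
        rw [card_singleton] at h8 h9
        omega
    · by_cases hgq : g = p
      · left
        intro hA
        refine hA y (by omega) ⟨⟨p, F.py, ?_⟩, ⟨s, F.ys, by rw [ey, es]⟩⟩
        rw [ey, bg_in g (x := p) (Or.inl rfl), if_pos hgq.symm]
        omega
      · have hnp : g ≠ q := hl' (by omega)
        left
        intro hA
        have key : ∀ x, g ⋖ x → bg p y q u s g x ≠ 0 := by
          intro x hx h0
          have hlx := lev_cov H hx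
          refine hA x (by omega) ⟨⟨g, hx, by rw [h0, eg hgq hnp]; exact Nat.zero_lt_one⟩, ?_⟩
          obtain ⟨w, hw⟩ := uc_nonempty H (x := x) (by have := Q.hi; omega)
          exact ⟨w, mem_uc.1 hw, by rw [h0]; exact Nat.zero_le _⟩
        have key2 : ∀ x, g ⋖ x → x = y ∨ x = p := by
          intro x hx
          have hlx := lev_cov H hx
          by_contra h
          rw [not_or] at h
          apply key x hx
          rw [bg_out F h.2 h.1 (hl' (by omega)) (hl' (by omega)) (hl' (by omega)),
            if_neg (hl' (by omega))]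
        obtain ⟨x, hx⟩ := uc_nonempty H (x := g) (by omega)
        have hlx := lev_cov H (mem_uc.1 hx)
        rcases key2 x (mem_uc.1 hx) with h | h
        · apply hgq
          refine Q.pd g hg p F.mp ?_ F.pD
          have hdg : uc g = {y} := by
            refine eq_singleton_iff_unique_mem.2 ⟨by rw [← h]; exact hx, fun x' hx' => ?_⟩
            have hlx' := lev_cov H (mem_uc.1 hx')
            rcases key2 x' (mem_uc.1 hx') with h' | h'
            · exact h'
            · rw [h'] at hlx'
              rw [h] at hlx
              omega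
          exact mem_PD.2 ⟨by rw [h] at hlx; omega, by rw [hdg]; exact card_singleton _, y,
            by rw [← mem_uc, hdg]; exact mem_singleton_self _,
            by rw [F.cy]; exact card_pair F.as⟩
        · apply gf
          refine ⟨hg, eq_singleton_iff_unique_mem.2 ⟨by rw [← h]; exact hx, fun x' hx' => ?_⟩⟩
          have hlx' := lev_cov H (mem_uc.1 hx')
          rcases key2 x' (mem_uc.1 hx') with h' | h'
          · rw [h'] at hlx'
            rw [h] at hlx
            omega
          · exact h'

end Pool.Agent.GaussPoset.Win.Pf
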