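import Pool.Agent.W_448pn_h63.QaB

/-!
# Flip parts with three sites: values and the assembly at energy six
(MP_448cb3_co, G2, window `j - 1`)
-/

set_option autoImplicit false

namespace Pool.Agent.GaussPoset.Win.Pf

set_option linter.unusedSectionVars false

open Finset
open Pool.Agent.GaussPoset.Win.SO (on PSO PS5)

universe u

variable {P : Type u} [Fintype P] [PartialOrder P] [DecidableEq P] {r i : ℕ} {psi : P → P}
  {e f : P → ℕ} {C : Finset P} {p y q u a s b g : P}

/-- the value of a labelling from the data of both sides -/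
lemma tC_LU {a0 p0 a1 p1 : ℕ} {B B' : Finset P} (D : LDat i e a0 p0 B) (D' : UDat i e a1 p1 B')
    (hd : Disjoint B B') (C : Finset P) :
    tC i C e = dd ^ (p0 + p1 + ((st i C).card - B.card - B'.card)) *
      (xx ^ (a0 + B.card) * xi ^ (a1 + p1)) := by
  unfold tC cw
  rw [if_pos (show Disjoint (AL i e) (AU i e) by rw [D.al_eq, D'.au_eq]; exact hd),
    if_pos ⟨D.adm, D'.adm⟩, D.a_eq, D.p_eq, D.al_eq, D'.a_eq, D'.p_eq, D'.au_eq, pow_add xx,
    pow_add dd (p0 + p1)]
  ring

/-- the leading coefficient with two deficits -/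
lemma coeff_LU {a0 p0 a1 p1 : ℕ} {B B' : Finset P} (D : LDat i e a0 p0 B)
    (D' : UDat i e a1 p1 B') (hd : Disjoint B B') (C : Finset P)
    (h : 2 + (p0 + p1 + ((st i C).card - B.card - B'.card)) = (st i C).card) :
    PowerSeries.coeff (st i C).card (dd ^ 2 * tC i C e : A) =
      (-1) ^ (a0 + B.card + (a1 + p1)) := by
  rw [tC_LU D D' hd C, ← mul_assoc, ← pow_add, h]
  exact SO.coef_units _ _ _

/-! ### labellings above a given one -/

lemma eq_of_le (h : ∀ x, f x ≤ e x) (hs : ∑ x, e x = ∑ x, f x) : e = f := by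
  have h1 : ∑ x, (e x - f x) = 0 := by
    have h2 : ∑ x, e x = ∑ x, (e x - f x) + ∑ x, f x := by
      rw [← Finset.sum_add_distrib]
      refine Finset.sum_congr rfl fun x _ => ?_
      have := h x
      omega
    omega
  rw [Finset.sum_eq_zero_iff] at h1
  funext x
  have := h1 x (mem_univ _)
  have := h x
  omega

lemma single_of_le (h : ∀ x, f x ≤ e x) (hs : ∑ x, e x = ∑ x, f x + 1) :
    ∃ g, e = f + Pi.single g 1 := by
  have h1 : ∑ x, (e x - f x) = 1 := by
    have h2 : ∑ x, e x = ∑ x, (e x - f x) + ∑ x, f x := by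
      rw [← Finset.sum_add_distrib]
      refine Finset.sum_congr rfl fun x _ => ?_
      have := h x
      omega
    omega
  obtain ⟨g, hg⟩ : ∃ g, e g - f g ≠ 0 := by
    by_contra hcon
    push Not at hcon
    rw [Finset.sum_eq_zero (fun v _ => hcon v)] at h1
    omega
  refine ⟨g, ?_⟩
  have h7 := Finset.add_sum_erase univ (fun x => e x - f x) (mem_univ g)
  simp only [h1] at h7
  have h8 : ∑ w ∈ univ.erase g, (e w - f w) = 0 := by omega
  rw [Finset.sum_eq_zero_iff] at h8
  funext w
  rw [Pi.add_apply, Pi.single_apply]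
  have := h w
  by_cases hwg : w = g
  · rw [if_pos hwg, hwg]
    have := h g
    omega
  · rw [if_neg hwg]
    have := h8 w (mem_erase.2 ⟨hwg, mem_univ _⟩)
    omega

section facts

variable (Q : PSO r i psi C) (F : Flp i C p y q u a s b)
include Q F

/-- a configuration which excites both pendants is above the flip -/
lemma bs_le (hA : AdmL i e) (hB : AdmU i e) (hd : Disjoint (AL i e) (AU i e)) (ep : 0 < e p)
    (eq : 0 < e q) (x : P) : bs p y q u s x ≤ e x := by
  have h1 := F.lp
  have h2 := F.ly
  have h3 := F.ls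
  have h4 := F.lu
  have h5 := F.lq
  have hir := Q.hi2
  have ey : 0 < e y := pos_up Q.H hA (z := p) (y := y) (by omega) ep F.py
  have eu : 0 < e u := pos_dn Q.H (by omega) hB (x := q) (y := u) (by omega) eq F.uq
  have es : 0 < e s := by
    by_contra h
    have m1 : s ∈ AL i e := by
      rw [NormD_mem_AL]
      exact ⟨h3, y, F.ys, by omega⟩
    have m2 : s ∈ AU i e := by
      rw [NormD_mem_AU]
      exact ⟨h3, u, F.su, by omega⟩
    exact disjoint_left.1 hd m1 m2
  rw [bs_apply]
  split_ifs with h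
  · rcases h with rfl | rfl | rfl | rfl | rfl <;> omega
  · exact Nat.zero_le _

omit Q in
/-- the double is free -/
lemma low_free (H : Gr P r) (h1 : ∀ x, i < lev x → e x ≠ 0 → x = y ∨ x = p ∨
    (uc x = {p} ∧ e x ≤ e p)) (h2 : e p ≤ e y) (ha : e a < e y) (hs : e s < e y) :
    LDat i e 0 1 {a, s} := by
  have h := chain_dat H F.ly F.cp h1 h2
  have k1 : ∀ v ∈ uc y, e v < e y := by
    intro v hv
    rw [F.cy, mem_insert, mem_singleton] at hv
    rcases hv with rfl | rfl <;> assumption
  rw [if_pos k1, filter_true_of_mem k1, F.cy] at h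
  exact h

omit Q in
/-- the double is guarded by the common site -/
lemma low_grd (H : Gr P r) (h1 : ∀ x, i < lev x → e x ≠ 0 → x = y ∨ x = p ∨
    (uc x = {p} ∧ e x ≤ e p)) (h2 : e p ≤ e y) (ha : e a < e y) (hs : e y ≤ e s) :
    LDat i e 0 0 {a} := by
  have h := chain_dat H F.ly F.cp h1 h2
  have k1 : ¬ ∀ v ∈ uc y, e v < e y := by
    intro h3
    have := h3 s (by rw [F.cy]; exact mem_insert_of_mem (mem_singleton_self _))
    omega
  have k2 : (uc y).filter (fun v => e v < e y) = {a} := by
    ext v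
    rw [mem_filter, F.cy, mem_insert, mem_singleton, mem_singleton]
    constructor
    · rintro ⟨rfl | rfl, h3⟩
      · rfl
      · omega
    · rintro rfl
      exact ⟨Or.inl rfl, ha⟩
  rw [if_neg k1, k2] at h
  exact h

omit Q in
lemma upp_free (H : Gr P r) (hi : i ≤ r) (h1 : ∀ x, lev x < i → e x ≠ 0 → x = u ∨ x = q ∨
    (dc x = {q} ∧ e x ≤ e q)) (h2 : e q ≤ e u) (hb : e b < e u) (hs : e s < e u) :
    UDat i e 0 1 {s, b} := by
  have h := chain_datU H hi F.lu F.cq h1 h2
  have k1 : ∀ v ∈ dc u, e v < e u := by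
    intro v hv
    rw [F.cu, mem_insert, mem_singleton] at hv
    rcases hv with rfl | rfl <;> assumption
  rw [if_pos k1, filter_true_of_mem k1, F.cu] at h
  exact h

omit Q in
lemma upp_grd (H : Gr P r) (hi : i ≤ r) (h1 : ∀ x, lev x < i → e x ≠ 0 → x = u ∨ x = q ∨
    (dc x = {q} ∧ e x ≤ e q)) (h2 : e q ≤ e u) (hb : e b < e u) (hs : e u ≤ e s) :
    UDat i e 0 0 {b} := by
  have h := chain_datU H hi F.lu F.cq h1 h2
  have k1 : ¬ ∀ v ∈ dc u, e v < e u := by
    intro h3
    have := h3 s (by rw [F.cu]; exact mem_insert_self _ _)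
    omega
  have k2 : (dc u).filter (fun v => e v < e u) = {b} := by
    ext v
    rw [mem_filter, F.cu, mem_insert, mem_singleton]
    constructor
    · rintro ⟨rfl | rfl, h3⟩
      · omega
      · rfl
    · rintro rfl
      exact ⟨Or.inr rfl, hb⟩
  rw [if_neg k1, k2] at h
  exact h

/-- levels of the additional units -/
lemma lev_G6 (hg : g ∈ G6 C p y q u s) :
    g = y ∨ g = u ∨ g = s ∨ (lev g = i + 3 ∧ uc g = {p}) ∨ (lev g + 3 = i ∧ dc g = {q}) := by
  rcases mem_G6.1 hg with h | h | h | h | h
  · exact Or.inl h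
  · exact Or.inr (Or.inl h)
  · exact Or.inr (Or.inr (Or.inl h))
  · have h1 := lev_uc Q.H (x := g) (v := p) (by rw [h.2]; exact mem_singleton_self _)
    have := F.lp
    exact Or.inr (Or.inr (Or.inr (Or.inl ⟨by omega, h.2⟩)))
  · have h1 := lev_dc Q.H (x := g) (v := q) (by rw [h.2]; exact mem_singleton_self _)
    have := F.lq
    exact Or.inr (Or.inr (Or.inr (Or.inr ⟨by omega, h.2⟩)))

/-- excited elements below the window -/
lemma exc_low (hg : g ∈ G6 C p y q u s) (x : P) (hx : i < lev x) (h : bg p y q u s g x ≠ 0) :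
    x = y ∨ x = p ∨ (uc x = {p} ∧ bg p y q u s g x ≤ bg p y q u s g p) := by
  have h3 := F.ls
  have h4 := F.lu
  have h5 := F.lq
  have hl' : ∀ {v w : P}, lev v ≠ lev w → v ≠ w := fun h h' => h (by rw [h'])
  by_cases hxy : x = y
  · exact Or.inl hxy
  by_cases hxp : x = p
  · exact Or.inr (Or.inl hxp)
  have h6 := bg_out (g := g) F hxp hxy (hl' (by omega)) (hl' (by omega)) (hl' (by omega))
  have hxg : x = g := by
    by_contra h7
    rw [h6, if_neg h7] at h
    exact h rfl
  right; right
  rcases lev_G6 Q F hg with k | k | k | k | k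
  · exact absurd (hxg.trans k) hxy
  · have := congrArg lev (hxg.trans k); omega
  · have := congrArg lev (hxg.trans k); omega
  · refine ⟨by rw [hxg]; exact k.2, ?_⟩
    rw [h6, if_pos hxg, bg_in g (x := p) (Or.inl rfl)]
    omega
  · rw [hxg] at hx; omega

/-- excited elements above the window -/
lemma exc_upp (hg : g ∈ G6 C p y q u s) (x : P) (hx : lev x < i) (h : bg p y q u s g x ≠ 0) :
    x = u ∨ x = q ∨ (dc x = {q} ∧ bg p y q u s g x ≤ bg p y q u s g q) := by
  have h1 := F.lp
  have h2 := F.ly
  have h3 := F.ls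
  have hl' : ∀ {v w : P}, lev v ≠ lev w → v ≠ w := fun h h' => h (by rw [h'])
  by_cases hxy : x = u
  · exact Or.inl hxy
  by_cases hxp : x = q
  · exact Or.inr (Or.inl hxp)
  have h6 := bg_out (g := g) F (hl' (by omega)) (hl' (by omega)) (hl' (by omega)) hxy hxp
  have hxg : x = g := by
    by_contra h7
    rw [h6, if_neg h7] at h
    exact h rfl
  right; right
  rcases lev_G6 Q F hg with k | k | k | k | k
  · have := congrArg lev (hxg.trans k); omega
  · exact absurd (hxg.trans k) hxy
  · have := congrArg lev (hxg.trans k); omega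
  · rw [hxg] at hx; omega
  · refine ⟨by rw [hxg]; exact k.2, ?_⟩
    rw [h6, if_pos hxg, bg_in g (x := q) (Or.inr (Or.inr (Or.inr (Or.inr rfl))))]
    omega

/-- the labels of the flip in `bg` -/
lemma bg_vals (hg : g ∈ G6 C p y q u s) : bg p y q u s g p = 1 ∧ bg p y q u s g q = 1 ∧
    bg p y q u s g a = 0 ∧ bg p y q u s g b = 0 ∧
    bg p y q u s g y = 1 + (if y = g then 1 else 0) ∧
    bg p y q u s g u = 1 + (if u = g then 1 else 0) ∧
    bg p y q u s g s = 1 + (if s = g then 1 else 0) := by
  have h1 := F.lp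
  have h2 := F.ly
  have h3 := F.ls
  have h4 := F.lu
  have h5 := F.lq
  have hla := F.la
  have hlb := F.lb
  have hl' : ∀ {v w : P}, lev v ≠ lev w → v ≠ w := fun h h' => h (by rw [h'])
  have hk := lev_G6 Q F hg
  refine ⟨?_, ?_, ?_, ?_, bg_in g (Or.inr (Or.inl rfl)),
    bg_in g (Or.inr (Or.inr (Or.inr (Or.inl rfl)))), bg_in g (Or.inr (Or.inr (Or.inl rfl)))⟩
  · rw [bg_in g (Or.inl rfl), if_neg]
    rcases hk with k | k | k | k | k
    · rw [k]; exact hl' (by omega)
    · rw [k]; exact hl' (by omega)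
    · rw [k]; exact hl' (by omega)
    · exact hl' (by omega)
    · exact hl' (by omega)
  · rw [bg_in g (Or.inr (Or.inr (Or.inr (Or.inr rfl)))), if_neg]
    rcases hk with k | k | k | k | k
    · rw [k]; exact hl' (by omega)
    · rw [k]; exact hl' (by omega)
    · rw [k]; exact hl' (by omega)
    · exact hl' (by omega)
    · exact hl' (by omega)
  · rw [bg_out F (hl' (by omega)) (hl' (by omega)) F.as (hl' (by omega)) (hl' (by omega)),
      if_neg]
    rcases hk with k | k | k | k | k
    · rw [k]; exact hl' (by omega)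
    · rw [k]; exact hl' (by omega)
    · rw [k]; exact F.as
    · exact hl' (by omega)
    · exact hl' (by omega)
  · rw [bg_out F (hl' (by omega)) (hl' (by omega)) F.sb.symm (hl' (by omega)) (hl' (by omega)),
      if_neg]
    rcases hk with k | k | k | k | k
    · rw [k]; exact hl' (by omega)
    · rw [k]; exact hl' (by omega)
    · rw [k]; exact F.sb.symm
    · exact hl' (by omega)
    · exact hl' (by omega)

/-- THE VALUES: `+1` for `y` and `u`, `-1` for all others -/
theorem bg_coeff (hg : g ∈ G6 C p y q u s) :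
    PowerSeries.coeff (st i C).card (dd ^ 2 * tC i C (bg p y q u s g) : A) =
      if g = y ∨ g = u then 1 else -1 := by
  classical
  have H := Q.H
  have hir := Q.hi2
  have h2 := F.ly
  have h3 := F.ls
  have h4 := F.lu
  obtain ⟨v1, v2, v3, v4, v5, v6, v7⟩ := bg_vals Q F hg
  have hl' : ∀ {v w : P}, lev v ≠ lev w → v ≠ w := fun h h' => h (by rw [h'])
  have yu : y ≠ u := hl' (by omega)
  have ys : y ≠ s := hl' (by omega)
  have us : u ≠ s := hl' (by omega)
  have e1 := exc_low Q F hg
  have e2 := exc_upp Q F hg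
  have b3 := F.b3
  have ca : ({a} : Finset P).card = 1 := card_singleton _
  have cb : ({b} : Finset P).card = 1 := card_singleton _
  have cas : ({a, s} : Finset P).card = 2 := card_pair F.as
  have csb : ({s, b} : Finset P).card = 2 := card_pair F.sb
  by_cases gy : g = y
  · rw [if_pos (Or.inl gy)]
    rw [if_pos gy.symm] at v5
    rw [if_neg (by rw [gy]; exact yu.symm)] at v6
    rw [if_neg (by rw [gy]; exact ys.symm)] at v7
    have D := low_free F H e1 (by omega) (by omega) (by omega)
    have D' := upp_grd F H (by omega) e2 (by omega) (by omega) (by omega)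
    have hd : Disjoint ({a, s} : Finset P) {b} := by
      rw [disjoint_singleton_right, mem_insert, mem_singleton, not_or]
      exact ⟨F.ab.symm, F.sb.symm⟩
    rw [coeff_LU D D' hd C (by rw [cas, cb, b3]), cas]
    norm_num
  by_cases gu : g = u
  · rw [if_pos (Or.inr gu)]
    rw [if_pos gu.symm] at v6
    rw [if_neg (by rw [gu]; exact yu)] at v5
    rw [if_neg (by rw [gu]; exact us.symm)] at v7
    have D := low_grd F H e1 (by omega) (by omega) (by omega)
    have D' := upp_free F H (by omega) e2 (by omega) (by omega) (by omega)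
    have hd : Disjoint ({a} : Finset P) {s, b} := by
      rw [disjoint_singleton_left, mem_insert, mem_singleton, not_or]
      exact ⟨F.as, F.ab⟩
    rw [coeff_LU D D' hd C (by rw [ca, csb, b3]), ca]
    norm_num
  · rw [if_neg (by rw [not_or]; exact ⟨gy, gu⟩)]
    rw [if_neg (Ne.symm gu)] at v6
    rw [if_neg (Ne.symm gy)] at v5
    have D := low_grd F H e1 (by omega) (by omega) (by omega)
    have D' := upp_grd F H (by omega) e2 (by omega) (by omega) (by omega)
    have hd : Disjoint ({a} : Finset P) {b} := by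
      rw [disjoint_singleton]
      exact F.ab
    rw [coeff_LU D D' hd C (by rw [ca, cb, b3]), ca]
    norm_num

end facts

end Pool.Agent.GaussPoset.Win.Pf
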