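import Pool.Agent.W_448pn_h63.QaC

/-!
# Flip parts with three sites: the value of (6,2)
(MP_448cb3_co, G2, window `j - 1`)
-/

set_option autoImplicit false

namespace Pool.Agent.GaussPoset.Win.Pf

set_option linter.unusedSectionVars false

open Finset
open Pool.Agent.GaussPoset.Win.SO (on PSO PS5 tL tU LO6)
open Pool.Agent.GaussPoset.Win.I2 (lS uS mem_lS mem_uS)
open Pool.Agent.GaussPoset.Win.So (TogL TogU TgP asm_N J spt_pa)

universe u

variable {P : Type u} [Fintype P] [PartialOrder P] [DecidableEq P] {r i : ℕ} {psi : P → P}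
  {e f : P → ℕ} {C : Finset P} {p y q u a s b g : P}

section facts

variable (Q : PSO r i psi C) (F : Flp i C p y q u a s b)
include Q F

/-- a labelling above the flip whose excited elements at distance one are `y`, `u` is a core -/
lemma core_of_two (h1 : ∀ x, lev x = i + 1 → e x ≠ 0 → x = y)
    (h2 : ∀ x, lev x + 1 = i → e x ≠ 0 → x = u) (ep : 0 < e p) (eq : 0 < e q) :
    IsCore i ∅ psi e := by
  refine SO.core_of_f1 Q.H ?_ ?_
  · intro x hx tx ex
    rw [mem_lS] at hx
    unfold tL at tx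
    have := h1 x (by omega) (by omega)
    exact ⟨p, by rw [this]; exact mem_dc.2 F.py, ep⟩
  · intro x hx tx ex
    rw [mem_uS] at hx
    unfold tU at tx
    have := h2 x (by omega) (by omega)
    exact ⟨q, by rw [this]; exact mem_uc.2 F.uq, eq⟩

/-- no toggle if the pendants are the only excited elements at distance two -/
lemma no_tgp_two (h1 : ∀ x, lev x = i + 2 → e x ≠ 0 → x = p)
    (h2 : ∀ x, lev x + 2 = i → e x ≠ 0 → x = q) {w v : P} : ¬ TgP i e w v := by
  rintro (⟨x, x', c1, c2, T, -⟩ | ⟨x, x', c1, c2, T, -⟩)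
  · have := T.hw
    have h3 := h1 w T.lw (by omega)
    have h4 := T.uw
    rw [h3, F.cp] at h4
    have h5 : x ∈ ({y} : Finset P) := by rw [h4]; exact mem_insert_self _ _
    have h6 : x' ∈ ({y} : Finset P) := by
      rw [h4]; exact mem_insert_of_mem (mem_singleton_self _)
    rw [mem_singleton] at h5 h6
    exact T.xx' (h5.trans h6.symm)
  · have := T.hw
    have h3 := h2 w T.lw (by omega)
    have h4 := T.uw
    rw [h3, F.cq] at h4
    have h5 : x ∈ ({u} : Finset P) := by rw [h4]; exact mem_insert_self _ _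
    have h6 : x' ∈ ({u} : Finset P) := by
      rw [h4]; exact mem_insert_of_mem (mem_singleton_self _)
    rw [mem_singleton] at h5 h6
    exact T.xx' (h5.trans h6.symm)

/-- excited elements of the flip -/
lemma bs_exc {x : P} (h : bs p y q u s x ≠ 0) : x = p ∨ x = y ∨ x = s ∨ x = u ∨ x = q := by
  rw [bs_apply] at h
  by_contra h1
  rw [if_neg h1] at h
  exact h rfl

lemma bs_levels (x : P) (h : bs p y q u s x ≠ 0) :
    (lev x = i + 1 → x = y) ∧ (lev x + 1 = i → x = u) ∧ (lev x = i + 2 → x = p) ∧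
      (lev x + 2 = i → x = q) := by
  have h1 := F.lp
  have h2 := F.ly
  have h3 := F.ls
  have h4 := F.lu
  have h5 := F.lq
  refine ⟨?_, ?_, ?_, ?_⟩ <;> intro hl <;> rcases bs_exc Q F h with k | k | k | k | k <;>
    first
      | exact k
      | (exfalso; have := congrArg lev k; omega)

lemma bg_levels (hg : g ∈ G6 C p y q u s) (x : P) (h : bg p y q u s g x ≠ 0) :
    (lev x = i + 1 → x = y) ∧ (lev x + 1 = i → x = u) ∧ (lev x = i + 2 → x = p) ∧
      (lev x + 2 = i → x = q) := by
  have h1 := F.lp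
  have h2 := F.ly
  have h3 := F.ls
  have h4 := F.lu
  have h5 := F.lq
  have hL : ∀ {x : P}, uc x = {p} → lev x = i + 3 := by
    intro x hx
    have := lev_uc Q.H (x := x) (v := p) (by rw [hx]; exact mem_singleton_self _)
    omega
  have hU : ∀ {x : P}, dc x = {q} → lev x + 3 = i := by
    intro x hx
    have := lev_dc Q.H (x := x) (v := q) (by rw [hx]; exact mem_singleton_self _)
    omega
  refine ⟨?_, ?_, ?_, ?_⟩ <;> intro hl
  · rcases exc_low Q F hg x (by omega) h with k | k | k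
    · exact k
    · have := congrArg lev k; omega
    · have := hL k.1; omega
  · rcases exc_upp Q F hg x (by omega) h with k | k | k
    · exact k
    · have := congrArg lev k; omega
    · have := hU k.1; omega
  · rcases exc_low Q F hg x (by omega) h with k | k | k
    · have := congrArg lev k; omega
    · exact k
    · have := hL k.1; omega
  · rcases exc_upp Q F hg x (by omega) h with k | k | k
    · have := congrArg lev k; omega
    · exact k
    · have := hU k.1; omega

lemma bs_core : IsCore i ∅ psi (bs p y q u s) := by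
  obtain ⟨v1, -, -, -, v5⟩ := bs_one F
  exact core_of_two Q F (fun x hx h => (bs_levels Q F x h).1 hx)
    (fun x hx h => (bs_levels Q F x h).2.1 hx) (by omega) (by omega)

lemma bs_tgp {w v : P} : ¬ TgP i (bs p y q u s) w v :=
  no_tgp_two Q F (fun x hx h => (bs_levels Q F x h).2.2.1 hx)
    (fun x hx h => (bs_levels Q F x h).2.2.2 hx)

lemma bg_core (hg : g ∈ G6 C p y q u s) : IsCore i ∅ psi (bg p y q u s g) := by
  obtain ⟨v1, v2, -⟩ := bg_vals Q F hg
  exact core_of_two Q F (fun x hx h => (bg_levels Q F hg x h).1 hx)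
    (fun x hx h => (bg_levels Q F hg x h).2.1 hx) (by omega) (by omega)

lemma bg_tgp (hg : g ∈ G6 C p y q u s) {w v : P} : ¬ TgP i (bg p y q u s g) w v :=
  no_tgp_two Q F (fun x hx h => (bg_levels Q F hg x h).2.2.1 hx)
    (fun x hx h => (bg_levels Q F hg x h).2.2.2 hx)

lemma bs_spt : Spt C (bs p y q u s) := by
  intro x hx
  by_contra h
  apply hx
  rcases bs_exc Q F h with k | k | k | k | k
  · rw [k]; exact F.mp
  · rw [k]; exact F.yC Q.hC
  · rw [k]; exact F.sC
  · rw [k]; exact F.uC Q.hC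
  · rw [k]; exact F.mq

lemma G6_sub (hg : g ∈ G6 C p y q u s) : g ∈ C := by
  rcases mem_G6.1 hg with k | k | k | k | k
  · rw [k]; exact F.yC Q.hC
  · rw [k]; exact F.uC Q.hC
  · rw [k]; exact F.sC
  · exact k.1
  · exact k.1

lemma bg_spt (hg : g ∈ C) : Spt C (bg p y q u s g) := by
  intro x hx
  have h1 := bs_spt Q F x hx
  unfold bg
  rw [Pi.add_apply, h1, zero_add, Pi.single_apply, if_neg]
  rintro rfl
  exact hx hg

/-- ENERGY: no toggle if both pendants are excited -/
lemma flip_tgp (hA : AdmL i e) (hB : AdmU i e) (hd : Disjoint (AL i e) (AU i e))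
    (ep : 0 < e p) (eq : 0 < e q) (hE : ∑ x, e x ≤ 6) {w v : P} : ¬ TgP i e w v := by
  have h1 := F.lp
  have h2 := F.ly
  have h3 := F.ls
  have h4 := F.lu
  have h5 := F.lq
  have hl' : ∀ {v w : P}, lev v ≠ lev w → v ≠ w := fun h h' => h (by rw [h'])
  have hle := bs_le Q F hA hB hd ep eq
  obtain ⟨v1, v2, v3, v4, v5⟩ := bs_one F
  have e1 := hle p
  have e2 := hle y
  have e3 := hle s
  have e4 := hle u
  have e5 := hle q
  rintro (⟨x, x', c1, c2, T, -⟩ | ⟨x, x', c1, c2, T, -⟩)
  · have lw := T.lw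
    have lx := T.lx Q.H
    have lx' := T.lx' Q.H
    have hw := T.hw
    have hx := T.hx
    have hx' := T.hx'
    have hwp : w ≠ p := by
      intro h
      have h6 := T.uw
      rw [h, F.cp] at h6
      have h7 : x ∈ ({y} : Finset P) := by rw [h6]; exact mem_insert_self _ _
      have h8 : x' ∈ ({y} : Finset P) := by
        rw [h6]; exact mem_insert_of_mem (mem_singleton_self _)
      rw [mem_singleton] at h7 h8
      exact T.xx' (h7.trans h8.symm)
    obtain ⟨z, lz, ez, hzy⟩ : ∃ z, lev z = i + 1 ∧ 1 ≤ e z ∧ z ≠ y := by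
      by_cases h : x = y
      · exact ⟨x', lx', hx', fun h' => T.xx' (h.trans h'.symm)⟩
      · exact ⟨x, lx, hx, h⟩
    have hn : [w, z, p, y, s, u, q].Nodup := by
      rw [List.nodup_cons, List.nodup_cons]
      refine ⟨?_, ?_, F.nd⟩
      · simp only [List.mem_cons, List.not_mem_nil, or_false, not_or]
        exact ⟨hl' (by omega), hwp, hl' (by omega), hl' (by omega), hl' (by omega),
          hl' (by omega)⟩
      · simp only [List.mem_cons, List.not_mem_nil, or_false, not_or]
        exact ⟨hl' (by omega), hzy, hl' (by omega), hl' (by omega), hl' (by omega)⟩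
    have hT := So.tot (e := e) hn
    simp only [List.map_cons, List.sum_cons, List.map_nil, List.sum_nil] at hT
    omega
  · have lw := T.lw
    have lx := T.lx Q.H
    have lx' := T.lx' Q.H
    have hw := T.hw
    have hx := T.hx
    have hx' := T.hx'
    have hwp : w ≠ q := by
      intro h
      have h6 := T.uw
      rw [h, F.cq] at h6
      have h7 : x ∈ ({u} : Finset P) := by rw [h6]; exact mem_insert_self _ _
      have h8 : x' ∈ ({u} : Finset P) := by
        rw [h6]; exact mem_insert_of_mem (mem_singleton_self _)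
      rw [mem_singleton] at h7 h8
      exact T.xx' (h7.trans h8.symm)
    obtain ⟨z, lz, ez, hzy⟩ : ∃ z, lev z + 1 = i ∧ 1 ≤ e z ∧ z ≠ u := by
      by_cases h : x = u
      · exact ⟨x', lx', hx', fun h' => T.xx' (h.trans h'.symm)⟩
      · exact ⟨x, lx, hx, h⟩
    have hn : [w, z, p, y, s, u, q].Nodup := by
      rw [List.nodup_cons, List.nodup_cons]
      refine ⟨?_, ?_, F.nd⟩
      · simp only [List.mem_cons, List.not_mem_nil, or_false, not_or]
        exact ⟨hl' (by omega), hl' (by omega), hl' (by omega), hl' (by omega), hl' (by omega),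
          hwp⟩
      · simp only [List.mem_cons, List.not_mem_nil, or_false, not_or]
        exact ⟨hl' (by omega), hl' (by omega), hl' (by omega), hzy, hl' (by omega)⟩
    have hT := So.tot (e := e) hn
    simp only [List.map_cons, List.sum_cons, List.map_nil, List.sum_nil] at hT
    omega

end facts

/-- the leftover labellings of a flip part -/
def LF (i : ℕ) (C : Finset P) (p y q u s : P) (e : P → ℕ) : Prop :=
  LO6 uc dc (tL (P := P) i) (tU i) (lS P i) (uS P i) e ∨ e = bs p y q u s ∨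
    ∃ g ∈ G6 C p y q u s, e = bg p y q u s g

section cls

variable (Q : Pt r i psi C) (F : Flp i C p y q u a s b)
include Q F

omit F in
lemma Pt.noClo (hs : Spt C e) : ¬ SO.Clo uc (tL (P := P) i) (lS P i) e := by
  rintro ⟨w, w', x, x', h1, h2, h3, h4, h5, h6, h7, h8, h9, h10, h11, h12⟩
  rw [mem_lS] at h1
  unfold tL at h3
  exact h5 (Q.ncl w (SO.mem_of_spt hs h11) w' (SO.mem_of_spt hs h12) x x' (by omega) h6 h7 h8
    h9 h10)

omit F in
lemma Pt.noCloU (hs : Spt C e) : ¬ SO.Clo dc (tU (P := P) i) (uS P i) e := by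
  rintro ⟨w, w', x, x', h1, h2, h3, h4, h5, h6, h7, h8, h9, h10, h11, h12⟩
  rw [mem_uS] at h1
  unfold tU at h3
  exact h5 (Q.ncu w (SO.mem_of_spt hs h11) w' (SO.mem_of_spt hs h12) x x' (by omega) h6 h7 h8
    h9 h10)

/-- CLASSIFICATION for the cores of a flip part with three sites, energy at most six -/
theorem cls3 (hs : Spt C e) (hc : IsCore i ∅ psi e) (hE : ∑ x, e x ≤ 6) :
    Cheap 1 i e ∨ (Cheap 2 i e ∧ ∃ w v, TgP i e w v) ∨ LF i C p y q u s e := by
  classical
  by_cases hA : AdmL i e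
  swap
  · exact Or.inl (Or.inl hA)
  by_cases hB : AdmU i e
  swap
  · exact Or.inl (Or.inr (Or.inl hB))
  by_cases hd : Disjoint (AL i e) (AU i e)
  swap
  · exact Or.inl (Or.inr (Or.inr (Or.inl hd)))
  have hir := Q.hi2
  have W := Q.toPSO.two
  have hcf := SO.cfg_of Q.H Q.hi2 Q.hM hc hA hB hd
  by_cases hfl : 0 < e p ∧ 0 < e q
  · have hle := bs_le Q.toPSO F hA hB hd hfl.1 hfl.2
    have h5 := bs_sum F
    have h6 : ∑ x, bs p y q u s x ≤ ∑ x, e x := Finset.sum_le_sum fun x _ => hle x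
    rcases Nat.lt_or_ge (∑ x, e x) 6 with h7 | h7
    · right; right; right; left
      exact eq_of_le hle (by omega)
    · obtain ⟨g, hg⟩ := single_of_le hle (by omega)
      have hgC : g ∈ C := by
        by_contra h
        have h8 := hs g h
        rw [hg, Pi.add_apply, Pi.single_apply, if_pos rfl] at h8
        omega
      by_cases hG : g ∈ G6 C p y q u s
      · right; right; right; right
        exact ⟨g, hG, hg⟩
      · left
        rw [hg]
        exact cheap_g Q.toPSO F hgC hG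
  -- no flip
  have hPL : ∀ {p1 y1 : P}, SO.Pen uc (tL (P := P) i) (lS P i) p1 y1 → 0 < e p1 → p1 = p :=
    fun h h' => Q.pd _ (SO.mem_of_spt hs h') p F.mp (SO.pen_low Q.H h).1 F.pD
  have hPU : ∀ {p1 y1 : P}, SO.Pen dc (tU (P := P) i) (uS P i) p1 y1 → 0 < e p1 → p1 = q :=
    fun h h' => Q.pu _ (SO.mem_of_spt hs h') q F.mq (SO.pen_up Q.H h).1 F.qU
  have hCi : Part i C := SO.part_pred Q.hC
  have hst : (st i C).card ≤ 3 := by rw [F.b3]
  have hT1 : ∀ v ∈ lv P i, v ∉ st i C → e v = 0 := by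
    intro v hv hv'
    apply hs
    intro h
    exact hv' (mem_st.2 ⟨h, (mem_lv.1 hv)⟩)
  have hT2 : I2.KD dc e (lv P i) ⊆ st i C := by
    rw [I2.KD_low]
    exact AL_sub hCi hs
  have hT3 : I2.KD uc e (lv P i) ⊆ st i C := by
    rw [I2.KD_up]
    exact AU_sub Q.H hCi hs
  rcases SO.classify W hcf (Q.toPSO.pdx hs) (Q.toPSO.pux hs) hE with h | h | h | h | h | h | h
  · exact Or.inl (SO.cheap_of h)
  · exact absurd h (Q.noClo hs)
  · exact absurd h (Q.noCloU hs)
  · exfalso
    obtain ⟨p1, y1, p2, u1, k1, k2, k3, k4, -⟩ := h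
    apply hfl
    rw [← hPL k1 k3, ← hPU k2 k4]
    exact ⟨k3, k4⟩
  · right; left
    refine ⟨SO.cheap_of h.1, ?_⟩
    rcases h.2 with ⟨w, x, x', v, T⟩ | ⟨w, x, x', v, T⟩
    · obtain ⟨c1, c2, k1, k2⟩ := SO.togL_of Q.H Q.hM T
      exact ⟨w, v, Or.inl ⟨x, x', c1, c2, k1, k2⟩⟩
    · obtain ⟨c1, c2, k1, k2⟩ := SO.togU_of Q.H Q.hM T
      exact ⟨w, v, Or.inr ⟨x, x', c1, c2, k1, k2⟩⟩
  · left
    rcases h.1 with ⟨p1, y1, R⟩ | ⟨p1, y1, R⟩
    · refine SO.cheap_of (k := 1) ?_
      refine ref3 W hcf (Q.toPSO.pdx hs) hE hst hT1 hT2 hT3 ?_ R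
      rintro ⟨p1, y1, p2, u1, k1, k2, k3, k4, -⟩
      apply hfl
      rw [← hPL k1 k3, ← hPU k2 k4]
      exact ⟨k3, k4⟩
    · refine SO.cheap_of (k := 1) ?_
      rw [add_comm]
      refine ref3 W.symm hcf.symm (Q.toPSO.pux hs) hE hst hT1 hT3 hT2 ?_ R
      rintro ⟨p1, y1, p2, u1, k1, k2, k3, k4, -⟩
      apply hfl
      rw [← hPL k2 k4, ← hPU k1 k3]
      exact ⟨k4, k3⟩
  · exact Or.inr (Or.inr (Or.inl h))

/-- the leftover labellings are cores without toggle -/
lemma LF_core (h : LF i C p y q u s e) : IsCore i ∅ psi e ∧ ∀ w v, ¬ TgP i e w v := by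
  rcases h with h | h | ⟨g, hg, h⟩
  · have h5 := SO.LO6.ex Q.toPSO.two h
    exact ⟨SO.core_of_f1 Q.H h5.a1.f1 h5.b1.f1, fun w v => SO.no_tgp Q.H h5.v0 h5.a1 h5.b1⟩
  · rw [h]
    exact ⟨bs_core Q.toPSO F, fun w v => bs_tgp Q.toPSO F⟩
  · rw [h]
    exact ⟨bg_core Q.toPSO F hg, fun w v => bg_tgp Q.toPSO F hg⟩

omit F in
theorem Pt.unique (hs : Spt C e) (hE : ∑ x, e x ≤ 6) {w v w1 v1 : P}
    (T : TgP i e w v) (T1 : TgP i e w1 v1) : w1 = w ∧ v1 = v := by
  refine SO.tgp_unique Q.H hE ?_ ?_ T T1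
  · intro w w' x x' a1 a2 a3 a4 a5 a6 a7 a8
    exact Q.ncl w (SO.mem_of_spt hs a7) w' (SO.mem_of_spt hs a8) x x' a1 a2 a3 a4 a5 a6
  · intro w w' x x' a1 a2 a3 a4 a5 a6 a7 a8
    exact Q.ncu w (SO.mem_of_spt hs a7) w' (SO.mem_of_spt hs a8) x x' a1 a2 a3 a4 a5 a6

open Classical in
/-- the sum over the cores of one energy -/
theorem level3 {n : ℕ} (hn : n ≤ 6) (m : ℕ) :
    dd ^ ((st i C).card - 1) ∣
      ∑ e ∈ (C.piAntidiag n).filter (IsCore i ∅ psi), J i psi C m e -
        ∑ e ∈ (C.piAntidiag n).filter (LF i C p y q u s), J i psi C m e := by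
  have hsum : ∀ e ∈ C.piAntidiag n, ∑ x, e x = n := fun e he => by
    rw [I2.mem_pa] at he
    exact he.1
  have h1 := asm_N Q.H Q.hi Q.hi2 Q.hM Q.hC (q := n) m
    (fun _ => True) (fun _ => True) (LF i C p y q u s)
    (fun _ _ _ _ _ => trivial)
    (fun _ _ _ _ _ => trivial)
    (fun e he _ _ _ w v w1 v1 T T1 =>
      Q.unique (spt_pa he) (by rw [hsum e he]; exact hn) T T1)
    (fun e he hc _ _ w v T => by
      rcases cls3 Q F (spt_pa he) hc (by rw [hsum e he]; exact hn) with h | h | h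
      · exact Cheap.mono (by omega) h
      · exact h.1
      · exact absurd T ((LF_core Q F h).2 w v))
    (fun e he hc _ ht hL => by
      rcases cls3 Q F (spt_pa he) hc (by rw [hsum e he]; exact hn) with h | h | h
      · exact h
      · obtain ⟨w, v, T⟩ := h.2
        exact absurd T (ht trivial w v)
      · exact absurd h hL)
    (fun e he hL => ⟨(LF_core Q F hL).1, trivial, fun _ => (LF_core Q F hL).2⟩)
  simp only [and_true] at h1
  exact h1

end cls

end Pool.Agent.GaussPoset.Win.Pf
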