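import Pool.Agent.W_448pn_h63.QaD
import Pool.Agent.W_448v3_h53.V3A

/-!
# Flip parts with three sites: the value of (6,2)
(MP_448cb3_co, G2, window `j - 1`)
-/

set_option autoImplicit false

namespace Pool.Agent.GaussPoset.Win.Pf

set_option linter.unusedSectionVars false

open Finset
open Pool.Agent.GaussPoset.Win.SO (on PSO PS5 tL tU LO6 N1f N5f mem_N1f mem_N5f Ix PR mem_Ix mem_PR
  Psi val)
open Pool.Agent.GaussPoset.Win.I2 (lS uS mem_lS mem_uS)
open Pool.Agent.GaussPoset.Win.So (TogL TogU TgP asm_N J spt_pa RC)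

universe u

variable {P : Type u} [Fintype P] [PartialOrder P] [DecidableEq P] {r i : ℕ} {psi : P → P}
  {e f : P → ℕ} {C : Finset P} {p y q u a s b g : P}

/-- the contribution of a core as a sum of terms -/
theorem J_sum (H : Gr P r) (hir : i ≤ r) (psi : P → P) (hC : Part i C) (hs : Spt C e)
    (hc : IsCore i ∅ psi e) (m : ℕ) :
    J i psi C m e = ∑ l ∈ (RC i psi C e).piAntidiag m, tC i C (e + l) := by
  have h4 : ∀ l ∈ (RC i psi C e).piAntidiag m, tC i C (e + l) =
      IV (st i C) (fun S => Fe i e S * ∏ x ∈ RC i psi C e, wt i e x (l x) S) := by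
    intro l hl
    rw [I2.mem_pa] at hl
    have hs' : Spt C (e + l) := by
      intro x hx
      rw [Pi.add_apply, hs x hx, hl.2 x (fun h => hx (by
        unfold RC at h
        exact (mem_inter.1 h).2))]
    rw [← So.IV_Fe H hC hs']
    congr 1
    funext S
    refine fact_many H hir (RC i psi C e) (fun x hx => So.RC_near hx) (fun x hx => ?_)
      (fun x hx => ?_) l hl.2 S
    · unfold RC at hx
      exact (mem_Rst.1 (mem_inter.1 hx).1).2.2.1
    · unfold RC at hx
      exact hc x (mem_inter.1 hx).1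
  rw [Finset.sum_congr rfl h4]
  unfold J So.RG IV
  rw [Finset.sum_comm]
  refine Finset.sum_congr rfl fun S _ => ?_
  simp only [Finset.mul_sum]

section two

variable (Q : PSO r i psi C) (F : Flp i C p y q u a s b)
include Q F

/-- the free near elements of the flip are outside the list -/
lemma RC_G6 {x : P} (hx : x ∈ RC i psi C (bs p y q u s)) : x ∈ C ∧ x ∉ G6 C p y q u s := by
  have hx' := hx
  unfold RC at hx'
  obtain ⟨h1, h2⟩ := mem_inter.1 hx'
  obtain ⟨h3, h4, h5, h6⟩ := mem_Rst.1 h1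
  obtain ⟨v1, v2, v3, v4, v5⟩ := bs_one F
  refine ⟨h2, fun h => ?_⟩
  have hn := (mem_near.1 h3)
  rcases lev_G6 Q F h with k | k | k | k | k
  · apply h5
    rw [k, mem_Tch]
    exact Or.inl ⟨F.ly, p, F.py, by omega⟩
  · apply h5
    rw [k, mem_Tch]
    exact Or.inr ⟨F.lu, q, F.uq, by omega⟩
  · have := congrArg lev k
    have := F.ls
    omega
  · omega
  · omega

/-- one more near unit over the flip -/
lemma J_bs : dd ^ ((st i C).card - 1) ∣ J i psi C 1 (bs p y q u s) := by
  have hir : i ≤ r := by have := Q.hi2; omega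
  rw [J_sum Q.H hir psi (SO.part_pred Q.hC) (bs_spt Q F) (bs_core Q F)]
  refine Finset.dvd_sum fun l hl => ?_
  rw [I2.mem_pa] at hl
  obtain ⟨g, hg⟩ : ∃ g, l = Pi.single g 1 := by
    have h1 : ∀ x, (0 : P → ℕ) x ≤ l x := fun x => Nat.zero_le _
    have hz : ∑ x, (0 : P → ℕ) x = 0 := by simp
    have h2 : ∑ x, l x = ∑ x, (0 : P → ℕ) x + 1 := by
      rw [hz]
      have h3 := hl.1
      rw [zero_add]
      exact h3
    obtain ⟨g, hg⟩ := single_of_le h1 h2
    exact ⟨g, by rw [hg, zero_add]⟩
  have hgR : g ∈ RC i psi C (bs p y q u s) := by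
    by_contra h
    have := hl.2 g h
    rw [hg, Pi.single_eq_same] at this
    omega
  obtain ⟨k1, k2⟩ := RC_G6 Q F hgR
  rw [hg]
  exact SO.cheap_dvd Q.H Q.hC (bg_spt Q F k1) (cheap_g Q F k1 k2)

end two

lemma LO6_sum (Q : PSO r i psi C) (hs : Spt C e)
    (h : LO6 uc dc (tL (P := P) i) (tU i) (lS P i) (uS P i) e) : ∑ x, e x = 6 := by
  obtain ⟨T, hT, rfl⟩ := SO.LO6_index Q hs h
  exact (SO.val_ne Q hT).1

section main

variable (Q : Pt r i psi C) (F : Flp i C p y q u a s b)
include Q F

open Classical in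
/-- THE SUM OF ENERGY SIX -/
theorem main6 : dd ^ ((st i C).card - 1) ∣ ZC i C 6 -
    ∑ e ∈ (C.piAntidiag 6).filter (LF i C p y q u s), tC i C e := by
  have hir : i ≤ r := by have := Q.hi2; omega
  have hP := SO.part_pred Q.hC
  have hq5 : ∀ q' ≤ 4, (C.piAntidiag q').filter (LF i C p y q u s) = ∅ := by
    intro q' hq'
    rw [Finset.filter_eq_empty_iff]
    intro e he hL
    have h0 := spt_pa he
    rw [I2.mem_pa] at he
    rcases hL with h | h | ⟨g, -, h⟩
    · have := LO6_sum Q.toPSO h0 h
      omega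
    · have := bs_sum F
      rw [h] at he
      omega
    · have := bg_sum (g := g) F
      rw [h] at he
      omega
  have h5 : (C.piAntidiag 5).filter (LF i C p y q u s) = {bs p y q u s} := by
    ext e
    rw [mem_filter, mem_singleton]
    constructor
    · rintro ⟨he, hL⟩
      have h0 := spt_pa he
      rw [I2.mem_pa] at he
      rcases hL with h | h | ⟨g, -, h⟩
      · have := LO6_sum Q.toPSO h0 h
        omega
      · exact h
      · have := bg_sum (g := g) F
        rw [h] at he
        omega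
    · rintro rfl
      exact ⟨I2.mem_pa.2 ⟨bs_sum F, bs_spt Q.toPSO F⟩, Or.inr (Or.inl rfl)⟩
  have e1 : ∑ e ∈ (C.piAntidiag 6).filter (LF i C p y q u s), tC i C e +
      J i psi C 1 (bs p y q u s) =
      ∑ n ∈ range (6 + 1), ∑ e ∈ (C.piAntidiag n).filter (LF i C p y q u s),
        J i psi C (6 - n) e := by
    rw [Finset.sum_range_succ, Finset.sum_range_succ]
    have e2 : ∑ n ∈ range 5, ∑ e ∈ (C.piAntidiag n).filter (LF i C p y q u s),
        J i psi C (6 - n) e = 0 := by
      refine Finset.sum_eq_zero fun n hn => ?_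
      rw [mem_range] at hn
      rw [hq5 n (by omega), Finset.sum_empty]
    rw [e2, h5, Finset.sum_singleton, zero_add, add_comm]
    congr 1
    refine Finset.sum_congr rfl fun e he => ?_
    rw [Nat.sub_self, So.J_zero Q.H hir hP (spt_pa (mem_filter.1 he).1)]
  have h6 : dd ^ ((st i C).card - 1) ∣ ZC i C 6 -
      (∑ e ∈ (C.piAntidiag 6).filter (LF i C p y q u s), tC i C e +
        J i psi C 1 (bs p y q u s)) := by
    rw [So.ZC_cores Q.H hir psi hP 6, e1, ← Finset.sum_sub_distrib]
    refine Finset.dvd_sum fun n hn => ?_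
    exact level3 Q F (by rw [mem_range] at hn; omega) (6 - n)
  have h7 := dvd_add h6 (J_bs Q.toPSO F)
  convert h7 using 1
  ring

/-- the index set of the leftover labellings outside the flip -/
lemma Ix_three {T : Finset P} (hT : T ∈ Ix i C) : ∃ z ∈ N1f i C, T = {z} := by
  have H := Q.H
  have hir : i ≤ r := by have := Q.hi2; omega
  have b3 := F.b3
  rcases mem_Ix.1 hT with h | ⟨z, h | h, k⟩
  · exfalso
    obtain ⟨h1, h2, h3⟩ := mem_PR.1 h
    obtain ⟨z, z', hne, rfl⟩ := card_eq_two.1 h2
    have hz := h1 (mem_insert_self z {z'})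
    have hz' := h1 (mem_insert_of_mem (mem_singleton_self z') : z' ∈ ({z, z'} : Finset P))
    have hd := h3 z (mem_insert_self z {z'}) z' (mem_insert_of_mem (mem_singleton_self z')) hne
    have m1 := (SO.num_Chs H hz).mC
    have m2 := (SO.num_Chs H hz').mC
    have h5 : sit i z ∪ sit i z' ⊆ st i C :=
      union_subset (SO.sit_part H Q.hC m1) (SO.sit_part H Q.hC m2)
    have h6 := card_le_card h5
    rw [card_union_of_disjoint hd] at h6
    have := Pn.chs_two H hz
    have := Pn.chs_two H hz'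
    omega
  · exact ⟨z, h, k⟩
  · exfalso
    obtain ⟨hzC, ⟨hl, p', w, hp, hw, hu, hd⟩ | ⟨hl, p', w, hp, hw, hu, hd⟩⟩ := mem_N5f.1 h
    · have hpC : p' ∈ C := Q.hC.up hzC (by rw [← mem_uc, hu]; exact mem_insert_self _ _)
      have hpp := Q.pd p' hpC p F.mp hp F.pD
      have hwC := (mem_ZL.1 hw).1
      have hlw := (mem_ZL.1 hw).2.1
      have h7 : (sit i w).card = 3 := by
        rw [sit_low H (by omega), card_sts]
        exact (mem_ZL.1 hw).2.2
      have h8 := SO.sit_part H Q.hC hwC
      have h9 : sit i w = st i C := eq_of_subset_of_card_le h8 (by omega)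
      have hl1 := (mem_PD.1 hp).1
      rw [← sit_low H (by omega), ← sit_low H (by omega), h9] at hd
      have h10 : a ∈ sit i p' := by
        rw [sit_low H (by omega), mem_sts]
        exact ⟨F.la, (by rw [hpp]; exact F.py.lt.trans F.ya.lt)⟩
      exact disjoint_left.1 hd h10 (SO.sit_part H Q.hC hpC h10)
    · have hpz : p' ⋖ z := by rw [← mem_dc, hu]; exact mem_insert_self _ _
      have hpC : p' ∈ C := Q.hC.dn hzC (by have := lev_cov H hpz; omega) hpz
      have hpp := Q.pu p' hpC q F.mq hp F.qU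
      have hwC := (mem_ZU.1 hw).1
      have hlw := (mem_ZU.1 hw).2.1
      have h7 : (sit i w).card = 3 := by
        rw [sit_upp H (by omega), card_stD]
        exact (mem_ZU.1 hw).2.2
      have h8 := SO.sit_part H Q.hC hwC
      have h9 : sit i w = st i C := eq_of_subset_of_card_le h8 (by omega)
      have hl1 := (mem_PU.1 hp).1
      rw [← sit_upp H (by omega), ← sit_upp H (by omega), h9] at hd
      have h10 : b ∈ sit i p' := by
        rw [sit_upp H (by omega), mem_stD]
        exact ⟨F.lb, (by rw [hpp]; exact F.bu.lt.trans F.uq.lt)⟩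
      exact disjoint_left.1 hd h10 (SO.sit_part H Q.hC hpC h10)

/-- the leftover labellings of energy six -/
lemma LF_six (e : P → ℕ) : e ∈ (C.piAntidiag 6) ∧ LF i C p y q u s e ↔
    (∃ z ∈ N1f i C, e = Psi i C {z}) ∨ ∃ g ∈ G6 C p y q u s, e = bg p y q u s g := by
  have H := Q.H
  have hir : i ≤ r := by have := Q.hi2; omega
  have b3 := F.b3
  constructor
  · rintro ⟨he, h | h | h⟩
    · obtain ⟨T, hT, rfl⟩ := SO.LO6_index Q.toPSO (spt_pa he) h
      obtain ⟨z, hz, rfl⟩ := Ix_three Q F hT
      exact Or.inl ⟨z, hz, rfl⟩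
    · exfalso
      rw [I2.mem_pa] at he
      have := bs_sum F
      rw [h] at he
      omega
    · exact Or.inr h
  · rintro (⟨z, hz, rfl⟩ | ⟨g, hg, rfl⟩)
    · have hT : ({z} : Finset P) ∈ Ix i C := mem_Ix.2 (Or.inr ⟨z, Or.inl hz, rfl⟩)
      obtain ⟨h1, h2⟩ := SO.val_ne Q.toPSO hT
      have hs := SO.Psi_spt H Q.hC hT
      refine ⟨I2.mem_pa.2 ⟨h1, hs⟩, ?_⟩
      rcases cls3 Q F hs (SO.Psi_core H hT) h1.le with h | ⟨h, w, v, h3⟩ | h
      · exfalso
        exact h2 (SO.cheap_coeff H Q.hC hs h (by omega))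
      · exfalso
        rcases h3 with ⟨x, x', c1, c2, G, -⟩ | ⟨x, x', c1, c2, G, -⟩
        · exact Pool.Agent.GaussPoset.Win.SO.Psi_noTogL H hT G
        · exact Pool.Agent.GaussPoset.Win.SO.Psi_noTogU H hT G
      · exact h
    · exact ⟨I2.mem_pa.2 ⟨bg_sum F, bg_spt Q.toPSO F (G6_sub Q.toPSO F hg)⟩,
        Or.inr (Or.inr ⟨g, hg, rfl⟩)⟩

lemma bg_inj {g g' : P} (h : bg p y q u s g = bg p y q u s g') : g = g' := by
  unfold bg at h
  have h1 := add_left_cancel h
  have h2 := congrFun h1 g
  rw [Pi.single_eq_same, Pi.single_apply] at h2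
  by_contra h3
  rw [if_neg h3] at h2
  omega

lemma G6_card : ((G6 C p y q u s).card : ℤ) = 3 + (FLo C p).card + (FUp C q).card := by
  classical
  have h1 := F.lp
  have h2 := F.ly
  have h3 := F.ls
  have h4 := F.lu
  have h5 := F.lq
  have lL : ∀ x ∈ FLo C p, lev x = i + 3 := by
    intro x hx
    have := lev_uc Q.H (x := x) (v := p) (by rw [(mem_FLo.1 hx).2]; exact mem_singleton_self _)
    omega
  have lU : ∀ x ∈ FUp C q, lev x + 3 = i := by
    intro x hx
    have := lev_dc Q.H (x := x) (v := q) (by rw [(mem_FUp.1 hx).2]; exact mem_singleton_self _)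
    omega
  have hl' : ∀ {v w : P}, lev v ≠ lev w → v ≠ w := fun h h' => h (by rw [h'])
  have d1 : Disjoint (FLo C p) (FUp C q) := by
    rw [disjoint_left]
    intro x hx hx'
    have := lL x hx
    have := lU x hx'
    omega
  have d2 : Disjoint ({y, u, s} : Finset P) (FLo C p ∪ FUp C q) := by
    rw [disjoint_left]
    intro x hx hx'
    rw [mem_insert, mem_insert, mem_singleton] at hx
    rw [mem_union] at hx'
    have h6 : lev x = i + 1 ∨ lev x + 1 = i ∨ lev x = i := by
      rcases hx with rfl | rfl | rfl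
      · exact Or.inl h2
      · exact Or.inr (Or.inl h4)
      · exact Or.inr (Or.inr h3)
    rcases hx' with h7 | h7
    · have := lL x h7
      omega
    · have := lU x h7
      omega
  unfold G6
  rw [card_union_of_disjoint d2, card_union_of_disjoint d1,
    SO.card_three (hl' (by omega)) (hl' (by omega)) (hl' (by omega))]
  push_cast
  ring

/-- THE VALUE OF (6,2) OF A FLIP PART -/
theorem Pt.be6 : I2.be 6 (st i C).card (ZS i C) =
    1 - (N1f i C).card - (FLo C p).card - (FUp C q).card := by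
  classical
  have H := Q.H
  have hir : i ≤ r := by have := Q.hi2; omega
  have b3 := F.b3
  rw [So.be_sum _ (by omega) (main6 Q F)]
  have h0 : (C.piAntidiag 6).filter (LF i C p y q u s) =
      (N1f i C).image (fun z => Psi i C {z}) ∪ (G6 C p y q u s).image (bg p y q u s) := by
    ext e
    rw [mem_filter, LF_six Q F e, mem_union, mem_image, mem_image]
    constructor
    · rintro (⟨z, hz, rfl⟩ | ⟨g, hg, rfl⟩)
      · exact Or.inl ⟨z, hz, rfl⟩
      · exact Or.inr ⟨g, hg, rfl⟩
    · rintro (⟨z, hz, rfl⟩ | ⟨g, hg, rfl⟩)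
      · exact Or.inl ⟨z, hz, rfl⟩
      · exact Or.inr ⟨g, hg, rfl⟩
  have hIx : ∀ {z}, z ∈ N1f i C → ({z} : Finset P) ∈ Ix i C := fun {z} hz =>
    mem_Ix.2 (Or.inr ⟨z, Or.inl hz, rfl⟩)
  have hd : Disjoint ((N1f i C).image (fun z => Psi i C {z}))
      ((G6 C p y q u s).image (bg p y q u s)) := by
    rw [disjoint_left]
    intro e he he'
    obtain ⟨z, hz, rfl⟩ := mem_image.1 he
    obtain ⟨g, hg, h1⟩ := mem_image.1 he'
    have h2 := congrFun h1 s
    rw [SO.Psi_site H (hIx hz) F.ls, bg_in g (Or.inr (Or.inr (Or.inl rfl)))] at h2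
    omega
  rw [h0, sum_union hd, sum_image, sum_image]
  · have h1 : ∑ z ∈ N1f i C, PowerSeries.coeff (st i C).card
        (dd ^ 2 * tC i C (Psi i C {z}) : A) = ∑ z ∈ N1f i C, (-1 : ℤ) :=
      Finset.sum_congr rfl fun z hz => (SO.N1_value Q.toPSO hz).2
    have h2 : ∑ g ∈ G6 C p y q u s, PowerSeries.coeff (st i C).card
        (dd ^ 2 * tC i C (bg p y q u s g) : A) =
        ∑ g ∈ G6 C p y q u s, (-1 + if g = y ∨ g = u then 2 else 0 : ℤ) :=
      Finset.sum_congr rfl fun g hg => by
        rw [bg_coeff Q.toPSO F hg]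
        split_ifs <;> norm_num
    have h3 : ∑ g ∈ G6 C p y q u s, (if g = y ∨ g = u then 2 else 0 : ℤ) = 4 := by
      rw [← Finset.sum_filter]
      have h4 : (G6 C p y q u s).filter (fun g => g = y ∨ g = u) = {y, u} := by
        ext g
        rw [mem_filter, mem_G6, mem_insert, mem_singleton]
        tauto
      rw [h4, Finset.sum_const, card_pair (by
        intro h
        have := congrArg lev h
        have := F.ly
        have := F.lu
        omega)]
      norm_num
    rw [h1, h2, sum_add_distrib, h3, sum_const, sum_const, nsmul_eq_mul, nsmul_eq_mul,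
      G6_card Q F]
    ring
  · intro g _ g' _ h
    exact bg_inj Q F h
  · intro z hz z' hz' h
    have := SO.Psi_inj H hir (hIx hz) (hIx hz') h
    exact singleton_injective this

end main

end Pool.Agent.GaussPoset.Win.Pf
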