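import Pool.Agent.W_448pn_h63.QaE

/-!
# Flip parts with three sites: the value of (3,1)
(MP_448cb3_co, G2, window `j - 1`)
-/

set_option autoImplicit false

namespace Pool.Agent.GaussPoset.Win.Pf

set_option linter.unusedSectionVars false

open Finset
open Pool.Agent.GaussPoset.Win.SO (on PSO PS5 tL tU)
open Pool.Agent.GaussPoset.Win.I2 (lS uS mem_lS mem_uS)

universe u

variable {P : Type u} [Fintype P] [PartialOrder P] [DecidableEq P] {r i : ℕ} {psi : P → P}
  {e f : P → ℕ} {C : Finset P} {p y q u a s b g v : P}

/-- one near unit with the cone of a lower pendant -/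
lemma low_near (H : Gr P r) (hi : i ≤ r) (hC : Part (i + 1) C) (hpC : p ∈ C)
    (lp : lev p = i + 2) (cp : uc p = {y}) (hvC : v ∈ C) (hv : v ∈ near P i) (hvy : v ≠ y) :
    (lev v = i + 1 → tC i C (cl p + sg v) =
      dd ^ 2 * (xx ^ (uc y ∪ uc v).card * dd ^ ((st i C).card - (uc y ∪ uc v).card))) ∧
    (lev v + 1 = i → tC i C (cl p + sg v) =
      dd ^ 2 * (xi * (if Disjoint (uc y) (dc v) then
        xx ^ (uc y).card * dd ^ ((st i C).card - (uc y).card - (dc v).card) else 0))) := by
  classical
  have hC' : Part i C := SO.part_pred hC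
  have hpy : p ⋖ y := by rw [← mem_uc, cp]; exact mem_singleton_self _
  have ly := lev_cov H hpy
  have hn := mem_near.1 hv
  have hcl : ∀ w, 0 < cl p w → w = p ∨ w = y := by
    intro w hw
    rcases ExpC_cl_pos hw with h | h
    · exact Or.inl h
    · rw [cp, mem_singleton] at h
      exact Or.inr h
  have hT : v ∉ Tch i (cl p) := by
    rw [mem_Tch]
    rintro (⟨h3, z, hz, h4⟩ | ⟨h3, z, hz, h4⟩)
    · have lz := lev_cov H hz
      rcases hcl z h4 with h5 | h5
      · rw [h5] at hz
        have h6 := mem_uc.2 hz
        rw [cp, mem_singleton] at h6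
        exact hvy h6
      · rw [h5] at lz
        omega
    · have lz := lev_cov H hz
      rcases hcl z h4 with h5 | h5
      · rw [h5] at lz
        omega
      · rw [h5] at lz
        omega
  have h0 : cl p v = 0 := by
    by_contra h
    rcases hcl v (Nat.pos_of_ne_zero h) with h5 | h5
    · rw [h5] at hn
      omega
    · exact hvy h5
  have hs : Spt C (cl p + sg v) := by
    rw [spt_add_iff]
    exact ⟨spt_cl hC' hpC, fun w hw => ExpC_sg_ne (by rintro rfl; exact hw hvC)⟩
  have site : ∀ w, lev w = i → cl p w = 0 := by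
    intro w hw
    by_contra h
    rcases hcl w (Nat.pos_of_ne_zero h) with h5 | h5
    · rw [h5] at hw
      omega
    · rw [h5] at hw
      omega
  have hyC : y ∈ C := hC.up hpC hpy
  have hy : uc y ⊆ st i C := by
    intro w hw
    have := lev_uc H hw
    exact mem_st.2 ⟨hC.up hyC (mem_uc.1 hw), by omega⟩
  have hF : ∀ S, Fe i (cl p + sg v) S = dd * chi (uc y) ∅ S * wt i (cl p) v 1 S := by
    intro S
    have h1 : Fe i (cl p + sg v) S = Fe i (cl p) S * wt i (cl p) v 1 S :=
      fact H hi hv hT h0 1 S
    rw [h1, (cl_dat H lp).Fe H hi (cl_up_zero H lp), ClE_sts H lp cp, cp, card_singleton,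
      pow_zero, one_mul, pow_one]
  constructor
  · intro lv
    have hvs : uc v ⊆ st i C := by
      intro w hw
      have := lev_uc H hw
      exact mem_st.2 ⟨hC.up hvC (mem_uc.1 hw), by omega⟩
    have hw : ∀ S, wt i (cl p) v 1 S = dd * (if uc v ⊆ S then 1 else 0) := by
      intro S
      unfold wt wtL
      rw [if_pos lv, if_pos]
      · congr 1
        refine if_congr ?_ rfl rfl
        constructor
        · intro h w hw
          have := lev_uc H hw
          exact h w hw (by rw [site w (by omega)]; exact one_pos)
        · intro h w hw _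
          exact h hw
      · intro w hw
        have := lev_uc H hw
        rw [site w (by omega)]
        exact one_pos
    rw [tC_IV H hC' hs]
    have h2 : IV (st i C) (Fe i (cl p + sg v)) =
        IV (st i C) (fun S => dd ^ 2 * chi (uc y ∪ uc v) ∅ S) := by
      refine IV_congr fun S _ => ?_
      rw [hF S, hw S]
      unfold chi
      simp only [union_subset_iff, disjoint_empty_left, and_true]
      by_cases k1 : uc y ⊆ S <;> by_cases k2 : uc v ⊆ S <;> simp [k1, k2] <;> ring
    rw [h2, IV_mul, IV_chi (union_subset hy hvs) (empty_subset _),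
      if_pos (disjoint_empty_right _), card_empty, Nat.sub_zero]
  · intro lv
    have hvs : dc v ⊆ st i C := by
      intro w hw
      have := lev_dc H hw
      exact mem_st.2 ⟨hC.dn hvC (by omega) (mem_dc.1 hw), by omega⟩
    have hw : ∀ S, wt i (cl p) v 1 S = xi * dd * (if Disjoint (dc v) S then 1 else 0) := by
      intro S
      unfold wt wtU
      rw [if_neg (by omega), if_pos]
      · congr 1
        refine if_congr ?_ rfl rfl
        rw [disjoint_left]
        constructor
        · intro h w hw
          have := lev_dc H hw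
          exact h w hw (by rw [site w (by omega)]; exact one_pos)
        · intro h w hw _
          exact h hw
      · intro w hw
        have := lev_dc H hw
        rw [site w (by omega)]
        exact one_pos
    rw [tC_IV H hC' hs]
    have h2 : IV (st i C) (Fe i (cl p + sg v)) =
        IV (st i C) (fun S => dd ^ 2 * xi * chi (uc y) (dc v) S) := by
      refine IV_congr fun S _ => ?_
      rw [hF S, hw S]
      unfold chi
      simp only [disjoint_empty_left, and_true]
      by_cases k1 : uc y ⊆ S <;> by_cases k2 : Disjoint (dc v) S <;> simp [k1, k2] <;> ring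
    rw [h2, IV_mul, IV_chi hy hvs]
    ring

/-- one near unit with the cone of an upper pendant -/
lemma upp_near (H : Gr P r) (hi : i + 1 ≤ r) (hC : Part (i + 1) C) (hqC : q ∈ C)
    (lq : lev q + 2 = i) (cq : dc q = {u}) (hvC : v ∈ C) (hv : v ∈ near P i) (hvu : v ≠ u) :
    (lev v = i + 1 → tC i C (cu q + sg v) =
      dd ^ 2 * (xi * (if Disjoint (uc v) (dc u) then
        xx ^ (uc v).card * dd ^ ((st i C).card - (uc v).card - (dc u).card) else 0))) ∧
    (lev v + 1 = i → tC i C (cu q + sg v) =
      dd ^ 2 * (xi ^ 2 * dd ^ ((st i C).card - (dc u ∪ dc v).card))) := by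
  classical
  have hir : i ≤ r := by omega
  have hC' : Part i C := SO.part_pred hC
  have huq : u ⋖ q := by rw [← mem_dc, cq]; exact mem_singleton_self _
  have lu := lev_cov H huq
  have hn := mem_near.1 hv
  have hcl : ∀ w, 0 < cu q w → w = q ∨ w = u := by
    intro w hw
    rcases cu_pos hw with h | h
    · exact Or.inl h
    · rw [cq, mem_singleton] at h
      exact Or.inr h
  have hT : v ∉ Tch i (cu q) := by
    rw [mem_Tch]
    rintro (⟨h3, z, hz, h4⟩ | ⟨h3, z, hz, h4⟩)
    · have lz := lev_cov H hz
      rcases hcl z h4 with h5 | h5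
      · rw [h5] at lz
        omega
      · rw [h5] at lz
        omega
    · have lz := lev_cov H hz
      rcases hcl z h4 with h5 | h5
      · rw [h5] at hz
        have h6 := mem_dc.2 hz
        rw [cq, mem_singleton] at h6
        exact hvu h6
      · rw [h5] at lz
        omega
  have h0 : cu q v = 0 := by
    by_contra h
    rcases hcl v (Nat.pos_of_ne_zero h) with h5 | h5
    · rw [h5] at hn
      omega
    · exact hvu h5
  have hs : Spt C (cu q + sg v) := by
    rw [spt_add_iff]
    exact ⟨spt_cu hC' hqC (by omega), fun w hw => ExpC_sg_ne (by rintro rfl; exact hw hvC)⟩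
  have site : ∀ w, lev w = i → cu q w = 0 := by
    intro w hw
    by_contra h
    rcases hcl w (Nat.pos_of_ne_zero h) with h5 | h5
    · rw [h5] at hw
      omega
    · rw [h5] at hw
      omega
  have huC : u ∈ C := hC.dn hqC (by omega) huq
  have hy : dc u ⊆ st i C := by
    intro w hw
    have := lev_dc H hw
    exact mem_st.2 ⟨hC.dn huC (by omega) (mem_dc.1 hw), by omega⟩
  have hF : ∀ S, Fe i (cu q + sg v) S = xi * dd * chi ∅ (dc u) S * wt i (cu q) v 1 S := by
    intro S
    have h1 : Fe i (cu q + sg v) S = Fe i (cu q) S * wt i (cu q) v 1 S :=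
      fact H hir hv hT h0 1 S
    rw [h1, (cu_dat H hir lq).Fe H (cu_low_zero H lq), ClE_stD H lq cq, cq, card_singleton,
      zero_add, pow_one, pow_one]
  constructor
  · intro lv
    have hvs : uc v ⊆ st i C := by
      intro w hw
      have := lev_uc H hw
      exact mem_st.2 ⟨hC.up hvC (mem_uc.1 hw), by omega⟩
    have hw : ∀ S, wt i (cu q) v 1 S = dd * (if uc v ⊆ S then 1 else 0) := by
      intro S
      unfold wt wtL
      rw [if_pos lv, if_pos]
      · congr 1
        refine if_congr ?_ rfl rfl
        constructor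
        · intro h w hw
          have := lev_uc H hw
          exact h w hw (by rw [site w (by omega)]; exact one_pos)
        · intro h w hw _
          exact h hw
      · intro w hw
        have := lev_uc H hw
        rw [site w (by omega)]
        exact one_pos
    rw [tC_IV H hC' hs]
    have h2 : IV (st i C) (Fe i (cu q + sg v)) =
        IV (st i C) (fun S => dd ^ 2 * xi * chi (uc v) (dc u) S) := by
      refine IV_congr fun S _ => ?_
      rw [hF S, hw S]
      unfold chi
      simp only [empty_subset, true_and]
      by_cases k1 : uc v ⊆ S <;> by_cases k2 : Disjoint (dc u) S <;> simp [k1, k2] <;> ring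
    rw [h2, IV_mul, IV_chi hvs hy]
    ring
  · intro lv
    have hvs : dc v ⊆ st i C := by
      intro w hw
      have := lev_dc H hw
      exact mem_st.2 ⟨hC.dn hvC (by omega) (mem_dc.1 hw), by omega⟩
    have hw : ∀ S, wt i (cu q) v 1 S = xi * dd * (if Disjoint (dc v) S then 1 else 0) := by
      intro S
      unfold wt wtU
      rw [if_neg (by omega), if_pos]
      · congr 1
        refine if_congr ?_ rfl rfl
        rw [disjoint_left]
        constructor
        · intro h w hw
          have := lev_dc H hw
          exact h w hw (by rw [site w (by omega)]; exact one_pos)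
        · intro h w hw _
          exact h hw
      · intro w hw
        have := lev_dc H hw
        rw [site w (by omega)]
        exact one_pos
    rw [tC_IV H hC' hs]
    have h2 : IV (st i C) (Fe i (cu q + sg v)) =
        IV (st i C) (fun S => dd ^ 2 * xi ^ 2 * chi ∅ (dc u ∪ dc v) S) := by
      refine IV_congr fun S _ => ?_
      rw [hF S, hw S]
      unfold chi
      simp only [empty_subset, true_and, disjoint_union_left]
      by_cases k1 : Disjoint (dc u) S <;> by_cases k2 : Disjoint (dc v) S <;>
        simp [k1, k2] <;> ring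
    rw [h2, IV_mul, IV_chi (empty_subset _) (union_subset hy hvs),
      if_pos (disjoint_empty_left _), card_empty, pow_zero, one_mul, Nat.sub_zero]
    ring

/-! ### the near elements -/

/-- near elements over one site -/
noncomputable def Sg (i : ℕ) (C : Finset P) (v : P) : Finset P := by
  classical
  exact C.filter (fun w => (lev w = i + 1 ∧ uc w = {v}) ∨ (lev w + 1 = i ∧ dc w = {v}))

lemma mem_Sg {w : P} : w ∈ Sg i C v ↔
    w ∈ C ∧ ((lev w = i + 1 ∧ uc w = {v}) ∨ (lev w + 1 = i ∧ dc w = {v})) := by
  classical
  unfold Sg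
  rw [mem_filter]

lemma Sg_lev {w : P} (h : w ∈ Sg i C v) : lev w = i + 1 ∨ lev w + 1 = i := by
  rcases (mem_Sg.1 h).2 with k | k
  · exact Or.inl k.1
  · exact Or.inr k.1

section near

variable (Q : PSO r i psi C) (F : Flp i C p y q u a s b)
include Q F

/-- the matched doubles -/
lemma psi_y : psi y ∈ C ∧ lev (psi y) + 1 = i ∧ dc (psi y) = {a, s} ∧ psi (psi y) = y := by
  have hd : y ∈ dbL P i := mem_dbL.2 ⟨F.ly, by rw [F.cy]; exact card_pair F.as⟩
  have h1 := Q.hM.low y hd (notMem_empty _)
  exact ⟨So.psi_mem Q.H Q.hM Q.hC (mem_union_left _ hd) (F.yC Q.hC), (mem_dbU.1 h1.1).1,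
    by rw [h1.2, F.cy], (Q.hM.invol y (mem_union_left _ hd) (notMem_empty _)).1⟩

lemma psi_u : psi u ∈ C ∧ lev (psi u) = i + 1 ∧ uc (psi u) = {s, b} ∧ psi (psi u) = u := by
  have hd : u ∈ dbU P i := mem_dbU.2 ⟨F.lu, by rw [F.cu]; exact card_pair F.sb⟩
  have h1 := Q.hM.upp u hd (notMem_empty _)
  exact ⟨So.psi_mem Q.H Q.hM Q.hC (mem_union_right _ hd) (F.uC Q.hC), (mem_dbL.1 h1.1).1,
    by rw [h1.2, F.cu], (Q.hM.invol u (mem_union_right _ hd) (notMem_empty _)).1⟩

/-- the two lower covers of the common site -/
lemma dc_s {w : P} (h : w ⋖ s) : w = y ∨ w = psi u := by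
  classical
  by_contra hcon
  rw [not_or] at hcon
  obtain ⟨-, -, h3, -⟩ := psi_u Q F
  have hs : psi u ⋖ s := by rw [← mem_uc, h3]; exact mem_insert_self _ _
  have hyu : psi u ≠ y := by
    intro h1
    have h2 : b ∈ uc (psi u) := by rw [h3]; exact mem_insert_of_mem (mem_singleton_self _)
    rw [h1, F.cy, mem_insert, mem_singleton] at h2
    rcases h2 with h2 | h2
    · exact F.ab h2.symm
    · exact F.sb h2.symm
  have h4 : ({w, psi u, y} : Finset P) ⊆ dc s := by
    intro x hx
    rw [mem_insert, mem_insert, mem_singleton] at hx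
    rcases hx with rfl | rfl | rfl
    · exact mem_dc.2 h
    · exact mem_dc.2 hs
    · exact mem_dc.2 F.ys
  have h5 := card_le_card h4
  rw [card_insert_of_notMem (by
    rw [mem_insert, mem_singleton, not_or]
    exact ⟨hcon.2, hcon.1⟩), card_pair hyu] at h5
  have := dc_card_le Q.H s
  omega

/-- the two upper covers of the common site -/
lemma uc_s {w : P} (h : s ⋖ w) : w = u ∨ w = psi y := by
  classical
  by_contra hcon
  rw [not_or] at hcon
  obtain ⟨-, -, h3, -⟩ := psi_y Q F
  have hs : s ⋖ psi y := by
    rw [← mem_dc, h3]; exact mem_insert_of_mem (mem_singleton_self _)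
  have hyu : psi y ≠ u := by
    intro h1
    have h2 : a ∈ dc (psi y) := by rw [h3]; exact mem_insert_self _ _
    rw [h1, F.cu, mem_insert, mem_singleton] at h2
    rcases h2 with h2 | h2
    · exact F.as h2
    · exact F.ab h2
  have h4 : ({w, psi y, u} : Finset P) ⊆ uc s := by
    intro x hx
    rw [mem_insert, mem_insert, mem_singleton] at hx
    rcases hx with rfl | rfl | rfl
    · exact mem_uc.2 h
    · exact mem_uc.2 hs
    · exact mem_uc.2 F.su
  have h5 := card_le_card h4
  rw [card_insert_of_notMem (by
    rw [mem_insert, mem_singleton, not_or]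
    exact ⟨hcon.2, hcon.1⟩), card_pair hyu] at h5
  have := uc_card_le Q.H s
  omega

/-- the near elements of the part -/
lemma near_cls (nt : ∀ w ∈ C, lev w = i + 1 → uc w ≠ {a, b}) {w : P} (hw : w ∈ C)
    (hn : w ∈ near P i) : w = y ∨ w = u ∨ w = psi y ∨ w = psi u ∨ w ∈ Sg i C a ∨
      w ∈ Sg i C b := by
  classical
  have H := Q.H
  have hir := Q.hi2
  have key : ∀ T : Finset P, T.Nonempty → T ⊆ Win.st i C → s ∉ T →
      T = {a} ∨ T = {b} ∨ T = {a, b} := by
    intro T h1 h2 h3
    rw [F.st] at h2
    by_cases ha : a ∈ T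
    · by_cases hb : b ∈ T
      · right; right
        ext x
        rw [mem_insert, mem_singleton]
        constructor
        · intro hx
          have := h2 hx
          rw [mem_insert, mem_insert, mem_singleton] at this
          rcases this with k | k | k
          · exact Or.inl k
          · rw [k] at hx; exact absurd hx h3
          · exact Or.inr k
        · rintro (k | k)
          · rw [k]; exact ha
          · rw [k]; exact hb
      · left
        refine eq_singleton_iff_unique_mem.2 ⟨ha, fun x hx => ?_⟩
        have := h2 hx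
        rw [mem_insert, mem_insert, mem_singleton] at this
        rcases this with k | k | k
        · exact k
        · rw [k] at hx; exact absurd hx h3
        · rw [k] at hx; exact absurd hx hb
    · right; left
      have h4 : ∀ x ∈ T, x = b := by
        intro x hx
        have := h2 hx
        rw [mem_insert, mem_insert, mem_singleton] at this
        rcases this with k | k | k
        · rw [k] at hx; exact absurd hx ha
        · rw [k] at hx; exact absurd hx h3
        · exact k
      obtain ⟨x, hx⟩ := h1
      exact eq_singleton_iff_unique_mem.2 ⟨by rw [← h4 x hx]; exact hx, h4⟩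
  rcases mem_near.1 hn with hl | hl
  · have h2 : uc w ⊆ Win.st i C := by
      intro x hx
      have := lev_uc H hx
      exact mem_st.2 ⟨Q.hC.up hw (mem_uc.1 hx), by omega⟩
    by_cases hs : s ∈ uc w
    · rcases dc_s Q F (mem_uc.1 hs) with k | k
      · exact Or.inl k
      · exact Or.inr (Or.inr (Or.inr (Or.inl k)))
    · rcases key (uc w) (uc_nonempty H (by omega)) h2 hs with k | k | k
      · exact Or.inr (Or.inr (Or.inr (Or.inr (Or.inl (mem_Sg.2 ⟨hw, Or.inl ⟨hl, k⟩⟩)))))
      · exact Or.inr (Or.inr (Or.inr (Or.inr (Or.inr (mem_Sg.2 ⟨hw, Or.inl ⟨hl, k⟩⟩)))))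
      · exact absurd k (nt w hw hl)
  · have h2 : dc w ⊆ Win.st i C := by
      intro x hx
      have := lev_dc H hx
      exact mem_st.2 ⟨Q.hC.dn hw (by omega) (mem_dc.1 hx), by omega⟩
    by_cases hs : s ∈ dc w
    · rcases uc_s Q F (mem_dc.1 hs) with k | k
      · exact Or.inr (Or.inl k)
      · exact Or.inr (Or.inr (Or.inl k))
    · rcases key (dc w) (dc_nonempty H (by omega)) h2 hs with k | k | k
      · exact Or.inr (Or.inr (Or.inr (Or.inr (Or.inl (mem_Sg.2 ⟨hw, Or.inr ⟨hl, k⟩⟩)))))
      · exact Or.inr (Or.inr (Or.inr (Or.inr (Or.inr (mem_Sg.2 ⟨hw, Or.inr ⟨hl, k⟩⟩)))))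
      · exfalso
        have hd : w ∈ dbU P i := mem_dbU.2 ⟨hl, by rw [k]; exact card_pair F.ab⟩
        have h3 := Q.hM.upp w hd (notMem_empty _)
        exact nt (psi w) (So.psi_mem H Q.hM Q.hC (mem_union_right _ hd) hw)
          (mem_dbL.1 h3.1).1 (by rw [h3.2, k])

/-- the near elements besides `y` and its partner -/
lemma Nr_y (nt : ∀ w ∈ C, lev w = i + 1 → uc w ≠ {a, b}) :
    Nr i C y (psi y) = {psi u, u} ∪ (Sg i C a ∪ Sg i C b) := by
  classical
  obtain ⟨y1, y2, y3, y4⟩ := psi_y Q F
  obtain ⟨u1, u2, u3, u4⟩ := psi_u Q F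
  have ly := F.ly
  have lu := F.lu
  have hir := Q.hi2
  have n1 : psi u ≠ y := by
    intro h
    rw [h, F.cy] at u3
    have : b ∈ ({a, s} : Finset P) := by
      rw [u3]; exact mem_insert_of_mem (mem_singleton_self _)
    rw [mem_insert, mem_singleton] at this
    rcases this with k | k
    · exact F.ab k.symm
    · exact F.sb k.symm
  have n2 : psi y ≠ u := by
    intro h
    rw [h, F.cu] at y3
    have : a ∈ ({s, b} : Finset P) := by rw [y3]; exact mem_insert_self _ _
    rw [mem_insert, mem_singleton] at this
    rcases this with k | k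
    · exact F.as k
    · exact F.ab k
  ext w
  rw [mem_Nr, mem_union, mem_union, mem_insert, mem_singleton]
  constructor
  · rintro ⟨h1, h2, h3, h4⟩
    rcases near_cls Q F nt h1 h2 with k | k | k | k | k | k
    · exact absurd k h3
    · exact Or.inl (Or.inr k)
    · exact absurd k h4
    · exact Or.inl (Or.inl k)
    · exact Or.inr (Or.inl k)
    · exact Or.inr (Or.inr k)
  · rintro ((k | k) | k)
    · rw [k]
      exact ⟨u1, mem_near.2 (Or.inl u2), n1, fun h => by have := congrArg lev h; omega⟩
    · rw [k]
      exact ⟨F.uC Q.hC, mem_near.2 (Or.inr lu), fun h => by have := congrArg lev h; omega,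
        n2.symm⟩
    · have hk : w ∈ C ∧ ∃ x, (lev w = i + 1 ∧ uc w = {x}) ∨ (lev w + 1 = i ∧ dc w = {x}) := by
        rcases k with k | k
        · exact ⟨(mem_Sg.1 k).1, a, (mem_Sg.1 k).2⟩
        · exact ⟨(mem_Sg.1 k).1, b, (mem_Sg.1 k).2⟩
      obtain ⟨h1, x, h2⟩ := hk
      refine ⟨h1, mem_near.2 (by rcases h2 with h2 | h2 <;> omega), ?_, ?_⟩
      · rintro rfl
        rcases h2 with h2 | h2
        · have h3 := congrArg Finset.card h2.2
          rw [F.cy, card_pair F.as, card_singleton] at h3
          omega
        · omega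
      · intro h
        rcases h2 with h2 | h2
        · have := congrArg lev h
          omega
        · have h3 := congrArg Finset.card h2.2
          rw [h, y3, card_pair F.as, card_singleton] at h3
          omega

/-- the near elements besides `u` and its partner -/
lemma Nr_u (nt : ∀ w ∈ C, lev w = i + 1 → uc w ≠ {a, b}) :
    Nr i C (psi u) u = {y, psi y} ∪ (Sg i C a ∪ Sg i C b) := by
  classical
  obtain ⟨y1, y2, y3, y4⟩ := psi_y Q F
  obtain ⟨u1, u2, u3, u4⟩ := psi_u Q F
  have ly := F.ly
  have lu := F.lu
  have hir := Q.hi2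
  have n1 : psi u ≠ y := by
    intro h
    rw [h, F.cy] at u3
    have : b ∈ ({a, s} : Finset P) := by
      rw [u3]; exact mem_insert_of_mem (mem_singleton_self _)
    rw [mem_insert, mem_singleton] at this
    rcases this with k | k
    · exact F.ab k.symm
    · exact F.sb k.symm
  have n2 : psi y ≠ u := by
    intro h
    rw [h, F.cu] at y3
    have : a ∈ ({s, b} : Finset P) := by rw [y3]; exact mem_insert_self _ _
    rw [mem_insert, mem_singleton] at this
    rcases this with k | k
    · exact F.as k
    · exact F.ab k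
  ext w
  rw [mem_Nr, mem_union, mem_union, mem_insert, mem_singleton]
  constructor
  · rintro ⟨h1, h2, h3, h4⟩
    rcases near_cls Q F nt h1 h2 with k | k | k | k | k | k
    · exact Or.inl (Or.inl k)
    · exact absurd k h4
    · exact Or.inl (Or.inr k)
    · exact absurd k h3
    · exact Or.inr (Or.inl k)
    · exact Or.inr (Or.inr k)
  · rintro ((k | k) | k)
    · rw [k]
      exact ⟨F.yC Q.hC, mem_near.2 (Or.inl ly), n1.symm, fun h => by
        have := congrArg lev h; omega⟩
    · rw [k]
      exact ⟨y1, mem_near.2 (Or.inr y2), fun h => by have := congrArg lev h; omega, n2⟩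
    · have hk : w ∈ C ∧ ∃ x, (lev w = i + 1 ∧ uc w = {x}) ∨ (lev w + 1 = i ∧ dc w = {x}) := by
        rcases k with k | k
        · exact ⟨(mem_Sg.1 k).1, a, (mem_Sg.1 k).2⟩
        · exact ⟨(mem_Sg.1 k).1, b, (mem_Sg.1 k).2⟩
      obtain ⟨h1, x, h2⟩ := hk
      refine ⟨h1, mem_near.2 (by rcases h2 with h2 | h2 <;> omega), ?_, ?_⟩
      · intro h
        rcases h2 with h2 | h2
        · have h3 := congrArg Finset.card h2.2
          rw [h, u3, card_pair F.sb, card_singleton] at h3
          omega
        · have := congrArg lev h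
          omega
      · rintro rfl
        rcases h2 with h2 | h2
        · omega
        · have h3 := congrArg Finset.card h2.2
          rw [F.cu, card_pair F.sb, card_singleton] at h3
          omega

end near

end Pool.Agent.GaussPoset.Win.Pf
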