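import Pool.Agent.W_448pn_h63.QaF
import Pool.Agent.W_448so_h61.CC

/-!
# Flip parts with three sites: the value of (3,1)
(MP_448cb3_co, G2, window `j - 1`)
-/

set_option autoImplicit false

namespace Pool.Agent.GaussPoset.Win.Pf

set_option linter.unusedSectionVars false

open Finset
open Pool.Agent.GaussPoset.Win.SO (on PSO PS5 tL tU)
open Pool.Agent.GaussPoset.Win.I2 (lS uS mem_lS mem_uS)

universe u

variable {P : Type u} [Fintype P] [PartialOrder P] [DecidableEq P] {r i : ℕ} {psi : P → P}
  {e f : P → ℕ} {C : Finset P} {p y q u a s b g v : P}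

/-- the coefficient of the first order -/
noncomputable def ph (t : A) : ℤ := PowerSeries.coeff 3 (dd * t : A)

lemma ph_add (t t' : A) : ph (t + t') = ph t + ph t' := by
  unfold ph
  rw [mul_add, map_add]

lemma ph_sum {ι : Type*} (s : Finset ι) (f : ι → A) : ph (∑ x ∈ s, f x) = ∑ x ∈ s, ph (f x) := by
  unfold ph
  rw [mul_sum, map_sum]

lemma ph_zero : ph 0 = 0 := by unfold ph; simp

lemma ph_neg (t : A) : ph (-t) = -ph t := by
  unfold ph
  rw [mul_neg, map_neg]

lemma ph_dvd {t : A} (h : dd ^ 3 ∣ t) : ph t = 0 := by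
  unfold ph
  obtain ⟨q, rfl⟩ := h
  apply I2.coeff_eq_zero_of_dvd
  exact ⟨q, by ring⟩

lemma ph_unit (m n : ℕ) : ph (dd ^ 2 * (xx ^ m * xi ^ n)) = (-1) ^ (m + n) := by
  unfold ph
  rw [← mul_assoc, ← pow_succ']
  exact SO.coef_units m n 3

lemma ph_unit_x (m : ℕ) : ph (xx ^ m * dd ^ 2) = (-1) ^ m := by
  have := ph_unit m 0
  rw [pow_zero, mul_one, add_zero, mul_comm (dd ^ 2)] at this
  exact this

lemma ph_unit_y (n : ℕ) : ph (xi ^ n * dd ^ 2) = (-1) ^ n := by
  have := ph_unit 0 n
  rw [pow_zero, one_mul, zero_add, mul_comm (dd ^ 2)] at this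
  exact this

lemma ph_nat (k : ℕ) (t : A) : ph ((k : A) * t) = k * ph t := by
  rw [← nsmul_eq_mul]
  unfold ph
  rw [mul_smul_comm, map_nsmul, nsmul_eq_mul]

section near

variable (Q : PSO r i psi C) (F : Flp i C p y q u a s b)
include Q F

lemma Sg_disj : Disjoint (Sg i C a) (Sg i C b) := by
  rw [disjoint_left]
  intro w h h'
  rcases (mem_Sg.1 h).2 with k | k <;> rcases (mem_Sg.1 h').2 with k' | k'
  · have h3 := k.2.symm.trans k'.2
    exact F.ab (singleton_injective h3)
  · omega
  · omega
  · have h3 := k.2.symm.trans k'.2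
    exact F.ab (singleton_injective h3)

/-- the near sum below -/
theorem low_near_sum (nt : ∀ w ∈ C, lev w = i + 1 → uc w ≠ {a, b}) :
    ∑ v ∈ Nr i C y (psi y), ph (tC i C (cl p + sg v)) = -1 - ((Sg i C b).card : ℤ) := by
  classical
  have H := Q.H
  have hir := Q.hi2
  have b3 := F.b3
  have ly := F.ly
  have lu := F.lu
  obtain ⟨y1, y2, y3, y4⟩ := psi_y Q F
  obtain ⟨u1, u2, u3, u4⟩ := psi_u Q F
  have hv : ∀ v ∈ Nr i C y (psi y), (lev v = i + 1 → tC i C (cl p + sg v) =
      dd ^ 2 * (xx ^ (uc y ∪ uc v).card * dd ^ ((st i C).card - (uc y ∪ uc v).card))) ∧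
    (lev v + 1 = i → tC i C (cl p + sg v) =
      dd ^ 2 * (xi * (if Disjoint (uc y) (dc v) then
        xx ^ (uc y).card * dd ^ ((st i C).card - (uc y).card - (dc v).card) else 0))) := by
    intro v hv
    obtain ⟨h1, h2, h3, h4⟩ := mem_Nr.1 hv
    exact low_near H (by omega) Q.hC F.mp F.lp F.cp h1 h2 h3
  rw [Nr_y Q F nt] at hv ⊢
  have hd1 : Disjoint ({psi u, u} : Finset P) (Sg i C a ∪ Sg i C b) := by
    rw [disjoint_left]
    intro w hw hw'
    have hk : ∃ x, (lev w = i + 1 ∧ uc w = {x}) ∨ (lev w + 1 = i ∧ dc w = {x}) := by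
      rcases mem_union.1 hw' with k | k
      · exact ⟨a, (mem_Sg.1 k).2⟩
      · exact ⟨b, (mem_Sg.1 k).2⟩
    obtain ⟨x, hk⟩ := hk
    rw [mem_insert, mem_singleton] at hw
    rcases hw with rfl | rfl
    · rcases hk with k | k
      · have h3 := congrArg Finset.card k.2
        rw [u3, card_pair F.sb, card_singleton] at h3
        omega
      · omega
    · rcases hk with k | k
      · omega
      · have h3 := congrArg Finset.card k.2
        rw [F.cu, card_pair F.sb, card_singleton] at h3
        omega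
  have hne : psi u ≠ u := fun h => by have := congrArg lev h; omega
  rw [sum_union hd1, sum_union (Sg_disj Q F), sum_pair hne]
  have hU : ({a, s} ∪ {s, b} : Finset P) = {a, s, b} := by
    ext x
    simp only [mem_union, mem_insert, mem_singleton]
    tauto
  have hUb : ({a, s} ∪ {b} : Finset P) = {a, s, b} := by
    ext x
    simp only [mem_union, mem_insert, mem_singleton]
    tauto
  have hUa : ({a, s} ∪ {a} : Finset P) = {a, s} := by
    ext x
    simp only [mem_union, mem_insert, mem_singleton]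
    tauto
  have c3 : ({a, s, b} : Finset P).card = 3 := by rw [← F.st]; exact b3
  have c2 : ({a, s} : Finset P).card = 2 := card_pair F.as
  -- the values
  have t1 : ph (tC i C (cl p + sg (psi u))) = -1 := by
    have h := (hv (psi u) (mem_union_left _ (mem_insert_self _ _))).1 u2
    rw [h, F.cy, u3, hU, c3, b3, Nat.sub_self, pow_zero]
    have := ph_unit 3 0
    rw [pow_zero, add_zero] at this
    rw [this]
    norm_num
  have t2 : ph (tC i C (cl p + sg u)) = 0 := by
    have h := (hv u (mem_union_left _ (mem_insert_of_mem (mem_singleton_self _)))).2 lu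
    rw [h, if_neg]
    · rw [mul_zero, mul_zero, ph_zero]
    · rw [F.cy, F.cu]
      intro hd
      exact disjoint_left.1 hd (mem_insert_of_mem (mem_singleton_self s)) (mem_insert_self s _)
  have t3 : ∑ v ∈ Sg i C a, ph (tC i C (cl p + sg v)) = 0 := by
    refine Finset.sum_eq_zero fun v hvs => ?_
    have hm := hv v (mem_union_right _ (mem_union_left _ hvs))
    rcases (mem_Sg.1 hvs).2 with k | k
    · rw [hm.1 k.1, F.cy, k.2, hUa, c2, b3]
      apply ph_dvd
      exact ⟨xx ^ 2, by ring⟩
    · rw [hm.2 k.1, if_neg]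
      · rw [mul_zero, mul_zero, ph_zero]
      · rw [F.cy, k.2]
        intro hd
        exact disjoint_left.1 hd (mem_insert_self a _) (mem_singleton_self a)
  have t4 : ∑ v ∈ Sg i C b, ph (tC i C (cl p + sg v)) = ∑ v ∈ Sg i C b, (-1 : ℤ) := by
    refine Finset.sum_congr rfl fun v hvs => ?_
    have hm := hv v (mem_union_right _ (mem_union_right _ hvs))
    rcases (mem_Sg.1 hvs).2 with k | k
    · rw [hm.1 k.1, F.cy, k.2, hUb, c3, b3, Nat.sub_self, pow_zero]
      have := ph_unit 3 0
      rw [pow_zero, add_zero] at this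
      rw [this]
      norm_num
    · rw [hm.2 k.1, if_pos]
      · rw [F.cy, k.2, c2, b3, card_singleton]
        have := ph_unit 2 1
        rw [pow_one] at this
        simp only [Nat.reduceSub, pow_zero, mul_one]
        rw [mul_comm xi, this]
        norm_num
      · rw [F.cy, k.2, disjoint_singleton_right, mem_insert, mem_singleton, not_or]
        exact ⟨F.ab.symm, F.sb.symm⟩
  rw [t1, t2, t3, t4, sum_const, nsmul_eq_mul]
  ring

/-- the near sum above -/
theorem upp_near_sum (nt : ∀ w ∈ C, lev w = i + 1 → uc w ≠ {a, b}) :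
    ∑ v ∈ Nr i C (psi u) u, ph (tC i C (cu q + sg v)) = 1 + ((Sg i C a).card : ℤ) := by
  classical
  have H := Q.H
  have hir := Q.hi2
  have b3 := F.b3
  have ly := F.ly
  have lu := F.lu
  obtain ⟨y1, y2, y3, y4⟩ := psi_y Q F
  obtain ⟨u1, u2, u3, u4⟩ := psi_u Q F
  have hv : ∀ v ∈ Nr i C (psi u) u, (lev v = i + 1 → tC i C (cu q + sg v) =
      dd ^ 2 * (xi * (if Disjoint (uc v) (dc u) then
        xx ^ (uc v).card * dd ^ ((st i C).card - (uc v).card - (dc u).card) else 0))) ∧
    (lev v + 1 = i → tC i C (cu q + sg v) =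
      dd ^ 2 * (xi ^ 2 * dd ^ ((st i C).card - (dc u ∪ dc v).card))) := by
    intro v hv
    obtain ⟨h1, h2, h3, h4⟩ := mem_Nr.1 hv
    exact upp_near H hir Q.hC F.mq F.lq F.cq h1 h2 h4
  rw [Nr_u Q F nt] at hv ⊢
  have hd1 : Disjoint ({y, psi y} : Finset P) (Sg i C a ∪ Sg i C b) := by
    rw [disjoint_left]
    intro w hw hw'
    have hk : ∃ x, (lev w = i + 1 ∧ uc w = {x}) ∨ (lev w + 1 = i ∧ dc w = {x}) := by
      rcases mem_union.1 hw' with k | k
      · exact ⟨a, (mem_Sg.1 k).2⟩
      · exact ⟨b, (mem_Sg.1 k).2⟩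
    obtain ⟨x, hk⟩ := hk
    rw [mem_insert, mem_singleton] at hw
    rcases hw with rfl | rfl
    · rcases hk with k | k
      · have h3 := congrArg Finset.card k.2
        rw [F.cy, card_pair F.as, card_singleton] at h3
        omega
      · omega
    · rcases hk with k | k
      · omega
      · have h3 := congrArg Finset.card k.2
        rw [y3, card_pair F.as, card_singleton] at h3
        omega
  have hne : y ≠ psi y := fun h => by have := congrArg lev h; omega
  rw [sum_union hd1, sum_union (Sg_disj Q F), sum_pair hne]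
  have hU : ({s, b} ∪ {a, s} : Finset P) = {a, s, b} := by
    ext x
    simp only [mem_union, mem_insert, mem_singleton]
    tauto
  have hUa : ({s, b} ∪ {a} : Finset P) = {a, s, b} := by
    ext x
    simp only [mem_union, mem_insert, mem_singleton]
    tauto
  have hUb : ({s, b} ∪ {b} : Finset P) = {s, b} := by
    ext x
    simp only [mem_union, mem_insert, mem_singleton]
    tauto
  have c3 : ({a, s, b} : Finset P).card = 3 := by rw [← F.st]; exact b3
  have c2 : ({s, b} : Finset P).card = 2 := card_pair F.sb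
  -- the values
  have t1 : ph (tC i C (cu q + sg y)) = 0 := by
    have h := (hv y (mem_union_left _ (mem_insert_self _ _))).1 ly
    rw [h, if_neg]
    · rw [mul_zero, mul_zero, ph_zero]
    · rw [F.cy, F.cu]
      intro hd
      exact disjoint_left.1 hd (mem_insert_of_mem (mem_singleton_self s)) (mem_insert_self s _)
  have t2 : ph (tC i C (cu q + sg (psi y))) = 1 := by
    have h := (hv (psi y) (mem_union_left _ (mem_insert_of_mem (mem_singleton_self _)))).2 y2
    rw [h, F.cu, y3, hU, c3, b3, Nat.sub_self, pow_zero, mul_one]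
    have := ph_unit 0 2
    rw [pow_zero, one_mul, zero_add] at this
    rw [this]
    norm_num
  have t3 : ∑ v ∈ Sg i C b, ph (tC i C (cu q + sg v)) = 0 := by
    refine Finset.sum_eq_zero fun v hvs => ?_
    have hm := hv v (mem_union_right _ (mem_union_right _ hvs))
    rcases (mem_Sg.1 hvs).2 with k | k
    · rw [hm.1 k.1, if_neg]
      · rw [mul_zero, mul_zero, ph_zero]
      · rw [F.cu, k.2]
        intro hd
        exact disjoint_left.1 hd (mem_singleton_self b)
          (mem_insert_of_mem (mem_singleton_self b))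
    · rw [hm.2 k.1, F.cu, k.2, hUb, c2, b3]
      apply ph_dvd
      exact ⟨xi ^ 2, by ring⟩
  have t4 : ∑ v ∈ Sg i C a, ph (tC i C (cu q + sg v)) = ∑ v ∈ Sg i C a, (1 : ℤ) := by
    refine Finset.sum_congr rfl fun v hvs => ?_
    have hm := hv v (mem_union_right _ (mem_union_left _ hvs))
    rcases (mem_Sg.1 hvs).2 with k | k
    · rw [hm.1 k.1, if_pos]
      · rw [F.cu, k.2, c2, b3, card_singleton]
        have := ph_unit 1 1
        rw [pow_one, pow_one] at this
        simp only [Nat.reduceSub, pow_zero, mul_one, pow_one]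
        rw [mul_comm xi, this]
        norm_num
      · rw [F.cu, k.2, disjoint_singleton_left, mem_insert, mem_singleton, not_or]
        exact ⟨F.as, F.ab⟩
    · rw [hm.2 k.1, F.cu, k.2, hUa, c3, b3, Nat.sub_self, pow_zero, mul_one]
      have := ph_unit 0 2
      rw [pow_zero, one_mul, zero_add] at this
      rw [this]
      norm_num
  rw [t1, t2, t3, t4, sum_const, nsmul_eq_mul]
  ring

open Classical in
/-- the labellings of energy three: without pendants, with the lower, with the upper pendant -/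
theorem dec3 : ZC i C 3 = ∑ e ∈ (Dm i C).piAntidiag 3, tC i C e +
    ∑ e ∈ (C.piAntidiag 3).filter (fun e => e p ≠ 0), tC i C e +
    ∑ e ∈ (C.piAntidiag 3).filter (fun e => e q ≠ 0), tC i C e := by
  classical
  have H := Q.H
  have hir := Q.hi2
  have lp := F.lp
  have ly := F.ly
  have lu := F.lu
  have lq := F.lq
  unfold ZC
  rw [← Finset.sum_filter_add_sum_filter_not (C.piAntidiag 3) (fun e => e p ≠ 0)]
  rw [← Finset.sum_filter_add_sum_filter_not ((C.piAntidiag 3).filter (fun e => ¬ e p ≠ 0))
    (fun e => e q ≠ 0), Finset.filter_filter, Finset.filter_filter]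
  have e1 : ∑ e ∈ (C.piAntidiag 3).filter (fun e => ¬ e p ≠ 0 ∧ e q ≠ 0), tC i C e =
      ∑ e ∈ (C.piAntidiag 3).filter (fun e => e q ≠ 0), tC i C e := by
    refine Finset.sum_subset ?_ ?_
    · intro e he
      rw [mem_filter] at he ⊢
      exact ⟨he.1, he.2.2⟩
    · intro e he hne
      rw [mem_filter, mem_piA] at he
      have hez : e p ≠ 0 := by
        by_contra h
        apply hne
        rw [mem_filter, mem_piA]
        exact ⟨he.1, fun h' => h' h, he.2⟩
      by_cases hA : AdmL i e
      · by_cases hB : AdmU i e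
        · by_cases hd : Disjoint (AL i e) (AU i e)
          · exfalso
            have h1 := bs_le Q F hA hB hd (Nat.pos_of_ne_zero hez)
              (Nat.pos_of_ne_zero he.2)
            have h2 : ∑ x, bs p y q u s x ≤ ∑ x, e x := Finset.sum_le_sum fun x _ => h1 x
            have := bs_sum F
            have := he.1.1
            omega
          · exact tC_not_disj hd
        · exact tC_not_admU hB
      · exact tC_not_admL hA
  have e2 : (C.piAntidiag 3).filter (fun e => ¬ e p ≠ 0 ∧ ¬ e q ≠ 0) =
      (Dm i C).piAntidiag 3 := by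
    ext e
    rw [mem_filter, mem_piA, mem_piA]
    constructor
    · rintro ⟨⟨h3, h4⟩, h5, h6⟩
      refine ⟨h3, fun w hw => ?_⟩
      by_contra hne
      have hwC : w ∈ C := by
        by_contra h
        exact hne (h4 w h)
      apply hw
      refine mem_Dm.2 ⟨hwC, fun h7 => ?_, fun h7 => ?_⟩
      · rw [Q.pd w hwC p F.mp h7 F.pD] at hne
        exact h5 hne
      · rw [Q.pu w hwC q F.mq h7 F.qU] at hne
        exact h6 hne
    · rintro ⟨h3, h4⟩
      refine ⟨⟨h3, fun w hw => h4 w fun h => hw (mem_Dm.1 h).1⟩, ?_, ?_⟩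
      · rw [not_not]
        exact h4 p fun h => (mem_Dm.1 h).2.1 F.pD
      · rw [not_not]
        exact h4 q fun h => (mem_Dm.1 h).2.2 F.qU
  rw [e1, e2]
  ring

/-- THE VALUE OF (3,1) OF A FLIP PART -/
theorem al3_flip (nt : ∀ w ∈ C, lev w = i + 1 → uc w ≠ {a, b}) :
    I2.al 3 (st i C).card (ZS i C) = (ZU i C).card - (ZL i C).card + (FLo C p).card -
      (FUp C q).card + (Sg i C a).card - (Sg i C b).card := by
  classical
  have H := Q.H
  have hir := Q.hi2
  have hC := Q.hC
  have hC' : Part i C := SO.part_pred hC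
  have b3 := F.b3
  have lp := F.lp
  have ly := F.ly
  have lu := F.lu
  have lq := F.lq
  obtain ⟨y1, y2, y3, y4⟩ := psi_y Q F
  obtain ⟨u1, u2, u3, u4⟩ := psi_u Q F
  have hbase := so_base3 H Q.hi Q.hi2 Q.hM (fun z hz => so_up3 H Q.nlL hz)
    (fun x hx => so_dn3 H Q.nlU hx) hC
  have hspt1 : ∀ v ∈ C, Spt C (cl p + sg v) := by
    intro v hv
    rw [spt_add_iff]
    exact ⟨spt_cl hC' F.mp, fun w hw => ExpC_sg_ne (by rintro rfl; exact hw hv)⟩
  have hspt2 : ∀ v ∈ C, Spt C (cu q + sg v) := by
    intro v hv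
    rw [spt_add_iff]
    exact ⟨spt_cu hC' F.mq (by omega), fun w hw => ExpC_sg_ne (by rintro rfl; exact hw hv)⟩
  have hdec := dec3 Q F
  rw [split_cl H lp F.cp, split_cu H (by omega) lq F.cq, Finset.filter_true_of_mem hspt1,
    Finset.filter_true_of_mem hspt2,
    low_class H (by omega) hC ly F.cp (by rw [F.cy]; exact card_pair F.as) y2
      (by rw [y3, F.cy]) F.mp (by
      intro z' hz' huc
      refine Q.pd z' hz' p F.mp ?_ F.pD
      refine mem_PD.2 ⟨?_, by rw [huc, card_singleton], y, ?_, by
        rw [F.cy]; exact card_pair F.as⟩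
      · have := lev_uc H (x := z') (v := y) (by rw [huc]; exact mem_singleton_self y)
        omega
      · rw [← mem_uc, huc]
        exact mem_singleton_self y),
    upp_class H hir hC lu F.cq (by rw [F.cu]; exact card_pair F.sb) u2 (by rw [u3, F.cu]) F.mq
      (by
      intro x' hx' hdc
      refine Q.pu x' hx' q F.mq ?_ F.qU
      refine mem_PU.2 ⟨?_, by rw [hdc, card_singleton], u, ?_, by
        rw [F.cu]; exact card_pair F.sb⟩
      · have := lev_dc H (x := x') (v := u) (by rw [hdc]; exact mem_singleton_self u)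
        omega
      · rw [← mem_dc, hdc]
        exact mem_singleton_self u)] at hdec
  have hb := congrArg ph hdec
  rw [b3] at hb hbase ⊢
  have e0 : I2.al 3 3 (ZS i C) = ph (ZC i C 3) := by
    unfold I2.al ph
    rw [coeff_ZS]
  have k1 : ph (xx ^ 3 * dd ^ (3 - 1)) = -1 := by
    have := ph_unit_x 3
    norm_num at this ⊢
    exact this
  have k4 : ph (xi ^ 2 * dd ^ (3 - 1)) = 1 := by
    have := ph_unit_y 2
    norm_num at this ⊢
    exact this
  have e1 : ph (∑ e ∈ (Dm i C).piAntidiag 3, tC i C e) =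
      (ZU i C).card - (ZL i C).card := by
    have h1 := ph_dvd hbase
    rw [sub_eq_add_neg, ph_add, ph_neg, ph_add, ph_nat, ph_nat, k1, k4] at h1
    linarith
  have e2 := low_near_sum Q F nt
  have e3 := upp_near_sum Q F nt
  rw [← ph_sum] at e2 e3
  rw [e0, hb]
  simp only [ph_add, ph_nat]
  rw [e1, e2, e3]
  have k2 : ph (xx ^ 2 * dd ^ (3 - 1)) = 1 := by
    have := ph_unit_x 2
    norm_num at this ⊢
    exact this
  have k3 : ph (2 * (xx * dd ^ (3 - 1))) = -2 := by
    have := ph_unit_x 1
    have h4 := ph_nat 2 (xx * dd ^ (3 - 1))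
    norm_num at this h4 ⊢
    rw [h4, this]
    norm_num
  have k5 : ph (xi * dd ^ (3 - 1)) = -1 := by
    have := ph_unit_y 1
    norm_num at this ⊢
    exact this
  have k6 : ph (2 * dd ^ (3 - 1)) = 2 := by
    have := ph_unit_y 0
    have h4 := ph_nat 2 (dd ^ (3 - 1))
    norm_num at this h4 ⊢
    rw [h4, this]
    norm_num
  rw [k1, k2, k3, k4, k5, k6]
  push_cast
  ring

end near

end Pool.Agent.GaussPoset.Win.Pf
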