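import Pool.Agent.W_448pn_h63.QaG
import Pool.Agent.W_448so_h63.FB

/-!
# Flip parts with three sites: the value of (1,0) and the second power sum at the energy six
(MP_448cb3_co, G2, window `j - 1`)
-/

set_option autoImplicit false

namespace Pool.Agent.GaussPoset.Win.Pf

set_option linter.unusedSectionVars false

open Finset
open Pool.Agent.GaussPoset.Win.SO (on PSO PS5 tL tU)
open Pool.Agent.GaussPoset.Win.I2 (lS uS mem_lS mem_uS)

universe u

variable {P : Type u} [Fintype P] [PartialOrder P] [DecidableEq P] {r i : ℕ} {psi : P → P}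
  {e f : P → ℕ} {C : Finset P} {p y q u a s b g v : P}

/-- the coefficient at the energy one -/
lemma cf_one_sum (b : ℕ) (C : Finset P) :
    So.cf 1 b (ZS i C) = ∑ z ∈ C, PowerSeries.coeff b (tC i C (sg z) : A) := by
  classical
  rw [So.cf_one, coeff_ZS, ← map_sum]
  congr 1
  unfold ZC
  rw [So.sum_pa_one]
  rfl

lemma Fe_null (H : Gr P r) (hi : i ≤ r) (S : Finset P) : Fe i (0 : P → ℕ) S = 1 := by
  obtain ⟨u1, u2, u3, u4⟩ := upp_none H hi (e := (0 : P → ℕ)) fun _ _ => rfl
  obtain ⟨l1, l2, l3, l4⟩ := low_none H (i := i) (e := (0 : P → ℕ)) fun _ _ => rfl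
  unfold Fe cw chi
  rw [if_pos ⟨l1, u1⟩, l2, l3, l4, u2, u3, u4]
  simp

/-- one unit on a near element -/
lemma one_near (H : Gr P r) (hi : i ≤ r) (hC : Part (i + 1) C) (hvC : v ∈ C)
    (hv : v ∈ near P i) :
    (lev v = i + 1 → tC i C (sg v) =
      dd * (xx ^ (uc v).card * dd ^ ((st i C).card - (uc v).card))) ∧
    (lev v + 1 = i → tC i C (sg v) =
      dd * (xi * dd ^ ((st i C).card - (dc v).card))) := by
  classical
  have hC' : Part i C := SO.part_pred hC
  have hn := mem_near.1 hv
  have hT : v ∉ Tch i (0 : P → ℕ) := by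
    rw [mem_Tch]
    rintro (⟨h3, z, hz, h4⟩ | ⟨h3, z, hz, h4⟩)
    · exact lt_irrefl _ h4
    · exact lt_irrefl _ h4
  have hs : Spt C (sg v) := fun w hw => ExpC_sg_ne (by rintro rfl; exact hw hvC)
  have hF : ∀ S, Fe i (sg v) S = wt i (0 : P → ℕ) v 1 S := by
    intro S
    have h1 : Fe i ((0 : P → ℕ) + sg v) S = Fe i (0 : P → ℕ) S * wt i (0 : P → ℕ) v 1 S :=
      fact H hi hv hT rfl 1 S
    rw [zero_add, Fe_null H hi, one_mul] at h1
    exact h1
  constructor
  · intro lv
    have hvs : uc v ⊆ st i C := by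
      intro w hw
      have := lev_uc H hw
      exact mem_st.2 ⟨hC.up hvC (mem_uc.1 hw), by omega⟩
    have hw : ∀ S, wt i (0 : P → ℕ) v 1 S = dd * (if uc v ⊆ S then 1 else 0) := by
      intro S
      unfold wt wtL
      rw [if_pos lv, if_pos]
      · congr 1
        refine if_congr ?_ rfl rfl
        constructor
        · intro h w hw
          exact h w hw one_pos
        · intro h w hw _
          exact h hw
      · intro w hw
        exact one_pos
    rw [tC_IV H hC' hs]
    have h2 : IV (st i C) (Fe i (sg v)) = IV (st i C) (fun S => dd * chi (uc v) ∅ S) := by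
      refine IV_congr fun S _ => ?_
      rw [hF S, hw S]
      unfold chi
      simp only [disjoint_empty_left, and_true]
    rw [h2, IV_mul, IV_chi hvs (empty_subset _),
      if_pos (disjoint_empty_right _), card_empty, Nat.sub_zero]
  · intro lv
    have hvs : dc v ⊆ st i C := by
      intro w hw
      have := lev_dc H hw
      exact mem_st.2 ⟨hC.dn hvC (by omega) (mem_dc.1 hw), by omega⟩
    have hw : ∀ S, wt i (0 : P → ℕ) v 1 S = xi * dd * (if Disjoint (dc v) S then 1 else 0) := by
      intro S
      unfold wt wtU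
      rw [if_neg (by omega), if_pos]
      · congr 1
        refine if_congr ?_ rfl rfl
        rw [disjoint_left]
        constructor
        · intro h w hw
          exact h w hw one_pos
        · intro h w hw _
          exact h hw
      · intro w hw
        exact one_pos
    rw [tC_IV H hC' hs]
    have h2 : IV (st i C) (Fe i (sg v)) =
        IV (st i C) (fun S => xi * dd * chi ∅ (dc v) S) := by
      refine IV_congr fun S _ => ?_
      rw [hF S, hw S]
      unfold chi
      simp only [empty_subset, true_and]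
    rw [h2, IV_mul, IV_chi (empty_subset _) hvs, if_pos (disjoint_empty_left _), card_empty,
      pow_zero, one_mul, Nat.sub_zero]
    ring

/-- one unit on a site -/
lemma one_site (H : Gr P r) (hi : i ≤ r) (hC : Part (i + 1) C) (hvC : v ∈ C)
    (hv : lev v = i) : tC i C (sg v) = dd ^ (st i C).card := by
  classical
  obtain ⟨u1, u2, u3, u4⟩ := upp_none H hi (e := sg v) fun w hw =>
    ExpC_sg_ne (by rintro rfl; omega)
  obtain ⟨l1, l2, l3, l4⟩ := low_none H (i := i) (e := sg v) fun w hw =>
    ExpC_sg_ne (by rintro rfl; omega)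
  unfold tC cw
  rw [if_pos (show Disjoint (AL i (sg v)) (AU i (sg v)) by
    rw [l2]; exact disjoint_empty_left _), if_pos ⟨l1, u1⟩, l2, l3, l4, u2, u3, u4]
  simp

/-- one unit far from the sites -/
lemma one_far (H : Gr P r) (hi : i ≤ r) (h : i + 2 ≤ lev v ∨ lev v + 2 ≤ i) :
    tC i C (sg v) = 0 := by
  rcases h with h | h
  · apply tC_not_admL
    intro hA
    obtain ⟨w, hw⟩ := uc_nonempty H (x := v) (by omega)
    have lw := lev_uc H hw
    have h4 := pos_up H hA (z := v) (y := w) (by omega) (by rw [ExpC_sg_self]; exact one_pos)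
      (mem_uc.1 hw)
    rw [ExpC_sg_ne (by rintro rfl; omega)] at h4
    exact lt_irrefl _ h4
  · apply tC_not_admU
    intro hA
    obtain ⟨w, hw⟩ := dc_nonempty H (x := v) (by omega)
    have lw := lev_dc H hw
    have h4 := pos_dn H hi hA (x := v) (y := w) (by omega) (by
      rw [ExpC_sg_self]; exact one_pos) (mem_dc.1 hw)
    rw [ExpC_sg_ne (by rintro rfl; omega)] at h4
    exact lt_irrefl _ h4

lemma co_a (m : ℕ) : PowerSeries.coeff 3 (dd ^ 3 * (xx ^ m) : A) = (-1) ^ m := by
  have := SO.coef_units m 0 3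
  rw [pow_zero, mul_one, add_zero] at this
  exact this

lemma co_b : PowerSeries.coeff 3 (dd ^ 3 * xi : A) = -1 := by
  have := SO.coef_units 0 1 3
  rw [pow_zero, one_mul, pow_one, zero_add, pow_one] at this
  exact this

lemma co_c : PowerSeries.coeff 3 (dd ^ 2 * xx ^ 2 : A) = -2 := by
  have h1 : (dd ^ 2 * xx ^ 2 : A) = dd ^ 4 - 2 * dd ^ 3 + dd ^ 2 := by
    rw [← one_add_xx]
    ring
  have h2 : ∀ n, PowerSeries.coeff 3 (dd ^ n : A) = if 3 = n then 1 else 0 := by
    intro n
    unfold dd
    rw [PowerSeries.coeff_X_pow]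
  have h3 : (2 * dd ^ 3 : A) = dd ^ 3 + dd ^ 3 := by ring
  rw [h1, h3, map_add, map_sub, map_add, h2, h2, h2]
  norm_num

lemma co_d : PowerSeries.coeff 3 (dd ^ 2 * xi : A) = -1 := by
  have h := PowerSeries.coeff_X_pow_mul (xi : A) 2 1
  unfold dd
  rw [h]
  unfold xi
  rw [map_neg, PowerSeries.coeff_mk]

section near

variable (Q : PSO r i psi C) (F : Flp i C p y q u a s b)
include Q F

/-- THE VALUE OF (1,0) OF A FLIP PART -/
theorem c1_flip (nt : ∀ w ∈ C, lev w = i + 1 → uc w ≠ {a, b}) :
    So.cf 1 (st i C).card (ZS i C) = -3 - (Sg i C a).card - (Sg i C b).card := by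
  classical
  have H := Q.H
  have hir := Q.hi2
  have b3 := F.b3
  have ly := F.ly
  have lu := F.lu
  have ls := F.ls
  obtain ⟨y1, y2, y3, y4⟩ := psi_y Q F
  obtain ⟨u1, u2, u3, u4⟩ := psi_u Q F
  have n1 : psi u ≠ y := by
    intro h
    rw [h, F.cy] at u3
    have : b ∈ ({a, s} : Finset P) := by
      rw [u3]; exact mem_insert_of_mem (mem_singleton_self _)
    rw [mem_insert, mem_singleton] at this
    rcases this with k | k
    · exact F.ab k.symm
    · exact F.sb k.symm
  have n2 : psi y ≠ u := by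
    intro h
    rw [h, F.cu] at y3
    have : a ∈ ({s, b} : Finset P) := by rw [y3]; exact mem_insert_self _ _
    rw [mem_insert, mem_singleton] at this
    rcases this with k | k
    · exact F.as k
    · exact F.ab k
  rw [cf_one_sum, b3]
  -- the support
  set W : Finset P := Win.st i C ∪ ({y, psi u} ∪ ({u, psi y} ∪ (Sg i C a ∪ Sg i C b))) with hW
  have hWC : W ⊆ C := by
    intro v hv
    rw [hW] at hv
    simp only [mem_union, mem_insert, mem_singleton] at hv
    rcases hv with h | ((h | h) | (h | h) | h | h)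
    · exact (mem_st.1 h).1
    · rw [h]; exact F.yC Q.hC
    · rw [h]; exact u1
    · rw [h]; exact F.uC Q.hC
    · rw [h]; exact y1
    · exact (mem_Sg.1 h).1
    · exact (mem_Sg.1 h).1
  have hout : ∀ v ∈ C, v ∉ W → PowerSeries.coeff 3 (tC i C (sg v) : A) = 0 := by
    intro v hv hvW
    rw [hW] at hvW
    simp only [mem_union, mem_insert, mem_singleton, not_or] at hvW
    obtain ⟨g1, ⟨g2, g3⟩, ⟨g4, g5⟩, g6, g7⟩ := hvW
    have h1 : ¬ v ∈ near P i := by
      intro h
      rcases near_cls Q F nt hv h with k | k | k | k | k | k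
      · exact g2 k
      · exact g4 k
      · exact g5 k
      · exact g3 k
      · exact g6 k
      · exact g7 k
    have h2 : lev v ≠ i := fun h => g1 (mem_st.2 ⟨hv, h⟩)
    rw [mem_near, not_or] at h1
    rw [one_far H (by omega) (by omega), map_zero]
  have hSl : ∀ x ∈ Sg i C a ∪ Sg i C b, lev x = i + 1 ∨ lev x + 1 = i := by
    intro x hx
    rcases mem_union.1 hx with k | k
    · exact Sg_lev k
    · exact Sg_lev k
  have hSn : ∀ x ∈ Sg i C a ∪ Sg i C b, x ≠ y ∧ x ≠ psi u ∧ x ≠ u ∧ x ≠ psi y := by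
    intro x hx
    have hk : ∃ v, (lev x = i + 1 ∧ uc x = {v}) ∨ (lev x + 1 = i ∧ dc x = {v}) := by
      rcases mem_union.1 hx with k | k
      · exact ⟨a, (mem_Sg.1 k).2⟩
      · exact ⟨b, (mem_Sg.1 k).2⟩
    obtain ⟨v, hk⟩ := hk
    refine ⟨?_, ?_, ?_, ?_⟩ <;> intro hxe <;> rw [hxe] at hk <;> rcases hk with k | k
    · have h3 := congrArg Finset.card k.2
      rw [F.cy, card_pair F.as, card_singleton] at h3
      omega
    · omega
    · have h3 := congrArg Finset.card k.2
      rw [u3, card_pair F.sb, card_singleton] at h3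
      omega
    · omega
    · omega
    · have h3 := congrArg Finset.card k.2
      rw [F.cu, card_pair F.sb, card_singleton] at h3
      omega
    · omega
    · have h3 := congrArg Finset.card k.2
      rw [y3, card_pair F.as, card_singleton] at h3
      omega
  have d3 : Disjoint ({u, psi y} : Finset P) (Sg i C a ∪ Sg i C b) := by
    rw [disjoint_left]
    intro x hx hx'
    rw [mem_insert, mem_singleton] at hx
    obtain ⟨k1, k2, k3, k4⟩ := hSn x hx'
    rcases hx with h | h
    · exact k3 h
    · exact k4 h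
  have d2 : Disjoint ({y, psi u} : Finset P) ({u, psi y} ∪ (Sg i C a ∪ Sg i C b)) := by
    rw [disjoint_left]
    intro x hx hx'
    rw [mem_insert, mem_singleton] at hx
    have hl : lev x = i + 1 := by
      rcases hx with h | h
      · rw [h]; exact ly
      · rw [h]; exact u2
    rcases mem_union.1 hx' with h | h
    · rw [mem_insert, mem_singleton] at h
      rcases h with h | h
      · rw [h] at hl; omega
      · rw [h] at hl; omega
    · obtain ⟨k1, k2, k3, k4⟩ := hSn x h
      rcases hx with h | h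
      · exact k1 h
      · exact k2 h
  have d1 : Disjoint (Win.st i C) ({y, psi u} ∪ ({u, psi y} ∪ (Sg i C a ∪ Sg i C b))) := by
    rw [disjoint_left]
    intro x hx hx'
    have hl := (mem_st.1 hx).2
    rcases mem_union.1 hx' with h | h
    · rw [mem_insert, mem_singleton] at h
      rcases h with h | h
      · rw [h] at hl; omega
      · rw [h] at hl; omega
    · rcases mem_union.1 h with h | h
      · rw [mem_insert, mem_singleton] at h
        rcases h with h | h
        · rw [h] at hl; omega
        · rw [h] at hl; omega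
      · have := hSl x h
        omega
  rw [← Finset.sum_subset hWC hout, hW, sum_union d1, sum_union d2, sum_union d3,
    sum_union (Sg_disj Q F), sum_pair n1.symm, sum_pair n2.symm]
  have s1 : ∑ v ∈ Win.st i C, PowerSeries.coeff 3 (tC i C (sg v) : A) = 3 := by
    have h1 : ∀ v ∈ Win.st i C, PowerSeries.coeff 3 (tC i C (sg v) : A) = 1 := by
      intro v hv
      obtain ⟨k1, k2⟩ := mem_st.1 hv
      rw [one_site H (by omega) Q.hC k1 k2, b3]
      have := co_a 0
      rw [pow_zero, mul_one, pow_zero] at this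
      exact this
    rw [Finset.sum_congr rfl h1, sum_const, b3]
    norm_num
  have s2 : PowerSeries.coeff 3 (tC i C (sg y) : A) = -2 := by
    rw [(one_near H (by omega) Q.hC (F.yC Q.hC) (mem_near.2 (Or.inl ly))).1 ly, F.cy,
      card_pair F.as, b3]
    have : (dd * (xx ^ 2 * dd ^ (3 - 2)) : A) = dd ^ 2 * xx ^ 2 := by ring
    rw [this, co_c]
  have s3 : PowerSeries.coeff 3 (tC i C (sg (psi u)) : A) = -2 := by
    rw [(one_near H (by omega) Q.hC u1 (mem_near.2 (Or.inl u2))).1 u2, u3,
      card_pair F.sb, b3]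
    have : (dd * (xx ^ 2 * dd ^ (3 - 2)) : A) = dd ^ 2 * xx ^ 2 := by ring
    rw [this, co_c]
  have s4 : PowerSeries.coeff 3 (tC i C (sg u) : A) = -1 := by
    rw [(one_near H (by omega) Q.hC (F.uC Q.hC) (mem_near.2 (Or.inr lu))).2 lu, F.cu,
      card_pair F.sb, b3]
    have : (dd * (xi * dd ^ (3 - 2)) : A) = dd ^ 2 * xi := by ring
    rw [this, co_d]
  have s5 : PowerSeries.coeff 3 (tC i C (sg (psi y)) : A) = -1 := by
    rw [(one_near H (by omega) Q.hC y1 (mem_near.2 (Or.inr y2))).2 y2, y3,
      card_pair F.as, b3]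
    have : (dd * (xi * dd ^ (3 - 2)) : A) = dd ^ 2 * xi := by ring
    rw [this, co_d]
  have s6 : ∀ c, ∑ v ∈ Sg i C c, PowerSeries.coeff 3 (tC i C (sg v) : A) =
      -((Sg i C c).card : ℤ) := by
    intro c
    have h1 : ∀ v ∈ Sg i C c, PowerSeries.coeff 3 (tC i C (sg v) : A) = -1 := by
      intro v hv
      obtain ⟨k1, k2⟩ := mem_Sg.1 hv
      rcases k2 with k2 | k2
      · rw [(one_near H (by omega) Q.hC k1 (mem_near.2 (Or.inl k2.1))).1 k2.1, k2.2,
          card_singleton, b3]
        have : (dd * (xx ^ 1 * dd ^ (3 - 1)) : A) = dd ^ 3 * xx ^ 1 := by ring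
        rw [this, co_a]
        norm_num
      · rw [(one_near H (by omega) Q.hC k1 (mem_near.2 (Or.inr k2.1))).2 k2.1, k2.2,
          card_singleton, b3]
        have : (dd * (xi * dd ^ (3 - 1)) : A) = dd ^ 3 * xi := by ring
        rw [this, co_b]
    rw [Finset.sum_congr rfl h1, sum_const, nsmul_eq_mul]
    ring
  rw [s1, s2, s3, s4, s5, s6 a, s6 b]
  ring

end near

end Pool.Agent.GaussPoset.Win.Pf
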