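import Pool.Agent.W_448pn_h63.QaH
import Pool.Agent.W_448cp_h96.CB

/-!
# Flip parts in case B at the window `j - 1`: all values
(MP_448cb3_co, G2)
-/

set_option autoImplicit false

namespace Pool.Agent.GaussPoset.Win.Pf

set_option linter.unusedSectionVars false

open Finset W4 Wd
open Pool.Agent.GaussPoset.Win.SO (con PN on mem_PN vp F5 mem_F5 PSO N1f)
open Pool.Agent.GaussPoset.Win.I2 (bb VV)
open Pool.Agent.GaussPoset.Win.Pn

universe u

variable {P : Type u} [Fintype P] [PartialOrder P] [DecidableEq P] {r j i : ℕ}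
  {psi : P → P} {C : Finset P} {p y q u a s b : P}

section nj

variable (h : NJ P r j) (hij : i + 1 = j) (hi1 : 1 ≤ i)
include h hij hi1

/-- the data of every part -/
theorem nj_pso (hM : Mat P i ∅ psi) (t : Tops P) : PSO r i psi (SS i t) := by
  have g : GoodTo P r (i + 1) := by rw [hij]; exact h.g
  obtain ⟨n1, n2, -⟩ := nj_one h hij hi1 t
  refine ⟨h.g.H, hi1, g.hr, h.part (by omega) (by omega) t, hM, nll_of g hi1, nlu_of g, ?_, ?_⟩
  · intro p hp p' hp' h1 h2
    exact card_le_one.1 n1 p (mem_filter.2 ⟨hp, h1⟩) p' (mem_filter.2 ⟨hp', h2⟩)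
  · intro p hp p' hp' h1 h2
    exact card_le_one.1 n2 p (mem_filter.2 ⟨hp, h1⟩) p' (mem_filter.2 ⟨hp', h2⟩)

/-- a flip has the standard form -/
theorem nj_flp (t : Tops P) {p q : P} (hpq : (p, q) ∈ F5 i (SS i t)) :
    ∃ y u a s b, Flp i (SS i t) p y q u a s b := by
  classical
  obtain ⟨psi, hM⟩ := good_mat h.g.H (h.g.good i (by omega))
  have H := h.g.H
  have Q := nj_pso h hij hi1 hM t
  obtain ⟨a1, a2, a3, a4, a5⟩ := mem_F5.1 hpq
  simp only at a1 a2 a3 a4 a5
  obtain ⟨y, y1, y2, y3, y4, -⟩ := SO.PD_data H a2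
  obtain ⟨u, u1, u2, u3, u4, -⟩ := SO.PU_data H a4
  rw [sit_PDs H a2 y1, sit_PUs H a4 u1] at a5
  obtain ⟨s, hs⟩ := card_eq_one.1 a5
  have hsy : s ∈ uc y := (mem_inter.1 (by rw [hs]; exact mem_singleton_self s)).1
  have hsu : s ∈ dc u := (mem_inter.1 (by rw [hs]; exact mem_singleton_self s)).2
  obtain ⟨a, ha⟩ : ∃ a, (uc y).erase s = {a} := card_eq_one.1 (by
    rw [card_erase_of_mem hsy, y4])
  obtain ⟨b, hb⟩ : ∃ b, (dc u).erase s = {b} := card_eq_one.1 (by
    rw [card_erase_of_mem hsu, u4])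
  have ha' : a ∈ (uc y).erase s := by rw [ha]; exact mem_singleton_self a
  have hb' : b ∈ (dc u).erase s := by rw [hb]; exact mem_singleton_self b
  have has : a ≠ s := (mem_erase.1 ha').1
  have hbs : b ≠ s := (mem_erase.1 hb').1
  have cy : uc y = {a, s} := by
    rw [← insert_erase hsy, ha, pair_comm]
  have cu : dc u = {s, b} := by
    rw [← insert_erase hsu, hb]
  have hab : a ≠ b := by
    rintro rfl
    have : a ∈ uc y ∩ dc u := mem_inter.2 ⟨(mem_erase.1 ha').2, (mem_erase.1 hb').2⟩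
    rw [hs, mem_singleton] at this
    exact has this
  have h3 : (st i (SS i t)).card = 3 := by
    by_contra hc
    rw [nj_F5_three h hij hi1 t hc] at hpq
    exact notMem_empty _ hpq
  refine ⟨y, u, a, s, b, a1, a3, y2, y3, u2, u3, y1, cy, u1, cu, has, hbs.symm, hab, ?_⟩
  symm
  apply eq_of_subset_of_card_le
  · have hyC : y ∈ SS i t := Q.hC.up a1 (by rw [← mem_uc, y1]; exact mem_singleton_self _)
    have huC : u ∈ SS i t := Q.hC.dn a3 (by omega) (by
      rw [← mem_dc, u1]; exact mem_singleton_self _)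
    intro x hx
    rw [mem_insert, mem_insert, mem_singleton] at hx
    rcases hx with k | k | k
    · rw [k]
      have h1 : y ⋖ a := by rw [← mem_uc, cy]; exact mem_insert_self _ _
      have := lev_cov H h1
      exact mem_st.2 ⟨Q.hC.up hyC h1, by omega⟩
    · rw [k]
      have h1 := mem_uc.1 hsy
      have := lev_cov H h1
      exact mem_st.2 ⟨Q.hC.up hyC h1, by omega⟩
    · rw [k]
      have h1 : b ⋖ u := by
        rw [← mem_dc, cu]; exact mem_insert_of_mem (mem_singleton_self _)
      have := lev_cov H h1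
      exact mem_st.2 ⟨Q.hC.dn huC (by omega) h1, by omega⟩
  · rw [h3, card_insert_of_notMem, card_pair hbs.symm]
    rw [mem_insert, mem_singleton, not_or]
    exact ⟨has, hab⟩

/-- no triangle in the row -/
theorem nj_nt (t : Tops P) (F : Flp i (SS i t) p y q u a s b) :
    ∀ w ∈ SS i t, lev w = i + 1 → uc w ≠ {a, b} := by
  classical
  obtain ⟨psi, hM⟩ := good_mat h.g.H (h.g.good i (by omega))
  have H := h.g.H
  have g : GoodTo P r (i + 1) := by rw [hij]; exact h.g
  have Q := nj_pso h hij hi1 hM t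
  obtain ⟨lo, hi, e, C⟩ := Cp.comp_exists H (t := (t : P)) t.2 (j := i + 1) g.hr g.good
  obtain ⟨u1, u2, u3, u4⟩ := psi_u Q F
  have le : ∀ {x : P}, x ∈ SS i t → lev x ≤ i + 1 → x ≤ (t : P) := fun {x} hx hl =>
    (h.mem (by omega) t (by omega)).1 hx
  have site : ∀ x, x ∈ SS i t → lev x = i → ∃ k, lo i ≤ k ∧ k ≤ hi i ∧ e i k = x := by
    intro x hx hl
    obtain ⟨k, k1, k2, k3⟩ := C.surj x (le hx (by omega)) (by omega)
    rw [hl] at k1 k2 k3
    exact ⟨k, k1, k2, k3⟩
  have aC : a ∈ SS i t := Q.hC.up (F.yC Q.hC) F.ya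
  have bC : b ∈ SS i t := Q.hC.dn (F.uC Q.hC) (by have := F.lu; omega) F.bu
  obtain ⟨na, a1, a2, a3⟩ := site a aC F.la
  obtain ⟨ns, s1, s2, s3⟩ := site s F.sC F.ls
  obtain ⟨nb, b1, b2, b3⟩ := site b bC F.lb
  have key : ∀ x, x ∈ SS i t → lev x = i + 1 → ∀ n m, lo i ≤ n → n ≤ hi i → lo i ≤ m →
      m ≤ hi i → x ⋖ e i n → x ⋖ e i m → n = m ∨ n = m + 1 ∨ m = n + 1 := by
    intro x hx hl n m n1 n2 m1 m2 h1 h2
    obtain ⟨k, k1, k2, k3⟩ := C.surj x (le hx (by omega)) (by omega)
    rw [hl] at k1 k2 k3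
    rw [← k3] at h1 h2
    have c1 := (C.cov i k n (by omega) k1 k2 n1 n2).1 h1
    have c2 := (C.cov i k m (by omega) k1 k2 m1 m2).1 h2
    omega
  have e1 := key y (F.yC Q.hC) F.ly na ns a1 a2 s1 s2 (by rw [a3]; exact F.ya)
    (by rw [s3]; exact F.ys)
  have e2 := key (psi u) u1 u2 ns nb s1 s2 b1 b2
    (by rw [s3, ← mem_uc, u3]; exact mem_insert_self _ _)
    (by rw [b3, ← mem_uc, u3]; exact mem_insert_of_mem (mem_singleton_self _))
  intro w hw hl hcon
  have e3 := key w hw hl na nb a1 a2 b1 b2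
    (by rw [a3, ← mem_uc, hcon]; exact mem_insert_self _ _)
    (by rw [b3, ← mem_uc, hcon]; exact mem_insert_of_mem (mem_singleton_self _))
  have n1 : na ≠ ns := fun he => F.as (by rw [← a3, ← s3, he])
  have n2 : ns ≠ nb := fun he => F.sb (by rw [← b3, ← s3, he])
  have n3 : na ≠ nb := fun he => F.ab (by rw [← a3, ← b3, he])
  omega

/-- a flip part has no twins -/
theorem nj_pt (hM : Mat P i ∅ psi) (t : Tops P) (F : Flp i (SS i t) p y q u a s b) :
    Pt r i psi (SS i t) := by
  classical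
  have H := h.g.H
  have g : GoodTo P r (i + 1) := by rw [hij]; exact h.g
  have Q := nj_pso h hij hi1 hM t
  have nt := nj_nt h hij hi1 t F
  obtain ⟨u1, u2, u3, u4⟩ := psi_u Q F
  obtain ⟨y1, y2, y3, y4⟩ := psi_y Q F
  have dbl : ∀ x ∈ SS i t, lev x = i + 1 → (uc x).card = 2 → x = y ∨ x = psi u := by
    intro x hx hl hc
    have hn : x ∈ near P i := mem_near.2 (Or.inl hl)
    rcases near_cls Q F nt hx hn with k | k | k | k | k | k
    · exact Or.inl k
    · have := congrArg lev k
      have := F.lu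
      omega
    · have := congrArg lev k
      omega
    · exact Or.inr k
    · rcases (mem_Sg.1 k).2 with k | k
      · rw [k.2, card_singleton] at hc
        omega
      · omega
    · rcases (mem_Sg.1 k).2 with k | k
      · rw [k.2, card_singleton] at hc
        omega
      · omega
  refine ⟨Q, ?_, ?_⟩
  · intro w hw w' hw' x x' hl hne h1 h2 h3 h4
    by_contra hww
    have hxC : x ∈ SS i t := Q.hC.up hw (by rw [← mem_uc, h1]; exact mem_insert_self _ _)
    have hxC' : x' ∈ SS i t := Q.hC.up hw (by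
      rw [← mem_uc, h1]; exact mem_insert_of_mem (mem_singleton_self _))
    have l1 := lev_uc H (x := w) (v := x) (by rw [h1]; exact mem_insert_self _ _)
    have l2 := lev_uc H (x := w) (v := x') (by
      rw [h1]; exact mem_insert_of_mem (mem_singleton_self _))
    have hy : y ∈ ({x, x'} : Finset P) := by
      rw [mem_insert, mem_singleton]
      rcases dbl x hxC (by omega) h3 with k | k
      · exact Or.inl k.symm
      · rcases dbl x' hxC' (by omega) h4 with k' | k'
        · exact Or.inr k'.symm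
        · exact absurd (k.trans k'.symm) hne
    have hwp : ∀ w'' : P, uc w'' = {x, x'} → w'' ≠ p := by
      intro w'' h5 h6
      rw [h6, F.cp] at h5
      have := congrArg Finset.card h5
      rw [card_singleton, card_pair hne] at this
      omega
    have h5 : ({w, w', p} : Finset P) ⊆ dc y := by
      intro v hv
      rw [mem_insert, mem_insert, mem_singleton] at hv
      rcases hv with k | k | k
      · rw [k, mem_dc, ← mem_uc, h1]; exact hy
      · rw [k, mem_dc, ← mem_uc, h2]; exact hy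
      · rw [k, mem_dc]; exact F.py
    have h6 := card_le_card h5
    rw [card_insert_of_notMem (by
      rw [mem_insert, mem_singleton, not_or]
      exact ⟨hww, hwp w h1⟩), card_pair (hwp w' h2)] at h6
    have := dc_card_le H y
    omega
  · intro w hw w' hw' v v' hl hne h1 h2 _ _
    have m1 : v ⋖ w := by rw [← mem_dc, h1]; exact mem_insert_self _ _
    have m2 : v' ⋖ w := by rw [← mem_dc, h1]; exact mem_insert_of_mem (mem_singleton_self _)
    have m3 : v ⋖ w' := by rw [← mem_dc, h2]; exact mem_insert_self _ _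
    have m4 : v' ⋖ w' := by rw [← mem_dc, h2]; exact mem_insert_of_mem (mem_singleton_self _)
    have l1 := lev_cov H m1
    have l2 := lev_cov H m2
    exact ucv_uniq g (by omega) hne (by omega) m1 m2 m3 m4

end nj

end Pool.Agent.GaussPoset.Win.Pf
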