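import Pool.Agent.W_448pn_h63.QaI

/-!
# Flip parts in case B at the window `j - 1`: the final values
(MP_448cb3_co, G2)
-/

set_option autoImplicit false

namespace Pool.Agent.GaussPoset.Win.Pf

set_option linter.unusedSectionVars false

open Finset W4 Wd
open Pool.Agent.GaussPoset.Win.SO (con PN on mem_PN vp F5 mem_F5 PSO N1f)
open Pool.Agent.GaussPoset.Win.I2 (bb VV)
open Pool.Agent.GaussPoset.Win.Pn

universe u

variable {P : Type u} [Fintype P] [PartialOrder P] [DecidableEq P] {r j i : ℕ}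
  {psi : P → P} {C : Finset P} {p y q u a s b : P}

section facts

variable (Q : PSO r i psi C) (F : Flp i C p y q u a s b)
include Q F

lemma FL_eq : FL i C = FLo C p := by
  ext w
  rw [mem_FL, mem_FLo]
  constructor
  · rintro ⟨h1, z, h2, h3⟩
    have hz : z ∈ C := Q.hC.up h1 (by rw [← mem_uc, h3]; exact mem_singleton_self _)
    rw [← Q.pd z hz p F.mp h2 F.pD]
    exact ⟨h1, h3⟩
  · rintro ⟨h1, h2⟩
    exact ⟨h1, p, F.pD, h2⟩

lemma FU_eq : FU' i C = FUp C q := by
  ext w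
  rw [mem_FU', mem_FUp]
  constructor
  · rintro ⟨h1, z, h2, h3⟩
    have hzw : z ⋖ w := by rw [← mem_dc, h3]; exact mem_singleton_self _
    have l1 := lev_cov Q.H hzw
    have l2 := (lev_PU h2).1
    have hz : z ∈ C := Q.hC.dn h1 (by omega) hzw
    rw [← Q.pu z hz q F.mq h2 F.qU]
    exact ⟨h1, h3⟩
  · rintro ⟨h1, h2⟩
    exact ⟨h1, q, F.qU, h2⟩

lemma F5_eq : F5 i C = {(p, q)} := by
  classical
  have hsit : (sit i p ∩ sit i q).card = 1 := by
    rw [sit_PDs Q.H F.pD F.cp, sit_PUs Q.H F.qU F.cq, F.cy, F.cu]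
    have : ({a, s} ∩ {s, b} : Finset P) = {s} := by
      ext x
      simp only [mem_inter, mem_insert, mem_singleton]
      constructor
      · rintro ⟨h1, h2⟩
        rcases h1 with h1 | h1
        · rcases h2 with h2 | h2
          · exact h2
          · exact absurd (h1.symm.trans h2) F.ab
        · exact h1
      · intro h1
        exact ⟨Or.inr h1, Or.inl h1⟩
    rw [this, card_singleton]
  ext ⟨p', q'⟩
  rw [mem_F5, mem_singleton, Prod.mk.injEq]
  constructor
  · rintro ⟨h1, h2, h3, h4, -⟩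
    exact ⟨Q.pd p' h1 p F.mp h2 F.pD, Q.pu q' h3 q F.mq h4 F.qU⟩
  · rintro ⟨rfl, rfl⟩
    exact ⟨F.mp, F.pD, F.mq, F.qU, hsit⟩

end facts

section nj

variable (h : NJ P r j) (hij : i + 1 = j) (hi1 : 1 ≤ i)
include h hij hi1

/-- a flip part has no twins -/
theorem nj_flip_tws (t : Tops P) (F : Flp i (SS i t) p y q u a s b) :
    Tws i (SS i t) = ∅ := by
  classical
  obtain ⟨psi, hM⟩ := good_mat h.g.H (h.g.good i (by omega))
  have Q := nj_pt h hij hi1 hM t F
  have H := h.g.H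
  rw [eq_empty_iff_forall_notMem]
  intro w hw
  have T := mem_Tws.1 hw
  obtain ⟨x, x', s', T1⟩ := SO.td_of_ZL Q.toPSO T.zl
  have l1 : lev w.1 = i + 2 := (mem_ZL.1 T.zl).2.1
  have c1 := T1.cw
  exact T.ne (Q.ncl w.1 (mem_ZL.1 T.zl).1 w.2 T.mC x x' l1 T1.ne c1 (by rw [← T.uc]; exact c1)
    T1.cx T1.cx')

/-- the (5,2) value of a flip part -/
theorem nj_flip_be5 (t : Tops P) (F : Flp i (SS i t) p y q u a s b) :
    I2.be 5 (st i (SS i t)).card (ZS i (SS i t)) = -1 := by
  obtain ⟨psi, hM⟩ := good_mat h.g.H (h.g.good i (by omega))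
  rw [nj_be5 h hij hi1 t, nj_flip_tws h hij hi1 t F, F5_eq (nj_pso h hij hi1 hM t) F,
    card_empty, card_singleton]
  norm_num

/-- THE (3,1) VALUE OF A FLIP PART -/
theorem nj_flip_al3 (t : Tops P) (F : Flp i (SS i t) p y q u a s b) :
    I2.al 3 (st i (SS i t)).card (ZS i (SS i t)) = (ZU i (SS i t)).card -
      (ZL i (SS i t)).card + (FL i (SS i t)).card - (FU' i (SS i t)).card +
      (Sg i (SS i t) a).card - (Sg i (SS i t) b).card := by
  obtain ⟨psi, hM⟩ := good_mat h.g.H (h.g.good i (by omega))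
  have Q := nj_pso h hij hi1 hM t
  rw [al3_flip Q F (nj_nt h hij hi1 t F), FL_eq Q F, FU_eq Q F]

/-- THE (6,2) VALUE OF A FLIP PART -/
theorem nj_flip_be6 (t : Tops P) (F : Flp i (SS i t) p y q u a s b) :
    I2.be 6 (st i (SS i t)).card (ZS i (SS i t)) = 1 - (N1f i (SS i t)).card -
      (FL i (SS i t)).card - (FU' i (SS i t)).card := by
  obtain ⟨psi, hM⟩ := good_mat h.g.H (h.g.good i (by omega))
  have Q := nj_pt h hij hi1 hM t F
  rw [Pt.be6 Q F, FL_eq Q.toPSO F, FU_eq Q.toPSO F]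

/-- THE (1,0) VALUE OF A FLIP PART -/
theorem nj_flip_c1 (t : Tops P) (F : Flp i (SS i t) p y q u a s b) :
    So.cf 1 (st i (SS i t)).card (ZS i (SS i t)) =
      -3 - (Sg i (SS i t) a).card - (Sg i (SS i t) b).card := by
  obtain ⟨psi, hM⟩ := good_mat h.g.H (h.g.good i (by omega))
  exact c1_flip (nj_pso h hij hi1 hM t) F (nj_nt h hij hi1 t F)

/-- THE SECOND POWER SUM OF A FLIP PART AT THE ENERGY SIX -/
theorem nj_flip_Q6 (t : Tops P) (F : Flp i (SS i t) p y q u a s b) :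
    So.Q6 (st i (SS i t)).card (ZS i (SS i t)) =
      (I2.al 3 (st i (SS i t)).card (ZS i (SS i t))) ^ 2 + 4 +
        2 * ((N1f i (SS i t)).card + (FL i (SS i t)).card + (FU' i (SS i t)).card +
          (Sg i (SS i t) a).card + (Sg i (SS i t) b).card) := by
  unfold So.Q6
  rw [So.cf_three, So.cf_five, So.cf_six, nj_flip_be6 h hij hi1 t F, nj_flip_be5 h hij hi1 t F,
    nj_flip_c1 h hij hi1 t F]
  ring

/-- the values (8,3) and (10,4) of a flip part -/
theorem nj_flip_Q8 (t : Tops P) (F : Flp i (SS i t) p y q u a s b) :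
    T8.Q8 (st i (SS i t)).card (ZS i (SS i t)) =
      -(I2.al 3 (st i (SS i t)).card (ZS i (SS i t))) ∧
    T8.Q10 (st i (SS i t)).card (ZS i (SS i t)) = 1 := by
  rw [nj_Q8_small h hij t (by rw [F.b3]), nj_Q10_small h hij t (by rw [F.b3]; norm_num),
    nj_flip_be5 h hij hi1 t F]
  constructor <;> ring

end nj

end Pool.Agent.GaussPoset.Win.Pf
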