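import Pool.Agent.W_448pn_h63.QaJ
import Pool.Agent.W_448al_h63.LI

/-!
# Flip parts in row coordinates
(MP_448cb3_co, G2, window `j - 1`)
-/

set_option autoImplicit false

namespace Pool.Agent.GaussPoset.Win.Pf

set_option linter.unusedSectionVars false

open Finset W4 Wd
open Pool.Agent.GaussPoset.Win.SO (con PN on mem_PN vp F5 mem_F5 PSO N1f)

universe u

variable {P : Type u} [Fintype P] [PartialOrder P] [DecidableEq P] {r j i : ℕ}
  {psi : P → P} {S : Finset P} {t p y q u a s b : P} {lo hi : ℕ → ℕ} {e : ℕ → ℕ → P}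

section row

variable (C : Win.Comp P t (i + 1) lo hi e) (h : GoodTo P r (i + 1)) (ht : lev t = 0)
  (hS : ∀ y, lev y ≤ i + 1 → (y ∈ S ↔ y ≤ t))
include C h ht hS

/-- near elements over the left end -/
lemma sg_left (hi1 : 1 ≤ i) (hV : lo i < hi i) : (Sg i S (e i (lo i))).card =
    (if lo (i + 1) = lo i then 1 else 0) + if lo i = lo (i - 1) + 1 then 1 else 0 := by
  classical
  obtain ⟨k, rfl⟩ : ∃ k, i = k + 1 := ⟨i - 1, by omega⟩
  have l1 := C.lo_le (k + 1) (by omega)
  have l2 := C.lo_le k (by omega)
  have l3 := C.hi_le (k + 1) (by omega)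
  have l4 := C.hi_ge k (by omega)
  have l5 := C.lohi (k + 1 + 1) (by omega)
  have l6 := C.lohi k (by omega)
  have l7 := C.lo_ge k (by omega)
  have l8 := C.lohi (k + 1) (by omega)
  simp only [Nat.add_sub_cancel]
  have hs : Sg (k + 1) S (e (k + 1) (lo (k + 1))) =
      (if lo (k + 1 + 1) = lo (k + 1) then {e (k + 1 + 1) (lo (k + 1))} else ∅) ∪
        (if lo (k + 1) = lo k + 1 then {e k (lo k)} else ∅) := by
    ext z
    rw [mem_Sg, mem_union]
    constructor
    · rintro ⟨hz, ⟨hl, hu⟩ | ⟨hl, hu⟩⟩
      · left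
        obtain ⟨n, n1, n2, rfl⟩ := C.surj (k + 1 + 1) (by omega) z (by omega)
          ((hS z (by omega)).1 hz)
        have h1 := (C.uc_single h ht (k := k + 1) (by omega) n1 n2 le_rfl l8).1 hu
        have hn : n = lo (k + 1) := by omega
        rw [if_pos (by omega), mem_singleton, hn]
      · right
        obtain ⟨n, n1, n2, rfl⟩ := C.surj k (by omega) z (by omega) ((hS z (by omega)).1 hz)
        have h1 := (C.dc_single h ht (k := k) (by omega) le_rfl l8 n1 n2).1 hu
        have hn : n = lo k := by omega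
        rw [if_pos (by omega), mem_singleton, hn]
    · rintro (hz | hz)
      · split_ifs at hz with hc
        · rw [mem_singleton] at hz
          subst hz
          have h5 : lo (k + 1) ≤ hi (k + 1 + 1) := by
            rw [← hc]
            exact l5
          have hl := C.lev_x (k + 1 + 1) (by omega) (lo (k + 1)) hc.le h5
          refine ⟨(hS _ (by omega)).2 (C.le_t (k + 1 + 1) (by omega) _ hc.le h5),
            Or.inl ⟨hl, ?_⟩⟩
          exact (C.uc_single h ht (k := k + 1) (by omega) hc.le h5 le_rfl l8).2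
            (Or.inl ⟨rfl, rfl⟩)
        · exact absurd hz (notMem_empty z)
      · split_ifs at hz with hc
        · rw [mem_singleton] at hz
          subst hz
          have hl := C.lev_x k (by omega) (lo k) le_rfl l6
          refine ⟨(hS _ (by omega)).2 (C.le_t k (by omega) _ le_rfl l6),
            Or.inr ⟨by omega, ?_⟩⟩
          exact (C.dc_single h ht (k := k) (by omega) le_rfl l8 le_rfl l6).2
            (Or.inr ⟨hc, rfl⟩)
        · exact absurd hz (notMem_empty z)
  have hd : Disjoint (if lo (k + 1 + 1) = lo (k + 1) then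
      ({e (k + 1 + 1) (lo (k + 1))} : Finset P) else ∅)
        (if lo (k + 1) = lo k + 1 then {e k (lo k)} else ∅) := by
    split_ifs with h1 h2
    · rw [disjoint_singleton]
      intro he
      have h5 : lo (k + 1) ≤ hi (k + 1 + 1) := by
        rw [← h1]
        exact l5
      have g1 := C.lev_x (k + 1 + 1) (by omega) (lo (k + 1)) h1.le h5
      have g2 := C.lev_x k (by omega) (lo k) le_rfl l6
      rw [he] at g1
      omega
    · exact disjoint_empty_right _
    · exact disjoint_empty_left _
    · exact disjoint_empty_left _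
  rw [hs, card_union_of_disjoint hd]
  congr 1
  · split_ifs <;> simp
  · split_ifs <;> simp

/-- near elements over the right end -/
lemma sg_right (hi1 : 1 ≤ i) (hV : lo i < hi i) : (Sg i S (e i (hi i))).card =
    (if hi (i + 1) = hi i + 1 then 1 else 0) + if hi (i - 1) = hi i then 1 else 0 := by
  classical
  obtain ⟨k, rfl⟩ : ∃ k, i = k + 1 := ⟨i - 1, by omega⟩
  have l1 := C.hi_le (k + 1) (by omega)
  have l2 := C.hi_le k (by omega)
  have l3 := C.hi_ge (k + 1) (by omega)
  have l4 := C.lo_ge (k + 1) (by omega)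
  have l5 := C.lohi (k + 1 + 1) (by omega)
  have l6 := C.lohi k (by omega)
  have l7 := C.lo_le k (by omega)
  have l8 := C.lohi (k + 1) (by omega)
  simp only [Nat.add_sub_cancel]
  have hs : Sg (k + 1) S (e (k + 1) (hi (k + 1))) =
      (if hi (k + 1 + 1) = hi (k + 1) + 1 then {e (k + 1 + 1) (hi (k + 1 + 1))} else ∅) ∪
        (if hi k = hi (k + 1) then {e k (hi k)} else ∅) := by
    ext z
    rw [mem_Sg, mem_union]
    constructor
    · rintro ⟨hz, ⟨hl, hu⟩ | ⟨hl, hu⟩⟩
      · left
        obtain ⟨n, n1, n2, rfl⟩ := C.surj (k + 1 + 1) (by omega) z (by omega)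
          ((hS z (by omega)).1 hz)
        have h1 := (C.uc_single h ht (k := k + 1) (by omega) n1 n2 l8 le_rfl).1 hu
        have hn : n = hi (k + 1 + 1) := by omega
        rw [if_pos (by omega), mem_singleton, hn]
      · right
        obtain ⟨n, n1, n2, rfl⟩ := C.surj k (by omega) z (by omega) ((hS z (by omega)).1 hz)
        have h1 := (C.dc_single h ht (k := k) (by omega) l8 le_rfl n1 n2).1 hu
        have hn : n = hi k := by omega
        rw [if_pos (by omega), mem_singleton, hn]
    · rintro (hz | hz)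
      · split_ifs at hz with hc
        · rw [mem_singleton] at hz
          subst hz
          have hl := C.lev_x (k + 1 + 1) (by omega) (hi (k + 1 + 1)) l5 le_rfl
          refine ⟨(hS _ (by omega)).2 (C.le_t (k + 1 + 1) (by omega) _ l5 le_rfl),
            Or.inl ⟨hl, ?_⟩⟩
          exact (C.uc_single h ht (k := k + 1) (by omega) l5 le_rfl l8 le_rfl).2
            (Or.inr ⟨hc.symm, rfl⟩)
        · exact absurd hz (notMem_empty z)
      · split_ifs at hz with hc
        · rw [mem_singleton] at hz
          subst hz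
          have hl := C.lev_x k (by omega) (hi k) l6 le_rfl
          refine ⟨(hS _ (by omega)).2 (C.le_t k (by omega) _ l6 le_rfl),
            Or.inr ⟨by omega, ?_⟩⟩
          exact (C.dc_single h ht (k := k) (by omega) l8 le_rfl l6 le_rfl).2
            (Or.inl ⟨hc.symm, hc⟩)
        · exact absurd hz (notMem_empty z)
  have hd : Disjoint (if hi (k + 1 + 1) = hi (k + 1) + 1 then
      ({e (k + 1 + 1) (hi (k + 1 + 1))} : Finset P) else ∅)
        (if hi k = hi (k + 1) then {e k (hi k)} else ∅) := by
    split_ifs with h1 h2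
    · rw [disjoint_singleton]
      intro he
      have g1 := C.lev_x (k + 1 + 1) (by omega) (hi (k + 1 + 1)) l5 le_rfl
      have g2 := C.lev_x k (by omega) (hi k) l6 le_rfl
      rw [he] at g1
      omega
    · exact disjoint_empty_right _
    · exact disjoint_empty_left _
    · exact disjoint_empty_left _
  rw [hs, card_union_of_disjoint hd]
  congr 1
  · split_ifs <;> simp
  · split_ifs <;> simp

/-- the place of a flip in the row -/
theorem flip_pos (F : Flp i S p y q u a s b) {k : ℕ} (hk : i = k + 2) (hP : Part (i + 1) S) :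
    hi i = lo i + 2 ∧
    ((lo (k + 1) = lo i ∧ lo (k + 1) = lo k + 1 ∧ b = e i (lo i) ∧ a = e i (hi i) ∧
        q = e k (lo k)) ∨
      (hi i = hi (k + 1) + 1 ∧ hi (k + 1) = hi k ∧ b = e i (hi i) ∧ a = e i (lo i) ∧
        q = e k (hi k))) := by
  classical
  subst hk
  have H := h.H
  have l1 : hi (k + 1) ≤ hi (k + 2) := C.hi_le (k + 1) (by omega)
  have l2 := C.hi_le k (by omega)
  have l3 : hi (k + 2) ≤ hi (k + 1) + 1 := C.hi_ge (k + 1) (by omega)
  have l4 := C.hi_ge k (by omega)
  have m1 : lo (k + 1) ≤ lo (k + 2) := C.lo_le (k + 1) (by omega)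
  have m2 := C.lo_le k (by omega)
  have m3 : lo (k + 2) ≤ lo (k + 1) + 1 := C.lo_ge (k + 1) (by omega)
  have m4 := C.lo_ge k (by omega)
  have l6 := C.lohi (k + 2) (by omega)
  have le : ∀ {x : P}, x ∈ S → lev x ≤ k + 2 + 1 → x ≤ t := fun {x} hx hl =>
    (hS x hl).1 hx
  have site : ∀ x, x ∈ S → lev x = k + 2 → ∃ n, lo (k + 2) ≤ n ∧ n ≤ hi (k + 2) ∧
      e (k + 2) n = x := fun x hx hl => C.surj (k + 2) (by omega) x hl (le hx (by omega))
  have yC : y ∈ S := F.yC hP
  have uC : u ∈ S := F.uC hP
  have aC : a ∈ S := hP.up yC F.ya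
  have bC : b ∈ S := hP.dn uC (by have := F.lu; omega) F.bu
  obtain ⟨na, a1, a2, a3⟩ := site a aC F.la
  obtain ⟨ns, s1, s2, s3⟩ := site s F.sC F.ls
  obtain ⟨nb, b1, b2, b3⟩ := site b bC F.lb
  have n1 : na ≠ ns := fun he => F.as (by rw [← a3, ← s3, he])
  have n2 : ns ≠ nb := fun he => F.sb (by rw [← b3, ← s3, he])
  have n3 : na ≠ nb := fun he => F.ab (by rw [← a3, ← b3, he])
  -- three sites
  have hall : ∀ n, lo (k + 2) ≤ n → n ≤ hi (k + 2) → n = na ∨ n = ns ∨ n = nb := by
    intro n h1 h2
    have hl := C.lev_x (k + 2) (by omega) n h1 h2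
    have hm : e (k + 2) n ∈ st (k + 2) S := mem_st.2
      ⟨(hS _ (by omega)).2 (C.le_t (k + 2) (by omega) n h1 h2), hl⟩
    rw [F.st, mem_insert, mem_insert, mem_singleton] at hm
    rcases hm with hm | hm | hm
    · exact Or.inl (C.inj' (by omega) h1 h2 a1 a2 (by rw [hm, a3]))
    · exact Or.inr (Or.inl (C.inj' (by omega) h1 h2 s1 s2 (by rw [hm, s3])))
    · exact Or.inr (Or.inr (C.inj' (by omega) h1 h2 b1 b2 (by rw [hm, b3])))
  have hV : hi (k + 2) = lo (k + 2) + 2 := by
    have h1 := hall (lo (k + 2)) le_rfl l6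
    have h2 := hall (hi (k + 2)) l6 le_rfl
    by_contra hcon
    rcases Nat.lt_or_gt_of_ne hcon with h3 | h3
    · omega
    · have h4 := hall (lo (k + 2) + 1) (by omega) (by omega)
      have h5 := hall (lo (k + 2) + 2) (by omega) (by omega)
      omega
  -- y
  have hly := F.ly
  obtain ⟨ny, y1, y2, y3⟩ := C.surj (k + 2 + 1) (by omega) y (by omega) (le yC (by omega))
  have ca := (C.cov (k + 2) (by omega) ny na y1 y2 a1 a2).1 (by rw [y3, a3]; exact F.ya)
  have cs := (C.cov (k + 2) (by omega) ny ns y1 y2 s1 s2).1 (by rw [y3, s3]; exact F.ys)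
  -- q, u
  have hlu := F.lu
  have hlq := F.lq
  obtain ⟨nu, u1, u2, u3⟩ := C.surj (k + 1) (by omega) u (by omega) (le uC (by omega))
  obtain ⟨nq, q1, q2, q3⟩ := C.surj k (by omega) q (by omega) (le F.mq (by omega))
  have cs' := (C.cov (k + 1) (by omega) ns nu s1 s2 u1 u2).1 (by
    rw [u3]
    have : e (k + 1 + 1) ns = s := s3
    rw [this]
    exact F.su)
  have cb' := (C.cov (k + 1) (by omega) nb nu b1 b2 u1 u2).1 (by
    rw [u3]
    have : e (k + 1 + 1) nb = b := b3
    rw [this]
    exact F.bu)
  have cq := (C.dc_single h ht (k := k) (by omega) u1 u2 q1 q2).1 (by rw [q3, u3]; exact F.cq)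
  refine ⟨hV, ?_⟩
  rcases cq with cq | cq
  · right
    have e1 : nb = hi (k + 2) := by omega
    have e2 : na = lo (k + 2) := by omega
    refine ⟨by omega, by omega, ?_, ?_, ?_⟩
    · rw [← b3, e1]
    · rw [← a3, e2]
    · rw [← q3]
      congr 1
      omega
  · left
    have e1 : nb = lo (k + 2) := by omega
    have e2 : na = hi (k + 2) := by omega
    refine ⟨by omega, by omega, ?_, ?_, ?_⟩
    · rw [← b3, e1]
    · rw [← a3, e2]
    · rw [← q3]
      congr 1
      omega

/-- elements above the upper pendant only: right end -/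
lemma fup_right {k : ℕ} (hk : i = k + 2) (hV : lo k < hi k) (hq : q = e k (hi k)) (hP : Part (i + 1) S) :
    (FUp S q).card = if 1 ≤ k ∧ hi (k - 1) = hi k then 1 else 0 := by
  classical
  subst hk
  have H := h.H
  have l6 := C.lohi k (by omega)
  have hl := C.lev_x k (by omega) (hi k) l6 le_rfl
  have lU : ∀ z ∈ FUp S q, lev z + 1 = k := by
    intro z hz
    have := lev_dc H (x := z) (v := q) (by rw [(mem_FUp.1 hz).2]; exact mem_singleton_self _)
    rw [hq, hl] at this
    omega
  rcases Nat.eq_zero_or_pos k with h0 | h0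
  · rw [if_neg (by omega)]
    rw [card_eq_zero, eq_empty_iff_forall_notMem]
    intro z hz
    have := lU z hz
    omega
  · obtain ⟨m, rfl⟩ : ∃ m, k = m + 1 := ⟨k - 1, by omega⟩
    simp only [Nat.add_sub_cancel]
    have l1 := C.hi_le m (by omega)
    have l7 := C.lohi m (by omega)
    have hs : FUp S q = if hi m = hi (m + 1) then {e m (hi m)} else ∅ := by
      ext z
      constructor
      · intro hz
        have hlz := lU z hz
        obtain ⟨hz1, hz2⟩ := mem_FUp.1 hz
        obtain ⟨n, g1, g2, rfl⟩ := C.surj m (by omega) z (by omega) ((hS z (by omega)).1 hz1)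
        rw [hq] at hz2
        have h1 := (C.dc_single h ht (k := m) (by omega) l6 le_rfl g1 g2).1 hz2
        have hn : n = hi m := by omega
        rw [if_pos (by omega), mem_singleton, hn]
      · intro hz
        split_ifs at hz with hc
        · rw [mem_singleton] at hz
          rw [hz, mem_FUp]
          have hlz := C.lev_x m (by omega) (hi m) l7 le_rfl
          refine ⟨(hS _ (by omega)).2 (C.le_t m (by omega) _ l7 le_rfl), ?_⟩
          rw [hq]
          exact (C.dc_single h ht (k := m) (by omega) l6 le_rfl l7 le_rfl).2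
            (Or.inl ⟨hc.symm, hc⟩)
        · exact absurd hz (notMem_empty z)
    rw [hs]
    by_cases hc : hi m = hi (m + 1)
    · rw [if_pos hc, if_pos ⟨by omega, hc⟩, card_singleton]
    · rw [if_neg hc, if_neg (fun hh => hc hh.2), card_empty]

/-- elements above the upper pendant only: left end -/
lemma fup_left {k : ℕ} (hk : i = k + 2) (hV : lo k < hi k) (hq : q = e k (lo k)) (hP : Part (i + 1) S) :
    (FUp S q).card = if 1 ≤ k ∧ lo k = lo (k - 1) + 1 then 1 else 0 := by
  classical
  subst hk
  have H := h.H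
  have l6 := C.lohi k (by omega)
  have hl := C.lev_x k (by omega) (lo k) le_rfl l6
  have lU : ∀ z ∈ FUp S q, lev z + 1 = k := by
    intro z hz
    have := lev_dc H (x := z) (v := q) (by rw [(mem_FUp.1 hz).2]; exact mem_singleton_self _)
    rw [hq, hl] at this
    omega
  rcases Nat.eq_zero_or_pos k with h0 | h0
  · rw [if_neg (by omega)]
    rw [card_eq_zero, eq_empty_iff_forall_notMem]
    intro z hz
    have := lU z hz
    omega
  · obtain ⟨m, rfl⟩ : ∃ m, k = m + 1 := ⟨k - 1, by omega⟩
    simp only [Nat.add_sub_cancel]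
    have l1 := C.lo_ge m (by omega)
    have l7 := C.lohi m (by omega)
    have l8 := C.lo_le m (by omega)
    have hs : FUp S q = if lo (m + 1) = lo m + 1 then {e m (lo m)} else ∅ := by
      ext z
      constructor
      · intro hz
        have hlz := lU z hz
        obtain ⟨hz1, hz2⟩ := mem_FUp.1 hz
        obtain ⟨n, g1, g2, rfl⟩ := C.surj m (by omega) z (by omega) ((hS z (by omega)).1 hz1)
        rw [hq] at hz2
        have h1 := (C.dc_single h ht (k := m) (by omega) le_rfl l6 g1 g2).1 hz2
        have hn : n = lo m := by omega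
        rw [if_pos (by omega), mem_singleton, hn]
      · intro hz
        split_ifs at hz with hc
        · rw [mem_singleton] at hz
          rw [hz, mem_FUp]
          have hlz := C.lev_x m (by omega) (lo m) le_rfl l7
          refine ⟨(hS _ (by omega)).2 (C.le_t m (by omega) _ le_rfl l7), ?_⟩
          rw [hq]
          exact (C.dc_single h ht (k := m) (by omega) le_rfl l6 le_rfl l7).2
            (Or.inr ⟨hc, rfl⟩)
        · exact absurd hz (notMem_empty z)
    rw [hs]
    by_cases hc : lo (m + 1) = lo m + 1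
    · rw [if_pos hc, if_pos ⟨by omega, hc⟩, card_singleton]
    · rw [if_neg hc, if_neg (fun hh => hc hh.2), card_empty]

end row

end Pool.Agent.GaussPoset.Win.Pf
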