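import Pool.Agent.W_448pn_h63.QbA
import Pool.Agent.W_448cp_h96.CE

/-!
# Flip parts in row coordinates: the values as numbers
(MP_448cb3_co, G2, window `j - 1`)
-/

set_option autoImplicit false

namespace Pool.Agent.GaussPoset.Win.Pf

set_option linter.unusedSectionVars false

open Finset W4 Wd
open Pool.Agent.GaussPoset.Win.SO (con PN on mem_PN vp F5 mem_F5 PSO N1f)

universe u

variable {P : Type u} [Fintype P] [PartialOrder P] [DecidableEq P] {r j i : ℕ}
  {psi : P → P} {S : Finset P} {p y q u a s b : P} {lo hi : ℕ → ℕ} {e : ℕ → ℕ → P}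

section nj

variable (h : NJ P r j) (hij : i + 1 = j) (hi1 : 1 ≤ i)
include h hij hi1

/-- THE NUMBERS OF A FLIP PART in row coordinates -/
theorem nj_flip_row (t : Tops P) (C : Cp.Comp (i + 1) (t : P) lo hi e)
    (F : Flp i (SS i t) p y q u a s b) : 2 ≤ i ∧ hi i = lo i + 2 ∧ (ZU i (SS i t)).card = 1 ∧
    ((lo (i - 1) = lo i ∧ lo (i - 1) = lo (i - 2) + 1 ∧
        (Sg i (SS i t) b).card = (if lo (i + 1) = lo i then 1 else 0) ∧
        (Sg i (SS i t) a).card =
          (if hi (i + 1) = hi i + 1 then 1 else 0) + (if hi (i - 1) = hi i then 1 else 0) ∧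
        (FU' i (SS i t)).card = if 3 ≤ i ∧ lo (i - 2) = lo (i - 3) + 1 then 1 else 0) ∨
      (hi i = hi (i - 1) + 1 ∧ hi (i - 1) = hi (i - 2) ∧
        (Sg i (SS i t) b).card = (if hi (i + 1) = hi i + 1 then 1 else 0) ∧
        (Sg i (SS i t) a).card =
          (if lo (i + 1) = lo i then 1 else 0) + (if lo i = lo (i - 1) + 1 then 1 else 0) ∧
        (FU' i (SS i t)).card = if 3 ≤ i ∧ hi (i - 3) = hi (i - 2) then 1 else 0)) := by
  classical
  obtain ⟨psi, hM⟩ := good_mat h.g.H (h.g.good i (by omega))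
  have Q := nj_pso h hij hi1 hM t
  have g : GoodTo P r (i + 1) := by rw [hij]; exact h.g
  have W := C.toWin
  have hS : ∀ y, lev y ≤ i + 1 → (y ∈ SS i t ↔ y ≤ (t : P)) := fun y hy =>
    h.mem (by omega) t (by omega)
  obtain ⟨k, hk⟩ : ∃ k, i = k + 2 := ⟨i - 2, by have := F.lq; omega⟩
  obtain ⟨hV, hpos⟩ := flip_pos W g t.2 hS F hk Q.hC
  have hZ := W.card_ZU g t.2 (i := i) hi1 (by omega) (S := SS i t) fun y hy => hS y (by omega)
  have hL := sg_left W g t.2 hS hi1 (by omega)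
  have hR := sg_right W g t.2 hS hi1 (by omega)
  have l1 : hi (k + 1) ≤ hi (k + 2) := W.hi_le (k + 1) (by omega)
  have l2 := W.hi_le k (by omega)
  have l3 : hi (k + 2) ≤ hi (k + 1) + 1 := W.hi_ge (k + 1) (by omega)
  have l4 := W.hi_ge k (by omega)
  have m1 : lo (k + 1) ≤ lo (k + 2) := W.lo_le (k + 1) (by omega)
  have m2 := W.lo_le k (by omega)
  have m3 : lo (k + 2) ≤ lo (k + 1) + 1 := W.lo_ge (k + 1) (by omega)
  have m4 := W.lo_ge k (by omega)
  have i1 : i - 1 = k + 1 := by omega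
  have i2 : i - 2 = k := by omega
  have i3 : i - 3 = k - 1 := by omega
  have hi' : lo (k + 2) = lo i ∧ hi (k + 2) = hi i := by rw [hk]; exact ⟨rfl, rfl⟩
  refine ⟨by omega, hV, by omega, ?_⟩
  rw [i1] at hL hR ⊢
  rw [i2, i3]
  rcases hpos with ⟨g1, g2, g3, g4, g5⟩ | ⟨g1, g2, g3, g4, g5⟩
  · left
    have hU := fup_left W g t.2 hS hk (by omega) g5 Q.hC
    refine ⟨g1, g2, ?_, ?_, ?_⟩
    · rw [g3, hL, if_neg (show ¬ lo i = lo (k + 1) + 1 by omega), add_zero]
    · rw [g4, hR]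
    · rw [FU_eq Q F, hU]
      refine if_congr ?_ rfl rfl
      constructor
      · rintro ⟨c1, c2⟩
        exact ⟨by omega, c2⟩
      · rintro ⟨c1, c2⟩
        exact ⟨by omega, c2⟩
  · right
    have hU := fup_right W g t.2 hS hk (by omega) g5 Q.hC
    refine ⟨g1, g2, ?_, ?_, ?_⟩
    · rw [g3, hR, if_neg (show ¬ hi (k + 1) = hi i by omega), add_zero]
    · rw [g4, hL]
    · rw [FU_eq Q F, hU]
      refine if_congr ?_ rfl rfl
      constructor
      · rintro ⟨c1, c2⟩
        exact ⟨by omega, c2⟩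
      · rintro ⟨c1, c2⟩
        exact ⟨by omega, c2⟩

end nj

end Pool.Agent.GaussPoset.Win.Pf
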