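import Pool.Agent.W_448pn_h63.QcA
import Pool.Agent.W_448fin_h16.FnC

/-!
# Flip parts: the words
(MP_448cb3_co, G2, window `j - 1`)

The shapes with a flip at the window `j - 1`: the late words `[OC OO CO]`, `[OC OO OO]` (`j = a + 3`),
`[OC CO CO OO CC]` (`a = 4`, `j = 9`), the word `[OC CO CO OO CO]` (excluded by the degrees in the row of
level `j`) and the open stair with `j = 5` (excluded by `F5.NJ_no_flip5`).
-/

set_option autoImplicit false

namespace Pool.Agent.GaussPoset.Win.Pf

set_option linter.unusedSectionVars false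

open Finset W4 Wd

/-- number of closed letters on the left among the first `n` letters -/
def lsum (w : List Ltr) (n : ℕ) : ℕ := ((w.take n).filter (fun l => l.1)).length

/-- one plus the number of open letters on the right among the first `n` letters -/
def rsum (w : List Ltr) (n : ℕ) : ℕ := 1 + ((w.take n).filter (fun l => l.2)).length

/-- the condition on the word -/
def FlW (w : List Ltr) : Prop :=
  3 ≤ w.length ∧ rsum w (w.length - 1) = lsum w (w.length - 1) + 2 ∧
    lsum w (w.length - 2) = lsum w (w.length - 1) ∧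
    rsum w (w.length - 2) = lsum w (w.length - 1) + 1 ∧
    (lsum w (w.length - 2) = lsum w (w.length - 3) + 1 ∨
      rsum w (w.length - 2) = rsum w (w.length - 3))

instance (w : List Ltr) : Decidable (FlW w) := by unfold FlW; infer_instance

lemma lateW_FlW (a : ℕ) : ∀ w ∈ lateW a, FlW w → (w = [OC, OO, CO] ∨ w = [OC, OO, OO] ∨
    w = [OC, CO, CO, OO, CO] ∨ w = [OC, CO, CO, OO, Wd.CC]) := by
  unfold lateW
  split_ifs <;> first | omega | decide

universe u

variable {P : Type u} [Fintype P] [PartialOrder P] [DecidableEq P] {r j i : ℕ}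
  {lo hi : ℕ → ℕ} {e : ℕ → ℕ → P}

/-- the ends of the rows from the word -/
lemma rows_sum {a d : ℕ} {w : List Ltr} (h : word lo hi a d = w) (h3 : lo a = 0 ∧ hi a = 1)
    (hlo : ∀ k, k < a + d → lo (k + 1) = lo k ∨ lo (k + 1) = lo k + 1)
    (hhi : ∀ k, k < a + d → hi (k + 1) = hi k ∨ hi (k + 1) = hi k + 1) {n : ℕ} (hn : n ≤ d) :
    lo (a + n) = lsum w n ∧ hi (a + n) = rsum w n := by
  obtain ⟨h1, h2⟩ := Win.word_vals h hlo hhi
  induction n with
  | zero =>
    unfold lsum rsum
    simp [h3.1, h3.2]
  | succ n ih =>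
    obtain ⟨k1, k2⟩ := ih (by omega)
    have hlt : n < w.length := by omega
    obtain ⟨b, c, hbc⟩ : ∃ b c, w[n]? = some (b, c) := by
      rw [List.getElem?_eq_getElem hlt]
      exact ⟨_, _, rfl⟩
    obtain ⟨g1, g2⟩ := h2 n b c hbc
    have e1 : w.take (n + 1) = w.take n ++ [(b, c)] := by
      rw [List.take_succ, hbc]
      rfl
    rw [← add_assoc, g1, g2, k1, k2]
    unfold lsum rsum
    rw [e1, List.filter_append, List.filter_append, List.length_append, List.length_append]
    cases b <;> cases c <;> simp <;> omega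

lemma Qw_get {d n : ℕ} (hn : n < d) : ∃ b, (Qw d)[n]? = some (b, false) := by
  unfold Qw
  rcases n with _ | n
  · exact ⟨true, rfl⟩
  · refine ⟨false, ?_⟩
    rw [List.getElem?_cons_succ, List.getElem?_replicate, if_pos (by omega)]
    rfl

variable {psi : P → P} {p y q u a s b : P}

section nj

variable (h : NJ P r j) (hij : i + 1 = j) (hi1 : 1 ≤ i)
include h hij hi1

/-- THE WORDS WITH A FLIP, the numbers and the place of the pendant -/
theorem nj_flip_word (t : Tops P) (C : Cp.Comp (i + 1) (t : P) lo hi e) (S : Shape (i + 1) lo hi)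
    (F : Flp i (SS i t) p y q u a s b) :
    hi i = lo i + 2 ∧ (ZU i (SS i t)).card = 1 ∧
    ((y = e (i + 1) (lo i + 1) ∧ lo (i + 1) = lo i + 1 ∧ hi (i + 1) = lo i + 3 ∧
        (FU' i (SS i t)).card = 0 ∧ (Sg i (SS i t) a).card = 0 ∧ (Sg i (SS i t) b).card = 1) ∨
      (y = e (i + 1) (lo i + 1) ∧ lo (i + 1) = lo i ∧ hi (i + 1) = lo i + 3 ∧
        (FU' i (SS i t)).card = 0 ∧ (Sg i (SS i t) a).card = 1 ∧ (Sg i (SS i t) b).card = 1) ∨
      (y = e (i + 1) (lo i + 2) ∧ lo (i + 1) = lo i + 1 ∧ hi (i + 1) = lo i + 2 ∧ i = 8 ∧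
        (FU' i (SS i t)).card = 1 ∧ (Sg i (SS i t) a).card = 0 ∧ (Sg i (SS i t) b).card = 0) ∨
      (y = e (i + 1) (lo i + 2) ∧ lo (i + 1) = lo i + 1 ∧ hi (i + 1) = lo i + 3) ∨
      (StairShape (i + 1) lo hi ∧ i = 4 ∧ lo i = 0 ∧ y = e (i + 1) (lo i + 1))) := by
  classical
  obtain ⟨r1, r2, r3, r4, r5, r6⟩ := nj_flip_narrow h hij hi1 t C F
  refine ⟨r2, r5, ?_⟩
  have hle : ∀ k, k ≤ i + 1 → hi k ≤ k := by
    intro k
    induction k with
    | zero => intro _; rw [C.hi_zero]
    | succ k ih =>
      intro hk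
      have h1 := C.hi_step k (by omega)
      have h2 := ih (by omega)
      omega
  obtain ⟨m, rfl⟩ : ∃ m, i = m + 2 := ⟨i - 2, by omega⟩
  simp only [show m + 2 - 1 = m + 1 by omega, show m + 2 - 2 = m by omega,
    show m + 2 - 3 = m - 1 by omega] at r3 r4 r6
  rcases S with h1 | ⟨h1, h2⟩ | ⟨h0, h2⟩ | ⟨h0, h1, h2⟩ | ⟨h0, h1⟩ | ⟨a', h0, h1, h2, h3, hN, h4⟩
  · -- light
    have := h1 (m + 2) (by omega)
    omega
  · -- rect
    exfalso
    have g1 := h2.lo (m + 1) (by omega)
    have g2 := h2.hi (m + 1) (by omega)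
    have g3 := hle (m + 1) (by omega)
    have g4 := hle m (by omega)
    have g5 := h2.lo m (by omega)
    rw [show m + 1 + 1 = m + 2 from rfl] at g1 g2
    rcases r6 with ⟨-, k1, -⟩ | ⟨-, k1, -⟩
    · omega
    · omega
  · -- stair
    have g1 := h2.lo (m + 1) (by omega)
    have g2 := h2.hi (m + 2) (by omega)
    have g3 := h2.hi (m + 1) (by omega)
    have g4 := h2.hi m (by omega)
    have g5 := h2.lo m (by omega)
    rw [show m + 1 + 1 = m + 2 from rfl] at g1
    rcases r6 with ⟨-, k1, -⟩ | ⟨k0, k1, -⟩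
    · exfalso
      omega
    · exact Or.inr (Or.inr (Or.inr (Or.inr ⟨h2, by omega, by omega, k0⟩)))
  · exfalso
    have : m = 0 := by omega
    subst this
    have e1 : hi (0 + 2) = 1 := h2.2.1
    omega
  · exfalso
    obtain ⟨⟨-, -, -, -, -, k1, -⟩, ⟨-, -, -, -, -, k2, -⟩⟩ := h1
    have : m = 3 := by omega
    subst this
    have e1 : lo (3 + 2) = 1 := k1
    have e2 : hi (3 + 2) = 2 := k2
    omega
  · -- late
    have ha : a' ≤ m + 1 := by
      by_contra hcon
      rcases Nat.lt_or_ge (m + 2) a' with h5 | h5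
      · have := h2 (m + 2) h5
        omega
      · have e1 : a' = m + 2 := by omega
        rw [e1] at h3
        omega
    obtain ⟨d, hd⟩ : ∃ d, m + 2 + 1 = a' + d := ⟨m + 2 + 1 - a', by omega⟩
    have hd2 : m + 2 + 1 - a' = d := by omega
    rw [hd2] at h4
    have hlo : ∀ k, k < a' + d → lo (k + 1) = lo k ∨ lo (k + 1) = lo k + 1 := fun k hk =>
      C.lo_step k (by omega)
    have hhi : ∀ k, k < a' + d → hi (k + 1) = hi k ∨ hi (k + 1) = hi k + 1 := fun k hk =>
      C.hi_step k (by omega)
    rcases h4 with ⟨⟨q1, q2⟩, h4⟩ | h4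
    · exfalso
      obtain ⟨-, hv⟩ := Win.word_vals h4 hlo hhi
      obtain ⟨b', hb'⟩ := Qw_get (d := d) (n := d - 2) (by omega)
      have := (hv _ _ _ hb').2
      have e1 : a' + (d - 2) + 1 = m + 2 := by omega
      have e2 : a' + (d - 2) = m + 1 := by omega
      rw [e1, e2] at this
      simp at this
      omega
    · set w := word lo hi a' d with hw
      have hwl : w.length = d := by rw [hw]; simp
      have hs := fun n (hn : n ≤ d) => rows_sum (w := w) hw.symm h3 hlo hhi hn
      have e1 := hs (d - 1) (by omega)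
      have e2 := hs (d - 2) (by omega)
      have x1 : a' + (d - 1) = m + 2 := by omega
      have x2 : a' + (d - 2) = m + 1 := by omega
      rw [x1] at e1
      rw [x2] at e2
      have hd3 : 3 ≤ d := by
        by_contra hcon
        have hd' : d = 2 := by omega
        have x3 : m + 1 = a' := by omega
        have x4 := h2 m (by omega)
        rw [x3] at r3 r4 r6
        rcases r6 with ⟨-, k1, -⟩ | ⟨-, k1, -⟩
        · omega
        · omega
      have e3 := hs (d - 3) (by omega)
      have x3 : a' + (d - 3) = m := by omega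
      rw [x3] at e3
      have hF : FlW w := by
        unfold FlW
        rw [hwl]
        refine ⟨hd3, by omega, by omega, by omega, ?_⟩
        rcases r6 with ⟨-, k1, -⟩ | ⟨-, k1, -⟩
        · exact Or.inl (by omega)
        · exact Or.inr (by omega)
      have e0 := hs d le_rfl
      rw [← hd] at e0
      have x5 : m + 2 + 1 = m + 3 := rfl
      rcases lateW_FlW a' w h4 hF with hc | hc | hc | hc
      · -- OC OO CO
        have hdv : d = 3 := by rw [← hwl, hc]; rfl
        subst hdv
        have y1 := h2 (m - 1) (by omega)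
        rw [hc] at e0 e1 e2 e3
        simp [lsum, rsum, OC, OO, CO] at e0 e1 e2 e3
        left
        rcases r6 with ⟨-, k1, -⟩ | ⟨k0, k1, k2, k3, k4⟩
        · exfalso
          omega
        · refine ⟨k0, by omega, by omega, ?_, ?_, ?_⟩
          · rw [k4, if_neg]
            rintro ⟨-, c2⟩
            omega
          · rw [k3, if_neg (by omega)]
          · rw [k2, if_pos (by omega)]
      · -- OC OO OO
        have hdv : d = 3 := by rw [← hwl, hc]; rfl
        subst hdv
        have y1 := h2 (m - 1) (by omega)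
        rw [hc] at e0 e1 e2 e3
        simp [lsum, rsum, OC, OO] at e0 e1 e2 e3
        right; left
        rcases r6 with ⟨-, k1, -⟩ | ⟨k0, k1, k2, k3, k4⟩
        · exfalso
          omega
        · refine ⟨k0, by omega, by omega, ?_, ?_, ?_⟩
          · rw [k4, if_neg]
            rintro ⟨-, c2⟩
            omega
          · rw [k3, if_pos (by omega)]
          · rw [k2, if_pos (by omega)]
      · -- OC CO CO OO CO
        have hdv : d = 5 := by rw [← hwl, hc]; rfl
        subst hdv
        rw [hc] at e0 e1 e2 e3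
        simp [lsum, rsum, OC, OO, CO] at e0 e1 e2 e3
        right; right; right; left
        rcases r6 with ⟨k0, k1, -⟩ | ⟨-, k1, -⟩
        · refine ⟨by rw [k0, r2], by omega, by omega⟩
        · exfalso
          omega
      · -- OC CO CO OO CC
        have hdv : d = 5 := by rw [← hwl, hc]; rfl
        subst hdv
        have ha4 : a' = 4 := by
          by_contra hne
          rw [hc] at h4
          revert h4
          unfold lateW
          rw [if_neg (show ¬ a' = 4 from hne)]
          split_ifs <;> decide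
        have e4 := hs 1 (by omega)
        have x6 : a' + 1 = m - 1 := by omega
        rw [x6] at e4
        rw [hc] at e0 e1 e2 e3 e4
        simp [lsum, rsum, OC, OO, CO, Wd.CC] at e0 e1 e2 e3 e4
        right; right; left
        rcases r6 with ⟨k0, k1, k2, k3, k4⟩ | ⟨-, k1, -⟩
        · refine ⟨by rw [k0, r2], by omega, by omega, by omega, ?_, ?_, ?_⟩
          · rw [k4, if_pos ⟨by omega, by omega⟩]
          · rw [k3, if_neg (by omega)]
          · rw [k2, if_neg (by omega)]
        · exfalso
          omega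

end nj

end Pool.Agent.GaussPoset.Win.Pf
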